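import Pool.Agent.SAG.Basic
import Pool.Agent.SAF.AOrb

/-!
# SAG, module AG: facts on groups
-/

namespace Pool.Agent.SAG

open MulAction
open Pool.Agent.SAF (InC orbs FinOrb oc Decomp SAn SA Ori Conv hull Zs LostF)

section

private theorem ag_not_IO_iff {G : Type} [Group G] {g : G} : ¬ IO g ↔ IsOfFinOrder g := by
  rw [isOfFinOrder_iff_pow_eq_one]
  unfold IO
  push Not
  exact Iff.rfl

private theorem ag_zpow_ne {G : Type} [Group G] {g : G} (h : IO g) {n : ℤ} (hn : n ≠ 0) :
    g ^ n ≠ 1 := by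
  intro e
  exact (ag_not_IO_iff.2 (isOfFinOrder_iff_zpow_eq_one.2 ⟨n, hn, e⟩)) h

theorem IO.pow {G : Type} [Group G] {g : G} (h : IO g) {k : ℕ} (hk : 0 < k) : IO (g ^ k) := by
  intro m hm e
  rw [← pow_mul] at e
  exact h _ (Nat.mul_pos hk hm) e

private theorem ag_zpow {G : Type} [Group G] {g : G} (h : IO g) {n : ℤ} (hn : n ≠ 0) :
    IO (g ^ n) := by
  intro m hm e
  rw [← zpow_natCast, ← zpow_mul] at e
  exact ag_zpow_ne h (mul_ne_zero hn (by exact_mod_cast hm.ne')) e

private theorem ag_map_iff {G G' : Type} [Group G] [Group G'] (f : G →* G')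
    (hf : Function.Injective f) {g : G} : IO (f g) ↔ IO g := by
  unfold IO
  refine forall_congr' fun n => forall_congr' fun _ => not_congr ?_
  rw [← map_pow]
  constructor
  · intro e; exact hf (by rw [e, map_one])
  · intro e; rw [e, map_one]

private theorem ag_coe_iff {G : Type} [Group G] {S : Subgroup G} {g : S} :
    IO (g : G) ↔ IO g := ag_map_iff S.subtype S.subtype_injective

theorem not_IO_finite {G : Type} [Group G] [Finite G] (g : G) : ¬ IO g :=
  ag_not_IO_iff.2 (isOfFinOrder_of_finite g)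

/-! ### The class `Zt` -/

theorem Zt.of_inj {G G' : Type} [Group G] [Group G'] (f : G →* G') (hf : Function.Injective f)
    (h : Zt G') : Zt G := by
  obtain ⟨φ, hφ⟩ := h
  refine ⟨φ.comp f, ?_⟩
  exact Finite.of_injective (fun x : (φ.comp f).ker => (⟨f x.1, x.2⟩ : φ.ker))
    (fun a b e => Subtype.ext (hf (congrArg Subtype.val e)))

theorem Zt.sub {G : Type} [Group G] (h : Zt G) (A : Subgroup G) : Zt ↥A :=
  h.of_inj A.subtype A.subtype_injective

private theorem ag_finite_or {G : Type} [Group G] (h : Zt G) : Finite G ∨ ∃ g : G, IO g := by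
  obtain ⟨φ, hφ⟩ := h
  by_cases h1 : ∀ g, φ g = 1
  · left
    exact Finite.of_injective (fun g : G => (⟨g, h1 g⟩ : φ.ker))
      (fun a b e => congrArg Subtype.val e)
  · right
    push Not at h1
    obtain ⟨g, hg⟩ := h1
    refine ⟨g, fun n hn e => hg ?_⟩
    have h2 : φ g ^ n = 1 := by rw [← map_pow, e, map_one]
    have h3 : (n : ℤ) * Multiplicative.toAdd (φ g) = 0 := by
      have := congrArg Multiplicative.toAdd h2
      rw [toAdd_pow, nsmul_eq_mul, toAdd_one] at this
      exact this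
    have h4 : Multiplicative.toAdd (φ g) = 0 := by
      rcases mul_eq_zero.1 h3 with h | h
      · exact absurd (by exact_mod_cast h) hn.ne'
      · exact h
    exact Multiplicative.toAdd.injective (by rw [h4, toAdd_one])

/-- the value of an element of infinite order is not zero -/
private theorem ag_map_ne {G : Type} [Group G] {φ : G →* Multiplicative ℤ} (hφ : Finite φ.ker)
    {g : G} (h : IO g) : Multiplicative.toAdd (φ g) ≠ 0 := by
  intro e
  have h1 : g ∈ φ.ker := by
    rw [MonoidHom.mem_ker]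
    exact Multiplicative.toAdd.injective (by rw [e, toAdd_one])
  have h2 : IO (⟨g, h1⟩ : φ.ker) := ag_coe_iff.1 h
  exact not_IO_finite _ h2

/-- the subgroup generated by an element of infinite order has finite index -/
private theorem ag_finiteIndex {G : Type} [Group G] (h : Zt G) {g : G} (hg : IO g) :
    (Subgroup.zpowers g).FiniteIndex := by
  obtain ⟨φ, hφ⟩ := h
  set y := Multiplicative.toAdd (φ g) with hy
  have hy0 : y ≠ 0 := ag_map_ne hφ hg
  classical
  have hex : ∀ r : ℤ, ∃ c : G, (∃ u : G, Multiplicative.toAdd (φ u) = r) →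
      Multiplicative.toAdd (φ c) = r := by
    intro r
    by_cases h1 : ∃ u : G, Multiplicative.toAdd (φ u) = r
    · obtain ⟨u, hu⟩ := h1
      exact ⟨u, fun _ => hu⟩
    · exact ⟨1, fun h => absurd h h1⟩
  choose c hc using hex
  have hfin : Finite (G ⧸ Subgroup.zpowers g) := by
    refine Finite.of_surjective (fun p : φ.ker × (Finset.Ico (0 : ℤ) |y|) =>
      (QuotientGroup.mk (p.1.1 * c p.2.1) : G ⧸ Subgroup.zpowers g)) ?_
    intro q
    obtain ⟨u, rfl⟩ := QuotientGroup.mk_surjective q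
    set x := Multiplicative.toAdd (φ u) with hx
    have h1 : Multiplicative.toAdd (φ (u * (g ^ (x / y))⁻¹)) = x % y := by
      rw [map_mul, map_inv, map_zpow, toAdd_mul, toAdd_inv, toAdd_zpow, ← hx, ← hy, smul_eq_mul]
      have := Int.emod_add_mul_ediv x y
      linarith [mul_comm y (x / y)]
    have h2 : Multiplicative.toAdd (φ (c (x % y))) = x % y := hc _ ⟨_, h1⟩
    have h3 : u * (g ^ (x / y))⁻¹ * (c (x % y))⁻¹ ∈ φ.ker := by
      rw [MonoidHom.mem_ker]
      apply Multiplicative.toAdd.injective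
      rw [map_mul, map_inv, toAdd_mul, toAdd_inv, h1, h2, toAdd_one]
      ring
    refine ⟨(⟨_, h3⟩, ⟨x % y, ?_⟩), ?_⟩
    · rw [Finset.mem_Ico]
      exact ⟨Int.emod_nonneg _ hy0, Int.emod_lt_abs _ hy0⟩
    · show (QuotientGroup.mk _ : G ⧸ Subgroup.zpowers g) = QuotientGroup.mk u
      rw [QuotientGroup.eq]
      refine ⟨x / y, ?_⟩
      show g ^ (x / y) = _
      group
  exact Subgroup.finiteIndex_of_finite_quotient

theorem Zt.inC {G : Type} [Group G] (h : Zt G) : InC G := by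
  rcases ag_finite_or h with h1 | ⟨g, hg⟩
  · exact Or.inl h1
  · exact Or.inr ⟨g, hg, ag_finiteIndex h hg⟩

/-! ### The class `InC` -/

private theorem ag_index_pow {G : Type} [Group G] {g : G} (h : (Subgroup.zpowers g).FiniteIndex)
    {n : ℤ} (hn : n ≠ 0) : (Subgroup.zpowers (g ^ n)).FiniteIndex := by
  have hfin : Finite (G ⧸ Subgroup.zpowers g) := inferInstance
  have hfin' : Finite (G ⧸ Subgroup.zpowers (g ^ n)) := by
    refine Finite.of_surjective (fun p : (G ⧸ Subgroup.zpowers g) × (Finset.Ico (0 : ℤ) |n|) =>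
      (QuotientGroup.mk (p.1.out * g ^ p.2.1) : G ⧸ Subgroup.zpowers (g ^ n))) ?_
    intro q
    obtain ⟨u, rfl⟩ := QuotientGroup.mk_surjective q
    have h1 : (QuotientGroup.mk ((QuotientGroup.mk u : G ⧸ Subgroup.zpowers g).out) :
        G ⧸ Subgroup.zpowers g) = QuotientGroup.mk u := Quotient.out_eq' _
    rw [QuotientGroup.eq] at h1
    obtain ⟨k, hk⟩ := h1
    replace hk : g ^ k = ((QuotientGroup.mk u : G ⧸ Subgroup.zpowers g).out)⁻¹ * u := hk
    refine ⟨(QuotientGroup.mk u, ⟨k % n, ?_⟩), ?_⟩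
    · rw [Finset.mem_Ico]
      exact ⟨Int.emod_nonneg _ hn, Int.emod_lt_abs _ hn⟩
    · show (QuotientGroup.mk _ : G ⧸ Subgroup.zpowers (g ^ n)) = QuotientGroup.mk u
      rw [QuotientGroup.eq]
      refine ⟨k / n, ?_⟩
      show (g ^ n) ^ (k / n) = _
      rw [mul_inv_rev, mul_assoc, ← hk, ← zpow_neg, ← zpow_add, ← zpow_mul]
      congr 1
      have h5 := Int.emod_add_mul_ediv k n
      change n * (k / n) = -(k % n) + k
      linarith
  exact Subgroup.finiteIndex_of_finite_quotient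

theorem InC.sub {G : Type} [Group G] (h : InC G) (A : Subgroup G) : InC ↥A := by
  rcases h with h | ⟨g, h1, h2⟩
  · exact Or.inl inferInstance
  by_cases hA : ∃ n : ℤ, n ≠ 0 ∧ g ^ n ∈ A
  · obtain ⟨n, hn, hm⟩ := hA
    right
    have h3 : (Subgroup.zpowers (g ^ n)).FiniteIndex := ag_index_pow h2 hn
    refine ⟨⟨g ^ n, hm⟩, ag_coe_iff.1 (ag_zpow h1 hn), ?_⟩
    have : (Subgroup.zpowers (g ^ n)).subgroupOf A = Subgroup.zpowers (⟨g ^ n, hm⟩ : A) := by
      ext x
      rw [Subgroup.mem_subgroupOf, Subgroup.mem_zpowers_iff, Subgroup.mem_zpowers_iff]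
      constructor
      · rintro ⟨k, hk⟩
        exact ⟨k, Subtype.ext (by simpa using hk)⟩
      · rintro ⟨k, hk⟩
        exact ⟨k, by rw [← hk]; simp⟩
    rw [← this]
    infer_instance
  · left
    have hfin : Finite (G ⧸ Subgroup.zpowers g) := inferInstance
    refine Finite.of_injective (fun a : A => (QuotientGroup.mk a.1 : G ⧸ Subgroup.zpowers g)) ?_
    intro a b e
    replace e := QuotientGroup.eq.1 e
    obtain ⟨k, hk⟩ := e
    replace hk : g ^ k = a.1⁻¹ * b.1 := hk
    by_cases hk0 : k = 0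
    · rw [hk0, zpow_zero] at hk
      exact Subtype.ext (inv_mul_eq_one.1 hk.symm)
    · exact absurd ⟨k, hk0, by rw [hk]; exact A.mul_mem (A.inv_mem a.2) b.2⟩ hA

theorem InC.mono {G : Type} [Group G] {A B : Subgroup G} (hAB : A ≤ B) (h : InC ↥B) :
    InC ↥A := by
  have h1 := InC.sub h (A.subgroupOf B)
  exact h1.iso (Subgroup.subgroupOfEquivOfLe hAB)

/-- a group with a subgroup of finite index in `InC` is in `InC` -/
theorem InC.of_index {G : Type} [Group G] (A : Subgroup G) (h : InC ↥A) (hi : A.index ≠ 0) :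
    InC G := by
  rcases h with h | ⟨g, h1, h2⟩
  · left
    have : A.FiniteIndex := ⟨hi⟩
    have hq : Finite (G ⧸ A) := inferInstance
    exact Finite.of_equiv _ (Subgroup.groupEquivQuotientProdSubgroup (s := A)).symm
  · right
    refine ⟨(g : G), ag_coe_iff.2 h1, ⟨?_⟩⟩
    have hle : Subgroup.zpowers (g : G) ≤ A := by
      rw [Subgroup.zpowers_le]; exact g.2
    rw [← Subgroup.relIndex_mul_index hle]
    refine mul_ne_zero ?_ hi
    have : (Subgroup.zpowers (g : G)).subgroupOf A = Subgroup.zpowers g := by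
      ext x
      rw [Subgroup.mem_subgroupOf, Subgroup.mem_zpowers_iff, Subgroup.mem_zpowers_iff]
      constructor
      · rintro ⟨k, hk⟩
        exact ⟨k, Subtype.ext (by simpa using hk)⟩
      · rintro ⟨k, hk⟩
        exact ⟨k, by rw [← hk]; simp⟩
    unfold Subgroup.relIndex
    rw [this]
    exact h2.index_ne_zero

theorem InC.finite_of_no_IO {G : Type} [Group G] (h : InC G) (hn : ∀ g : G, ¬ IO g) :
    Finite G := by
  rcases h with h | ⟨g, h1, -⟩
  · exact h
  · exact absurd h1 (hn g)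

/-- a `Zt` group is finite or has a central element of infinite order whose powers have finite
index -/
theorem Zt.central {G : Type} [Group G] (h : Zt G) (hinf : Infinite G) :
    ∃ t : G, IO t ∧ (∀ g : G, g * t = t * g) ∧ (Subgroup.zpowers t).FiniteIndex := by
  obtain ⟨g, hg⟩ : ∃ g : G, IO g := (ag_finite_or h).resolve_left (not_finite_iff_infinite.2 hinf)
  obtain ⟨φ, hφ⟩ := id h
  -- a power `s` of `g` commutes with the kernel
  obtain ⟨k, hk, hk1⟩ : ∃ k : ℕ, 0 < k ∧ ∀ n ∈ φ.ker, g ^ k * n = n * g ^ k := by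
    have hfin : Finite (MulAut φ.ker) :=
      Finite.of_injective (fun e : MulAut φ.ker => (e : φ.ker → φ.ker)) DFunLike.coe_injective
    obtain ⟨k, hk, e⟩ := (isOfFinOrder_iff_pow_eq_one.1
      (isOfFinOrder_of_finite (MulAut.conjNormal (H := φ.ker) g)))
    refine ⟨k, hk, fun n hn => ?_⟩
    rw [← map_pow] at e
    have h1 := congrArg (fun f : MulAut φ.ker => ((f ⟨n, hn⟩ : φ.ker) : G)) e
    simp only [MulAut.conjNormal_apply, MulAut.one_apply] at h1
    rw [mul_inv_eq_iff_eq_mul] at h1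
    exact h1
  obtain ⟨s, hs⟩ : ∃ s, s = g ^ k := ⟨_, rfl⟩
  rw [← hs] at hk1
  have hsIO : IO s := by rw [hs]; exact hg.pow hk
  have hcard : 0 < Nat.card φ.ker := Nat.card_pos
  have hIO := hsIO.pow hcard
  refine ⟨s ^ Nat.card φ.ker, hIO, fun u => ?_, ag_finiteIndex h hIO⟩
  have hn : s⁻¹ * (u * s * u⁻¹) ∈ φ.ker := by
    rw [MonoidHom.mem_ker, map_mul, map_inv, map_mul, map_mul, map_inv]
    have := mul_comm (φ u) (φ s)
    rw [this]
    group
  obtain ⟨n, hnn⟩ : ∃ n, n = s⁻¹ * (u * s * u⁻¹) := ⟨_, rfl⟩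
  rw [← hnn] at hn
  have e1 : u * s * u⁻¹ = s * n := by rw [hnn]; group
  have e2 : u * s ^ Nat.card φ.ker * u⁻¹ = (u * s * u⁻¹) ^ Nat.card φ.ker := by
    rw [conj_pow]
  have hcomm : Commute s n := hk1 n hn
  have hnp : n ^ Nat.card φ.ker = 1 := by
    have := pow_card_eq_one' (x := (⟨n, hn⟩ : φ.ker))
    exact congrArg Subtype.val this
  rw [e1, hcomm.mul_pow, hnp, mul_one, mul_inv_eq_iff_eq_mul] at e2
  exact e2

/-- two elements of infinite order of an `InC` group have a common power of infinite order -/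
theorem IO.common {G : Type} [Group G] {A : Subgroup G} (h : InC ↥A) {a b : G} (ha : a ∈ A)
    (hb : b ∈ A) (hia : IO a) (hib : IO b) :
    ∃ m n : ℤ, m ≠ 0 ∧ n ≠ 0 ∧ a ^ m = b ^ n ∧ IO (a ^ m) := by
  have hia' : IO (⟨a, ha⟩ : A) := ag_coe_iff.1 hia
  have hib' : IO (⟨b, hb⟩ : A) := ag_coe_iff.1 hib
  rcases h with h | ⟨g, h1, h2⟩
  · exact absurd hia' (not_IO_finite _)
  obtain ⟨k, hk, -, i, hi⟩ := Subgroup.exists_pow_mem_of_index_ne_zero h2.index_ne_zero ⟨a, ha⟩
  obtain ⟨l, hl, -, j, hj⟩ := Subgroup.exists_pow_mem_of_index_ne_zero h2.index_ne_zero ⟨b, hb⟩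
  replace hi : g ^ i = (⟨a, ha⟩ : A) ^ k := hi
  replace hj : g ^ j = (⟨b, hb⟩ : A) ^ l := hj
  have hi0 : i ≠ 0 := by
    rintro rfl
    rw [zpow_zero] at hi
    exact hia' k hk hi.symm
  have hj0 : j ≠ 0 := by
    rintro rfl
    rw [zpow_zero] at hj
    exact hib' l hl hj.symm
  have hk0 : (k : ℤ) ≠ 0 := by exact_mod_cast hk.ne'
  have hl0 : (l : ℤ) ≠ 0 := by exact_mod_cast hl.ne'
  refine ⟨k * j, l * i, mul_ne_zero hk0 hj0, mul_ne_zero hl0 hi0, ?_,
    ag_zpow hia (mul_ne_zero hk0 hj0)⟩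
  have e : (⟨a, ha⟩ : A) ^ ((k : ℤ) * j) = (⟨b, hb⟩ : A) ^ ((l : ℤ) * i) := by
    rw [zpow_mul, zpow_natCast, ← hi, zpow_mul, zpow_natCast, ← hj, ← zpow_mul, ← zpow_mul,
      mul_comm]
  have := congrArg Subtype.val e
  simpa using this

theorem Gd.sub {M : ℕ} {H : Type} [Group H] (h : Gd M H) (A : Subgroup H) : Gd M ↥A := by
  have e : ∀ B : Subgroup ↥A, Nonempty (↥B ≃* ↥(B.map A.subtype)) := fun B =>
    ⟨Subgroup.equivMapOfInjective B A.subtype A.subtype_injective⟩
  refine ⟨fun B hB => ?_, fun B hB => ?_⟩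
  · obtain ⟨e⟩ := e B
    exact (h.nod (B.map A.subtype) (hB.iso e)).of_inj e.toMonoidHom e.injective
  · obtain ⟨e⟩ := e B
    have : Finite ↥(B.map A.subtype) := Finite.of_equiv _ e.toEquiv
    rw [Nat.card_congr e.toEquiv]
    exact h.bt _ this

theorem Gd.zt {M : ℕ} {H : Type} [Group H] (h : Gd M H) {A : Subgroup H} (hA : InC ↥A) :
    Zt ↥A := h.nod A hA

end

end Pool.Agent.SAG
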