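import Pool.Agent.SAF.A00
import Pool.Agent.SAF.A11
import Pool.Agent.SAF.AOrb

/-!
# SAG, module AF: fixed vertices

A group acting on a tree without inversions with a finite orbit of vertices fixes a vertex. Proof:
the vertices which minimise the largest distance to the orbit form an invariant set, any two
different elements of which are adjacent; no inversions and no triangles.
-/

namespace Pool.Agent.SAG

open MulAction
open Pool.Agent.SAF

theorem fix_of_finite_orbit {H X : Type} [Group H] [MulAction H X] {G : SimpleGraph X}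
    (hG : TAct H G) (A : Subgroup H) (v : X) (h : {w : X | ∃ a ∈ A, a • v = w}.Finite) :
    ∃ w : X, ∀ a ∈ A, a • w = w := by
  classical
  obtain ⟨O, hO⟩ : ∃ O : Set X, O = {w : X | ∃ a ∈ A, a • v = w} := ⟨_, rfl⟩
  rw [← hO] at h
  have hvO : v ∈ O := by
    rw [hO]
    exact ⟨1, A.one_mem, one_smul _ _⟩
  have hOinv : ∀ a ∈ A, ∀ o ∈ O, a⁻¹ • o ∈ O := by
    intro a ha o ho
    rw [hO] at ho ⊢
    obtain ⟨b, hb, rfl⟩ := ho
    exact ⟨a⁻¹ * b, A.mul_mem (A.inv_mem ha) hb, mul_smul _ _ _⟩
  have hP : ∃ r : ℕ, ∃ w : X, ∀ o ∈ O, G.dist w o ≤ r := by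
    obtain ⟨r, hr⟩ := (h.image (fun o => G.dist v o)).bddAbove
    exact ⟨r, v, fun o ho => hr ⟨o, ho, rfl⟩⟩
  obtain ⟨r, hrd⟩ : ∃ r : ℕ, r = Nat.find hP := ⟨_, rfl⟩
  have hspec : ∃ w : X, ∀ o ∈ O, G.dist w o ≤ r := by
    rw [hrd]
    exact Nat.find_spec hP
  have hmin : ∀ m < r, ¬ ∃ w : X, ∀ o ∈ O, G.dist w o ≤ m := by
    intro m hm
    rw [hrd] at hm
    exact Nat.find_min hP hm
  obtain ⟨w, hw⟩ := hspec
  have key : ∀ w w' : X, (∀ o ∈ O, G.dist w o ≤ r) → (∀ o ∈ O, G.dist w' o ≤ r) → w ≠ w' →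
      G.Adj w w' := by
    intro w w' hw hw' hne
    have hr : 1 ≤ r := by
      by_contra hr
      apply hne
      have e1 : G.dist w v = 0 := by
        have := hw v hvO
        omega
      have e2 : G.dist w' v = 0 := by
        have := hw' v hvO
        omega
      rw [(hG.tree.connected.dist_eq_zero_iff).1 e1, (hG.tree.connected.dist_eq_zero_iff).1 e2]
    obtain ⟨c, hc, ec⟩ := exists_next hG.tree hne
    have h1 := hmin (r - 1) (by omega)
    have h2 : ∃ o ∈ O, r - 1 < G.dist c o := by
      by_contra hcon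
      apply h1
      refine ⟨c, fun o ho => ?_⟩
      by_contra hlt
      exact hcon ⟨o, ho, by omega⟩
    obtain ⟨o, ho, hlt⟩ := h2
    have h3 := hw o ho
    have h4 := hw' o ho
    have s1 : G.dist c o = G.dist o c := SimpleGraph.dist_comm
    have s2 : G.dist w o = G.dist o w := SimpleGraph.dist_comm
    have s3 : G.dist w' o = G.dist o w' := SimpleGraph.dist_comm
    have s4 : G.dist w w' = G.dist w' w := SimpleGraph.dist_comm
    have s5 : G.dist c w' = G.dist w' c := SimpleGraph.dist_comm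
    rcases hG.tree.dist_eq_dist_add_one_of_adj o hc with h5 | h5
    · omega
    · have h6 := (Conv.edge hG.tree (hull_conv hG.tree ({o, w'} : Set X)) hc
        (subset_hull _ (Or.inl rfl)) (subset_hull _ (Or.inr rfl)) h5 (by omega)).2
      have h7 : G.dist c w' = 0 := by
        obtain ⟨a, ha, b, hb, e⟩ := h6
        rcases ha with rfl | ha <;> rcases hb with rfl | hb
        · rw [SimpleGraph.dist_self] at e
          omega
        · rw [hb] at e
          omega
        · rw [ha] at e
          omega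
        · rw [ha, hb, SimpleGraph.dist_self] at e
          omega
      rw [(hG.tree.connected.dist_eq_zero_iff).1 h7] at hc
      exact hc
  have hinv : ∀ a ∈ A, ∀ w : X, (∀ o ∈ O, G.dist w o ≤ r) → (∀ o ∈ O, G.dist (a • w) o ≤ r) := by
    intro a ha w hw o ho
    have h1 := hw _ (hOinv a ha o ho)
    rw [← hG.dist_smul a, smul_inv_smul] at h1
    exact h1
  refine ⟨w, fun a ha => ?_⟩
  by_contra hne
  have h1 := hinv a ha w hw
  have h2 := hinv a ha _ h1
  have h3 : G.Adj w (a • w) := key _ _ hw h1 (fun e => hne e.symm)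
  have h4 : a • w ≠ a • (a • w) := fun e => hne (MulAction.injective a e).symm
  have h5 : G.Adj (a • w) (a • (a • w)) := key _ _ h1 h2 h4
  by_cases h6 : w = a • (a • w)
  · exact hG.noinv a w (a • w) h3 ⟨rfl, h6.symm⟩
  · have h7 : G.Adj w (a • (a • w)) := key _ _ hw h2 h6
    have d1 : G.dist w (a • w) = 1 := SimpleGraph.dist_eq_one_iff_adj.2 h3
    have d2 : G.dist w (a • (a • w)) = 1 := SimpleGraph.dist_eq_one_iff_adj.2 h7
    rcases hG.tree.dist_eq_dist_add_one_of_adj w h5 with h8 | h8
    · omega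
    · omega

theorem fix_of_finite {H X : Type} [Group H] [MulAction H X] {G : SimpleGraph X}
    (hG : TAct H G) [Nonempty X] (A : Subgroup H) (h : Finite ↥A) :
    ∃ w : X, ∀ a ∈ A, a • w = w := by
  obtain ⟨v⟩ := (inferInstance : Nonempty X)
  refine fix_of_finite_orbit hG A v ?_
  have h1 : (A : Set H).Finite := Set.toFinite _
  refine (h1.image (fun a => a • v)).subset ?_
  rintro w ⟨a, ha, rfl⟩
  exact ⟨a, ha, rfl⟩

end Pool.Agent.SAG
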