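import Pool.Agent.SAG.AG
import Pool.Agent.SAG.AF
import Pool.Agent.SAF.A12
import Pool.Agent.SAF.A17

/-!
# SAG, module AO: invariant points for `Zt` groups

`exists_end_canonical`: compare `SAF.A17`. For `t` without fixed vertex let `f w` be the first
vertex on the way from `w` to `t ^ n y` for all large `n`; this does not depend on `y`, so `f` is
invariant under every `h` which commutes with `t`.
`exists_ori_zt`: if `A` is finite, or a central element `t` of infinite order and finite index
(`Zt.central`) fixes a vertex, then `A` has a finite orbit of vertices, hence a fixed vertex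
(`fix_of_finite_orbit`), take the orientation with this sink (`exists_ori_vertex`). Otherwise take
`f` from `exists_end_canonical`; an element of infinite order of `A` has a common power with `t`
(`IO.common`), so it fixes no vertex.
-/

namespace Pool.Agent.SAG

open MulAction
open Pool.Agent.SAF

section

variable {X : Type} {G : SimpleGraph X}

private theorem nxu (hG : G.IsTree) {a b c c' : X} (h1 : G.Adj a c) (h2 : G.Adj a c')
    (d1 : G.dist a b = G.dist c b + 1) (d2 : G.dist a b = G.dist c' b + 1) : c = c' := by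
  obtain ⟨p, -, hp⟩ := hG.connected.exists_path_of_dist c b
  obtain ⟨p', -, hp'⟩ := hG.connected.exists_path_of_dist c' b
  have k1 : (SimpleGraph.Walk.cons h1 p).IsPath := by
    apply SimpleGraph.Walk.isPath_of_length_eq_dist
    rw [SimpleGraph.Walk.length_cons, hp, d1]
  have k2 : (SimpleGraph.Walk.cons h2 p').IsPath := by
    apply SimpleGraph.Walk.isPath_of_length_eq_dist
    rw [SimpleGraph.Walk.length_cons, hp', d2]
  have e : SimpleGraph.Walk.cons h1 p = SimpleGraph.Walk.cons h2 p' :=
    (hG.existsUnique_path a b).unique k1 k2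
  have e2 := congrArg (fun q : G.Walk a b => q.snd) e
  simpa using e2

/-- a geodesic which crosses an edge passes through it -/
private theorem crossE (hG : G.IsTree) {u v a b : X} (h : G.Adj u v)
    (h1 : G.dist a v = G.dist a u + 1) (h2 : G.dist b u = G.dist b v + 1) :
    G.dist a b = G.dist a u + G.dist u b := by
  have hu := (Conv.edge hG (hull_conv hG ({a, b} : Set X)) h (subset_hull _ (Or.inl rfl))
    (subset_hull _ (Or.inr rfl)) h1 h2).1
  obtain ⟨a', ha', b', hb', e⟩ := hu
  rcases ha' with rfl | ha'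
  · rcases hb' with rfl | hb'
    · rw [SimpleGraph.dist_self] at e
      have e1 : G.dist b' u = 0 := by omega
      have e2 : b' = u := hG.connected.dist_eq_zero_iff.1 e1
      rw [e1, zero_add, e2]
    · replace hb' : b' = b := hb'
      rw [hb'] at e
      exact e.symm
  · replace ha' : a' = b := ha'
    rcases hb' with rfl | hb'
    · rw [ha'] at e
      rw [SimpleGraph.dist_comm (u := b') (v := b), ← e, SimpleGraph.dist_comm (u := b),
        SimpleGraph.dist_comm (u := u) (v := b'), Nat.add_comm]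
    · replace hb' : b' = b := hb'
      rw [ha', hb', SimpleGraph.dist_self] at e
      omega

private theorem through (hG : G.IsTree) {a b c p q : X} (hp : G.Adj b p) (hq : G.Adj b q)
    (dp : G.dist b a = G.dist p a + 1) (dq : G.dist b c = G.dist q c + 1) (hne : p ≠ q) :
    G.dist a c = G.dist a b + G.dist b c := by
  have h1 : G.dist a b = G.dist a p + 1 := by
    rw [SimpleGraph.dist_comm, dp, SimpleGraph.dist_comm]
  have h2 : G.dist c p = G.dist c b + 1 := by
    rcases (dist_edge hG hp c).1 with h | h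
    · exact h
    · exfalso
      apply hne
      refine nxu hG hp hq ?_ dq
      rw [SimpleGraph.dist_comm, h, SimpleGraph.dist_comm]
  have h3 := crossE hG hp.symm h1 h2
  have h4 : G.dist p c = G.dist b c + 1 := by
    rw [SimpleGraph.dist_comm, h2, SimpleGraph.dist_comm]
  omega

/-- local geodesics are geodesics -/
private theorem concat (hG : G.IsTree) {a b c e : X} (hbc : b ≠ c)
    (h1 : G.dist a c = G.dist a b + G.dist b c) (h2 : G.dist b e = G.dist b c + G.dist c e) :
    G.dist a e = G.dist a c + G.dist c e := by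
  by_cases hce : c = e
  · rw [hce, SimpleGraph.dist_self, Nat.add_zero]
  obtain ⟨p, hp, dp⟩ := exists_next hG hbc.symm
  obtain ⟨q, hq, dq⟩ := exists_next hG hce
  have t1 : G.dist a p ≤ G.dist a b + G.dist b p := hG.connected.dist_triangle
  have t2 : G.dist a c ≤ G.dist a p + G.dist p c := hG.connected.dist_triangle
  have t3 : G.dist p c = 1 := SimpleGraph.dist_eq_one_iff_adj.2 hp.symm
  have t4 : G.dist c b = G.dist b c := SimpleGraph.dist_comm
  have t5 : G.dist p b = G.dist b p := SimpleGraph.dist_comm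
  have t6 : G.dist c a = G.dist a c := SimpleGraph.dist_comm
  have t7 : G.dist p a = G.dist a p := SimpleGraph.dist_comm
  have dpa : G.dist c a = G.dist p a + 1 := by omega
  have hne : p ≠ q := by
    rintro rfl
    have s1 : G.dist b e ≤ G.dist b p + G.dist p e := hG.connected.dist_triangle
    omega
  exact through hG hp hq dpa dq hne

end

variable {H : Type} [Group H] {X : Type} [MulAction H X] {G : SimpleGraph X}

/-- a vertex of minimal displacement lies on the axis -/
private theorem two_step (hG : TAct H G) (t : H) (ht : ∀ x : X, t • x ≠ x) (x : X)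
    (hmin : ∀ y, G.dist x (t • x) ≤ G.dist y (t • y)) :
    G.dist x (t • t • x) = G.dist x (t • x) + G.dist (t • x) (t • t • x) := by
  have hT := hG.tree
  obtain ⟨r, hr, dr⟩ := exists_next hT (ht x).symm
  obtain ⟨p, hp, dp⟩ := exists_next hT (ht x)
  have hq : G.Adj (t • x) (t • r) := hG.adj_smul t x r hr
  have dq : G.dist (t • x) (t • t • x) = G.dist (t • r) (t • t • x) + 1 := by
    rw [hG.dist_smul, hG.dist_smul, dr]
  refine through hT hp hq dp dq ?_
  rintro rfl
  -- `t r` is next to `t x` on the way to `x`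
  by_cases hrx : t • x = r
  · -- `d = 1`: inversion
    have e1 : G.dist r (t • x) = 0 := by rw [hrx, SimpleGraph.dist_self]
    have e2 : G.dist (t • x) x = 1 := by
      rw [SimpleGraph.dist_comm, dr, e1]
    have e3 : G.dist (t • r) x = 0 := by omega
    have e4 : t • r = x := hT.connected.dist_eq_zero_iff.1 e3
    exact hG.noinv t x r hr ⟨hrx, e4⟩
  · obtain ⟨p', hp', dp'⟩ := exists_next hT hrx
    have s1 : G.dist (t • x) r = G.dist r (t • x) := SimpleGraph.dist_comm
    have s2 : G.dist (t • x) x = G.dist x (t • x) := SimpleGraph.dist_comm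
    have s3 : G.dist r x = 1 := SimpleGraph.dist_eq_one_iff_adj.2 hr.symm
    have s4 : G.dist p' x ≤ G.dist p' r + G.dist r x := hT.connected.dist_triangle
    have s5 : G.dist (t • x) x ≤ G.dist (t • x) p' + G.dist p' x := hT.connected.dist_triangle
    have s6 : G.dist (t • x) p' = 1 := SimpleGraph.dist_eq_one_iff_adj.2 hp'
    have s7 : G.dist (t • x) x = G.dist p' x + 1 := by omega
    have e : p' = t • r := nxu hT hp' hp s7 dp
    rw [e] at dp'
    have s8 : G.dist r (t • r) = G.dist (t • r) r := SimpleGraph.dist_comm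
    have := hmin r
    omega

/-- the orbit of a vertex on the axis is a geodesic -/
private theorem axis (hG : TAct H G) (t : H) (ht : ∀ x : X, t • x ≠ x) :
    ∃ (x : X) (d : ℕ), 0 < d ∧ ∀ m k : ℕ, G.dist (t ^ m • x) (t ^ (m + k) • x) = k * d := by
  classical
  have hT := hG.tree
  obtain ⟨x0⟩ := hT.connected.nonempty
  obtain ⟨x, hx⟩ : ∃ x : X, ∀ y, G.dist x (t • x) ≤ G.dist y (t • y) := by
    have hne : ∃ n : ℕ, ∃ x : X, G.dist x (t • x) = n := ⟨_, x0, rfl⟩
    obtain ⟨x, hx⟩ := Nat.find_spec hne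
    refine ⟨x, fun y => ?_⟩
    rw [hx]
    exact Nat.find_min' hne ⟨y, rfl⟩
  have hd0 : 0 < G.dist x (t • x) := by
    rw [Nat.pos_iff_ne_zero]
    intro h
    exact ht x (hT.connected.dist_eq_zero_iff.1 h).symm
  refine ⟨x, G.dist x (t • x), hd0, ?_⟩
  have h2 := two_step hG t ht x hx
  have hstep : ∀ n : ℕ, G.dist (t ^ n • x) (t ^ (n + 1) • x) = G.dist x (t • x) := by
    intro n
    rw [pow_succ, mul_smul, hG.dist_smul]
  have hstep2 : ∀ n : ℕ, G.dist (t ^ n • x) (t ^ (n + 2) • x) =
      G.dist (t ^ n • x) (t ^ (n + 1) • x) + G.dist (t ^ (n + 1) • x) (t ^ (n + 2) • x) := by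
    intro n
    rw [hstep n, hstep (n + 1), pow_add, mul_smul, hG.dist_smul, sq, mul_smul, h2, hG.dist_smul]
  intro m k
  have key : ∀ k : ℕ, G.dist (t ^ m • x) (t ^ (m + k) • x) = k * G.dist x (t • x) ∧
      G.dist (t ^ m • x) (t ^ (m + (k + 1)) • x) = (k + 1) * G.dist x (t • x) := by
    intro k
    induction k with
    | zero =>
      refine ⟨?_, ?_⟩
      · rw [Nat.add_zero, SimpleGraph.dist_self, Nat.zero_mul]
      · rw [Nat.zero_add, hstep m, Nat.one_mul]
    | succ k ih =>
      refine ⟨ih.2, ?_⟩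
      have e0 : G.dist (t ^ (m + k) • x) (t ^ (m + (k + 1)) • x) = G.dist x (t • x) :=
        hstep (m + k)
      have e1 : G.dist (t ^ (m + (k + 1)) • x) (t ^ (m + (k + 1 + 1)) • x) = G.dist x (t • x) :=
        hstep (m + (k + 1))
      have hne : t ^ (m + k) • x ≠ t ^ (m + (k + 1)) • x := by
        intro e
        rw [e, SimpleGraph.dist_self] at e0
        omega
      have h3 : G.dist (t ^ (m + k) • x) (t ^ (m + (k + 1 + 1)) • x) =
          G.dist (t ^ (m + k) • x) (t ^ (m + (k + 1)) • x) +
          G.dist (t ^ (m + (k + 1)) • x) (t ^ (m + (k + 1 + 1)) • x) := hstep2 (m + k)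
      have h1 : G.dist (t ^ m • x) (t ^ (m + (k + 1)) • x) =
          G.dist (t ^ m • x) (t ^ (m + k) • x) +
          G.dist (t ^ (m + k) • x) (t ^ (m + (k + 1)) • x) := by
        rw [ih.1, ih.2, e0, Nat.succ_mul]
      rw [concat hT hne h1 h3, ih.2, e1]
      ring
  exact (key k).1

/-- the next vertex towards the end -/
private theorem next_end (hG : TAct H G) (t : H) (x : X) (d : ℕ) (hd : 0 < d)
    (hx : ∀ m k : ℕ, G.dist (t ^ m • x) (t ^ (m + k) • x) = k * d) (w : X) :
    ∃ c : X, G.Adj w c ∧ ∃ N : ℕ, ∀ n, N ≤ n →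
      G.dist w (t ^ n • x) = G.dist c (t ^ n • x) + 1 := by
  have hT := hG.tree
  have hx0 : ∀ n, G.dist x (t ^ n • x) = n * d := by
    intro n
    have h := hx 0 n
    rw [pow_zero, one_smul, Nat.zero_add] at h
    exact h
  have hbig : ∀ n, n ≤ n * d := fun n => Nat.le_mul_of_pos_right n hd
  have hne : ∀ n, G.dist x w < n → w ≠ t ^ n • x := by
    intro n hn e
    have h1 := hx0 n
    rw [← e] at h1
    have := hbig n
    omega
  obtain ⟨c, hc, dc⟩ := exists_next hT (hne (G.dist x w + 1) (by omega))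
  refine ⟨c, hc, G.dist x w + 1, ?_⟩
  intro n hn
  obtain ⟨c', hc', dc'⟩ := exists_next hT (hne n (by omega))
  by_cases hcc : c = c'
  · rw [hcc]
    exact dc'
  exfalso
  have h1 := through hT hc hc' dc dc' hcc
  obtain ⟨k, rfl⟩ := Nat.exists_eq_add_of_le hn
  have h2 := hx (G.dist x w + 1) k
  have h3 := hx0 (G.dist x w + 1 + k)
  have h4 := hx0 (G.dist x w + 1)
  have h5 : G.dist x (t ^ (G.dist x w + 1 + k) • x) ≤
      G.dist x w + G.dist w (t ^ (G.dist x w + 1 + k) • x) := hT.connected.dist_triangle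
  have h6 := hbig (G.dist x w + 1)
  have h7 : (G.dist x w + 1 + k) * d = (G.dist x w + 1) * d + k * d := by ring
  omega

/-- the next vertex towards the end does not depend on the base point -/
private theorem base_change (hG : TAct H G) (t : H) (x : X) (d : ℕ) (hd : 0 < d)
    (hx : ∀ m k : ℕ, G.dist (t ^ m • x) (t ^ (m + k) • x) = k * d) {w c : X} (hc : G.Adj w c)
    (hN : ∃ N : ℕ, ∀ n, N ≤ n → G.dist w (t ^ n • x) = G.dist c (t ^ n • x) + 1) (y : X) :
    ∃ N : ℕ, ∀ n, N ≤ n → G.dist w (t ^ n • y) = G.dist c (t ^ n • y) + 1 := by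
  have hT := hG.tree
  obtain ⟨N, hN⟩ := hN
  refine ⟨max N (G.dist x c + G.dist x y + 1), fun n hn => ?_⟩
  have hn1 : N ≤ n := le_trans (le_max_left _ _) hn
  have hn2 : G.dist x c + G.dist x y + 1 ≤ n := le_trans (le_max_right _ _) hn
  have s1 : G.dist w (t ^ n • y) = G.dist (t ^ n • y) w := SimpleGraph.dist_comm
  have s2 : G.dist c (t ^ n • y) = G.dist (t ^ n • y) c := SimpleGraph.dist_comm
  rcases (dist_edge hT hc (t ^ n • y)).1 with e | e
  · exfalso
    have h1 := hN n hn1
    have s3 : G.dist w (t ^ n • x) = G.dist (t ^ n • x) w := SimpleGraph.dist_comm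
    have s4 : G.dist c (t ^ n • x) = G.dist (t ^ n • x) c := SimpleGraph.dist_comm
    have h2 := crossE hT hc.symm (a := t ^ n • x) (b := t ^ n • y) (by omega) (by omega)
    have h3 : G.dist (t ^ n • x) (t ^ n • y) = G.dist x y := hG.dist_smul _ _ _
    have h4 := hx 0 n
    rw [pow_zero, one_smul, Nat.zero_add] at h4
    have h5 : G.dist x (t ^ n • x) ≤ G.dist x c + G.dist c (t ^ n • x) :=
      hT.connected.dist_triangle
    have h6 : n ≤ n * d := Nat.le_mul_of_pos_right n hd
    omega
  · omega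

theorem exists_end_canonical (hG : TAct H G) (t : H) (ht : ∀ x : X, t • x ≠ x) :
    ∃ f : X → X, Ori G f ∧ (∀ w, f w ≠ w) ∧
      ∀ h : H, h * t = t * h → ∀ w, f (h • w) = h • f w := by
  have hT := hG.tree
  obtain ⟨x, d, hd, hx⟩ := axis hG t ht
  choose f hf1 hf2 using next_end hG t x d hd hx
  refine ⟨f, ⟨fun w => Or.inr (hf1 w), ?_, ?_⟩, fun w e => G.ne_of_adj (hf1 w) e.symm, ?_⟩
  · intro w w' h
    obtain ⟨M, hM⟩ := hf2 w
    obtain ⟨N, hN⟩ := hf2 w'
    have h1 := hM (max M N) (le_max_left _ _)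
    have h2 := hN (max M N) (le_max_right _ _)
    rcases (dist_edge hT h (t ^ (max M N) • x)).1 with e | e
    · right
      refine nxu hT (hf1 w') h.symm h2 ?_
      rw [SimpleGraph.dist_comm, e, SimpleGraph.dist_comm]
    · left
      refine nxu hT (hf1 w) h h1 ?_
      rw [SimpleGraph.dist_comm, e, SimpleGraph.dist_comm]
  · rintro w w' h ⟨e1, e2⟩
    obtain ⟨M, hM⟩ := hf2 w
    obtain ⟨N, hN⟩ := hf2 w'
    have h1 := hM (max M N) (le_max_left _ _)
    have h2 := hN (max M N) (le_max_right _ _)
    rw [e1] at h1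
    rw [e2] at h2
    omega
  · intro h hh w
    have hcomm : ∀ n : ℕ, h * t ^ n = t ^ n * h := fun n =>
      ((Commute.pow_right (show Commute h t from hh) n)).eq
    obtain ⟨M, hM⟩ := hf2 w
    obtain ⟨N, hN⟩ := base_change hG t x d hd hx (hf1 (h • w)) (hf2 (h • w)) (h • x)
    have h1 := hM (max M N) (le_max_left _ _)
    have h2 := hN (max M N) (le_max_right _ _)
    refine nxu hT (hf1 (h • w)) (hG.adj_smul h _ _ (hf1 w)) h2 ?_
    rw [← mul_smul, ← hcomm, mul_smul, hG.dist_smul, hG.dist_smul]
    exact h1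

/-- an orientation with sink `v` is invariant under the stabiliser of `v` -/
private theorem ori_sink (hG : TAct H G) (A : Subgroup H) (v : X) (hv : ∀ a ∈ A, a • v = v) :
    ∃ f : X → X, Ori G f ∧ (∀ a ∈ A, ∀ w, f (a • w) = a • f w) ∧ ∃ w, f w = w := by
  obtain ⟨f, hf, hfv, hfw⟩ := exists_ori_vertex hG.tree v
  refine ⟨f, hf, ?_, v, hfv⟩
  intro a ha w
  by_cases hw : w = v
  · rw [hw, hv a ha, hfv, hv a ha]
  · have hw2 : a • w ≠ v := by
      intro e
      apply hw
      apply MulAction.injective a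
      change a • w = a • v
      rw [e, hv a ha]
    have h1 := hfw w hw
    have h2 := hfw (a • w) hw2
    refine nxu hG.tree h2.1 (hG.adj_smul a _ _ h1.1) h2.2 ?_
    have e1 : G.dist (a • w) v = G.dist w v := by
      conv_lhs => rw [← hv a ha]
      exact hG.dist_smul _ _ _
    have e2 : G.dist (a • f w) v = G.dist (f w) v := by
      conv_lhs => rw [← hv a ha]
      exact hG.dist_smul _ _ _
    rw [e1, e2]
    exact h1.2

theorem exists_ori_zt (hG : TAct H G) (hne : Nonempty X) (A : Subgroup H) (hA : Zt ↥A) :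
    ∃ f : X → X, Ori G f ∧ (∀ a ∈ A, ∀ w, f (a • w) = a • f w) ∧
      ((∃ w, f w = w) ∨ ((∀ w, f w ≠ w) ∧ (∃ t ∈ A, IO t) ∧
        ∀ a ∈ A, IO a → ∀ w : X, a • w ≠ w)) := by
  rcases finite_or_infinite ↥A with hfin | hinf
  · obtain ⟨v, hv⟩ := fix_of_finite hG A hfin
    obtain ⟨f, h1, h2, h3⟩ := ori_sink hG A v hv
    exact ⟨f, h1, h2, Or.inl h3⟩
  · obtain ⟨⟨t, htA⟩, htIO, htc, htf⟩ := hA.central hinf
    have htIO' : IO t := by
      intro n hn e
      exact htIO n hn (Subtype.ext (by simpa using e))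
    have htc' : ∀ a ∈ A, a * t = t * a := by
      intro a ha
      exact congrArg Subtype.val (htc ⟨a, ha⟩)
    by_cases hfix : ∃ v : X, t • v = v
    · obtain ⟨v, hv⟩ := hfix
      -- the orbit of `v` is finite
      have horb : {w : X | ∃ a ∈ A, a • v = w}.Finite := by
        have hfq : Finite (↥A ⧸ Subgroup.zpowers (⟨t, htA⟩ : ↥A)) :=
          Subgroup.finite_quotient_of_finiteIndex
        have hz : ∀ z ∈ Subgroup.zpowers (⟨t, htA⟩ : ↥A), (z : H) • v = v := by
          intro z hz
          obtain ⟨k, rfl⟩ := hz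
          have h1 : t ∈ stabilizer H v := hv
          have h2 := (stabilizer H v).zpow_mem h1 k
          have h3 : ((fun k : ℤ => (⟨t, htA⟩ : ↥A) ^ k) k : ↥A).1 = t ^ k := by
            simp
          rw [h3]
          exact h2
        let F : (↥A ⧸ Subgroup.zpowers (⟨t, htA⟩ : ↥A)) → X := fun q => (q.out : H) • v
        refine (Set.finite_range F).subset ?_
        rintro w ⟨a, ha, rfl⟩
        refine ⟨QuotientGroup.mk ⟨a, ha⟩, ?_⟩
        have hq : (QuotientGroup.mk (Quotient.out (QuotientGroup.mk (⟨a, ha⟩ : ↥A) :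
            ↥A ⧸ Subgroup.zpowers (⟨t, htA⟩ : ↥A))) : ↥A ⧸ Subgroup.zpowers (⟨t, htA⟩ : ↥A)) =
            QuotientGroup.mk ⟨a, ha⟩ := QuotientGroup.out_eq' _
        have hq2 := QuotientGroup.eq.1 hq
        have hq3 := hz _ hq2
        change ((Quotient.out (QuotientGroup.mk (⟨a, ha⟩ : ↥A) :
            ↥A ⧸ Subgroup.zpowers (⟨t, htA⟩ : ↥A)) : ↥A) : H) • v = a • v
        rw [Subgroup.coe_mul, Subgroup.coe_inv, mul_smul, inv_smul_eq_iff] at hq3
        exact hq3.symm
      obtain ⟨w, hw⟩ := fix_of_finite_orbit hG A v horb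
      obtain ⟨f, h1, h2, h3⟩ := ori_sink hG A w hw
      exact ⟨f, h1, h2, Or.inl h3⟩
    · have ht : ∀ x : X, t • x ≠ x := fun x hx => hfix ⟨x, hx⟩
      obtain ⟨f, h1, h2, h3⟩ := exists_end_canonical hG t ht
      refine ⟨f, h1, fun a ha w => h3 a (htc' a ha) w, Or.inr ⟨h2, ⟨t, htA, htIO'⟩, ?_⟩⟩
      intro a ha haIO w hw
      obtain ⟨m, n, hm, hn, hmn, -⟩ := IO.common hA.inC ha htA haIO htIO'
      have h4 : t ^ n ∈ stabilizer H w := by
        rw [← hmn]
        exact (stabilizer H w).zpow_mem (show a ∈ stabilizer H w from hw) m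
      have h5 : t ^ n.natAbs • w = w := by
        rcases Int.natAbs_eq n with e | e
        · rw [e] at h4
          rw [zpow_natCast] at h4
          exact h4
        · rw [e, zpow_neg] at h4
          have h6 := (stabilizer H w).inv_mem h4
          rw [inv_inv, zpow_natCast] at h6
          exact h6
      obtain ⟨y, hy⟩ := fix_of_pow_fix hG t n.natAbs (Int.natAbs_pos.2 hn) w h5
      exact ht y hy

end Pool.Agent.SAG
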