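import Pool.Agent.SAG.AG
import Pool.Agent.SAF.A00
import Pool.Agent.SAF.A11

/-!
# SAG, module AH: hulls of cofinite sets

Compare `SAF.A15` (cyclic groups). An `InC` group is generated by finitely many elements `a_i`;
if `s` is the union of the orbits of `w_1 .. w_n` then the hull of `s` is covered by the
translates of the geodesics `[w_j, w_k]` and `[w_j, a_i w_j]` (a set containing `s`, invariant, and
connected, hence convex, `conv_of_rtg`).
-/

namespace Pool.Agent.SAG

open MulAction
open Pool.Agent.SAF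

variable {H : Type} [Group H] {X : Type} [MulAction H X] {G : SimpleGraph X}

theorem InC.fg {G : Type} [Group G] (h : InC G) : Group.FG G := by
  classical
  rcases h with h | ⟨g, -, hf⟩
  · infer_instance
  · have hfin : Finite (G ⧸ Subgroup.zpowers g) := inferInstance
    rw [Group.fg_iff]
    refine ⟨{g} ∪ Set.range (fun q : G ⧸ Subgroup.zpowers g => Quotient.out q), ?_, ?_⟩
    · rw [eq_top_iff]
      intro x _
      have h1 : (Quotient.out (QuotientGroup.mk x : G ⧸ Subgroup.zpowers g))⁻¹ * x ∈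
          Subgroup.zpowers g := by
        have h2 : (QuotientGroup.mk (Quotient.out
            (QuotientGroup.mk x : G ⧸ Subgroup.zpowers g)) : G ⧸ Subgroup.zpowers g) =
            QuotientGroup.mk x := Quotient.out_eq _
        exact QuotientGroup.eq.1 h2
      have h3 : Subgroup.zpowers g ≤ Subgroup.closure
          ({g} ∪ Set.range (fun q : G ⧸ Subgroup.zpowers g => Quotient.out q)) := by
        rw [Subgroup.zpowers_le]
        exact Subgroup.subset_closure (Or.inl rfl)
      have h4 : Quotient.out (QuotientGroup.mk x : G ⧸ Subgroup.zpowers g) ∈ Subgroup.closure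
          ({g} ∪ Set.range (fun q : G ⧸ Subgroup.zpowers g => Quotient.out q)) :=
        Subgroup.subset_closure (Or.inr ⟨_, rfl⟩)
      have h5 := Subgroup.mul_mem _ h4 (h3 h1)
      rwa [mul_inv_cancel_left] at h5
    · exact (Set.finite_singleton g).union (Set.finite_range _)

/-- The hull of a cofinite set is cofinite, for finitely generated groups. -/
theorem hull_cofinite_fg (hG : TAct H G) (A : Subgroup H) (hA : Group.FG ↥A) (s : Set X)
    (hs : ∀ a ∈ A, ∀ w ∈ s, a • w ∈ s) (hf : FinOrb ↥A s) : FinOrb ↥A (hull G s) := by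
  classical
  obtain ⟨F, hF, hFs, hc⟩ := FinOrb_iff.1 hf
  rcases s.eq_empty_or_nonempty with he | ⟨b0, hb0⟩
  · have h0 : hull G s = ∅ := by
      ext w
      constructor
      · rintro ⟨a, ha, _⟩
        rw [he] at ha
        exact ha.elim
      · intro h
        exact h.elim
    rw [h0]
    simp [FinOrb, orbs]
  obtain ⟨b, hb, -⟩ := hc b0 hb0
  obtain ⟨Sg, hSg, hSf⟩ := Group.fg_iff.1 hA
  obtain ⟨F0, hF0d⟩ : ∃ F0 : Set X, F0 = F ∪ ((fun a : ↥A => a • b) '' Sg) := ⟨_, rfl⟩
  have hF0 : F0.Finite := by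
    rw [hF0d]
    exact hF.union (hSf.image _)
  have hbF : b ∈ F0 := by rw [hF0d]; exact Or.inl hb
  have habF : ∀ a ∈ Sg, a • b ∈ F0 := by
    intro a ha
    rw [hF0d]
    exact Or.inr ⟨a, ha, rfl⟩
  have hF' : (hull G F0).Finite := hull_finite hG.tree hF0
  obtain ⟨C, hC⟩ : ∃ C : Set X, C = {x | ∃ g : ↥A, ∃ w ∈ hull G F0, g • w = x} := ⟨_, rfl⟩
  have hmem : ∀ (g : ↥A), ∀ w ∈ hull G F0, g • w ∈ C := by
    intro g w hw
    rw [hC]
    exact ⟨g, w, hw, rfl⟩
  have hinv : ∀ (g : ↥A), ∀ w ∈ C, g • w ∈ C := by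
    intro g w hw
    rw [hC] at hw ⊢
    obtain ⟨g', w', hw', rfl⟩ := hw
    exact ⟨g * g', w', hw', mul_smul _ _ _⟩
  have htr : ∀ (g : ↥A) (x y : X),
      Relation.ReflTransGen (fun u v => G.Adj u v ∧ u ∈ C ∧ v ∈ C) x y →
      Relation.ReflTransGen (fun u v => G.Adj u v ∧ u ∈ C ∧ v ∈ C) (g • x) (g • y) := by
    intro g x y h
    induction h with
    | refl => exact Relation.ReflTransGen.refl
    | tail _ e ih =>
      exact Relation.ReflTransGen.tail ih
        ⟨hG.adj_smul (g : H) _ _ e.1, hinv g _ e.2.1, hinv g _ e.2.2⟩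
  have hpiece0 : ∀ w ∈ hull G F0, ∀ w' ∈ hull G F0,
      Relation.ReflTransGen (fun u v => G.Adj u v ∧ u ∈ C ∧ v ∈ C) w w' := by
    intro w hw w' hw'
    have h1 := (hull_conv hG.tree F0).rtg hG.tree hw hw'
    clear hw'
    induction h1 with
    | refl => exact Relation.ReflTransGen.refl
    | tail _ e ih =>
      refine Relation.ReflTransGen.tail ih ⟨e.1, ?_, ?_⟩
      · have := hmem 1 _ e.2.1
        rwa [one_smul] at this
      · have := hmem 1 _ e.2.2
        rwa [one_smul] at this
  have hsymm : ∀ x y, Relation.ReflTransGen (fun u v => G.Adj u v ∧ u ∈ C ∧ v ∈ C) x y →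
      Relation.ReflTransGen (fun u v => G.Adj u v ∧ u ∈ C ∧ v ∈ C) y x := by
    intro x y h
    induction h with
    | refl => exact Relation.ReflTransGen.refl
    | tail _ e ih => exact Relation.ReflTransGen.head ⟨e.1.symm, e.2.2, e.2.1⟩ ih
  have hb' : b ∈ hull G F0 := subset_hull F0 hbF
  have hgen : ∀ g : ↥A,
      Relation.ReflTransGen (fun u v => G.Adj u v ∧ u ∈ C ∧ v ∈ C) b (g • b) := by
    intro g
    have hg : g ∈ Subgroup.closure Sg := by rw [hSg]; exact Subgroup.mem_top g
    induction hg using Subgroup.closure_induction with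
    | mem x hx => exact hpiece0 b hb' _ (subset_hull F0 (habF x hx))
    | one =>
      rw [one_smul]
    | mul x y _ _ ihx ihy =>
      rw [mul_smul]
      exact ihx.trans (htr x _ _ ihy)
    | inv x _ ih =>
      have h1 := htr x⁻¹ _ _ ih
      rw [inv_smul_smul] at h1
      exact hsymm _ _ h1
  have hall : ∀ x ∈ C, Relation.ReflTransGen (fun u v => G.Adj u v ∧ u ∈ C ∧ v ∈ C) b x := by
    intro x hx
    rw [hC] at hx
    obtain ⟨g, w, hw, rfl⟩ := hx
    exact (hgen g).trans (htr g _ _ (hpiece0 b hb' w hw))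
  have hconv : Conv G C := by
    apply conv_of_rtg hG.tree
    intro x hx y hy
    exact (hsymm _ _ (hall x hx)).trans (hall y hy)
  have hsC : s ⊆ C := by
    intro y hy
    obtain ⟨f, hf', g, e⟩ := hc y hy
    rw [← e]
    exact hmem g f (subset_hull F0 (by rw [hF0d]; exact Or.inl hf'))
  have hfin : FinOrb ↥A C := by
    rw [FinOrb_iff]
    refine ⟨hull G F0, hF', ?_, ?_⟩
    · intro w hw
      have := hmem 1 w hw
      rwa [one_smul] at this
    · intro y hy
      rw [hC] at hy
      obtain ⟨g, w, hw, e⟩ := hy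
      exact ⟨w, hw, g, e⟩
  exact hfin.mono (hconv.hull_sub hsC)

theorem hull_cofinite (hG : TAct H G) (A : Subgroup H) (hA : InC ↥A) (s : Set X)
    (hs : ∀ a ∈ A, ∀ w ∈ s, a • w ∈ s) (hf : FinOrb ↥A s) : FinOrb ↥A (hull G s) :=
  hull_cofinite_fg hG A (InC.fg hA) s hs hf

end Pool.Agent.SAG
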