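import Pool.Agent.SAG.BBasic
import Pool.Agent.SAF.A00

/-!
# SAG/A00: further definitions (part A)
-/

namespace Pool.Agent.SAG

open MulAction
open Pool.Agent.SAF

variable {H : Type} [Group H] {Y : Type} [MulAction H Y] {K : KS H Y} {D : Decomp H}
  (S : Sys H Y K D)

/-- vertical adjacency in the blown up complex -/
def Sys.vr (p q : S.V1) : Prop := p.1.1 = q.1.1 ∧ D.G.Adj p.1.2 q.1.2

end Pool.Agent.SAG
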