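import Pool.Agent.SAG.AG
import Pool.Agent.SAG.AF

/-!
# SAG, module AS: finite groups and `Zt` groups are strongly accessible

`SA_finite`: a finite group acting on a tree without inversions fixes a vertex (`fix_of_finite`), so
there is no decomposition. `SA_Zt`: an infinite `Zt` group acts on the line with finite vertex
stabilisers (compare `SAF.ABase`, `lineD`, `SA.line`), use `SA.of_decomp`.
-/

namespace Pool.Agent.SAG

open MulAction
open Pool.Agent.SAF (InC orbs FinOrb oc Decomp SAn SA Ori Conv hull Zs LostF)

theorem SA_finite {G : Type} [Group G] [Finite G] : SA G := by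
  refine Pool.Agent.SAF.SA.of_empty ⟨fun D => ?_⟩
  have hne : Nonempty D.X := D.tree.connected.nonempty
  have hfin : Finite ↥(⊤ : Subgroup G) := inferInstance
  obtain ⟨w, hw⟩ := fix_of_finite (D.tact) (⊤ : Subgroup G) hfin
  obtain ⟨g, hg⟩ := D.nofix w
  exact hg (hw g (Subgroup.mem_top g))

/-- the action on the line given by a surjective homomorphism onto the integers with finite
kernel -/
private def lineZ {G : Type} [Group G] (f : G →* Multiplicative ℤ)
    (hf : Function.Surjective f) (hk : Finite f.ker) : Decomp G :=
  letI : MulAction G ℤ := MulAction.compHom ℤ f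
  have hsm : ∀ (g : G) (x : ℤ), g • x = Multiplicative.toAdd (f g) + x := fun _ _ => rfl
  { X := ℤ
    G := Pool.Agent.SAF.lineG
    tree := Pool.Agent.SAF.lineG_tree
    adj_smul := fun g x y hxy => by
      rw [hsm, hsm]
      rcases hxy with h1 | h1
      · left; omega
      · right; omega
    noinv := fun g x y hxy => by
      rintro ⟨h1, h2⟩
      rw [hsm] at h1 h2
      rcases hxy with h3 | h3 <;> omega
    finV := by
      unfold FinOrb orbs
      apply (Set.finite_singleton (Quotient.mk'' (0 : ℤ) :
        orbitRel.Quotient G ℤ)).subset
      rintro _ ⟨y, _, rfl⟩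
      rw [Set.mem_singleton_iff]
      apply Quotient.sound'
      obtain ⟨g, hg⟩ := hf (Multiplicative.ofAdd y)
      refine ⟨g, ?_⟩
      change g • (0 : ℤ) = y
      rw [hsm, hg]
      simp
    finE := by
      unfold FinOrb orbs
      apply (Set.toFinite {(Quotient.mk'' ((0 : ℤ), (1 : ℤ)) :
        orbitRel.Quotient G (ℤ × ℤ)), (Quotient.mk'' ((1 : ℤ), (0 : ℤ)) :
        orbitRel.Quotient G (ℤ × ℤ))}).subset
      rintro _ ⟨⟨x, y⟩, hxy, rfl⟩
      rw [Set.mem_insert_iff, Set.mem_singleton_iff]
      rcases hxy with h | h
      · left
        simp only at h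
        subst h
        apply Quotient.sound'
        obtain ⟨g, hg⟩ := hf (Multiplicative.ofAdd x)
        refine ⟨g, ?_⟩
        change (g • (0 : ℤ), g • (1 : ℤ)) = _
        rw [hsm, hsm, hg]
        simp
      · right
        simp only at h
        subst h
        apply Quotient.sound'
        obtain ⟨g, hg⟩ := hf (Multiplicative.ofAdd y)
        refine ⟨g, ?_⟩
        change (g • (1 : ℤ), g • (0 : ℤ)) = _
        rw [hsm, hsm, hg]
        simp
    edgeC := fun x y _ => by
      left
      refine Finite.of_injective (fun g => (⟨g.1, ?_⟩ : f.ker)) ?_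
      · have h1 : g.1 • x = x := g.2.1
        rw [hsm] at h1
        rw [MonoidHom.mem_ker]
        apply Multiplicative.toAdd.injective
        change Multiplicative.toAdd (f g.1) = 0
        omega
      · intro a b hab
        exact Subtype.ext (congrArg (fun z : f.ker => z.1) hab)
    nofix := fun x => by
      obtain ⟨g, hg⟩ := hf (Multiplicative.ofAdd 1)
      refine ⟨g, ?_⟩
      rw [hsm, hg]
      simp }

private theorem SA_lineZ {G : Type} [Group G] (f : G →* Multiplicative ℤ)
    (hf : Function.Surjective f) (hk : Finite f.ker) : SA G := by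
  refine Pool.Agent.SAF.SA.of_decomp (lineZ f hf hk) fun x => ?_
  have : Finite ↥(stabilizer G x) := by
    refine Finite.of_injective (fun g => (⟨g.1, ?_⟩ : f.ker)) ?_
    · have h1 : g.1 • x = x := g.2
      have h2 : Multiplicative.toAdd (f g.1) + (show ℤ from x) = (show ℤ from x) := h1
      rw [MonoidHom.mem_ker]
      apply Multiplicative.toAdd.injective
      change Multiplicative.toAdd (f g.1) = 0
      omega
    · intro a b hab
      exact Subtype.ext (congrArg (fun z : f.ker => z.1) hab)
  exact SA_finite

theorem SA_Zt {G : Type} [Group G] (h : Zt G) : SA G := by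
  obtain ⟨f, hk⟩ := h
  by_cases hinf : Finite G
  · exact SA_finite
  · have hinf' : Infinite G := not_finite_iff_infinite.1 hinf
    have hri : Infinite f.range := by
      by_contra hcon
      have hfin : Finite f.range := not_infinite_iff_finite.1 hcon
      apply hinf
      have h1 : f.ker.index ≠ 0 := by
        rw [Subgroup.index_ker]
        exact Nat.card_pos.ne'
      have h2 : Nat.card f.ker ≠ 0 := Nat.card_pos.ne'
      apply Nat.finite_of_card_ne_zero
      rw [← f.ker.card_mul_index]
      exact mul_ne_zero h2 h1
    have hcyc : IsCyclic f.range := inferInstance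
    have hcard : Nat.card f.range = Nat.card (Multiplicative ℤ) := by
      rw [Nat.card_eq_zero_of_infinite, Nat.card_eq_zero_of_infinite]
    let e : f.range ≃* Multiplicative ℤ := mulEquivOfCyclicCardEq hcard
    refine SA_lineZ (e.toMonoidHom.comp f.rangeRestrict) ?_ ?_
    · exact e.surjective.comp f.rangeRestrict_surjective
    · have : (e.toMonoidHom.comp f.rangeRestrict).ker = f.ker := by
        ext x
        rw [MonoidHom.mem_ker, MonoidHom.mem_ker]
        constructor
        · intro hx
          have h1 : e (f.rangeRestrict x) = 1 := hx
          have h2 : f.rangeRestrict x = 1 := by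
            apply e.injective
            rw [h1, map_one]
          exact congrArg Subtype.val h2
        · intro hx
          have h2 : f.rangeRestrict x = 1 := Subtype.ext hx
          change e (f.rangeRestrict x) = 1
          rw [h2, map_one]
      rw [this]
      exact hk

theorem infinite_of_bad {G : Type} [Group G] (h : ¬ SA G) : Infinite G := by
  rw [← not_finite_iff_infinite]
  intro hf
  exact h SA_finite

end Pool.Agent.SAG
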