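import Pool.Agent.SAG.AO
import Pool.Agent.SAG.A00
import Pool.Agent.SAF.A30

/-!
# SAG/A30: the family of points (compare `SAF.A30`)
-/

namespace Pool.Agent.SAG

open MulAction
open Pool.Agent.SAF

variable {H : Type} [Group H] {Y : Type} [MulAction H Y]

/-- An equivariant family of points, one for each vertex of the complex (`exists_equivariant`,
`exists_ori_zt`; `p y f` must be an `H`-invariant property). -/
theorem exists_points (K : KS H Y) (D : Decomp H) :
    ∃ f : Y → D.X → D.X, (∀ x ∈ K.P, Ori D.G (f x)) ∧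
      (∀ (h : H) (x : Y) (w : D.X), f (h • x) (h • w) = h • f x w) ∧
      ∀ x ∈ K.P, (∃ w, f x w = w) ∨ ((∃ t : H, t • x = x ∧ IO t) ∧
        ∀ h : H, h • x = x → IO h → ∀ w : D.X, h • w ≠ w) := by
  classical
  have hne : Nonempty D.X := D.tree.1.nonempty
  have key : ∃ c : Y → FnX D.X, (∀ x, x ∈ K.P → Ori D.G (c x) ∧ ((∃ w, c x w = w) ∨
      ((∃ t : H, t • x = x ∧ IO t) ∧ ∀ h : H, h • x = x → IO h → ∀ w : D.X, h • w ≠ w))) ∧
      ∀ (h : H) x, c (h • x) = h • c x := by
    apply exists_equivariant (H := H) (Y := Y) (Z := FnX D.X)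
      (fun x f => x ∈ K.P → Ori D.G f ∧ ((∃ w, f w = w) ∨ ((∃ t : H, t • x = x ∧ IO t) ∧
        ∀ h : H, h • x = x → IO h → ∀ w : D.X, h • w ≠ w)))
    · intro h x f hf hx
      have hx' : x ∈ K.P := by
        have := K.P_smul h⁻¹ _ hx
        rwa [inv_smul_smul] at this
      obtain ⟨ho, hd⟩ := hf hx'
      have hadj : ∀ a b : D.X, D.G.Adj (h⁻¹ • a) b → D.G.Adj a (h • b) := by
        intro a b hab
        have := D.adj_smul h _ _ hab
        rwa [smul_inv_smul] at this
      refine ⟨⟨?_, ?_, ?_⟩, ?_⟩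
      · intro w
        rcases ho.ok (h⁻¹ • w) with e | e
        · left
          rw [FnX.smul_apply, e, smul_inv_smul]
        · right
          rw [FnX.smul_apply]
          exact hadj _ _ e
      · intro w w' hw
        have hw' := D.adj_smul h⁻¹ _ _ hw
        rcases ho.one _ _ hw' with e | e
        · left
          rw [FnX.smul_apply, e, smul_inv_smul]
        · right
          rw [FnX.smul_apply, e, smul_inv_smul]
      · intro w w' hw
        have hw' := D.adj_smul h⁻¹ _ _ hw
        rintro ⟨e1, e2⟩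
        rw [FnX.smul_apply] at e1 e2
        apply ho.ntwo _ _ hw'
        constructor
        · exact eq_inv_smul_iff.2 e1
        · exact eq_inv_smul_iff.2 e2
      · rcases hd with ⟨w, hw⟩ | ⟨⟨t, ht, ht1⟩, hd⟩
        · left
          refine ⟨h • w, ?_⟩
          rw [FnX.smul_apply, inv_smul_smul, hw]
        · right
          refine ⟨⟨h * t * h⁻¹, ?_, ht1.conj h⟩, ?_⟩
          · rw [mul_smul, mul_smul, inv_smul_smul, ht]
          · intro g hg hg1 w hw
            have hio : IO (h⁻¹ * g * h) := by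
              have := hg1.conj h⁻¹
              rwa [inv_inv] at this
            apply hd (h⁻¹ * g * h) ?_ hio (h⁻¹ • w)
            · rw [mul_smul, mul_smul, smul_inv_smul, hw]
            · rw [mul_smul, mul_smul, hg, inv_smul_smul]
    · intro x
      by_cases hx : x ∈ K.P
      · obtain ⟨f, hf1, hf2, hf3⟩ := exists_ori_zt D.tact hne (stabilizer H x) (K.zt x hx)
        refine ⟨f, fun _ => ⟨hf1, ?_⟩, ?_⟩
        · rcases hf3 with hw | ⟨-, ⟨t, ht, ht1⟩, h3⟩
          · exact Or.inl hw
          · exact Or.inr ⟨⟨t, ht, ht1⟩, fun h hh h1 w => h3 h hh h1 w⟩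
        · intro h hh
          funext w
          rw [FnX.smul_apply]
          have hh' : h⁻¹ ∈ stabilizer H x := Subgroup.inv_mem _ hh
          rw [hf2 _ hh' w, smul_inv_smul]
      · refine ⟨(id : D.X → D.X), fun h => absurd h hx, ?_⟩
        intro h _
        funext w
        rw [FnX.smul_apply]
        change h • (h⁻¹ • w) = w
        rw [smul_inv_smul]
  obtain ⟨c, hc1, hc2⟩ := key
  refine ⟨c, fun x hx => (hc1 x hx).1, ?_, fun x hx => (hc1 x hx).2⟩
  intro h x w
  rw [hc2]
  change h • c x (h⁻¹ • (h • w)) = h • c x w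
  rw [inv_smul_smul]

end Pool.Agent.SAG
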