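import Pool.Agent.SAF.A13
import Pool.Agent.SAG.AH
import Pool.Agent.SAG.A00
import Pool.Agent.SAG.A30
import Pool.Agent.SAF.A34

/-!
# SAG/A31: the subtrees of the triangles
-/

namespace Pool.Agent.SAG

open MulAction
open Pool.Agent.SAF
open scoped Pointwise

variable {H : Type} [Group H] {Y : Type} [MulAction H Y]

/-- the vertices between all pairs of points of the set which are not lost -/
def adm {X : Type} (f : Y → X → X) (s : Set Y) : Set X :=
  {w | ∀ a ∈ s, ∀ b ∈ s, a ≠ b → ¬ LostF (f a) (f b) → w ∈ Zs (f a) (f b)}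

theorem lostF_of_smul {X : Type} [MulAction H X] {f : Y → X → X}
    (hs : ∀ (h : H) (x : Y) (w : X), f (h • x) (h • w) = h • f x w) (h : H) (x y : Y)
    (hl : LostF (f (h • x)) (f (h • y))) : LostF (f x) (f y) := by
  refine ⟨?_, ?_⟩
  · funext w
    have := congrFun hl.1 (h • w)
    rw [hs, hs] at this
    exact smul_left_cancel h this
  · intro w e
    apply hl.2 (h • w)
    rw [hs, e]

theorem adm_smul {X : Type} [MulAction H X] {f : Y → X → X}
    (hs : ∀ (h : H) (x : Y) (w : X), f (h • x) (h • w) = h • f x w) (h : H) (s : Set Y) (w : X)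
    (hw : w ∈ adm f s) : h • w ∈ adm f (h • s) := by
  rintro _ ⟨a, ha, rfl⟩ _ ⟨b, hb, rfl⟩ hab hl
  have hab' : a ≠ b := fun e => hab (by rw [e])
  have hl' : ¬ LostF (f a) (f b) := by
    intro hh
    apply hl
    have := lostF_of_smul (f := f) hs h⁻¹ (h • a) (h • b) (by
      rw [inv_smul_smul, inv_smul_smul]; exact hh)
    exact this
  have hw' := hw a ha b hb hab' hl'
  intro hz
  apply hw'
  change f (h • a) (h • w) = f (h • b) (h • w) ∧ f (h • a) (h • w) ≠ h • w at hz
  rw [hs, hs] at hz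
  exact ⟨smul_left_cancel h hz.1, fun e => hz.2 (by rw [e])⟩

/-- The subtrees of the triangles: the centre, if no edge of the triangle is lost; otherwise the
hull of one orbit under the setwise stabiliser. -/
theorem exists_ST (K : KS H Y) (D : Decomp H) (f : Y → D.X → D.X)
    (hf : ∀ x ∈ K.P, Ori D.G (f x))
    (hs : ∀ (h : H) (x : Y) (w : D.X), f (h • x) (h • w) = h • f x w) :
    ∃ ST : Y → Y → Y → Set D.X,
      (∀ x y z, K.T x y z → Conv D.G (ST x y z)) ∧
      (∀ x y z, K.T x y z → (ST x y z).Nonempty) ∧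
      (∀ x y z, ST x y z = ST y x z) ∧
      (∀ x y z, ST x y z = ST y z x) ∧
      (∀ (h : H) (x y z : Y) (w : D.X), w ∈ ST x y z → h • w ∈ ST (h • x) (h • y) (h • z)) ∧
      (∀ x y z, K.T x y z → ¬ LostF (f x) (f y) → ST x y z ⊆ Zs (f x) (f y)) ∧
      (∀ x y z, K.T x y z → LostF (f x) (f y) ∨ LostF (f y) (f z) ∨ LostF (f x) (f z) ∨
        ∃ c, ST x y z = {c}) ∧
      (∀ x y z, K.T x y z →
        FinOrb ↥(stabilizer H x ⊓ stabilizer H y ⊓ stabilizer H z) (ST x y z)) := by
  classical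
  have hne : Nonempty D.X := D.tree.connected.nonempty
  -- the choice of one orbit for every set of vertices
  obtain ⟨c, hc, hcs⟩ := exists_equivariant (H := H) (Y := Set Y) (Z := Set D.X)
    (fun s B => B.Nonempty ∧ ((adm f s).Nonempty → B ⊆ adm f s) ∧
      ∃ w, ∀ v ∈ B, ∃ h : H, h • s = s ∧ h • w = v)
    (by
      rintro h s B ⟨⟨b, hb⟩, h2, w, hw⟩
      refine ⟨⟨h • b, Set.smul_mem_smul_set hb⟩, ?_, h • w, ?_⟩
      · rintro ⟨u, hu⟩
        have hu' := adm_smul (f := f) hs h⁻¹ (h • s) u hu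
        rw [inv_smul_smul] at hu'
        rintro _ ⟨v, hv, rfl⟩
        exact adm_smul hs h s v (h2 ⟨_, hu'⟩ hv)
      · rintro _ ⟨v, hv, rfl⟩
        obtain ⟨g, hg, hgw⟩ := hw v hv
        refine ⟨h * g * h⁻¹, ?_, ?_⟩
        · rw [mul_smul, mul_smul, inv_smul_smul, hg]
        · change (h * g * h⁻¹) • h • w = h • v
          rw [mul_smul, mul_smul, inv_smul_smul, hgw])
    (by
      intro s
      obtain ⟨w, hw⟩ : ∃ w : D.X, (adm f s).Nonempty → w ∈ adm f s := by
        by_cases hh : (adm f s).Nonempty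
        · exact ⟨hh.some, fun _ => hh.some_mem⟩
        · exact ⟨hne.some, fun h => absurd h hh⟩
      refine ⟨{v | ∃ h : H, h • s = s ∧ h • w = v}, ⟨⟨w, 1, one_smul _ _, one_smul _ _⟩, ?_,
        w, fun v hv => hv⟩, ?_⟩
      · rintro hn v ⟨h, e1, e2⟩
        rw [← e2]
        have := adm_smul (f := f) hs h s w (hw hn)
        rwa [e1] at this
      · intro g hg
        ext v
        rw [Set.mem_smul_set_iff_inv_smul_mem]
        constructor
        · rintro ⟨h, e1, e2⟩
          refine ⟨g * h, by rw [mul_smul, e1, hg], by rw [mul_smul, e2, smul_inv_smul]⟩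
        · rintro ⟨h, e1, e2⟩
          refine ⟨g⁻¹ * h, ?_, by rw [mul_smul, e2]⟩
          rw [mul_smul, e1]
          exact inv_smul_eq_iff.2 hg.symm)
  have hG : D.G.IsTree := D.tree
  have hsm : ∀ (h : H) (x y z : Y), h • ({x, y, z} : Set Y) = {h • x, h • y, h • z} := by
    intro h x y z
    rw [Set.smul_set_insert, Set.smul_set_insert, Set.smul_set_singleton]
  -- the admissible set of a triangle is not empty
  have hadm : ∀ x y z, K.T x y z → (adm f ({x, y, z} : Set Y)).Nonempty := by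
    intro x y z hT
    have hx : Ori D.G (f x) := hf x (K.E_P _ _ (K.T_E _ _ _ hT))
    have hy : Ori D.G (f y) := hf y (K.E_P _ _ (K.T_E _ _ _ (K.T_rot _ _ _ hT)))
    have hz : Ori D.G (f z) :=
      hf z (K.E_P _ _ (K.T_E _ _ _ (K.T_rot _ _ _ (K.T_rot _ _ _ hT))))
    have symm : ∀ a b : Y, LostF (f a) (f b) → LostF (f b) (f a) := fun a b h =>
      ⟨h.1.symm, fun w => by rw [← h.1]; exact h.2 w⟩
    have trans : ∀ a b c : Y, LostF (f a) (f b) → LostF (f b) (f c) → LostF (f a) (f c) :=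
      fun a b c h h' => ⟨h.1.trans h'.1, h.2⟩
    -- reduction to three pairs
    have key : ∀ w : D.X, (¬ LostF (f x) (f y) → w ∈ Zs (f x) (f y)) →
        (¬ LostF (f y) (f z) → w ∈ Zs (f y) (f z)) →
        (¬ LostF (f x) (f z) → w ∈ Zs (f x) (f z)) → w ∈ adm f ({x, y, z} : Set Y) := by
      intro w w1 w2 w3 a ha b hb hab hl
      rcases ha with rfl | rfl | rfl <;> rcases hb with rfl | rfl | rfl
      · exact absurd rfl hab
      · exact w1 hl
      · exact w3 hl
      · rw [Zs_comm]; exact w1 (fun h => hl (symm _ _ h))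
      · exact absurd rfl hab
      · exact w2 hl
      · rw [Zs_comm]; exact w3 (fun h => hl (symm _ _ h))
      · rw [Zs_comm]; exact w2 (fun h => hl (symm _ _ h))
      · exact absurd rfl hab
    by_cases h1 : LostF (f x) (f y)
    · by_cases h3 : LostF (f x) (f z)
      · exact ⟨hne.some, key _ (fun h => absurd h1 h)
          (fun h => absurd (trans _ _ _ (symm _ _ h1) h3) h) (fun h => absurd h3 h)⟩
      · obtain ⟨w, hw⟩ := Zs_nonempty hG hx hz h3
        refine ⟨w, key _ (fun h => absurd h1 h) (fun _ => ?_) (fun _ => hw)⟩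
        rw [← h1.1]; exact hw
    · by_cases h2 : LostF (f y) (f z)
      · obtain ⟨w, hw⟩ := Zs_nonempty hG hx hy h1
        refine ⟨w, key _ (fun _ => hw) (fun h => absurd h2 h) (fun _ => ?_)⟩
        rw [← h2.1]; exact hw
      · by_cases h3 : LostF (f x) (f z)
        · obtain ⟨w, hw⟩ := Zs_nonempty hG hx hy h1
          refine ⟨w, key _ (fun _ => hw) (fun _ => ?_) (fun h => absurd h3 h)⟩
          rw [← h3.1, Zs_comm]; exact hw
        · obtain ⟨w, w1, w2, w3⟩ := exists_centre hG hx hy hz h1 h2 h3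
          exact ⟨w, key _ (fun _ => w1) (fun _ => w2) (fun _ => w3)⟩
  refine ⟨fun x y z => hull D.G (c {x, y, z}), ?_, ?_, ?_, ?_, ?_, ?_, ?_, ?_⟩
  · intro x y z _
    exact hull_conv hG _
  · intro x y z _
    exact (hc _).1.mono (subset_hull _)
  · intro x y z
    have : ({x, y, z} : Set Y) = {y, x, z} := Set.insert_comm _ _ _
    simp only [this]
  · intro x y z
    have : ({x, y, z} : Set Y) = {y, z, x} := by
      ext a
      simp only [Set.mem_insert_iff, Set.mem_singleton_iff]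
      tauto
    simp only [this]
  · intro h x y z w hw
    have h1 := D.tact.hull_smul h _ w hw
    have h2 : (fun x => h • x) '' c {x, y, z} = c {h • x, h • y, h • z} := by
      rw [← hsm, hcs]; rfl
    rw [h2] at h1
    exact h1
  · intro x y z hT hl
    have hx : Ori D.G (f x) := hf x (K.E_P _ _ (K.T_E _ _ _ hT))
    have hy : Ori D.G (f y) := hf y (K.E_P _ _ (K.T_E _ _ _ (K.T_rot _ _ _ hT)))
    refine (Zs_conv hG hx hy).hull_sub ?_
    intro w hw
    have h1 := (hc {x, y, z}).2.1 (hadm x y z hT) hw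
    refine h1 x (by simp) y (by simp) ?_ hl
    intro e
    have := K.T_E _ _ _ hT
    rw [e] at this
    exact K.E_irr _ this
  · intro x y z hT
    have hx : Ori D.G (f x) := hf x (K.E_P _ _ (K.T_E _ _ _ hT))
    have hy : Ori D.G (f y) := hf y (K.E_P _ _ (K.T_E _ _ _ (K.T_rot _ _ _ hT)))
    have hz : Ori D.G (f z) :=
      hf z (K.E_P _ _ (K.T_E _ _ _ (K.T_rot _ _ _ (K.T_rot _ _ _ hT))))
    by_cases h1 : LostF (f x) (f y)
    · exact Or.inl h1
    by_cases h2 : LostF (f y) (f z)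
    · exact Or.inr (Or.inl h2)
    by_cases h3 : LostF (f x) (f z)
    · exact Or.inr (Or.inr (Or.inl h3))
    refine Or.inr (Or.inr (Or.inr ?_))
    have hxy : x ≠ y := by
      intro e
      have := K.T_E _ _ _ hT
      rw [e] at this
      exact K.E_irr _ this
    have hyz : y ≠ z := by
      intro e
      have := K.T_E _ _ _ (K.T_rot _ _ _ hT)
      rw [e] at this
      exact K.E_irr _ this
    have hxz : x ≠ z := by
      intro e
      have := K.T_E _ _ _ (K.T_rot _ _ _ (K.T_rot _ _ _ hT))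
      rw [e] at this
      exact K.E_irr _ this
    obtain ⟨w0, hw0⟩ := (hc {x, y, z}).1
    have hsub := (hc {x, y, z}).2.1 (hadm x y z hT)
    have cen : ∀ w ∈ c {x, y, z}, w ∈ Zs (f x) (f y) ∧ w ∈ Zs (f y) (f z) ∧ w ∈ Zs (f x) (f z) := by
      intro w hw
      have h := hsub hw
      exact ⟨h x (by simp) y (by simp) hxy h1, h y (by simp) z (by simp) hyz h2,
        h x (by simp) z (by simp) hxz h3⟩
    have hone : c {x, y, z} = {w0} := by
      ext w
      constructor
      · intro hw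
        exact centre_unique hG hx hy hz (cen w hw) (cen w0 hw0)
      · rintro rfl
        exact hw0
    refine ⟨w0, ?_⟩
    change hull D.G (c {x, y, z}) = {w0}
    rw [hone]
    apply Set.Subset.antisymm
    · refine Conv.hull_sub ?_ (fun _ h => h)
      intro a ha b hb w hw
      rw [Set.mem_singleton_iff] at ha hb
      rw [ha, hb, SimpleGraph.dist_self] at hw
      have : D.G.dist w0 w = 0 := by omega
      exact ((hG.connected.dist_eq_zero_iff).1 this).symm
    · exact subset_hull _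
  · intro x y z hT
    have hA : InC ↥(stabilizer H x ⊓ stabilizer H y ⊓ stabilizer H z) :=
      InC.mono (fun a ha => ha.1.1) (K.zt x (K.E_P _ _ (K.T_E _ _ _ hT))).inC
    refine hull_cofinite D.tact _ hA _ ?_ ?_
    · rintro a ⟨⟨ax, ay⟩, az⟩ w hw
      replace ax : a • x = x := ax
      replace ay : a • y = y := ay
      replace az : a • z = z := az
      have h1 : c (a • ({x, y, z} : Set Y)) = a • c {x, y, z} := hcs a _
      rw [hsm, ax, ay, az] at h1
      rw [h1]
      exact Set.smul_mem_smul_set hw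
    · obtain ⟨w, hw⟩ := (hc {x, y, z}).2.2
      have hfin : (({x, y, z} : Set Y) ×ˢ (({x, y, z} : Set Y) ×ˢ ({x, y, z} : Set Y))).Finite :=
        (Set.toFinite _).prod ((Set.toFinite _).prod (Set.toFinite _))
      let g : Y × Y × Y → H := fun t =>
        if hh : ∃ h : H, h⁻¹ • x = t.1 ∧ h⁻¹ • y = t.2.1 ∧ h⁻¹ • z = t.2.2 then hh.choose else 1
      have hg : ∀ t : Y × Y × Y, (∃ h : H, h⁻¹ • x = t.1 ∧ h⁻¹ • y = t.2.1 ∧ h⁻¹ • z = t.2.2) →
          (g t)⁻¹ • x = t.1 ∧ (g t)⁻¹ • y = t.2.1 ∧ (g t)⁻¹ • z = t.2.2 := by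
        intro t ht
        have : g t = ht.choose := dif_pos ht
        rw [this]
        exact ht.choose_spec
      apply (hfin.image (fun t => (Quotient.mk'' (g t • w) :
        orbitRel.Quotient ↥(stabilizer H x ⊓ stabilizer H y ⊓ stabilizer H z) D.X))).subset
      rintro _ ⟨v, hv, rfl⟩
      obtain ⟨h, e1, e2⟩ := hw v hv
      have hmem : ∀ a ∈ ({x, y, z} : Set Y), h⁻¹ • a ∈ ({x, y, z} : Set Y) := by
        intro a ha
        rw [← e1] at ha
        obtain ⟨b, hb, rfl⟩ := ha
        change h⁻¹ • (h • b) ∈ _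
        rw [inv_smul_smul]; exact hb
      refine ⟨(h⁻¹ • x, h⁻¹ • y, h⁻¹ • z), ⟨hmem x (by simp), hmem y (by simp),
        hmem z (by simp)⟩, ?_⟩
      obtain ⟨g1, g2, g3⟩ := hg (h⁻¹ • x, h⁻¹ • y, h⁻¹ • z) ⟨h, rfl, rfl, rfl⟩
      change (Quotient.mk'' (g (h⁻¹ • x, h⁻¹ • y, h⁻¹ • z) • w) : orbitRel.Quotient _ D.X) =
        Quotient.mk'' v
      set k := g (h⁻¹ • x, h⁻¹ • y, h⁻¹ • z) with hk
      rw [mk_eq_iff]
      have fixx : ∀ a : Y, k⁻¹ • a = h⁻¹ • a → (k * h⁻¹) • a = a := by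
        intro a ha
        rw [mul_smul, ← ha, smul_inv_smul]
      refine ⟨⟨k * h⁻¹, ⟨⟨fixx x g1, fixx y g2⟩, fixx z g3⟩⟩, ?_⟩
      change (k * h⁻¹) • v = k • w
      rw [mul_smul, ← e2, inv_smul_smul]

end Pool.Agent.SAG
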