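import Pool.Agent.SAG.A42

/-!
# SAG/A51: quotient complexes of slices, generic part
-/

namespace Pool.Agent.SAG

open MulAction
open Pool.Agent.SAF

variable {H : Type} [Group H] {Y : Type} [MulAction H Y] {K : KS H Y} {D : Decomp H}
  {S : Sys H Y K D}

private theorem a51_hr_symm {p q : S.V1} (h : S.hr p q) : S.hr q p := by
  obtain ⟨h1, h2, h3⟩ := h
  refine ⟨h1.symm, K.E_symm _ _ h2, ?_⟩
  rw [← S.SE_symm _ _ h2, ← h1]
  exact h3

private theorem a51_cm_hr {p q : S.V1} (h : S.hr p q) : S.cm p = S.cm q :=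
  Quotient.sound (Relation.EqvGen.rel _ _ h)

private theorem a51_Tp_hr {l : S.LV} {p q s : S.V1} (h : S.Tp l p q s) : S.hr p q := by
  obtain ⟨h1, h2, h3, h4, h5⟩ := h
  exact ⟨h1, K.T_E _ _ _ h3, S.ST_sub _ _ _ h3 h4⟩

private theorem a51_Tp_swap {l : S.LV} {p q s : S.V1} (h : S.Tp l p q s) : S.Tp l q p s := by
  have h0 := a51_Tp_hr h
  obtain ⟨h1, h2, h3, h4, h5⟩ := h
  refine ⟨h1.symm, h1.trans h2, K.T_swap _ _ _ h3, ?_, ?_⟩
  · rw [← S.ST_swap _ _ _ h3, ← h1]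
    exact h4
  · rw [← a51_cm_hr h0]
    exact h5

private theorem a51_Tp_rot {l : S.LV} {p q s : S.V1} (h : S.Tp l p q s) : S.Tp l q s p := by
  have h0 := a51_Tp_hr h
  obtain ⟨h1, h2, h3, h4, h5⟩ := h
  refine ⟨h2, (h1.trans h2).symm, K.T_rot _ _ _ h3, ?_, ?_⟩
  · rw [← S.ST_rot _ _ _ h3, ← h1]
    exact h4
  · rw [← a51_cm_hr h0]
    exact h5

private theorem a51_Tp_smul {l : S.LV} {p q s : S.V1} (g : H) (h : S.Tp l p q s) :
    S.Tp (g • l) (g • p) (g • q) (g • s) := by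
  obtain ⟨h1, h2, h3, h4, h5⟩ := h
  refine ⟨congrArg (g • ·) h1, congrArg (g • ·) h2, K.T_smul g _ _ _ h3,
    S.ST_smul g _ _ _ _ h3 h4, ?_⟩
  rw [S.cm_smul, h5]

private theorem a51_eq {p q : S.V1} (h1 : p.1.1 = q.1.1) (h2 : p.1.2 = q.1.2) : p = q :=
  Subtype.ext (Prod.ext h1 h2)

private theorem a51_pr {l : S.LV} {p : S.V1} (h : S.cm p = l) : p.1.2 = S.pr l := by
  rw [← h]
  rfl

private theorem a51_rc {R : IRel S} {p q : S.V1} : R.c p = R.c q ↔ R.r p q :=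
  ⟨fun h => Quotient.exact h, fun h => Quotient.sound h⟩

/-- The lifted cochain satisfies the triangle condition on the slice. -/
theorem IRel.lift_tri (R : IRel S) (l : S.LV) (φ : R.Q → R.Q → ZMod 2)
    (hsymm : ∀ x y, φ x y = φ y x)
    (hT : ∀ x y z, R.T l x y z → φ x y + φ y z + φ x z = 0) (p q s : S.V1) (h : S.Tp l p q s) :
    R.lift φ p q + R.lift φ q s + R.lift φ p s = 0 := by
  have two : ∀ a : ZMod 2, a + a = 0 := by decide
  unfold IRel.lift
  by_cases h1 : R.c p = R.c q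
  · by_cases h2 : R.c q = R.c s
    · rw [if_pos h1, if_pos h2, if_pos (h1.trans h2)]
      rfl
    · rw [if_pos h1, if_neg h2, if_neg (by rw [h1]; exact h2), h1, zero_add]
      exact two _
  · by_cases h2 : R.c q = R.c s
    · rw [if_neg h1, if_pos h2, if_neg (by rw [← h2]; exact h1), ← h2, add_zero]
      exact two _
    · by_cases h3 : R.c p = R.c s
      · rw [if_neg h1, if_neg h2, if_pos h3, add_zero, h3, hsymm (R.c q) (R.c s)]
        exact two _
      · rw [if_neg h1, if_neg h2, if_neg h3]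
        exact hT _ _ _ ⟨h1, h2, h3, p, q, s, h, rfl, rfl, rfl⟩

theorem IRel.lift_symm (R : IRel S) (φ : R.Q → R.Q → ZMod 2) (hsymm : ∀ x y, φ x y = φ y x)
    (p q : S.V1) : R.lift φ p q = R.lift φ q p := by
  unfold IRel.lift
  by_cases h1 : R.c p = R.c q
  · rw [if_pos h1, if_pos h1.symm]
  · rw [if_neg h1, if_neg (fun e => h1 e.symm), hsymm]

private theorem a51_mem {l : S.LV} {h : H} {p q : S.V1} (hp : S.cm p = l) (hq : S.cm q = l)
    (e : h • p = q) : h ∈ stabilizer H l := by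
  show h • l = l
  rw [← hp, ← S.cm_smul, e, hq, hp]

/-- The quotient of the slice `l` by the relation `R` is a complex for the stabiliser of `l`, if the
stabilisers of classes are cyclic, lost edges are collapsed and every cocycle has a primitive on the
slice which is constant on classes. -/
theorem IRel.exists_ks (R : IRel S) (l : S.LV)
    (hlost : ∀ p q, S.hr p q → LostF (S.f p.1.1) (S.f q.1.1) → R.r p q)
    (hcyc : ∀ p, S.cm p = l → ∀ A : Subgroup ↥(stabilizer H l), (∀ h ∈ A, R.r (h.1 • p) p) →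
      Zt ↥A)
    (hH1 : ∀ φ : R.Q → R.Q → ZMod 2, (∀ x y, φ x y = φ y x) →
      (∀ x y z, R.T l x y z → φ x y + φ y z + φ x z = 0) →
      ∃ g : S.V1 → ZMod 2, (∀ p q, S.hr p q → S.cm p = l → R.lift φ p q = g p + g q) ∧
        ∀ p q, R.r p q → S.cm p = l → g p = g q) :
    ∃ K' : KS ↥(stabilizer H l) R.Q, K'.P = R.P l ∧ K'.E = R.E l ∧ K'.T = R.T l := by
  classical
  have stab : ∀ h : ↥(stabilizer H l), h.1 • l = l := fun h => h.2
  refine ⟨{
    P := R.P l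
    E := R.E l
    T := R.T l
    E_symm := ?_
    E_irr := ?_
    E_P := ?_
    T_swap := ?_
    T_rot := ?_
    T_E := ?_
    P_smul := ?_
    E_smul := ?_
    T_smul := ?_
    ne := ?_
    conn := ?_
    H1 := ?_
    finP := ?_
    finE := ?_
    finT := ?_
    zt := ?_ }, rfl, rfl, rfl⟩
  · rintro x y ⟨h1, p, q, h2, h3, h4, h5⟩
    exact ⟨h1.symm, q, p, a51_hr_symm h2, (a51_cm_hr h2).symm.trans h3, h5, h4⟩
  · rintro x ⟨h1, -⟩
    exact h1 rfl
  · rintro x y ⟨-, p, q, -, h3, h4, -⟩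
    exact ⟨p, h3, h4⟩
  · rintro x y z ⟨h1, h2, h3, p, q, s, h4, h5, h6, h7⟩
    exact ⟨h1.symm, h3, h2, q, p, s, a51_Tp_swap h4, h6, h5, h7⟩
  · rintro x y z ⟨h1, h2, h3, p, q, s, h4, h5, h6, h7⟩
    exact ⟨h2, h3.symm, h1.symm, q, s, p, a51_Tp_rot h4, h6, h7, h5⟩
  · rintro x y z ⟨h1, h2, h3, p, q, s, h4, h5, h6, h7⟩
    exact ⟨h1, p, q, a51_Tp_hr h4, h4.2.2.2.2, h5, h6⟩
  · rintro h x ⟨p, h1, h2⟩
    refine ⟨h.1 • p, ?_, ?_⟩
    · rw [S.cm_smul, h1, stab]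
    · rw [R.c_smul, h2]
      rfl
  · rintro h x y ⟨h1, p, q, h2, h3, h4, h5⟩
    refine ⟨fun e => h1 (smul_left_cancel h e), h.1 • p, h.1 • q, S.hr_smul _ _ _ h2, ?_, ?_, ?_⟩
    · rw [S.cm_smul, h3, stab]
    · rw [R.c_smul, h4]
      rfl
    · rw [R.c_smul, h5]
      rfl
  · rintro h x y z ⟨h1, h2, h3, p, q, s, h4, h5, h6, h7⟩
    refine ⟨fun e => h1 (smul_left_cancel h e), fun e => h2 (smul_left_cancel h e),
      fun e => h3 (smul_left_cancel h e), h.1 • p, h.1 • q, h.1 • s, ?_, ?_, ?_, ?_⟩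
    · have := a51_Tp_smul h.1 h4
      rwa [stab] at this
    · rw [R.c_smul, h5]
      rfl
    · rw [R.c_smul, h6]
      rfl
    · rw [R.c_smul, h7]
      rfl
  · obtain ⟨p, hp⟩ := Quotient.exists_rep l
    exact ⟨R.c p, p, hp, rfl⟩
  · rintro x ⟨p, hp, rfl⟩ y ⟨q, hq, rfl⟩
    have hx : S.In p.1.1 l := (S.In_iff _ _).2 ⟨p, rfl, hp⟩
    have hy : S.In q.1.1 l := (S.In_iff _ _).2 ⟨q, rfl, hq⟩
    have key : ∀ y, Relation.ReflTransGen (S.PE l) p.1.1 y → ∀ q : S.V1, S.cm q = l →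
        q.1.1 = y → Relation.ReflTransGen (R.E l) (R.c p) (R.c q) := by
      intro y hy
      induction hy with
      | refl =>
        intro q hq e
        have : p = q := a51_eq e.symm ((a51_pr hp).trans (a51_pr hq).symm)
        rw [this]
      | tail _ hbc ih =>
        rename_i b c _
        intro q hq e
        obtain ⟨e1, e2, e3, e4⟩ := hbc
        obtain ⟨q', hq1, hq2⟩ := (S.In_iff _ _).1 e3
        have h := ih q' hq2 hq1
        have hhr : S.hr q' q := by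
          refine ⟨(a51_pr hq2).trans (a51_pr hq).symm, ?_, ?_⟩
          · rw [hq1, e]
            exact e1
          · rw [hq1, e, a51_pr hq2]
            exact e2
        by_cases hc : R.c q' = R.c q
        · rw [← hc]
          exact h
        · exact h.tail ⟨hc, q', q, hhr, hq2, rfl, rfl⟩
    exact key _ (S.slice_conn l _ _ hx hy) q hq rfl
  · intro φ hs hT
    obtain ⟨g, hg1, hg2⟩ := hH1 φ hs hT
    refine ⟨fun c => if h : ∃ p, S.cm p = l ∧ R.c p = c then g h.choose else 0, ?_⟩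
    have val : ∀ p, S.cm p = l →
        (if h : ∃ p', S.cm p' = l ∧ R.c p' = R.c p then g h.choose else 0) = g p := by
      intro p hp
      have h : ∃ p', S.cm p' = l ∧ R.c p' = R.c p := ⟨p, hp, rfl⟩
      rw [dif_pos h]
      exact hg2 _ _ (a51_rc.1 h.choose_spec.2) h.choose_spec.1
    rintro x y ⟨h1, p, q, h2, h3, rfl, rfl⟩
    have h4 := hg1 p q h2 h3
    have h5 : R.lift φ p q = φ (R.c p) (R.c q) := by
      unfold IRel.lift
      rw [if_neg h1]
    rw [← h5, h4]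
    exact (congrArg₂ (· + ·) (val p h3) (val q ((a51_cm_hr h2).symm.trans h3))).symm
  · have h1 : FinOrb ↥(stabilizer H l) {p : S.V1 | S.cm p = l} := by
      apply FinOrb.of_inj S.V1_fin (fun p : S.V1 => p) (fun p _ => Set.mem_univ _)
      rintro a ha b hb ⟨h, e⟩
      exact ⟨⟨h, a51_mem ha hb e⟩, e⟩
    apply FinOrb.image h1 R.c
    · rintro b ⟨p, hp, rfl⟩
      exact ⟨p, hp, 1, one_smul _ _⟩
    · rintro a _ b _ ⟨h, rfl⟩
      exact ⟨h, rfl⟩
  · have h1 : FinOrb ↥(stabilizer H l)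
        {p : S.V1 × S.V1 | S.hr p.1 p.2 ∧ S.cm p.1 = l ∧ R.c p.1 ≠ R.c p.2} := by
      apply FinOrb.of_inj S.finE (fun p : S.V1 × S.V1 => ((p.1.1.1, p.2.1.1), p.1.1.2))
      · rintro p ⟨h2, h3, h4⟩
        exact ⟨h2.2.1, fun hl => h4 (a51_rc.2 (hlost _ _ h2 hl)), h2.2.2⟩
      · rintro a ⟨ha1, ha2, -⟩ b ⟨hb1, hb2, -⟩ ⟨h, e⟩
        have e1 : h • a.1.1.1 = b.1.1.1 := congrArg (fun z => z.1.1) e
        have e2 : h • a.2.1.1 = b.2.1.1 := congrArg (fun z => z.1.2) e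
        have e3 : h • a.1.1.2 = b.1.1.2 := congrArg (fun z => z.2) e
        have e4 : h • a.2.1.2 = b.2.1.2 := by rw [← ha1.1, ← hb1.1]; exact e3
        have e5 : h • a.1 = b.1 := a51_eq e1 e3
        have e6 : h • a.2 = b.2 := a51_eq e2 e4
        exact ⟨⟨h, a51_mem ha2 hb2 e5⟩, Prod.ext e5 e6⟩
    apply FinOrb.image h1 (fun p => (R.c p.1, R.c p.2))
    · rintro b ⟨h2, p, q, h3, h4, h5, h6⟩
      refine ⟨(p, q), ⟨h3, h4, ?_⟩, 1, ?_⟩
      · show R.c p ≠ R.c q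
        rw [h5, h6]
        exact h2
      · rw [one_smul]
        exact Prod.ext h5 h6
    · rintro a _ b _ ⟨h, rfl⟩
      exact ⟨h, rfl⟩
  · have h1 : FinOrb ↥(stabilizer H l)
        {p : S.V1 × S.V1 × S.V1 | S.Tp l p.1 p.2.1 p.2.2 ∧ R.c p.1 ≠ R.c p.2.1 ∧
          R.c p.2.1 ≠ R.c p.2.2 ∧ R.c p.1 ≠ R.c p.2.2} := by
      have sing : ∀ p q s : S.V1, S.Tp l p q s → R.c p ≠ R.c q → R.c q ≠ R.c s → R.c p ≠ R.c s →
          ∃ c, S.ST p.1.1 q.1.1 s.1.1 = {c} := by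
        intro p q s h h1 h2 h3
        rcases S.ST_c _ _ _ h.2.2.1 with e | e | e | e
        · exact absurd (a51_rc.2 (hlost _ _ (a51_Tp_hr h) e)) h1
        · exact absurd (a51_rc.2 (hlost _ _ (a51_Tp_hr (a51_Tp_rot h)) e)) h2
        · exact absurd (a51_rc.2 (hlost _ _
            (a51_hr_symm (a51_Tp_hr (a51_Tp_rot (a51_Tp_rot h)))) e)) h3
        · exact e
      apply FinOrb.of_inj K.finT (fun p : S.V1 × S.V1 × S.V1 => (p.1.1.1, p.2.1.1.1, p.2.2.1.1))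
      · rintro p ⟨h2, -⟩
        exact h2.2.2.1
      · rintro a ⟨ha1, ha2, ha3, ha4⟩ b ⟨hb1, hb2, hb3, hb4⟩ ⟨h, e⟩
        have e1 : h • a.1.1.1 = b.1.1.1 := congrArg (fun z => z.1) e
        have e2 : h • a.2.1.1.1 = b.2.1.1.1 := congrArg (fun z => z.2.1) e
        have e3 : h • a.2.2.1.1 = b.2.2.1.1 := congrArg (fun z => z.2.2) e
        obtain ⟨c', hc'⟩ := sing _ _ _ hb1 hb2 hb3 hb4
        have m1 : h • a.1.1.2 ∈ S.ST b.1.1.1 b.2.1.1.1 b.2.2.1.1 := by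
          rw [← e1, ← e2, ← e3]
          exact S.ST_smul h _ _ _ _ ha1.2.2.1 ha1.2.2.2.1
        have m2 : b.1.1.2 ∈ S.ST b.1.1.1 b.2.1.1.1 b.2.2.1.1 := hb1.2.2.2.1
        have e4 : h • a.1.1.2 = b.1.1.2 := by
          rw [hc'] at m1 m2
          exact (Set.mem_singleton_iff.1 m1).trans (Set.mem_singleton_iff.1 m2).symm
        have e5 : h • a.2.1.1.2 = b.2.1.1.2 := by
          rw [← ha1.1, ← hb1.1]
          exact e4
        have e6 : h • a.2.2.1.2 = b.2.2.1.2 := by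
          rw [← ha1.2.1, ← hb1.2.1]
          exact e5
        have f1 : h • a.1 = b.1 := a51_eq e1 e4
        have f2 : h • a.2.1 = b.2.1 := a51_eq e2 e5
        have f3 : h • a.2.2 = b.2.2 := a51_eq e3 e6
        exact ⟨⟨h, a51_mem ha1.2.2.2.2 hb1.2.2.2.2 f1⟩, Prod.ext f1 (Prod.ext f2 f3)⟩
    apply FinOrb.image h1 (fun p => (R.c p.1, R.c p.2.1, R.c p.2.2))
    · rintro b ⟨h2, h3, h4, p, q, s, h5, h6, h7, h8⟩
      refine ⟨(p, q, s), ⟨h5, ?_, ?_, ?_⟩, 1, ?_⟩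
      · show R.c p ≠ R.c q
        rw [h6, h7]
        exact h2
      · show R.c q ≠ R.c s
        rw [h7, h8]
        exact h3
      · show R.c p ≠ R.c s
        rw [h6, h8]
        exact h4
      · rw [one_smul]
        exact Prod.ext h6 (Prod.ext h7 h8)
    · rintro a _ b _ ⟨h, rfl⟩
      exact ⟨h, rfl⟩
  · rintro x ⟨p, hp, rfl⟩
    apply hcyc p hp
    intro h hh
    apply a51_rc.1
    have hh' : h • R.c p = R.c p := hh
    exact hh'

end Pool.Agent.SAG
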