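import Pool.Agent.SAF.A13
import Pool.Agent.SAG.A42
import Pool.Agent.SAG.A50
import Pool.Agent.SAG.A51

/-!
# SAG/A52: the first quotient complexes
-/

namespace Pool.Agent.SAG

open MulAction
open Pool.Agent.SAF

variable {H : Type} [Group H] {Y : Type} [MulAction H Y] {K : KS H Y} {D : Decomp H}
  (S : Sys H Y K D)

private theorem a52_cm_hr {p q : S.V1} (h : S.hr p q) : S.cm p = S.cm q :=
  Quotient.sound (Relation.EqvGen.rel _ _ h)

private theorem a52_rc {R : IRel S} {p q : S.V1} : R.c p = R.c q ↔ R.r p q :=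
  ⟨fun h => Quotient.exact h, fun h => Quotient.sound h⟩

private theorem a52_eq {p q : S.V1} (h1 : p.1.1 = q.1.1) (h2 : p.1.2 = q.1.2) : p = q :=
  Subtype.ext (Prod.ext h1 h2)

private theorem a52_pr {l : S.LV} {p : S.V1} (h : S.cm p = l) : p.1.2 = S.pr l := by
  rw [← h]
  rfl

private theorem a52_E_P' {x y : Y} (h : K.E x y) : y ∈ K.P := K.E_P _ _ (K.E_symm _ _ h)

private theorem a52_far_of {p p' : S.V1} (h1 : p.1.1 = p'.1.1) (h2 : S.f p.1.1 p.1.2 = p'.1.2)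
    (h3 : S.f p.1.1 p.1.2 ≠ p.1.2) : S.Far (S.cm p) (S.cm p') p.1.1 := by
  have i1 : S.In p.1.1 (S.cm p) := S.In_cm p
  have i2 : S.In p.1.1 (S.cm p') := (S.In_iff _ _).2 ⟨p', h1.symm, rfl⟩
  refine ⟨⟨?_, p.1.1, i1, i2⟩, i1, i2, ?_⟩
  · rw [S.pr_cm, S.pr_cm, ← h2]
    exact ((S.ori _ p.2.1).ok _).resolve_left h3
  · rw [S.pr_cm, S.pr_cm]
    exact h2

theorem Sys.XR_lost (p q : S.V1) (h : S.hr p q) (hl : LostF (S.f p.1.1) (S.f q.1.1)) :
    S.XR.r p q := by
  obtain ⟨h1, h2, h3⟩ := h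
  have hSE := S.SE_lost _ _ h2 hl
  have hq : ∀ u, S.f q.1.1 u ≠ u := by
    intro u
    rw [← hl.1]
    exact hl.2 u
  have m1 : S.f p.1.1 p.1.2 ∈ S.SV p.1.1 := S.fwd _ p.2.1 hl.2 _ p.2.2
  have m2 : S.f p.1.1 p.1.2 ∈ S.SV q.1.1 := by
    rw [hl.1, h1]
    exact S.fwd _ q.2.1 hq _ q.2.2
  obtain ⟨p', hp'⟩ : ∃ p' : S.V1, p' = ⟨(p.1.1, S.f p.1.1 p.1.2), p.2.1, m1⟩ := ⟨_, rfl⟩
  obtain ⟨q', hq'⟩ : ∃ q' : S.V1, q' = ⟨(q.1.1, S.f p.1.1 p.1.2), q.2.1, m2⟩ := ⟨_, rfl⟩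
  have f1 : S.Far (S.cm p) (S.cm p') p.1.1 := by
    apply a52_far_of S
    · rw [hp']
    · rw [hp']
    · exact hl.2 _
  have f2 : S.Far (S.cm q) (S.cm q') q.1.1 := by
    apply a52_far_of S
    · rw [hq']
    · rw [hq']
      show S.f q.1.1 q.1.2 = S.f p.1.1 p.1.2
      exact congrArg₂ (fun (a : D.X → D.X) (b : D.X) => a b) hl.1.symm h1.symm
    · exact hq _
  have hhr : S.hr p' q' := by
    refine ⟨?_, ?_, ?_⟩
    · rw [hp', hq']
    · rw [hp', hq']
      exact h2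
    · rw [hp', hq']
      show S.f p.1.1 p.1.2 ∈ S.SE p.1.1 q.1.1
      rw [hSE]
      exact ⟨m1, m2⟩
  have e1 : S.cm p = S.cm q := a52_cm_hr S ⟨h1, h2, h3⟩
  have e2 : S.cm p' = S.cm q' := a52_cm_hr S hhr
  refine Or.inr ⟨e1, S.cm p', f1, ?_⟩
  rw [e1, e2]
  exact f2

/-- the two ends of an edge of a strip which is not lost: exactly one is far -/
theorem Sys.strip_far (l l' : S.LV) (h : S.LAdj l l') (x y : Y) (hxy : S.DE l l' x y)
    (hn : ¬ LostF (S.f x) (S.f y)) : (S.Far l l' x ↔ ¬ S.Far l l' y) ∧ (S.Far l l' x ↔ S.Far l' l y) := by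
  obtain ⟨⟨e1, e2, e3, e4⟩, ⟨-, e6, e7, e8⟩⟩ := hxy
  have hx : x ∈ K.P := K.E_P _ _ e1
  have hy : y ∈ K.P := a52_E_P' e1
  have u := S.SE_Z _ _ e1 hn e2
  have w := S.SE_Z _ _ e1 hn e6
  obtain ⟨z1, z2, z3, z4⟩ := Zs_adj (S.ori x hx) (S.ori y hy) u w h.1
  have k1 : S.Far l l' x ↔ S.f x (S.pr l) = S.pr l' := ⟨fun k => k.2.2.2, fun k => ⟨h, e3, e7, k⟩⟩
  have k2 : S.Far l l' y ↔ S.f y (S.pr l) = S.pr l' := ⟨fun k => k.2.2.2, fun k => ⟨h, e4, e8, k⟩⟩
  have k3 : S.Far l' l y ↔ S.f y (S.pr l') = S.pr l :=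
    ⟨fun k => k.2.2.2, fun k => ⟨S.LAdj_symm _ _ h, e8, e4, k⟩⟩
  rw [k1, k2, k3]
  refine ⟨⟨fun a b => z4 ⟨a, b⟩, fun a => z3.resolve_right a⟩, z1⟩

/-- far vertices at one edge are equivalent -/
private theorem a52_far_r {l l' : S.LV} {p q : S.V1} (hp : S.cm p = l) (hq : S.cm q = l)
    (h1 : S.Far l l' p.1.1) (h2 : S.Far l l' q.1.1) : S.XR.c p = S.XR.c q := by
  apply (a52_rc S).2
  refine Or.inr ⟨hp.trans hq.symm, l', ?_, ?_⟩
  · rw [hp]
    exact h1
  · rw [hp]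
    exact h2

theorem Sys.XR_exists_ks {M : ℕ} (hG : Gd M H) (l : S.LV) : ∃ K' : KS ↥(stabilizer H l) S.XR.Q,
    K'.P = S.XR.P l ∧ K'.E = S.XR.E l ∧ K'.T = S.XR.T l := by
  classical
  apply S.XR.exists_ks l S.XR_lost
  · intro p hp A hA
    have hl : ∀ h : ↥(stabilizer H l), h.1 • l = l := fun h => h.2
    by_cases hf : ∃ l', S.Far l l' p.1.1
    · obtain ⟨l', hl'⟩ := hf
      have hmap : A.map (stabilizer H l).subtype ≤ S.J l l' := by
        rintro _ ⟨h, hh, rfl⟩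
        have h1 : h.1 • l = l := hl h
        have h2 : S.Far l (h.1 • l') (h.1 • p.1.1) := by
          have := S.Far_smul h.1 _ _ _ hl'
          rwa [h1] at this
        have h3 : h.1 • l' = l' := by
          rcases hA h hh with e | ⟨e, l'', e1, e2⟩
          · have e' : h.1 • p.1.1 = p.1.1 := congrArg (fun z : S.V1 => z.1.1) e
            rw [e'] at h2
            exact S.Far_eq h2 hl'
          · have hc : S.cm (h.1 • p) = l := e.trans hp
            rw [hc] at e1 e2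
            have e3 := S.Far_eq e2 hl'
            have e4 : l'' = h.1 • l' := S.Far_eq e1 h2
            exact e4.symm.trans e3
        exact ⟨h1, h3⟩
      have hAdj : S.LAdj l l' := hl'.1
      have hc : Zt ↥(A.map (stabilizer H l).subtype) :=
        hG.zt (InC.mono hmap (S.J_inC l l' hAdj))
      have e : A ≃* ↥(A.map (stabilizer H l).subtype) :=
        A.equivMapOfInjective _ (Subgroup.subtype_injective _)
      exact Zt.of_inj e.toMonoidHom e.injective hc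
    · have hmap : A.map (stabilizer H l).subtype ≤ stabilizer H p.1.1 := by
        rintro _ ⟨h, hh, rfl⟩
        rcases hA h hh with e | ⟨e, l'', e1, e2⟩
        · have e' : h.1 • p.1.1 = p.1.1 := congrArg (fun z : S.V1 => z.1.1) e
          exact e'
        · exfalso
          apply hf
          have hc : S.cm (h.1 • p) = l := e.trans hp
          rw [hc] at e2
          exact ⟨l'', e2⟩
      have hc : Zt ↥(A.map (stabilizer H l).subtype) :=
        hG.zt (InC.mono hmap (K.zt _ p.2.1).inC)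
      have e : A ≃* ↥(A.map (stabilizer H l).subtype) :=
        A.equivMapOfInjective _ (Subgroup.subtype_injective _)
      exact Zt.of_inj e.toMonoidHom e.injective hc
  · intro φ hs hT
    -- the value at a class, seen from the far vertices of `l l'`
    obtain ⟨F, hF⟩ : ∃ F : S.LV → S.XR.Q → ZMod 2, F = fun l' c =>
        if h : ∃ q, S.cm q = l ∧ S.Far l l' q.1.1 ∧ S.XR.E l c (S.XR.c q) then
          φ c (S.XR.c h.choose) else 0 := ⟨_, rfl⟩
    have F1 : ∀ l' c q, S.cm q = l → S.Far l l' q.1.1 → S.XR.E l c (S.XR.c q) →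
        F l' c = φ c (S.XR.c q) := by
      intro l' c q h1 h2 h3
      have h : ∃ q, S.cm q = l ∧ S.Far l l' q.1.1 ∧ S.XR.E l c (S.XR.c q) := ⟨q, h1, h2, h3⟩
      rw [hF]
      dsimp only
      rw [dif_pos h]
      rw [a52_far_r S h.choose_spec.1 h1 h.choose_spec.2.1 h2]
    have F2 : ∀ l' q, S.cm q = l → S.Far l l' q.1.1 → F l' (S.XR.c q) = 0 := by
      intro l' q h1 h2
      rw [hF]
      dsimp only
      rw [dif_neg]
      rintro ⟨q', h3, h4, h5⟩
      exact h5.1 (a52_far_r S h1 h3 h2 h4)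
    obtain ⟨hh, hhh⟩ : ∃ hh : S.LV → Y → ZMod 2, hh = fun l' n =>
        if h : n ∈ K.P ∧ S.pr l ∈ S.SV n then F l' (S.XR.c ⟨(n, S.pr l), h⟩) else 0 := ⟨_, rfl⟩
    have hh1 : ∀ l' p, S.cm p = l → hh l' p.1.1 = F l' (S.XR.c p) := by
      intro l' p hp
      have h : p.1.1 ∈ K.P ∧ S.pr l ∈ S.SV p.1.1 := by
        rw [← a52_pr S hp]
        exact p.2
      have e : (⟨(p.1.1, S.pr l), h⟩ : S.V1) = p := a52_eq S rfl (a52_pr S hp).symm
      rw [hhh]
      dsimp only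
      rw [dif_pos h, e]
    have hstrip : ∀ l', S.LAdj l l' → ∀ p q : S.V1, S.hr p q → S.cm p = l →
        S.DE l l' p.1.1 q.1.1 → S.XR.lift φ p q = hh l' p.1.1 + hh l' q.1.1 := by
      intro l' hl' p q hpq hp hde
      have hq : S.cm q = l := (a52_cm_hr S hpq).symm.trans hp
      have hqp : S.hr q p := by
        refine ⟨hpq.1.symm, K.E_symm _ _ hpq.2.1, ?_⟩
        rw [← S.SE_symm _ _ hpq.2.1, ← hpq.1]
        exact hpq.2.2
      rw [hh1 l' p hp, hh1 l' q hq]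
      by_cases hlost : LostF (S.f p.1.1) (S.f q.1.1)
      · have e : S.XR.c p = S.XR.c q := (a52_rc S).2 (S.XR_lost p q hpq hlost)
        unfold IRel.lift
        rw [if_pos e, e, CharTwo.add_self_eq_zero]
      · have hfar := (S.strip_far l l' hl' _ _ hde hlost).1
        by_cases hx : S.Far l l' p.1.1
        · rw [F2 l' p hp hx, zero_add]
          unfold IRel.lift
          by_cases e : S.XR.c p = S.XR.c q
          · rw [if_pos e, ← e, F2 l' p hp hx]
          · rw [if_neg e]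
            rw [F1 l' (S.XR.c q) p hp hx ⟨fun h => e h.symm, q, p, hqp, hq, rfl, rfl⟩]
            exact hs _ _
        · have hy : S.Far l l' q.1.1 := by
            by_contra hy
            exact hx (hfar.2 hy)
          rw [F2 l' q hq hy, add_zero]
          unfold IRel.lift
          by_cases e : S.XR.c p = S.XR.c q
          · rw [if_pos e, e, F2 l' q hq hy]
          · rw [if_neg e]
            rw [F1 l' (S.XR.c p) q hq hy ⟨e, p, q, hpq, hp, rfl, rfl⟩]
    obtain ⟨g, hg1, hg2⟩ := S.merge l (S.XR.lift φ) (S.XR.lift_symm φ hs)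
      (fun p q s h => S.XR.lift_tri l φ hs hT p q s h) hh hstrip
    refine ⟨g, hg1, ?_⟩
    rintro p q (rfl | ⟨e, l', h1, h2⟩) hp
    · rfl
    · rw [hp] at h1 h2
      have hq : S.cm q = l := e.symm.trans hp
      have h3 := hg2 l' h1.1 p q hp hq h1.2.2.1 h2.2.2.1
      rw [hh1 l' p hp, hh1 l' q hq, F2 l' p hp h1, F2 l' q hq h2, add_zero] at h3
      exact CharTwo.add_eq_zero.1 h3

end Pool.Agent.SAG
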