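import Pool.Agent.SAG.A52
import Pool.Agent.SAG.A54

/-!
# SAG/A53: tightness of the minimal complex (copy of `SAF.A53`)
-/

namespace Pool.Agent.SAG

open MulAction
open Pool.Agent.SAF

variable {H : Type} [Group H] {Y : Type} [MulAction H Y] {K : KS H Y} {D : Decomp H}
  (S : Sys H Y K D)

private theorem a53_tp_hr {l : S.LV} {p q s : S.V1} (h : S.Tp l p q s) : S.hr p q := by
  obtain ⟨h1, h2, h3, h4, h5⟩ := h
  exact ⟨h1, K.T_E _ _ _ h3, S.ST_sub _ _ _ h3 h4⟩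

private theorem a53_eq {p q : S.V1} (h1 : p.1.1 = q.1.1) (h2 : p.1.2 = q.1.2) : p = q :=
  Subtype.ext (Prod.ext h1 h2)

/-- the triangles of `K` which do not degenerate under `R` and sit at the orbit of `l` -/
private def a53_ND (R : IRel S) (l : S.LV) : Set (Y × Y × Y) :=
  {t : Y × Y × Y | ∃ p q s : S.V1, p.1.1 = t.1 ∧ q.1.1 = t.2.1 ∧ s.1.1 = t.2.2 ∧
      S.Tp (S.cm p) p q s ∧ ¬ R.r p q ∧ ¬ R.r q s ∧ ¬ R.r p s ∧ ∃ h : H, S.cm p = h • l}

private theorem a53_ND_sub (R : IRel S) (l : S.LV) :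
    a53_ND S R l ⊆ {p : Y × Y × Y | K.T p.1 p.2.1 p.2.2} := by
  rintro ⟨a, b, c⟩ ⟨p, q, s, rfl, rfl, rfl, h, -⟩
  exact h.2.2.1

private theorem a53_inv_r (R : IRel S) (h : H) {p q : S.V1} (e : ¬ R.r p q) :
    ¬ R.r (h • p) (h • q) := by
  intro e'
  apply e
  have := R.inv h⁻¹ _ _ e'
  rwa [inv_smul_smul, inv_smul_smul] at this

private theorem a53_ND_smul (R : IRel S) (l : S.LV) (h : H) (t : Y × Y × Y)
    (ht : t ∈ a53_ND S R l) : h • t ∈ a53_ND S R l := by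
  obtain ⟨p, q, s, e1, e2, e3, hT, n1, n2, n3, g, hg⟩ := ht
  refine ⟨h • p, h • q, h • s, ?_, ?_, ?_, ?_, a53_inv_r S R h n1, a53_inv_r S R h n2,
    a53_inv_r S R h n3, h * g, ?_⟩
  · show h • p.1.1 = h • t.1
    rw [e1]
  · show h • q.1.1 = h • t.2.1
    rw [e2]
  · show h • s.1.1 = h • t.2.2
    rw [e3]
  · obtain ⟨a1, a2, a3, a4, a5⟩ := hT
    refine ⟨?_, ?_, K.T_smul h _ _ _ a3, S.ST_smul h _ _ _ _ a3 a4, rfl⟩
    · show h • p.1.2 = h • q.1.2
      rw [a1]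
    · show h • q.1.2 = h • s.1.2
      rw [a2]
  · rw [S.cm_smul, hg, mul_smul]

private theorem a53_mem_of_orbs (R : IRel S) (l : S.LV) (t : Y × Y × Y)
    (ht : (Quotient.mk'' t : orbitRel.Quotient H (Y × Y × Y)) ∈ orbs H (a53_ND S R l)) :
    t ∈ a53_ND S R l := by
  obtain ⟨y, hy, e⟩ := ht
  obtain ⟨h, hh⟩ := mk_eq_iff.1 e.symm
  rw [← hh]
  exact a53_ND_smul S R l h y hy

/-- For a minimal complex nothing is lost and all triangles sit at one orbit of vertices of the new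
tree, whose stabilisers are bad. -/
theorem Sys.exists_ctr {M : ℕ} (hG : Gd M H) (bad : ¬ SA H) (hmin : MinT M K.t) (h1 : K.AllTri)
    (h2 : K.LinkConn) (h3 : ∃ x y z, K.T x y z) : ∃ l0, S.Ctr l0 := by
  obtain ⟨l, hl⟩ := S.exists_bad bad
  obtain ⟨K', -, -, hT⟩ := S.XR_exists_ks hG l
  have hle := S.XR.t_le l S.XR_lost K' hT
  have hle2 : K.t ≤ K'.t := hmin _ _ K' (hG.sub _) hl
  have hfin : FinOrb H {p : Y × Y × Y | K.T p.1 p.2.1 p.2.2} := K.finT
  have hsub := orbs_mono (H := H) (a53_ND_sub S S.XR l)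
  have heq : orbs H (a53_ND S S.XR l) = orbs H {p : Y × Y × Y | K.T p.1 p.2.1 p.2.2} := by
    apply Set.eq_of_subset_of_ncard_le hsub ?_ hfin
    exact hle2.trans hle
  have hall : ∀ x y z, K.T x y z → (x, y, z) ∈ a53_ND S S.XR l := by
    intro x y z hxyz
    apply a53_mem_of_orbs
    rw [heq]
    exact ⟨(x, y, z), hxyz, rfl⟩
  have hlost : ∀ x y, K.E x y → ¬ LostF (S.f x) (S.f y) := by
    intro x y hxy hL
    obtain ⟨z, hz⟩ := h1 x y hxy
    obtain ⟨p, q, s, e1, e2, e3, hTp, n1, -⟩ := hall x y z hz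
    simp only at e1 e2 e3
    apply n1
    apply S.XR_lost p q (a53_tp_hr S hTp)
    rw [e1, e2]
    exact hL
  refine ⟨l, hl, hlost, ?_⟩
  intro p q s hTp
  obtain ⟨p', q', s', e1, e2, e3, hTp', -, -, -, hg⟩ := hall _ _ _ hTp.2.2.1
  simp only at e1 e2 e3
  have t := hTp.2.2.1
  have hc : ∃ c, S.ST p.1.1 q.1.1 s.1.1 = {c} := by
    rcases S.ST_c _ _ _ t with h | h | h | h
    · exact absurd h (hlost _ _ (K.T_E _ _ _ t))
    · exact absurd h (hlost _ _ (K.T_E _ _ _ (K.T_rot _ _ _ t)))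
    · exact absurd h (hlost _ _ (K.E_symm _ _ (K.T_E _ _ _ (K.T_rot _ _ _ (K.T_rot _ _ _ t)))))
    · exact h
  obtain ⟨c, hc⟩ := hc
  have m1 : p.1.2 = c := by
    have := hTp.2.2.2.1
    rw [hc] at this
    exact this
  have m2 : p'.1.2 = c := by
    have := hTp'.2.2.2.1
    rw [e1, e2, e3, hc] at this
    exact this
  have : p' = p := a53_eq S e1 (m2.trans m1.symm)
  rw [← this]
  exact hg

end Pool.Agent.SAG
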