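import Pool.Agent.SAG.Basic
import Pool.Agent.SAF.AOrb

/-!
# SAG: groups which are finite or finite-by-(infinite cyclic), the class of groups, masses of
stabilisers
-/

namespace Pool.Agent.SAG

open MulAction
open Pool.Agent.SAF (InC orbs FinOrb oc Decomp SAn SA Ori Conv hull Zs LostF)

section

variable {G : Type} [Group G] {G' : Type} [Group G']

/-! ### Elements of infinite order -/

theorem not_IO_iff {g : G} : ¬ IO g ↔ IsOfFinOrder g := by
  rw [isOfFinOrder_iff_pow_eq_one]
  unfold IO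
  push Not
  exact Iff.rfl

theorem IO.zpow_ne {g : G} (h : IO g) {n : ℤ} (hn : n ≠ 0) : g ^ n ≠ 1 := by
  intro e
  exact (not_IO_iff.2 (isOfFinOrder_iff_zpow_eq_one.2 ⟨n, hn, e⟩)) h

theorem IO.pow {g : G} (h : IO g) {n : ℕ} (hn : 0 < n) : IO (g ^ n) := by
  intro m hm e
  rw [← pow_mul] at e
  exact h _ (Nat.mul_pos hn hm) e

theorem IO.zpow {g : G} (h : IO g) {n : ℤ} (hn : n ≠ 0) : IO (g ^ n) := by
  intro m hm e
  rw [← zpow_natCast, ← zpow_mul] at e
  exact h.zpow_ne (mul_ne_zero hn (by exact_mod_cast hm.ne')) e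

theorem IO.inv {g : G} (h : IO g) : IO g⁻¹ := by
  have := h.zpow (n := -1) (by norm_num)
  rwa [zpow_neg_one] at this

theorem IO.map_iff (f : G →* G') (hf : Function.Injective f) {g : G} : IO (f g) ↔ IO g := by
  unfold IO
  refine forall_congr' fun n => forall_congr' fun _ => not_congr ?_
  rw [← map_pow]
  constructor
  · intro e; exact hf (by rw [e, map_one])
  · intro e; rw [e, map_one]

theorem IO.coe_iff {S : Subgroup G} {g : S} : IO (g : G) ↔ IO g :=
  IO.map_iff S.subtype S.subtype_injective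

theorem IO.mk_iff {S : Subgroup G} {g : G} {hg : g ∈ S} : IO (⟨g, hg⟩ : S) ↔ IO g :=
  (IO.map_iff S.subtype S.subtype_injective).symm

theorem IO.not_finite {g : G} (h : IO g) : ¬ Finite G := by
  intro hf
  exact (not_IO_iff.2 (isOfFinOrder_of_finite g)) h

theorem IO.conj_iff {g : G} (a : G) : IO (a * g * a⁻¹) ↔ IO g := by
  constructor
  · intro h
    have := h.conj a⁻¹
    have e : a⁻¹ * (a * g * a⁻¹) * a⁻¹⁻¹ = g := by group
    rwa [e] at this
  · intro h; exact h.conj a

/-! ### The class `Zt` -/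

theorem Zt.inj (h : Zt G') (f : G →* G') (hf : Function.Injective f) : Zt G := by
  obtain ⟨φ, hφ⟩ := h
  refine ⟨φ.comp f, ?_⟩
  exact Finite.of_injective (fun x : (φ.comp f).ker => (⟨f x.1, x.2⟩ : φ.ker))
    (fun a b e => Subtype.ext (hf (congrArg Subtype.val e)))

theorem Zt.sub (h : Zt G) (S : Subgroup G) : Zt S := h.inj S.subtype S.subtype_injective

theorem Zt.le {A B : Subgroup G} (hAB : A ≤ B) (h : Zt B) : Zt A :=
  h.inj (Subgroup.inclusion hAB) (Subgroup.inclusion_injective hAB)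

theorem Zt.iso (e : G ≃* G') (h : Zt G) : Zt G' := h.inj e.symm.toMonoidHom e.symm.injective

theorem Zt.of_finite (h : Finite G) : Zt G := ⟨1, inferInstance⟩

theorem Zt.finite_or (h : Zt G) : Finite G ∨ ∃ g : G, IO g := by
  obtain ⟨φ, hφ⟩ := h
  by_cases h1 : ∀ g, φ g = 1
  · left
    exact Finite.of_injective (fun g : G => (⟨g, h1 g⟩ : φ.ker))
      (fun a b e => congrArg Subtype.val e)
  · right
    push Not at h1
    obtain ⟨g, hg⟩ := h1
    refine ⟨g, fun n hn e => hg ?_⟩
    have h2 : φ g ^ n = 1 := by rw [← map_pow, e, map_one]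
    have h3 : (n : ℤ) * Multiplicative.toAdd (φ g) = 0 := by
      have := congrArg Multiplicative.toAdd h2
      rw [toAdd_pow, nsmul_eq_mul, toAdd_one] at this
      exact this
    have h4 : Multiplicative.toAdd (φ g) = 0 := by
      rcases mul_eq_zero.1 h3 with h | h
      · exact absurd (by exact_mod_cast h) hn.ne'
      · exact h
    exact Multiplicative.toAdd.injective (by rw [h4, toAdd_one])

theorem Zt.finite_of (h : Zt G) (h' : ∀ g : G, ¬ IO g) : Finite G := by
  rcases h.finite_or with h1 | ⟨g, hg⟩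
  · exact h1
  · exact absurd hg (h' g)

theorem Zt.not_finite_iff (h : Zt G) : ¬ Finite G ↔ ∃ g : G, IO g := by
  constructor
  · intro hf
    exact h.finite_or.resolve_left hf
  · rintro ⟨g, hg⟩
    exact hg.not_finite

/-- the value of an element of infinite order is not zero -/
theorem IO.map_ne {φ : G →* Multiplicative ℤ} (hφ : Finite φ.ker) {g : G} (h : IO g) :
    Multiplicative.toAdd (φ g) ≠ 0 := by
  intro e
  have h1 : g ∈ φ.ker := by
    rw [MonoidHom.mem_ker]
    exact Multiplicative.toAdd.injective (by rw [e, toAdd_one])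
  have h2 : IO (⟨g, h1⟩ : φ.ker) := IO.mk_iff.2 h
  exact h2.not_finite hφ

/-- two elements of infinite order have a common power -/
theorem Zt.common (h : Zt G) {a b : G} (ha : IO a) (hb : IO b) :
    ∃ m n : ℤ, m ≠ 0 ∧ n ≠ 0 ∧ a ^ m = b ^ n := by
  obtain ⟨φ, hφ⟩ := h
  set x := Multiplicative.toAdd (φ a) with hx
  set y := Multiplicative.toAdd (φ b) with hy
  have hx0 : x ≠ 0 := ha.map_ne hφ
  have hy0 : y ≠ 0 := hb.map_ne hφ
  have hk : ∀ k : ℕ, a ^ (y * k) * (b ^ (x * k))⁻¹ ∈ φ.ker := by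
    intro k
    rw [MonoidHom.mem_ker]
    apply Multiplicative.toAdd.injective
    rw [map_mul, map_inv, map_zpow, map_zpow, toAdd_mul, toAdd_inv, toAdd_zpow, toAdd_zpow,
      ← hx, ← hy, toAdd_one, smul_eq_mul, smul_eq_mul]
    ring
  obtain ⟨i, j, hij, e⟩ := Finite.exists_ne_map_eq_of_infinite
    (fun k : ℕ => (⟨_, hk k⟩ : φ.ker))
  have e1 : a ^ (y * i) * (b ^ (x * i))⁻¹ = a ^ (y * j) * (b ^ (x * j))⁻¹ :=
    congrArg Subtype.val e
  refine ⟨y * i - y * j, x * i - x * j, ?_, ?_, ?_⟩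
  · rw [← mul_sub]
    refine mul_ne_zero hy0 (sub_ne_zero.2 (by exact_mod_cast hij))
  · rw [← mul_sub]
    refine mul_ne_zero hx0 (sub_ne_zero.2 (by exact_mod_cast hij))
  · have e2 : (a ^ (y * j))⁻¹ * a ^ (y * i) = (b ^ (x * j))⁻¹ * b ^ (x * i) := by
      rw [inv_mul_eq_iff_eq_mul, ← mul_assoc, ← mul_inv_eq_iff_eq_mul]
      exact e1
    rw [← zpow_neg, ← zpow_add, ← zpow_neg, ← zpow_add] at e2
    rw [sub_eq_neg_add, sub_eq_neg_add]
    exact e2

/-- two elements of infinite order have a common power, with a positive exponent -/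
theorem Zt.common' (h : Zt G) {a b : G} (ha : IO a) (hb : IO b) :
    ∃ (m : ℕ) (n : ℤ), 0 < m ∧ n ≠ 0 ∧ a ^ m = b ^ n := by
  obtain ⟨m, n, hm, hn, e⟩ := h.common ha hb
  rcases lt_or_gt_of_ne hm with h1 | h1
  · refine ⟨(-m).toNat, -n, by omega, by omega, ?_⟩
    rw [← zpow_natCast, Int.toNat_of_nonneg (by omega), zpow_neg, zpow_neg, e]
  · refine ⟨m.toNat, n, by omega, hn, ?_⟩
    rw [← zpow_natCast, Int.toNat_of_nonneg (by omega), e]

/-- the subgroup generated by an element of infinite order has finite index -/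
theorem Zt.finiteIndex (h : Zt G) {g : G} (hg : IO g) : (Subgroup.zpowers g).FiniteIndex := by
  obtain ⟨φ, hφ⟩ := h
  set y := Multiplicative.toAdd (φ g) with hy
  have hy0 : y ≠ 0 := hg.map_ne hφ
  classical
  have hex : ∀ r : ℤ, ∃ c : G, (∃ u : G, Multiplicative.toAdd (φ u) = r) →
      Multiplicative.toAdd (φ c) = r := by
    intro r
    by_cases h1 : ∃ u : G, Multiplicative.toAdd (φ u) = r
    · obtain ⟨u, hu⟩ := h1
      exact ⟨u, fun _ => hu⟩
    · exact ⟨1, fun h => absurd h h1⟩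
  choose c hc using hex
  have hfin : Finite (G ⧸ Subgroup.zpowers g) := by
    refine Finite.of_surjective (fun p : φ.ker × (Finset.Ico (0 : ℤ) |y|) =>
      (QuotientGroup.mk (p.1.1 * c p.2.1) : G ⧸ Subgroup.zpowers g)) ?_
    intro q
    obtain ⟨u, rfl⟩ := QuotientGroup.mk_surjective q
    set x := Multiplicative.toAdd (φ u) with hx
    have h1 : Multiplicative.toAdd (φ (u * (g ^ (x / y))⁻¹)) = x % y := by
      rw [map_mul, map_inv, map_zpow, toAdd_mul, toAdd_inv, toAdd_zpow, ← hx, ← hy, smul_eq_mul]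
      have := Int.emod_add_mul_ediv x y
      linarith [mul_comm y (x / y)]
    have h2 : Multiplicative.toAdd (φ (c (x % y))) = x % y := hc _ ⟨_, h1⟩
    have h3 : u * (g ^ (x / y))⁻¹ * (c (x % y))⁻¹ ∈ φ.ker := by
      rw [MonoidHom.mem_ker]
      apply Multiplicative.toAdd.injective
      rw [map_mul, map_inv, toAdd_mul, toAdd_inv, h1, h2, toAdd_one]
      ring
    refine ⟨(⟨_, h3⟩, ⟨x % y, ?_⟩), ?_⟩
    · rw [Finset.mem_Ico]
      exact ⟨Int.emod_nonneg _ hy0, Int.emod_lt_abs _ hy0⟩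
    · show (QuotientGroup.mk _ : G ⧸ Subgroup.zpowers g) = QuotientGroup.mk u
      rw [QuotientGroup.eq]
      refine ⟨x / y, ?_⟩
      show g ^ (x / y) = _
      group
  exact Subgroup.finiteIndex_of_finite_quotient

theorem Zt.inC (h : Zt G) : InC G := by
  rcases h.finite_or with h1 | ⟨g, hg⟩
  · exact Or.inl h1
  · exact Or.inr ⟨g, hg, h.finiteIndex hg⟩

theorem InC.of_index {A : Subgroup G} (hi : A.index ≠ 0) (h : InC A) : InC G := by
  rcases h with h | ⟨g, h1, h2⟩
  · left
    have : A.FiniteIndex := ⟨hi⟩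
    have hq : Finite (G ⧸ A) := inferInstance
    exact Finite.of_equiv _ (Subgroup.groupEquivQuotientProdSubgroup (s := A)).symm
  · right
    refine ⟨(g : G), IO.coe_iff.2 h1, ⟨?_⟩⟩
    have hle : Subgroup.zpowers (g : G) ≤ A := by
      rw [Subgroup.zpowers_le]; exact g.2
    rw [← Subgroup.relIndex_mul_index hle]
    refine mul_ne_zero ?_ hi
    have : (Subgroup.zpowers (g : G)).subgroupOf A = Subgroup.zpowers g := by
      ext x
      rw [Subgroup.mem_subgroupOf, Subgroup.mem_zpowers_iff, Subgroup.mem_zpowers_iff]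
      constructor
      · rintro ⟨k, hk⟩
        exact ⟨k, Subtype.ext (by simpa using hk)⟩
      · rintro ⟨k, hk⟩
        exact ⟨k, by rw [← hk]; simp⟩
    unfold Subgroup.relIndex
    rw [this]
    exact h2.index_ne_zero

/-! ### The class of groups -/

theorem Gd.inj {M : ℕ} (h : Gd M G') (f : G →* G') (hf : Function.Injective f) : Gd M G := by
  have e : ∀ A : Subgroup G, Nonempty (↥A ≃* ↥(A.map f)) := fun A =>
    ⟨Subgroup.equivMapOfInjective A f hf⟩
  refine ⟨fun A hA => ?_, fun A hA => ?_⟩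
  · obtain ⟨e⟩ := e A
    exact (h.nod (A.map f) (hA.iso e)).iso e.symm
  · obtain ⟨e⟩ := e A
    have : Finite ↥(A.map f) := Finite.of_equiv _ e.toEquiv
    rw [Nat.card_congr e.toEquiv]
    exact h.bt _ this

theorem Gd.sub {M : ℕ} (h : Gd M G) (S : Subgroup G) : Gd M S :=
  h.inj S.subtype S.subtype_injective

theorem Gd.iso {M : ℕ} (e : G ≃* G') (h : Gd M G) : Gd M G' :=
  h.inj e.symm.toMonoidHom e.symm.injective

theorem Gd.zt {M : ℕ} (h : Gd M G) (h' : InC G) : Zt G := by
  have h1 := h.nod ⊤ (h'.iso (Subgroup.topEquiv (G := G)).symm)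
  exact h1.iso Subgroup.topEquiv

theorem Gd.zt_of_index {M : ℕ} (h : Gd M G) {A : Subgroup G} (hi : A.index ≠ 0) (hA : Zt A) :
    Zt G := h.zt (InC.of_index hi hA.inC)

/-- a subgroup commensurable with a finite or two-ended group -/
theorem Gd.zt_of_relIndex {M : ℕ} (h : Gd M G) {A B : Subgroup G}
    (hi : A.relIndex B ≠ 0) (hA : Zt A) : Zt B := by
  apply (h.sub B).zt_of_index (A := A.subgroupOf B) hi
  refine hA.inj (((B.subtype).comp (A.subgroupOf B).subtype).codRestrict A (fun x => x.2)) ?_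
  intro a b e
  have h1 : (((a : B) : G)) = ((b : B) : G) := congrArg (fun z : A => (z : G)) e
  exact Subtype.ext (Subtype.ext h1)

end

end Pool.Agent.SAG
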