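import Pool.Agent.SAG.ABase
import Pool.Agent.SAF.A11

/-!
# SAG: subgroups with a finite orbit fix a vertex of the tree; finite groups and groups in `Zt` are
strongly accessible
-/

namespace Pool.Agent.SAG

open MulAction
open Pool.Agent.SAF (InC orbs FinOrb oc Decomp SAn SA Ori Conv hull Zs LostF TAct)
open Pool.Agent.SAF

section
variable {X : Type} {G : SimpleGraph X}

/-- passing through the edge `u v` -/
theorem cross_le (hG : G.IsTree) {u v a b : X} (h : G.Adj u v)
    (h1 : G.dist a v = G.dist a u + 1) (h2 : G.dist b u = G.dist b v + 1) :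
    G.dist a b = G.dist a u + 1 + G.dist v b := by
  obtain ⟨h3, h4⟩ := Conv.edge hG (hull_conv hG {a, b}) h (subset_hull _ (by simp))
    (subset_hull _ (by simp)) h1 h2
  have huv : G.dist u v = 1 := SimpleGraph.dist_eq_one_iff_adj.2 h
  have t1 : G.dist a b ≤ G.dist a u + G.dist u b := hG.connected.dist_triangle
  have t2 : G.dist u b ≤ G.dist u v + G.dist v b := hG.connected.dist_triangle
  have c1 : G.dist u b = G.dist b u := SimpleGraph.dist_comm
  have c2 : G.dist v b = G.dist b v := SimpleGraph.dist_comm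
  have c3 : G.dist u a = G.dist a u := SimpleGraph.dist_comm
  have c4 : G.dist v a = G.dist a v := SimpleGraph.dist_comm
  have c5 : G.dist a b = G.dist b a := SimpleGraph.dist_comm
  obtain ⟨p, hp, q, hq, e⟩ := h3
  simp only [Set.mem_insert_iff, Set.mem_singleton_iff] at hp hq
  have saa : G.dist a a = 0 := SimpleGraph.dist_self
  have sbb : G.dist b b = 0 := SimpleGraph.dist_self
  have key : G.dist a u + G.dist u b = G.dist a b := by
    rcases hp with hp | hp <;> rcases hq with hq | hq <;> rw [hp, hq] at e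
    · have h0 : G.dist a u = 0 := by omega
      have h0' := (hG.connected.dist_eq_zero_iff).1 h0
      rw [← h0']
      omega
    · exact e
    · omega
    · have h0 : G.dist u b = 0 := by omega
      have h0' := (hG.connected.dist_eq_zero_iff).1 h0
      rw [h0']
      omega
  omega

end

section
variable {H : Type} [Group H] {X : Type} [MulAction H X] {G : SimpleGraph X}

/-- a subgroup with a finite orbit in a tree (action without inversions) fixes a vertex -/
theorem TAct.fix_of_orbit (hG : TAct H G) (A : Subgroup H) (x0 : X)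
    (hfin : ((fun a : A => (a : H) • x0) '' Set.univ).Finite) : ∃ y : X, ∀ a ∈ A, a • y = y := by
  classical
  set O : Finset X := hfin.toFinset with hO
  have hmem : ∀ z, z ∈ O ↔ ∃ a ∈ A, a • x0 = z := by
    intro z
    rw [hO, Set.Finite.mem_toFinset, Set.mem_image]
    constructor
    · rintro ⟨a, -, e⟩; exact ⟨a, a.2, e⟩
    · rintro ⟨a, ha, e⟩; exact ⟨⟨a, ha⟩, trivial, e⟩
  have hne : O.Nonempty := ⟨x0, (hmem x0).2 ⟨1, A.one_mem, one_smul _ _⟩⟩
  set ecc : X → ℕ := fun v => O.sup (fun z => G.dist v z) with hecc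
  have hle : ∀ v z, z ∈ O → G.dist v z ≤ ecc v := fun v z hz =>
    Finset.le_sup (f := fun z => G.dist v z) hz
  have hinv1 : ∀ a ∈ A, ∀ v, ecc (a • v) ≤ ecc v := by
    intro a ha v
    apply Finset.sup_le
    intro z hz
    obtain ⟨b, hb, rfl⟩ := (hmem z).1 hz
    have h1 : G.dist (a • v) (b • x0) = G.dist v (a⁻¹ • b • x0) := by
      have := hG.dist_smul a v (a⁻¹ • b • x0)
      rw [smul_inv_smul] at this
      exact this
    rw [h1]
    apply hle
    rw [hmem]
    exact ⟨a⁻¹ * b, A.mul_mem (A.inv_mem ha) hb, mul_smul _ _ _⟩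
  have hinv : ∀ a ∈ A, ∀ v, ecc (a • v) = ecc v := by
    intro a ha v
    apply le_antisymm (hinv1 a ha v)
    have := hinv1 a⁻¹ (A.inv_mem ha) (a • v)
    rwa [inv_smul_smul] at this
  -- a vertex of minimal eccentricity
  obtain ⟨v, hv⟩ : ∃ v, ∀ u, ecc v ≤ ecc u := by
    have hex : ∃ n, ∃ v, ecc v = n := ⟨_, x0, rfl⟩
    obtain ⟨v, hv⟩ := Nat.find_spec hex
    exact ⟨v, fun u => by rw [hv]; exact Nat.find_min' hex ⟨u, rfl⟩⟩
  have hadj : ∀ u w, ecc u = ecc v → ecc w = ecc v → u ≠ w → G.Adj u w := by
    intro u w hu hw huw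
    by_contra hna
    obtain ⟨c, hc, ec⟩ := exists_next hG.tree huw
    have hcw : c ≠ w := by
      rintro rfl
      exact hna hc
    have hcw' : G.dist c w ≠ 0 := by
      intro h0
      exact hcw ((hG.tree.connected.dist_eq_zero_iff).1 h0)
    have hlt : ecc c < ecc v := by
      rw [hecc]
      have hpos : 0 < ecc v := by
        by_contra h0
        have h0 : ecc v = 0 := by omega
        obtain ⟨z, hz⟩ := hne
        have h1 := hle u z hz
        have h2 := hle w z hz
        have h3 : G.dist u z = 0 := by omega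
        have h4 : G.dist w z = 0 := by omega
        rw [(hG.tree.connected.dist_eq_zero_iff)] at h3 h4
        exact huw (h3.trans h4.symm)
      apply (Finset.sup_lt_iff hpos).2
      intro z hz
      have h1 := hle u z hz
      have h2 := hle w z hz
      have s1 : G.dist z u = G.dist u z := SimpleGraph.dist_comm
      have s2 : G.dist z w = G.dist w z := SimpleGraph.dist_comm
      have s3 : G.dist z c = G.dist c z := SimpleGraph.dist_comm
      have s4 : G.dist w u = G.dist u w := SimpleGraph.dist_comm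
      have s5 : G.dist w c = G.dist c w := SimpleGraph.dist_comm
      rcases (dist_edge hG.tree hc z).1 with h3 | h3
      · -- z on the side of u
        have h4 := cross_le hG.tree hc (a := z) (b := w) h3 (by omega)
        omega
      · omega
    exact absurd (hv c) (by omega)
  by_cases hall : ∀ a ∈ A, a • v = v
  · exact ⟨v, hall⟩
  · exfalso
    push Not at hall
    obtain ⟨a, ha, hav⟩ := hall
    have h1 : G.Adj (a • v) v := hadj _ _ (hinv a ha v) rfl hav
    have haa : ecc (a • a • v) = ecc v := by rw [hinv a ha, hinv a ha]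
    have h2 : a • a • v ≠ a • v := fun e => hav (by
      have := congrArg (fun z => a⁻¹ • z) e
      simpa using this)
    by_cases h3 : a • a • v = v
    · exact hG.noinv a v (a • v) h1.symm ⟨rfl, h3⟩
    · have h4 : G.Adj (a • a • v) v := hadj _ _ haa rfl h3
      have h5 : G.Adj (a • a • v) (a • v) := hadj _ _ haa (hinv a ha v) h2
      have d1 : G.dist (a • a • v) v = 1 := SimpleGraph.dist_eq_one_iff_adj.2 h4
      have d2 : G.dist (a • a • v) (a • v) = 1 := SimpleGraph.dist_eq_one_iff_adj.2 h5
      rcases (dist_edge hG.tree h1 (a • a • v)).1 with h6 | h6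
      · omega
      · omega

/-- a finite subgroup fixes a vertex -/
theorem TAct.fix_finite (hG : TAct H G) (hne : Nonempty X) (A : Subgroup H) (hA : Finite A) :
    ∃ y : X, ∀ a ∈ A, a • y = y := by
  obtain ⟨x0⟩ := hne
  exact TAct.fix_of_orbit hG A x0 (Set.Finite.image _ Set.finite_univ)

/-- a subgroup in `Zt` with an element of infinite order fixing a vertex fixes a vertex -/
theorem TAct.fix_zt (hG : TAct H G) (A : Subgroup H) (hA : Zt A) {t : H} (ht : t ∈ A) (h : IO t)
    {x : X} (hx : t • x = x) : ∃ y : X, ∀ a ∈ A, a • y = y := by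
  apply TAct.fix_of_orbit hG A x
  have hi : (Subgroup.zpowers (⟨t, ht⟩ : A)).FiniteIndex := hA.finiteIndex (IO.mk_iff.2 h)
  have hq : Finite (A ⧸ Subgroup.zpowers (⟨t, ht⟩ : A)) := inferInstance
  have hp : ∀ k : ℤ, t ^ k • x = x := by
    intro k
    have : t ∈ stabilizer H x := hx
    exact (stabilizer H x).zpow_mem this k
  let F : (A ⧸ Subgroup.zpowers (⟨t, ht⟩ : A)) → X := Quotient.lift (fun a : A => (a : H) • x) (by
    intro a b hab
    have h1 : a⁻¹ * b ∈ Subgroup.zpowers (⟨t, ht⟩ : A) := QuotientGroup.leftRel_apply.1 hab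
    obtain ⟨k, hk⟩ := Subgroup.mem_zpowers_iff.1 h1
    have h2 : (b : H) = a * t ^ k := by
      have h3 := congrArg Subtype.val hk
      simp only [SubgroupClass.coe_zpow, Subgroup.coe_mul, Subgroup.coe_inv] at h3
      rw [h3]; group
    show (a : H) • x = (b : H) • x
    rw [h2, mul_smul, hp])
  apply (Set.finite_range F).subset
  rintro _ ⟨a, -, rfl⟩
  exact ⟨QuotientGroup.mk a, rfl⟩

end

/-! ### Finite groups and groups in `Zt` are strongly accessible -/

theorem SA.of_finite {G : Type} [Group G] (h : Finite G) : SA G := by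
  apply SA.of_empty
  refine ⟨fun D => ?_⟩
  obtain ⟨y, hy⟩ := TAct.fix_finite D.tact D.tree.connected.nonempty ⊤ inferInstance
  obtain ⟨g, hg⟩ := D.nofix y
  exact hg (hy g trivial)

/-- pull back of a decomposition by a homomorphism with finite kernel to the infinite cyclic
group -/
def lineP {G : Type} [Group G] (φ : G →* Multiplicative ℤ) (hφ : Finite φ.ker) (g0 : G)
    (hg0 : Multiplicative.toAdd (φ g0) ≠ 0) : Decomp G :=
  letI : MulAction G ℤ := MulAction.compHom ℤ φ
  have hsm : ∀ (h : G) (x : ℤ), h • x = Multiplicative.toAdd (φ h) + x := fun _ _ => rfl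
  have hz : ∀ (k : ℤ) (x : ℤ), g0 ^ k • x = k * Multiplicative.toAdd (φ g0) + x := fun k x => by
    rw [hsm, map_zpow, toAdd_zpow, smul_eq_mul]
  have hred : ∀ x : ℤ, ∃ k : ℤ, g0 ^ k • x ∈ Set.Ico (0 : ℤ) |Multiplicative.toAdd (φ g0)| :=
    fun x => by
      refine ⟨-(x / Multiplicative.toAdd (φ g0)), ?_⟩
      rw [hz]
      have h1 := Int.emod_nonneg x hg0
      have h2 := Int.emod_lt_abs x hg0
      have h3 := Int.emod_add_mul_ediv x (Multiplicative.toAdd (φ g0))
      rw [Set.mem_Ico]
      constructor <;> linarith [mul_comm (x / Multiplicative.toAdd (φ g0))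
        (Multiplicative.toAdd (φ g0)), neg_mul (x / Multiplicative.toAdd (φ g0))
        (Multiplicative.toAdd (φ g0))]
  { X := ℤ
    G := lineG
    tree := lineG_tree
    adj_smul := fun h x y hxy => by
      rw [hsm, hsm]
      rcases hxy with h1 | h1
      · left; omega
      · right; omega
    noinv := fun h x y hxy => by
      rintro ⟨h1, h2⟩
      rw [hsm] at h1 h2
      rcases hxy with h3 | h3 <;> omega
    finV := by
      rw [FinOrb_iff]
      refine ⟨Set.Ico (0 : ℤ) |Multiplicative.toAdd (φ g0)|, Set.finite_Ico _ _,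
        Set.subset_univ _, fun y _ => ?_⟩
      obtain ⟨k, hk⟩ := hred y
      exact ⟨_, hk, (g0 ^ k)⁻¹, inv_smul_smul _ _⟩
    finE := by
      rw [FinOrb_iff]
      refine ⟨{p : ℤ × ℤ | lineG.Adj p.1 p.2 ∧
        p.1 ∈ Set.Ico (0 : ℤ) |Multiplicative.toAdd (φ g0)|}, ?_, fun p hp => hp.1, ?_⟩
      · apply ((Set.finite_Ico (-1 : ℤ) (|Multiplicative.toAdd (φ g0)| + 1)).prod
          (Set.finite_Ico (-1 : ℤ) (|Multiplicative.toAdd (φ g0)| + 1))).subset
        rintro ⟨a, b⟩ ⟨h1, h2⟩
        simp only [Set.mem_Ico] at h2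
        rw [Set.mem_prod, Set.mem_Ico, Set.mem_Ico]
        rcases h1 with h1 | h1 <;> simp only at h1 ⊢ <;> omega
      · rintro ⟨a, b⟩ hab
        obtain ⟨k, hk⟩ := hred a
        refine ⟨(g0 ^ k • a, g0 ^ k • b), ⟨?_, hk⟩, (g0 ^ k)⁻¹, ?_⟩
        · show lineG.Adj (g0 ^ k • a) (g0 ^ k • b)
          rw [hsm, hsm]
          rcases hab with h1 | h1
          · left; simp only at h1; omega
          · right; simp only at h1; omega
        · show ((g0 ^ k)⁻¹ • g0 ^ k • a, (g0 ^ k)⁻¹ • g0 ^ k • b) = (a, b)
          rw [inv_smul_smul, inv_smul_smul]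
    edgeC := fun x y _ => by
      left
      refine Finite.of_injective (fun g : ↥(stabilizer G x ⊓ stabilizer G y) =>
        (⟨g.1, ?_⟩ : φ.ker)) (fun a b e => Subtype.ext (congrArg (fun z : φ.ker => (z : G)) e))
      rw [MonoidHom.mem_ker]
      apply Multiplicative.toAdd.injective
      rw [toAdd_one]
      have h1 : g.1 • x = x := g.2.1
      rw [hsm] at h1
      omega
    nofix := fun x => ⟨g0, by
      rw [hsm]
      intro h
      exact hg0 (by omega)⟩ }

theorem SA.of_zt {G : Type} [Group G] (h : Zt G) : SA G := by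
  obtain ⟨φ, hφ⟩ := h
  by_cases h1 : ∀ g, Multiplicative.toAdd (φ g) = 0
  · apply SA.of_finite
    exact Finite.of_injective (fun g : G => (⟨g, by
      rw [MonoidHom.mem_ker]
      exact Multiplicative.toAdd.injective (by rw [h1, toAdd_one])⟩ : φ.ker))
      (fun a b e => congrArg Subtype.val e)
  · push Not at h1
    obtain ⟨g0, hg0⟩ := h1
    refine SA.of_decomp (lineP φ hφ g0 hg0) fun x => SA.of_finite ?_
    refine Finite.of_injective (fun g : ↥(stabilizer G x) =>
        (⟨g.1, ?_⟩ : φ.ker)) (fun a b e => Subtype.ext (congrArg (fun z : φ.ker => (z : G)) e))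
    rw [MonoidHom.mem_ker]
    apply Multiplicative.toAdd.injective
    rw [toAdd_one]
    have h1 : Multiplicative.toAdd (φ g.1) + (show ℤ from x) = (show ℤ from x) := g.2
    omega

/-- finite or virtually infinite cyclic subgroups of a group of the class -/
theorem SA.of_inC {M : ℕ} {G : Type} [Group G] (h : Gd M G) (h' : InC G) : SA G :=
  SA.of_zt (h.zt h')

end Pool.Agent.SAG
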