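import Pool.Agent.SAG.BDefs

/-!
# SAG, part B: elementary lemmas on flags
-/

namespace Pool.Agent.SAG

open MulAction
open Pool.Agent.SAF (InC orbs FinOrb oc Decomp SAn SA Ori Conv hull Zs LostF)

section

variable {H : Type} [Group H] {Y : Type} [MulAction H Y] {K : KS H Y} {D : Decomp H}
  (S : Sys H Y K D)

theorem Sys.In_P {x : Y} {l : S.LV} (h : S.In x l) : x ∈ K.P := h.1.1

theorem Sys.In_SV {x : Y} {l : S.LV} (h : S.In x l) : S.pr l ∈ S.SV x := h.1.2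

theorem Sys.near_or_far {l l' : S.LV} {x : Y} (h : S.LAdj l l') (hx : S.In x l)
    (hx' : S.In x l') : S.Far l l' x ∨ S.Far l' l x := by
  rcases (S.ori x (S.In_P hx)).one _ _ h.1 with e | e
  · exact Or.inl ⟨h, hx, hx', e⟩
  · exact Or.inr ⟨S.LAdj_symm _ _ h, hx', hx, e⟩

theorem Sys.not_both {l l' : S.LV} {x : Y} (h : S.Far l l' x) : ¬ S.Far l' l x := fun h' =>
  (S.ori x (S.In_P h.2.1)).ntwo _ _ h.1.1 ⟨h.2.2.2, h'.2.2.2⟩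

theorem Sys.PE_Z (hL : S.NoLost) {l : S.LV} {x y : Y} (h : S.PE l x y) :
    ¬ (S.f x (S.pr l) = S.f y (S.pr l) ∧ S.f x (S.pr l) ≠ S.pr l) :=
  S.SE_Z x y h.1 (hL x y h.1) h.2.1

theorem Sys.Fl_symm {l l' : S.LV} {x y : Y} (h : S.Fl l l' x y) : S.Fl l' l x y :=
  ⟨S.LAdj_symm _ _ h.1, S.DE_comm _ _ _ _ h.2⟩

theorem Sys.Fl_swap {l l' : S.LV} {x y : Y} (h : S.Fl l l' x y) : S.Fl l l' y x :=
  ⟨h.1, S.DE_symm _ _ _ _ h.2⟩

theorem Sys.Fl_smul (g : H) {l l' : S.LV} {x y : Y} (h : S.Fl l l' x y) :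
    S.Fl (g • l) (g • l') (g • x) (g • y) :=
  ⟨S.LAdj_smul g _ _ h.1, S.DE_smul g _ _ _ _ h.2⟩

theorem Sys.Fl_In {l l' : S.LV} {x y : Y} (h : S.Fl l l' x y) :
    S.In x l ∧ S.In x l' ∧ S.In y l ∧ S.In y l' :=
  ⟨h.2.1.2.2.1, h.2.2.2.2.1, h.2.1.2.2.2, h.2.2.2.2.2⟩

/-- exactly one end of an edge over `l l'` is far, the other is near -/
theorem Sys.Fl_far (hL : S.NoLost) {l l' : S.LV} {x y : Y} (h : S.Fl l l' x y) :
    (S.Far l l' x ∧ S.Far l' l y) ∨ (S.Far l l' y ∧ S.Far l' l x) := by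
  obtain ⟨h1, h2, h3, h4⟩ := S.Fl_In h
  rcases S.near_or_far h.1 h1 h2 with a | a <;> rcases S.near_or_far h.1 h3 h4 with b | b
  · exfalso
    apply S.PE_Z hL h.2.1
    rw [a.2.2.2, b.2.2.2]
    exact ⟨rfl, h.1.1.ne'⟩
  · exact Or.inl ⟨a, b⟩
  · exact Or.inr ⟨b, a⟩
  · exfalso
    apply S.PE_Z hL h.2.2
    rw [a.2.2.2, b.2.2.2]
    exact ⟨rfl, h.1.1.ne⟩

theorem Sys.Fl_corner (hL : S.NoLost) {l l1 l2 : S.LV} {x y : Y} (h : S.Fl l l1 x y)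
    (h' : S.Fl l l2 x y) (hne : l1 ≠ l2) :
    (S.Far l l1 x ∧ S.Far l l2 y) ∨ (S.Far l l2 x ∧ S.Far l l1 y) := by
  rcases S.Fl_far hL h with a | a <;> rcases S.Fl_far hL h' with b | b
  · exact absurd (S.Far_eq a.1 b.1) hne
  · exact Or.inl ⟨a.1, b.1⟩
  · exact Or.inr ⟨b.1, a.1⟩
  · exact absurd (S.Far_eq a.1 b.1) hne

theorem Sys.Fl_third (hL : S.NoLost) {l l1 l2 l3 : S.LV} {x y : Y} (h : S.Fl l l1 x y)
    (h' : S.Fl l l2 x y) (h'' : S.Fl l l3 x y) (hne : l1 ≠ l2) (hne' : l3 ≠ l2) : l3 = l1 := by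
  rcases S.Fl_corner hL h h' hne with a | a <;> rcases S.Fl_corner hL h'' h' hne' with b | b
  · exact S.Far_eq b.1 a.1
  · exact absurd (S.Far_eq a.1 b.1) hne
  · exact absurd (S.Far_eq a.1 b.1).symm hne'
  · exact S.Far_eq b.2 a.2

theorem Sys.NoInv_L (g : H) {l l' : S.LV} (h : S.LAdj l l') : ¬ (g • l = l' ∧ g • l' = l) := by
  rintro ⟨a, b⟩
  apply D.noinv g _ _ h.1
  rw [← S.pr_smul, ← S.pr_smul, a, b]
  exact ⟨rfl, rfl⟩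

/-- an element which fixes `x` and `l` fixes the direction in which `x` is far -/
theorem Sys.Far_fix {g : H} {l l' : S.LV} {x : Y} (h : S.Far l l' x) (hl : g • l = l)
    (hx : g • x = x) : g • l' = l' := by
  have := S.Far_smul g _ _ _ h
  rw [hl, hx] at this
  exact S.Far_eq this h

theorem Sys.Far_exists {p : S.V1} (h1 : S.f p.1.1 p.1.2 ≠ p.1.2)
    (h2 : S.f p.1.1 p.1.2 ∈ S.SV p.1.1) : ∃ l', S.Far (S.cm p) l' p.1.1 := by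
  have hp := p.2.1
  have hadj : D.G.Adj p.1.2 (S.f p.1.1 p.1.2) := by
    rcases (S.ori _ hp).ok p.1.2 with e | e
    · exact absurd e h1
    · exact e
  let q : S.V1 := ⟨(p.1.1, S.f p.1.1 p.1.2), ⟨hp, h2⟩⟩
  refine ⟨S.cm q, ⟨hadj, p.1.1, S.In_cm p, S.In_cm q⟩, S.In_cm p, S.In_cm q, rfl⟩

theorem Sys.Fl_exists {l : S.LV} {x y : Y} {w : D.X} (h : S.PE l x y) (hw : D.G.Adj (S.pr l) w)
    (h2 : w ∈ S.SE x y) : ∃ l', S.pr l' = w ∧ S.Fl l l' x y := by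
  have hx : x ∈ K.P := K.E_P _ _ h.1
  have hy : y ∈ K.P := K.E_P _ _ (K.E_symm _ _ h.1)
  have h2' : w ∈ S.SE y x := by rw [← S.SE_symm x y h.1]; exact h2
  let p : S.V1 := ⟨(x, w), ⟨hx, S.SE_sub x y h.1 h2⟩⟩
  let q : S.V1 := ⟨(y, w), ⟨hy, S.SE_sub y x (K.E_symm _ _ h.1) h2'⟩⟩
  have hpq : S.cm q = S.cm p :=
    Quotient.sound (Relation.EqvGen.symm _ _ (Relation.EqvGen.rel p q ⟨rfl, h.1, h2⟩))
  refine ⟨S.cm p, rfl, ⟨hw, x, h.2.2.1, S.In_cm p⟩, h, h.1, h2, S.In_cm p, ?_⟩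
  rw [← hpq]
  exact S.In_cm q

end

end Pool.Agent.SAG
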