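import Pool.Agent.SAG.BTree

/-!
# SAG, module BBound: edges which are no `Q`-edges cross boundedly many edges of the new tree

Compare `SAF.BBound`; an `h` which fixes the ends of an edge which is no `Q`-edge fixes `SE x y`
pointwise by `Sys.fix_SE`.
-/

namespace Pool.Agent.SAG

open MulAction
open Pool.Agent.SAF

section

variable {H : Type} [Group H] {Y : Type} [MulAction H Y] {K : KS H Y} {D : Decomp H}
  (S : Sys H Y K D)

theorem Sys.bb_Lv_Fl {n : ℕ} {l l' : S.LV} {x y : Y} (h : S.Lv n l l' x y) : S.Fl l l' x y := by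
  cases n with
  | zero => exact h
  | succ n => exact h.1

theorem Sys.bb_Lv_swap {n : ℕ} : ∀ {l l' : S.LV} {x y : Y}, S.Lv n l l' x y → S.Lv n l l' y x := by
  induction n with
  | zero => exact fun h => S.Fl_swap h
  | succ n ih =>
    rintro l l' x y ⟨h, l'', hne, h'⟩
    exact ⟨S.Fl_swap h, l'', hne, ih h'⟩

theorem Sys.bb_Lv_pts (hL : S.NoLost) {n : ℕ} : ∀ {l l' : S.LV} {x y : Y}, S.Lv n l l' x y →
    S.Far l l' x → ∀ i ≤ n + 1, (S.f x)^[i] (S.pr l) ∈ S.SE x y ∧
      (i ≤ n → S.f x ((S.f x)^[i] (S.pr l)) ≠ (S.f x)^[i] (S.pr l)) := by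
  induction n with
  | zero =>
    intro l l' x y h hF i hi
    have h' : S.Fl l l' x y := h
    rcases Nat.eq_zero_or_pos i with h0 | h0
    · subst h0
      refine ⟨h'.2.1.2.1, fun _ => ?_⟩
      change S.f x (S.pr l) ≠ S.pr l
      rw [hF.2.2.2]
      exact hF.1.1.ne'
    · obtain rfl : i = 1 := by omega
      refine ⟨?_, fun h => absurd h (by omega)⟩
      change S.f x (S.pr l) ∈ _
      rw [hF.2.2.2]
      exact h'.2.2.2.1
  | succ n ih =>
    rintro l l' x y ⟨h, l'', hne, h'⟩ hF i hi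
    have hF' : S.Far l' l'' x := by
      rcases S.Fl_corner hL (S.Fl_symm h) (S.bb_Lv_Fl h') (Ne.symm hne) with e | e
      · exact absurd e.1 (S.not_both hF)
      · exact e.1
    rcases Nat.eq_zero_or_pos i with h0 | h0
    · subst h0
      refine ⟨h.2.1.2.1, fun _ => ?_⟩
      change S.f x (S.pr l) ≠ S.pr l
      rw [hF.2.2.2]
      exact hF.1.1.ne'
    · obtain ⟨m, rfl⟩ : ∃ m, i = m + 1 := ⟨i - 1, by omega⟩
      have := ih h' hF' m (by omega)
      rw [Function.iterate_succ_apply, hF.2.2.2]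
      exact ⟨this.1, fun hm => this.2 (by omega)⟩

/-- a long chain of points in the subtree of an edge which is no `Q`-edge -/
theorem Sys.bb_chain (hL : S.NoLost) {x y : Y} (hE : K.E x y) (hQ : ¬ S.Qe x y) {n : ℕ}
    (hn : n = (orbs H {p : (Y × Y) × D.X | K.E p.1.1 p.1.2 ∧ ¬ LostF (S.f p.1.1) (S.f p.1.2) ∧
      p.2 ∈ S.SE p.1.1 p.1.2}).ncard) (w : ℕ → D.X) (hw : ∀ i ≤ n + 1, w i ∈ S.SE x y)
    (hinj : ∀ i ≤ n + 1, ∀ j ≤ n + 1, w i = w j → i = j) : False := by
  set A : Set ((Y × Y) × D.X) := {p : (Y × Y) × D.X | K.E p.1.1 p.1.2 ∧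
    ¬ LostF (S.f p.1.1) (S.f p.1.2) ∧ p.2 ∈ S.SE p.1.1 p.1.2} with hA
  have hfin : (orbs H A).Finite := S.finE
  have hmem : ∀ i ∈ Finset.range (n + 2),
      (Quotient.mk'' (((x, y), w i) : (Y × Y) × D.X) : orbitRel.Quotient H ((Y × Y) × D.X)) ∈
        hfin.toFinset := by
    intro i hi
    rw [Finset.mem_range] at hi
    rw [Set.Finite.mem_toFinset]
    exact ⟨((x, y), w i), ⟨hE, hL x y hE, hw i (by omega)⟩, rfl⟩
  have hle := Finset.card_le_card_of_injOn
    (fun i => (Quotient.mk'' (((x, y), w i) : (Y × Y) × D.X) :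
      orbitRel.Quotient H ((Y × Y) × D.X))) hmem (by
    intro i hi j hj hij
    rw [Finset.coe_range, Set.mem_Iio] at hi hj
    have h1 : (orbitRel H ((Y × Y) × D.X)) ((x, y), w i) ((x, y), w j) := Quotient.eq''.1 hij
    rw [orbitRel_apply, mem_orbit_iff] at h1
    obtain ⟨g, hg⟩ := h1
    have hg1 : g • x = x := congrArg (fun p : (Y × Y) × D.X => p.1.1) hg
    have hg2 : g • y = y := congrArg (fun p : (Y × Y) × D.X => p.1.2) hg
    have hg3 : g • w j = w i := congrArg (fun p : (Y × Y) × D.X => p.2) hg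
    rw [S.fix_SE hL hE hQ hg1 hg2 (hw j (by omega))] at hg3
    exact hinj i (by omega) j (by omega) hg3.symm)
  rw [Finset.card_range, ← Set.ncard_eq_toFinset_card _ hfin] at hle
  omega

theorem Sys.bound (hL : S.NoLost) : ∃ n, ∀ l l' x y, S.Lv n l l' x y → S.Qe x y := by
  obtain ⟨n, hn⟩ : ∃ n, n = (orbs H {p : (Y × Y) × D.X | K.E p.1.1 p.1.2 ∧
      ¬ LostF (S.f p.1.1) (S.f p.1.2) ∧ p.2 ∈ S.SE p.1.1 p.1.2}).ncard := ⟨_, rfl⟩
  refine ⟨n, fun l l' x y h => ?_⟩
  by_contra hQ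
  have hFl := S.bb_Lv_Fl h
  have hE : K.E x y := hFl.2.1.1
  have key : ∀ a b : Y, S.Lv n l l' a b → S.SE a b = S.SE x y → S.Far l l' a → False := by
    intro a b hab hSE hF
    have hp := S.bb_Lv_pts hL hab hF
    refine S.bb_chain hL hE hQ hn (fun i => (S.f a)^[i] (S.pr l)) ?_ ?_
    · intro i hi
      rw [← hSE]
      exact (hp i hi).1
    · intro i hi j hj hij
      by_contra hne
      have hori := S.ori a (S.In_P hF.2.1)
      rcases lt_or_gt_of_ne hne with hlt | hlt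
      · exact (hp i hi).2 (by omega) (hori.iter_inj D.tree hlt hij)
      · exact (hp j hj).2 (by omega) (hori.iter_inj D.tree hlt hij.symm)
  rcases S.Fl_far hL hFl with hF | hF
  · exact key x y h rfl hF.1
  · exact key y x (S.bb_Lv_swap h) (S.SE_symm x y hE).symm hF.1

end

end Pool.Agent.SAG
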