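import Pool.Agent.SAG.BInc

/-!
# SAG, module BColoop: an orbit of finite edges which does not contribute to `N2` consists of bridges

Proof. `F' = delE F u v`, `A`, `B` the stabilisers of the components of `u`, `v` in `F'`, `E` the
(finite) stabiliser of the ordered edge, `C = SC F u`, contained in `J`, which is finite or
finite-by-(infinite cyclic) (`Gd.nod`). `wd = 2 wE`, `wE > 0`. eqv is impossible. diff:
`wE + wC <= wA + wB`. If `A` and `B` are finite then `C`, generated by them, is finite (all of it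
in the kernel of the map to the integers), so `wC > 0`, hence `A = E` or `B = E`; if `A` is infinite
then `wE <= wB`, `B = E`. same: `wE + wC <= wA`, so `A = E` and `wC = 0`, `C` is infinite.
Bridge function: if (say) `A = E` and `v` is in no translate of the component of `u`: the indicator
function of the component of `u`. If `v` is in `k` times the component of `u`, `A = E`: `k`
normalises `E` (`E <= B = k A k^-1`, same finite order), `C` is generated by `E` and `k` and is
infinite, so no positive power of `k` is in `E`; take the indicator function of the union of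
`k ^ i` times the component of `u`, `i >= 1`.
-/

namespace Pool.Agent.SAG

open MulAction
open Pool.Agent.SAF (InC orbs FinOrb oc Decomp SAn SA Ori Conv hull Zs LostF)

section

variable {H : Type} [Group H] {Z : Type} [MulAction H Z]

private theorem eqv_smul {F : Z → Z → Prop}
    (hinv : ∀ (h : H) (a b : Z), F a b → F (h • a) (h • b)) (h : H) {a b : Z}
    (e : Relation.EqvGen F a b) : Relation.EqvGen F (h • a) (h • b) := by
  induction e with
  | rel x y hxy => exact Relation.EqvGen.rel _ _ (hinv h x y hxy)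
  | refl x => exact Relation.EqvGen.refl _
  | symm x y _ ih => exact Relation.EqvGen.symm _ _ ih
  | trans x y z _ _ ih1 ih2 => exact Relation.EqvGen.trans _ _ _ ih1 ih2

private theorem addE_delE {W : Set Z} {F : Z → Z → Prop} (g : Gr H W F) {u v : Z}
    (huv : F u v) : addE H (delE H F u v) u v = F := by
  funext a b
  apply propext
  constructor
  · rintro (h | ⟨h, rfl, rfl⟩ | ⟨h, rfl, rfl⟩)
    · exact h.1
    · exact g.inv h _ _ huv
    · exact g.inv h _ _ (g.symm _ _ huv)
  · intro h
    by_cases h1 : ∃ h : H, h • u = a ∧ h • v = b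
    · exact Or.inr (Or.inl h1)
    · by_cases h2 : ∃ h : H, h • v = a ∧ h • u = b
      · exact Or.inr (Or.inr h2)
      · exact Or.inl ⟨h, h1, h2⟩

private theorem bridge_of {F : Z → Z → Prop} {u v : Z}
    (hni : ¬ ∃ h : H, h • u = v ∧ h • v = u)
    (P : Z → Prop) (h1 : ∀ a b, delE H F u v a b → (P a ↔ P b))
    (h2 : ∀ h : H, h • u = u → h • v = v → ¬ (P u ↔ P v))
    (h3 : ∀ h : H, ¬ (h • u = u ∧ h • v = v) → (P (h • u) ↔ P (h • v))) :
    ∃ σ : Z → ZMod 2, ∀ a b, F a b →
      σ a + σ b = 1 ∧ ((a = u ∧ b = v) ∨ (a = v ∧ b = u)) ∨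
      σ a + σ b = 0 ∧ ¬ ((a = u ∧ b = v) ∨ (a = v ∧ b = u)) := by
  classical
  have heq : ∀ a b : Z, (P a ↔ P b) →
      (if P a then (1 : ZMod 2) else 0) + (if P b then (1 : ZMod 2) else 0) = 0 := by
    intro a b e
    by_cases ha : P a
    · rw [if_pos ha, if_pos (e.1 ha)]; rfl
    · rw [if_neg ha, if_neg (fun hb => ha (e.2 hb))]; rfl
  have hne : ∀ a b : Z, ¬ (P a ↔ P b) →
      (if P a then (1 : ZMod 2) else 0) + (if P b then (1 : ZMod 2) else 0) = 1 := by
    intro a b e
    by_cases ha : P a
    · have hb : ¬ P b := fun hb => e ⟨fun _ => hb, fun _ => ha⟩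
      rw [if_pos ha, if_neg hb]; rfl
    · have hb : P b := by
        by_contra hb
        exact e ⟨fun h => absurd h ha, fun h => absurd h hb⟩
      rw [if_neg ha, if_pos hb]; rfl
  have h20 : ¬ (P u ↔ P v) := h2 1 (one_smul _ _) (one_smul _ _)
  refine ⟨fun z => if P z then 1 else 0, fun a b hab => ?_⟩
  by_cases c1 : ∃ h : H, h • u = a ∧ h • v = b
  · obtain ⟨h, rfl, rfl⟩ := c1
    by_cases hh : h • u = u ∧ h • v = v
    · left
      rw [hh.1, hh.2]
      exact ⟨hne _ _ h20, Or.inl ⟨rfl, rfl⟩⟩
    · right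
      refine ⟨heq _ _ (h3 h hh), ?_⟩
      rintro (⟨e1, e2⟩ | ⟨e1, e2⟩)
      · exact hh ⟨e1, e2⟩
      · exact hni ⟨h, e1, e2⟩
  · by_cases c2 : ∃ h : H, h • v = a ∧ h • u = b
    · obtain ⟨h, rfl, rfl⟩ := c2
      by_cases hh : h • u = u ∧ h • v = v
      · left
        rw [hh.1, hh.2]
        exact ⟨hne _ _ (fun e => h20 e.symm), Or.inr ⟨rfl, rfl⟩⟩
      · right
        refine ⟨heq _ _ (h3 h hh).symm, ?_⟩
        rintro (⟨e1, e2⟩ | ⟨e1, e2⟩)
        · exact hni ⟨h, e2, e1⟩
        · exact hh ⟨e2, e1⟩
    · right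
      refine ⟨heq _ _ (h1 a b ⟨hab, c1, c2⟩), ?_⟩
      rintro (⟨rfl, rfl⟩ | ⟨rfl, rfl⟩)
      · exact c1 ⟨1, one_smul _ _, one_smul _ _⟩
      · exact c2 ⟨1, one_smul _ _, one_smul _ _⟩

private theorem w_pos {M : ℕ} (hG : Gd M H) (A : Subgroup H) (hA : Finite ↥A) :
    0 < M.factorial / Nat.card ↥A :=
  Nat.div_pos ((hG.bt A hA).trans (Nat.self_le_factorial M)) Nat.card_pos

private theorem w_half {M : ℕ} {E A : Subgroup H} (hEA : E ≤ A) (hne : A ≠ E) :
    2 * (M.factorial / Nat.card ↥A) ≤ M.factorial / Nat.card ↥E := by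
  by_cases hA : Finite ↥A
  · obtain ⟨j, hj⟩ := Subgroup.card_dvd_of_le hEA
    have hpos : 0 < Nat.card ↥A := Nat.card_pos
    have hj2 : 2 ≤ j := by
      by_contra hlt
      have : j = 0 ∨ j = 1 := by omega
      rcases this with rfl | rfl
      · rw [mul_zero] at hj
        omega
      · rw [mul_one] at hj
        exact hne (Subgroup.eq_of_le_of_card_ge hEA hj.le).symm
    rw [hj, ← Nat.div_div_eq_div_mul]
    set x := M.factorial / Nat.card ↥E
    calc 2 * (x / j) ≤ j * (x / j) := Nat.mul_le_mul_right _ hj2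
      _ ≤ x := Nat.mul_div_le x j
  · have : Nat.card ↥A = 0 := by
      rw [Nat.card_eq_zero]
      right
      exact not_finite_iff_infinite.1 hA
    rw [this, Nat.div_zero, mul_zero]
    exact Nat.zero_le _

/-- elements of finite order of `J` generate a finite group -/
private theorem fin_closure {M : ℕ} (hG : Gd M H) {J : Subgroup H} (hJ : InC ↥J) {s : Set H}
    (hs : s ⊆ J) (hfo : ∀ x ∈ s, ∃ n : ℕ, 0 < n ∧ x ^ n = 1) :
    Finite ↥(Subgroup.closure s) := by
  obtain ⟨φ, hφ⟩ := hG.nod J hJ
  have hK : Finite ↥(φ.ker.map J.subtype) :=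
    Finite.of_equiv _ (Subgroup.equivMapOfInjective φ.ker J.subtype J.subtype_injective).toEquiv
  have hle : Subgroup.closure s ≤ φ.ker.map J.subtype := by
    rw [Subgroup.closure_le]
    intro x hx
    obtain ⟨n, hn, e⟩ := hfo x hx
    refine ⟨⟨x, hs hx⟩, ?_, rfl⟩
    change φ ⟨x, hs hx⟩ = 1
    have h2 : φ ⟨x, hs hx⟩ ^ n = 1 := by
      rw [← map_pow]
      have : (⟨x, hs hx⟩ : ↥J) ^ n = 1 := Subtype.ext (by simpa using e)
      rw [this, map_one]
    have h3 : (n : ℤ) * Multiplicative.toAdd (φ ⟨x, hs hx⟩) = 0 := by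
      have := congrArg Multiplicative.toAdd h2
      rw [toAdd_pow, nsmul_eq_mul, toAdd_one] at this
      exact this
    have h4 : Multiplicative.toAdd (φ ⟨x, hs hx⟩) = 0 := by
      rcases mul_eq_zero.1 h3 with h | h
      · exact absurd (by exact_mod_cast h) hn.ne'
      · exact h
    exact Multiplicative.toAdd.injective (by rw [h4, toAdd_one])
  exact Finite.of_injective _ (Subgroup.inclusion_injective hle)

private theorem fo_of_finite {A : Subgroup H} (hA : Finite ↥A) {x : H} (hx : x ∈ A) :
    ∃ n : ℕ, 0 < n ∧ x ^ n = 1 := by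
  refine ⟨Nat.card ↥A, Nat.card_pos, ?_⟩
  exact congrArg (fun z : ↥A => (z : H)) (pow_card_eq_one' (x := (⟨x, hx⟩ : ↥A)))

private theorem wd_eq {M : ℕ} {W : Set Z} {F : Z → Z → Prop} (g : Gr H W F) {u v : Z}
    (huv : F u v) (hni : ¬ ∃ h : H, h • u = v ∧ h • v = u) :
    wd H M u v = 2 * (M.factorial / Nat.card ↥(stabilizer H u ⊓ stabilizer H v)) := by
  have hS1 : FinOrb H {p : Z × Z | ∃ h : H, h • u = p.1 ∧ h • v = p.2} := by
    apply g.finF.mono
    rintro ⟨a, b⟩ ⟨h, e1, e2⟩
    dsimp only at e1 e2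
    subst e1 e2
    exact g.inv h _ _ huv
  have hS2 : FinOrb H {p : Z × Z | ∃ h : H, h • v = p.1 ∧ h • u = p.2} := by
    apply g.finF.mono
    rintro ⟨a, b⟩ ⟨h, e1, e2⟩
    dsimp only at e1 e2
    subst e1 e2
    exact g.inv h _ _ (g.symm _ _ huv)
  have h1 : ms H M {p : Z × Z | ∃ h : H, h • u = p.1 ∧ h • v = p.2} = wt H M (u, v) := by
    apply ms_orbit
    · exact ⟨1, one_smul _ _, one_smul _ _⟩
    · rintro ⟨a, b⟩ ⟨h, e1, e2⟩
      exact ⟨h, Prod.ext e1 e2⟩
  have h2 : ms H M {p : Z × Z | ∃ h : H, h • v = p.1 ∧ h • u = p.2} = wt H M (v, u) := by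
    apply ms_orbit
    · exact ⟨1, one_smul _ _, one_smul _ _⟩
    · rintro ⟨a, b⟩ ⟨h, e1, e2⟩
      exact ⟨h, Prod.ext e1 e2⟩
  have hst : stabilizer H ((u, v) : Z × Z) = stabilizer H u ⊓ stabilizer H v := by
    ext h
    rw [mem_stabilizer_iff, Subgroup.mem_inf, mem_stabilizer_iff, mem_stabilizer_iff,
      Prod.smul_mk, Prod.mk.injEq]
  have hst' : stabilizer H ((v, u) : Z × Z) = stabilizer H u ⊓ stabilizer H v := by
    ext h
    rw [mem_stabilizer_iff, Subgroup.mem_inf, mem_stabilizer_iff, mem_stabilizer_iff,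
      Prod.smul_mk, Prod.mk.injEq, and_comm]
  have hu : wd H M u v = ms H M ({p : Z × Z | ∃ h : H, h • u = p.1 ∧ h • v = p.2} ∪
      {p : Z × Z | ∃ h : H, h • v = p.1 ∧ h • u = p.2}) := rfl
  rw [hu, ms_union hS1 hS2, h1, h2]
  · unfold wt
    rw [hst, hst']
    ring
  · rintro ⟨a, b⟩ ⟨h, e1, e2⟩ k ⟨h', e3, e4⟩
    dsimp only at e1 e2
    subst e1 e2
    change h' • v = k • h • u at e3
    change h' • u = k • h • v at e4
    apply hni
    refine ⟨h'⁻¹ * (k * h), ?_, ?_⟩
    · rw [mul_smul, mul_smul, ← e3, inv_smul_smul]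
    · rw [mul_smul, mul_smul, ← e4, inv_smul_smul]

theorem coloop {M : ℕ} (hG : Gd M H) {W : Set Z} {F : Z → Z → Prop} (g : Gr H W F) {u v : Z}
    (huv : F u v) (hE : Finite ↥(stabilizer H u ⊓ stabilizer H v))
    (hni : ¬ ∃ h : H, h • u = v ∧ h • v = u)
    (J : Subgroup H) (hJ : InC ↥J) (hJ' : SC H F u ⊆ J)
    (hN : N2 H M W F ≤ N2 H M W (delE H F u v)) :
    ∃ σ : Z → ZMod 2, ∀ a b, F a b →
      σ a + σ b = 1 ∧ ((a = u ∧ b = v) ∨ (a = v ∧ b = u)) ∨
      σ a + σ b = 0 ∧ ¬ ((a = u ∧ b = v) ∨ (a = v ∧ b = u)) := by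
  classical
  have hFe : addE H (delE H F u v) u v = F := addE_delE g huv
  have g' : Gr H W (delE H F u v) := g.delE u v
  set F' := delE H F u v with hF'
  have hu : u ∈ W := g.mem u v huv
  have hv : v ∈ W := g.mem v u (g.symm _ _ huv)
  have hne : u ≠ v := by
    intro e
    rw [← e] at huv
    exact g.irr u huv
  have hnF : ¬ F' u v := fun h => h.2.1 ⟨1, one_smul _ _, one_smul _ _⟩
  obtain ⟨A, hA⟩ := SC_subgroup g'.inv u
  obtain ⟨B, hB⟩ := SC_subgroup g'.inv v
  obtain ⟨C, hC⟩ := SC_subgroup g.inv u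
  have memA : ∀ h : H, h ∈ A ↔ Relation.EqvGen F' (h • u) u := by
    intro h
    have : h ∈ (A : Set H) ↔ h ∈ SC H F' u := by rw [hA]
    exact this
  have memB : ∀ h : H, h ∈ B ↔ Relation.EqvGen F' (h • v) v := by
    intro h
    have : h ∈ (B : Set H) ↔ h ∈ SC H F' v := by rw [hB]
    exact this
  set E : Subgroup H := stabilizer H u ⊓ stabilizer H v with hEdef
  have memE : ∀ h : H, h ∈ E ↔ h • u = u ∧ h • v = v := by
    intro h
    rw [hEdef, Subgroup.mem_inf, mem_stabilizer_iff, mem_stabilizer_iff]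
  have hEA : E ≤ A := by
    intro h hh
    rw [memA, ((memE h).1 hh).1]
    exact Relation.EqvGen.refl _
  have hEB : E ≤ B := by
    intro h hh
    rw [memB, ((memE h).1 hh).2]
    exact Relation.EqvGen.refl _
  have hwd := wd_eq (M := M) g huv hni
  rw [← hEdef] at hwd
  have hwE := w_pos hG E hE
  have hwA : wc H M F' u = M.factorial / Nat.card ↥A := by
    unfold wc; rw [← hA]; rfl
  have hwB : wc H M F' v = M.factorial / Nat.card ↥B := by
    unfold wc; rw [← hB]; rfl
  have hwC : wc H M F u = M.factorial / Nat.card ↥C := by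
    unfold wc; rw [← hC]; rfl
  by_cases c1 : Relation.EqvGen F' u v
  · exfalso
    have := N2_addE_eqv M g' hu hv hne hnF c1
    rw [hFe, hwd] at this
    push_cast at this
    omega
  by_cases c2 : ∃ k : H, Relation.EqvGen F' (k • u) v
  · -- same orbit of components
    obtain ⟨k, hk⟩ := c2
    have hN2 := N2_addE_same M g' hu hv hne hnF c1 hk
    rw [hFe, hwd, hwA, hwC] at hN2
    push_cast at hN2
    have hA_E : A = E := by
      by_contra hcon
      have := w_half (M := M) hEA hcon
      have h2 : (2 * (M.factorial / Nat.card ↥A : ℕ) : ℤ) ≤ (M.factorial / Nat.card ↥E : ℕ) := by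
        exact_mod_cast this
      push_cast at h2
      have h3 : (0 : ℤ) < (M.factorial / Nat.card ↥E : ℕ) := by exact_mod_cast hwE
      have h4 : (0 : ℤ) ≤ (M.factorial / Nat.card ↥C : ℕ) := Int.natCast_nonneg _
      push_cast at h3 h4
      linarith
    have hCz : M.factorial / Nat.card ↥C = 0 := by
      rw [hA_E] at hN2
      have h4 : (0 : ℤ) ≤ (M.factorial / Nat.card ↥C : ℕ) := Int.natCast_nonneg _
      have h5 : ((M.factorial / Nat.card ↥C : ℕ) : ℤ) ≤ 0 := by
        push_cast
        linarith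
      have : ((M.factorial / Nat.card ↥C : ℕ) : ℤ) = 0 := le_antisymm h5 h4
      exact_mod_cast this
    have hCinf : ¬ Finite ↥C := by
      intro hf
      have := w_pos hG C hf
      omega
    have hCcl : C = Subgroup.closure (SC H F' u ∪ {k}) := by
      apply SetLike.coe_injective
      rw [hC, ← SC_addE_same g' hk, hFe]
    have hnp : ∀ n : ℕ, 0 < n → k ^ n ∉ E := by
      intro n hn hkn
      apply hCinf
      rw [hCcl]
      apply fin_closure hG hJ
      · intro x hx
        apply hJ'
        rw [← hC, hCcl]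
        exact Subgroup.subset_closure hx
      · rintro x (hx | hx)
        · have : x ∈ E := by
            rw [← hA_E]
            have : x ∈ (A : Set H) := by rw [hA]; exact hx
            exact this
          exact fo_of_finite hE this
        · rw [Set.mem_singleton_iff] at hx
          subst hx
          obtain ⟨m, hm, e⟩ := fo_of_finite hE hkn
          exact ⟨n * m, Nat.mul_pos hn hm, by rw [pow_mul]; exact e⟩
    have conj1 : ∀ h : H, h ∈ B ↔ k⁻¹ * h * k ∈ E := by
      intro h
      rw [← hA_E, memB, memA]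
      have hkv : Relation.EqvGen F' v (k • u) := Relation.EqvGen.symm _ _ hk
      constructor
      · intro e
        have e1 : Relation.EqvGen F' (h • k • u) (k • u) :=
          Relation.EqvGen.trans _ _ _ (eqv_smul g'.inv h hk)
            (Relation.EqvGen.trans _ _ _ e hkv)
        have e2 := eqv_smul g'.inv k⁻¹ e1
        rw [inv_smul_smul] at e2
        rw [mul_smul, mul_smul]
        exact e2
      · intro e
        have e2 := eqv_smul g'.inv k e
        rw [mul_smul, mul_smul, smul_inv_smul] at e2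
        exact Relation.EqvGen.trans _ _ _ (eqv_smul g'.inv h hkv)
          (Relation.EqvGen.trans _ _ _ e2 hk)
    have conj2 : ∀ h : H, h ∈ E ↔ k⁻¹ * h * k ∈ E := by
      have hf : ∀ x : ↥E, k⁻¹ * x.1 * k ∈ E := fun x => (conj1 x.1).1 (hEB x.2)
      let φ : ↥E → ↥E := fun x => ⟨k⁻¹ * x.1 * k, hf x⟩
      have hφi : Function.Injective φ := by
        intro x y e
        have e1 : k⁻¹ * x.1 * k = k⁻¹ * y.1 * k := congrArg Subtype.val e
        exact Subtype.ext (mul_left_cancel (mul_right_cancel e1))
      have hφs : Function.Surjective φ := Finite.injective_iff_surjective.1 hφi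
      intro h
      constructor
      · intro hh
        exact hf ⟨h, hh⟩
      · intro hh
        obtain ⟨x, hx⟩ := hφs ⟨_, hh⟩
        have e1 : k⁻¹ * x.1 * k = k⁻¹ * h * k := congrArg Subtype.val hx
        have e2 : x.1 = h := mul_left_cancel (mul_right_cancel e1)
        rw [← e2]
        exact x.2
    -- the predicate
    have pu : ∀ (h : H) (j : ℕ), Relation.EqvGen F' (h • u) (k ^ j • u) ↔ (k ^ j)⁻¹ * h ∈ E := by
      intro h j
      rw [← hA_E, memA]
      constructor
      · intro e
        have e2 := eqv_smul g'.inv (k ^ j)⁻¹ e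
        rw [inv_smul_smul] at e2
        rw [mul_smul]
        exact e2
      · intro e
        have e2 := eqv_smul g'.inv (k ^ j) e
        rw [mul_smul, smul_inv_smul] at e2
        exact e2
    have pv : ∀ (h : H) (j : ℕ), Relation.EqvGen F' (h • v) (k ^ (j + 1) • u) ↔
        (k ^ j)⁻¹ * h ∈ E := by
      intro h j
      have e0 : Relation.EqvGen F' (h • v) (k ^ (j + 1) • u) ↔
          Relation.EqvGen F' ((h * k) • u) (k ^ (j + 1) • u) := by
        rw [mul_smul]
        constructor
        · intro e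
          exact Relation.EqvGen.trans _ _ _ (eqv_smul g'.inv h hk) e
        · intro e
          exact Relation.EqvGen.trans _ _ _
            (eqv_smul g'.inv h (Relation.EqvGen.symm _ _ hk)) e
      rw [e0, pu, conj2 ((k ^ j)⁻¹ * h)]
      have : (k ^ (j + 1))⁻¹ * (h * k) = k⁻¹ * ((k ^ j)⁻¹ * h) * k := by
        rw [pow_succ]
        group
      rw [this]
    refine bridge_of hni (fun z => ∃ j : ℕ, Relation.EqvGen F' z (k ^ (j + 1) • u))
      ?_ ?_ ?_
    · intro a b hab
      have hab' : Relation.EqvGen F' a b := Relation.EqvGen.rel _ _ hab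
      constructor
      · rintro ⟨j, e⟩
        exact ⟨j, Relation.EqvGen.trans _ _ _ (Relation.EqvGen.symm _ _ hab') e⟩
      · rintro ⟨j, e⟩
        exact ⟨j, Relation.EqvGen.trans _ _ _ hab' e⟩
    · intro _ _ _ hiff
      have hPv : ∃ j : ℕ, Relation.EqvGen F' v (k ^ (j + 1) • u) := by
        refine ⟨0, ?_⟩
        have := (pv 1 0).2 (by simp)
        rwa [one_smul] at this
      obtain ⟨j, e⟩ := hiff.2 hPv
      have e' : Relation.EqvGen F' ((1 : H) • u) (k ^ (j + 1) • u) := by rwa [one_smul]
      have := (pu 1 (j + 1)).1 e'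
      rw [mul_one] at this
      exact hnp (j + 1) (Nat.succ_pos j) (by simpa using E.inv_mem this)
    · intro h hh
      have hhE : h ∉ E := fun e => hh ((memE h).1 e)
      constructor
      · rintro ⟨j, e⟩
        exact ⟨j + 1, (pv h (j + 1)).2 ((pu h (j + 1)).1 e)⟩
      · rintro ⟨j, e⟩
        have e1 := (pv h j).1 e
        cases j with
        | zero =>
          exfalso
          apply hhE
          simpa using e1
        | succ j => exact ⟨j, (pu h (j + 1)).2 e1⟩
  · -- two orbits of components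
    push Not at c2
    have hN2 := N2_addE_diff M g' hu hv hne hnF c2
    rw [hFe, hwd, hwA, hwB, hwC] at hN2
    push_cast at hN2
    have hCcl : C = Subgroup.closure (SC H F' u ∪ SC H F' v) := by
      apply SetLike.coe_injective
      rw [hC, ← SC_addE_diff g' c2, hFe]
    have hor : A = E ∨ B = E := by
      by_contra hcon
      push Not at hcon
      have a1 := w_half (M := M) hEA hcon.1
      have a2 := w_half (M := M) hEB hcon.2
      have h2 : (2 * (M.factorial / Nat.card ↥A : ℕ) : ℤ) ≤ (M.factorial / Nat.card ↥E : ℕ) := by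
        exact_mod_cast a1
      have h2' : (2 * (M.factorial / Nat.card ↥B : ℕ) : ℤ) ≤ (M.factorial / Nat.card ↥E : ℕ) := by
        exact_mod_cast a2
      have h3 : (0 : ℤ) < (M.factorial / Nat.card ↥E : ℕ) := by exact_mod_cast hwE
      have h4 : (0 : ℤ) ≤ (M.factorial / Nat.card ↥C : ℕ) := Int.natCast_nonneg _
      have hAf : Finite ↥A := by
        by_contra hf
        have : Nat.card ↥A = 0 := by
          rw [Nat.card_eq_zero]
          right
          exact not_finite_iff_infinite.1 hf
        have hz : ((M.factorial / Nat.card ↥A : ℕ) : ℤ) = 0 := by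
          rw [this, Nat.div_zero]; rfl
        push_cast at h2' h3 h4 hN2 hz
        linarith
      have hBf : Finite ↥B := by
        by_contra hf
        have : Nat.card ↥B = 0 := by
          rw [Nat.card_eq_zero]
          right
          exact not_finite_iff_infinite.1 hf
        have hz : ((M.factorial / Nat.card ↥B : ℕ) : ℤ) = 0 := by
          rw [this, Nat.div_zero]; rfl
        push_cast at h2 h3 h4 hN2 hz
        linarith
      have hCf : Finite ↥C := by
        rw [hCcl]
        apply fin_closure hG hJ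
        · intro x hx
          apply hJ'
          rw [← hC, hCcl]
          exact Subgroup.subset_closure hx
        · rintro x (hx | hx)
          · rw [← hA] at hx
            exact fo_of_finite hAf hx
          · rw [← hB] at hx
            exact fo_of_finite hBf hx
      have h5 : (0 : ℤ) < (M.factorial / Nat.card ↥C : ℕ) := by exact_mod_cast w_pos hG C hCf
      push_cast at h2 h2' h3 h5 hN2
      linarith
    rcases hor with hA_E | hB_E
    · refine bridge_of hni (fun z => Relation.EqvGen F' z u) ?_ ?_ ?_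
      · intro a b hab
        have hab' : Relation.EqvGen F' a b := Relation.EqvGen.rel _ _ hab
        exact ⟨fun e => Relation.EqvGen.trans _ _ _ (Relation.EqvGen.symm _ _ hab') e,
          fun e => Relation.EqvGen.trans _ _ _ hab' e⟩
      · intro _ _ _ hiff
        exact c1 (Relation.EqvGen.symm _ _ (hiff.1 (Relation.EqvGen.refl _)))
      · intro h hh
        constructor
        · intro e
          exact absurd ((memE h).1 (hA_E ▸ (memA h).2 e)) hh
        · intro e
          exfalso
          have e2 := eqv_smul g'.inv h⁻¹ e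
          rw [inv_smul_smul] at e2
          exact c2 h⁻¹ (Relation.EqvGen.symm _ _ e2)
    · refine bridge_of hni (fun z => Relation.EqvGen F' z v) ?_ ?_ ?_
      · intro a b hab
        have hab' : Relation.EqvGen F' a b := Relation.EqvGen.rel _ _ hab
        exact ⟨fun e => Relation.EqvGen.trans _ _ _ (Relation.EqvGen.symm _ _ hab') e,
          fun e => Relation.EqvGen.trans _ _ _ hab' e⟩
      · intro _ _ _ hiff
        exact c1 (hiff.2 (Relation.EqvGen.refl _))
      · intro h hh
        constructor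
        · intro e
          exact absurd e (c2 h)
        · intro e
          exact absurd ((memE h).1 (hB_E ▸ (memB h).2 e)) hh

end

end Pool.Agent.SAG
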