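import Pool.Agent.SAG.BLevel
import Pool.Agent.SAG.BBound
import Pool.Agent.SAG.BColoop

/-!
# SAG, module BBridge: the bridge property

Compare `SAF.BBridge`. `coloop` with `J := S.J l l'` (`hJc`: in `InC`): a component of `F1` over
`(l, l')` has stabiliser inside `J l l'`; the stabiliser of the ordered edge in `J` is finite
because it has no element of infinite order and is contained in a group of `InC`; no inversion
because exactly one end is far (`Fl_far`).
-/

namespace Pool.Agent.SAG

open MulAction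
open Pool.Agent.SAF (InC orbs FinOrb oc Decomp SAn SA Ori Conv hull Zs LostF)

/-- a subgroup of a finite or finite-by-(infinite cyclic) group without elements of infinite order
is finite -/
private theorem bbr_fin {H : Type} [Group H] {A J : Subgroup H} (hle : A ≤ J) (hJ : Zt ↥J)
    (hA : ∀ a ∈ A, ¬ IO a) : Finite ↥A := by
  obtain ⟨f, hf⟩ := hJ
  have key : ∀ a : ↥A, f ⟨a.1, hle a.2⟩ = 1 := by
    intro a
    by_contra hne
    apply hA a.1 a.2
    intro n hn e
    have e1 : (⟨a.1, hle a.2⟩ : ↥J) ^ n = 1 := Subtype.ext e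
    have e2 : (f ⟨a.1, hle a.2⟩) ^ n = 1 := by
      rw [← map_pow, e1, map_one]
    have e3 : n • Multiplicative.toAdd (f ⟨a.1, hle a.2⟩) = 0 := by
      have := congrArg Multiplicative.toAdd e2
      simpa using this
    rw [nsmul_eq_mul] at e3
    rcases mul_eq_zero.1 e3 with e4 | e4
    · exact hn.ne' (by exact_mod_cast e4)
    · exact hne (Multiplicative.toAdd.injective (by simpa using e4))
  exact Finite.of_injective (fun a : ↥A => (⟨⟨a.1, hle a.2⟩, key a⟩ : f.ker)) (by
    intro a b e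
    have := congrArg (fun t : ↥f.ker => t.1.1) e
    exact Subtype.ext this)

section

variable {H : Type} [Group H] {Y : Type} [MulAction H Y] {K : KS H Y} {D : Decomp H}
  (S : Sys H Y K D)

theorem Sys.bridge {M : ℕ} (hG : Gd M H) (hL : S.NoLost)
    (hJc : ∀ l l', S.LAdj l l' → InC ↥(S.J l l'))
    (hN : N2 H M S.W1 S.F1 ≤ N2 H M S.W2 S.F2) : S.Bridge := by
  intro l l' x y hFl hQ hJ
  obtain ⟨n, hn⟩ := S.bound hL
  have hlv : ¬ S.Lv n l l' x y := fun h => hQ (hn _ _ _ _ h)
  have huv : S.F1 (l, l', x) (l, l', y) := ⟨rfl, rfl, hFl⟩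
  have hfr : Finite ↥(stabilizer H ((l, l', x) : S.LV × S.LV × Y) ⊓
      stabilizer H ((l, l', y) : S.LV × S.LV × Y)) := by
    apply bbr_fin (J := S.J l l') _ (hG.nod _ (hJc l l' hFl.1))
    · rintro h ⟨h1, h2⟩
      have h1' : h • ((l, l', x) : S.LV × S.LV × Y) = (l, l', x) := h1
      have h2' : h • ((l, l', y) : S.LV × S.LV × Y) = (l, l', y) := h2
      have a1 : h • l = l := congrArg Prod.fst h1'
      have a2 : h • l' = l' := congrArg (fun t : S.LV × S.LV × Y => t.2.1) h1'
      have a3 : h • x = x := congrArg (fun t : S.LV × S.LV × Y => t.2.2) h1'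
      have a4 : h • y = y := congrArg (fun t : S.LV × S.LV × Y => t.2.2) h2'
      exact hJ h ⟨a1, a2⟩ a3 a4
    · rintro h ⟨h1, h2⟩
      have h1' : h • ((l, l', x) : S.LV × S.LV × Y) = (l, l', x) := h1
      have a1 : h • l = l := congrArg Prod.fst h1'
      have a2 : h • l' = l' := congrArg (fun t : S.LV × S.LV × Y => t.2.1) h1'
      exact ⟨a1, a2⟩
  have hni : ¬ ∃ h : H, h • ((l, l', x) : S.LV × S.LV × Y) = (l, l', y) ∧
      h • ((l, l', y) : S.LV × S.LV × Y) = (l, l', x) := by
    rintro ⟨h, h1, -⟩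
    have a1 : h • l = l := congrArg Prod.fst h1
    have a2 : h • l' = l' := congrArg (fun t : S.LV × S.LV × Y => t.2.1) h1
    have a3 : h • x = y := congrArg (fun t : S.LV × S.LV × Y => t.2.2) h1
    rcases S.Fl_far hL hFl with e | e
    · have := S.Far_smul h _ _ _ e.1
      rw [a1, a2, a3] at this
      exact S.not_both this e.2
    · have := S.Far_smul h _ _ _ e.2
      rw [a1, a2, a3] at this
      exact S.not_both this e.1
  have hSC : SC H S.F1 ((l, l', x) : S.LV × S.LV × Y) ⊆ S.J l l' := by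
    intro h hh
    have key : ∀ a b : S.LV × S.LV × Y, Relation.EqvGen S.F1 a b → a.1 = b.1 ∧ a.2.1 = b.2.1 := by
      intro a b hab
      induction hab with
      | rel a b h => exact ⟨h.1, h.2.1⟩
      | refl a => exact ⟨rfl, rfl⟩
      | symm a b _ ih => exact ⟨ih.1.symm, ih.2.symm⟩
      | trans a b c _ _ ih1 ih2 => exact ⟨ih1.1.trans ih2.1, ih1.2.trans ih2.2⟩
    exact key _ _ hh
  have hsub : ∀ a b, S.FL n a b →
      delE H S.F1 ((l, l', x) : S.LV × S.LV × Y) (l, l', y) a b := by
    rintro ⟨m, m', u⟩ ⟨k, k', v⟩ hab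
    obtain ⟨e1, e2, e3⟩ := hab
    refine ⟨⟨e1, e2, S.bgr_Lv_Fl n e3⟩, ?_, ?_⟩
    · rintro ⟨h, h1, h2⟩
      have a1 : h • l = m := congrArg Prod.fst h1
      have a2 : h • l' = m' := congrArg (fun t : S.LV × S.LV × Y => t.2.1) h1
      have a3 : h • x = u := congrArg (fun t : S.LV × S.LV × Y => t.2.2) h1
      have a4 : h • y = v := congrArg (fun t : S.LV × S.LV × Y => t.2.2) h2
      have e3' : S.Lv n m m' u v := e3
      rw [← a1, ← a2, ← a3, ← a4] at e3'
      apply hlv
      have := S.bgr_Lv_smul n h⁻¹ e3'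
      simpa only [inv_smul_smul] using this
    · rintro ⟨h, h1, h2⟩
      have a1 : h • l = m := congrArg Prod.fst h1
      have a2 : h • l' = m' := congrArg (fun t : S.LV × S.LV × Y => t.2.1) h1
      have a3 : h • y = u := congrArg (fun t : S.LV × S.LV × Y => t.2.2) h1
      have a4 : h • x = v := congrArg (fun t : S.LV × S.LV × Y => t.2.2) h2
      have e3' : S.Lv n m m' u v := e3
      rw [← a1, ← a2, ← a3, ← a4] at e3'
      apply hlv
      have := S.bgr_Lv_swap n (S.bgr_Lv_smul n h⁻¹ e3')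
      simpa only [inv_smul_smul] using this
  have hle : N2 H M S.W1 S.F1 ≤
      N2 H M S.W1 (delE H S.F1 ((l, l', x) : S.LV × S.LV × Y) (l, l', y)) := by
    rw [← S.level hG hL hN n]
    exact N2_mono hG (Gr.delE (S.Gr1 hL) _ _) (S.GrFL hL n) hsub
  obtain ⟨σ, hσ⟩ := coloop hG (S.Gr1 hL) huv hfr hni (S.J l l') (hJc l l' hFl.1) hSC hle
  refine ⟨fun a => σ (l, l', a), fun a b hab => ?_⟩
  have hpair : ∀ c d : Y, (((l, l', c) : S.LV × S.LV × Y) = (l, l', d)) ↔ c = d := by
    intro c d
    constructor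
    · intro e
      exact congrArg (fun t : S.LV × S.LV × Y => t.2.2) e
    · rintro rfl
      rfl
  have h := hσ (l, l', a) (l, l', b) ⟨rfl, rfl, hab⟩
  simp only [hpair] at h
  exact h

end

end Pool.Agent.SAG
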