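import Pool.Agent.SAG.BDefs
import Pool.Agent.SAF.AOrb

/-!
# SAG, module BMs: masses

The orbit library for `oc` is in `SAF.AOrb` (`exists_rep`, `mk_eq_iff`, `oc_le_of_rel`, ...);
the proofs here are similar. If the stabiliser of `b` is contained in that of `a` then
`wt a <= wt b`: if the stabiliser of `a` is infinite `wt a = 0`, otherwise use
`Nat.div_le_div_left`.
-/

namespace Pool.Agent.SAG

open MulAction
open Pool.Agent.SAF (InC orbs FinOrb oc Decomp SAn SA Ori Conv hull Zs LostF)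

section

variable {H : Type} [Group H] {Y : Type} [MulAction H Y] {Y' : Type} [MulAction H Y']

theorem wt_smul (M : ℕ) (h : H) (y : Y) : wt H M (h • y) = wt H M y := by
  unfold wt
  have e : Nat.card ↥(stabilizer H (h • y)) = Nat.card ↥(stabilizer H y) := by
    rw [stabilizer_smul_eq_stabilizer_map_conj]
    exact (Nat.card_congr (Subgroup.equivMapOfInjective (stabilizer H y)
      (MulAut.conj h).toMonoidHom (MulAut.conj h).injective).toEquiv).symm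
  rw [e]

theorem wt_le {a : Y} {b : Y'} (M : ℕ) (h : ∀ g : H, g • b = b → g • a = a) :
    wt H M a ≤ wt H M b := by
  unfold wt
  rcases finite_or_infinite ↥(stabilizer H a) with hf | hf
  · have hle : stabilizer H b ≤ stabilizer H a := fun g hg => h g hg
    have hfb : Finite ↥(stabilizer H b) :=
      Finite.of_injective (Subgroup.inclusion hle) (Subgroup.inclusion_injective hle)
    exact Nat.div_le_div_left
      (Nat.card_le_card_of_injective (Subgroup.inclusion hle) (Subgroup.inclusion_injective hle))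
      Nat.card_pos
  · rw [Nat.card_eq_zero_of_infinite, Nat.div_zero]
    exact Nat.zero_le _

theorem wt_pos {M : ℕ} (hG : Gd M H) {y : Y} (h : Finite ↥(stabilizer H y)) : 0 < wt H M y := by
  unfold wt
  exact Nat.div_pos ((hG.bt _ h).trans (Nat.self_le_factorial M)) Nat.card_pos

theorem wt_eq_zero {M : ℕ} {y : Y} (h : ∃ g : H, IO g ∧ g • y = y) : wt H M y = 0 := by
  obtain ⟨g, hg, hy⟩ := h
  unfold wt
  have hinf : Infinite ↥(stabilizer H y) := by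
    rw [← not_finite_iff_infinite]
    intro hf
    obtain ⟨n, hn, e⟩ := isOfFinOrder_iff_pow_eq_one.1
      (isOfFinOrder_of_finite (⟨g, hy⟩ : ↥(stabilizer H y)))
    exact hg n hn (congrArg Subtype.val e)
  rw [Nat.card_eq_zero_of_infinite, Nat.div_zero]

/-- the weight of an orbit -/
private noncomputable def wq (H : Type) [Group H] {Y : Type} [MulAction H Y] (M : ℕ)
    (q : orbitRel.Quotient H Y) : ℕ := wt H M (Quotient.out q)

private theorem wq_mk (M : ℕ) (y : Y) :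
    wq H M (Quotient.mk'' y : orbitRel.Quotient H Y) = wt H M y := by
  unfold wq
  have : (Quotient.mk'' (Quotient.out (Quotient.mk'' y : orbitRel.Quotient H Y)) :
      orbitRel.Quotient H Y) = Quotient.mk'' y := Quotient.out_eq' _
  obtain ⟨h, hh⟩ := Pool.Agent.SAF.mk_eq_iff.1 this
  rw [← hh, wt_smul]

private theorem ms_eq (M : ℕ) (s : Set Y) : ms H M s = ∑ᶠ q ∈ orbs H s, wq H M q := rfl

private theorem ms_finset (M : ℕ) {s : Set Y} (hs : FinOrb H s) :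
    ms H M s = ∑ q ∈ Set.Finite.toFinset hs, wq H M q := by
  rw [ms_eq, finsum_mem_eq_finite_toFinset_sum]

/-- the main comparison -/
private theorem ms_key {M : ℕ} {s : Set Y} {s' : Set Y'} (hs' : FinOrb H s')
    (R : Y → Y' → Prop)
    (hf : ∀ a ∈ s, 0 < wt H M a → ∃ b ∈ s', R a b)
    (hst : ∀ a ∈ s, ∀ b ∈ s', R a b → wt H M a ≤ wt H M b)
    (hinj : ∀ a ∈ s, ∀ b ∈ s, ∀ a' ∈ s', ∀ b' ∈ s', R a a' → R b b' →
      (∃ h : H, h • a' = b') → ∃ h : H, h • a = b) :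
    ∃ Q : Finset (orbitRel.Quotient H Y'), ms H M s ≤ ∑ q ∈ Q, wq H M q ∧
      ∀ q ∈ Q, ∃ a ∈ s, ∃ b ∈ s', R a b ∧ (Quotient.mk'' b : orbitRel.Quotient H Y') = q := by
  classical
  obtain ⟨r, hr⟩ := Pool.Agent.SAF.exists_rep (H := H) s
  let P : Set (orbitRel.Quotient H Y) := orbs H s ∩ Function.support (wq H M)
  have hP1 : ∀ q ∈ P, r q ∈ s := fun q hq => (hr q hq.1).1
  have hP2 : ∀ q ∈ P, (Quotient.mk'' (r q) : orbitRel.Quotient H Y) = q :=
    fun q hq => (hr q hq.1).2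
  have hPw : ∀ q ∈ P, wq H M q = wt H M (r q) := by
    intro q hq
    rw [← wq_mk, hP2 q hq]
  have hex : ∀ q : orbitRel.Quotient H Y, ∃ b : Option Y', q ∈ P → ∃ c, b = some c ∧ c ∈ s' ∧
      R (r q) c := by
    intro q
    by_cases hq : q ∈ P
    · obtain ⟨c, hc, hR⟩ := hf (r q) (hP1 q hq) (by
        rw [← hPw q hq]
        exact Nat.pos_of_ne_zero hq.2)
      exact ⟨some c, fun _ => ⟨c, rfl, hc, hR⟩⟩
    · exact ⟨none, fun h => absurd h hq⟩
  by_cases hne : P.Nonempty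
  swap
  · refine ⟨∅, ?_, by simp⟩
    have hne' : orbs H s ∩ Function.support (wq H M) = ∅ := Set.not_nonempty_iff_eq_empty.1 hne
    rw [ms_eq, ← finsum_mem_inter_support, hne']
    simp
  obtain ⟨q0, hq0⟩ := hne
  obtain ⟨b0, hb0, -⟩ := hf (r q0) (hP1 q0 hq0) (by
    rw [← hPw q0 hq0]
    exact Nat.pos_of_ne_zero hq0.2)
  have hex2 : ∃ g : orbitRel.Quotient H Y → Y', ∀ q ∈ P, g q ∈ s' ∧ R (r q) (g q) := by
    choose b hb using hex
    refine ⟨fun q => (b q).getD b0, fun q hq => ?_⟩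
    obtain ⟨c, hc, h1, h2⟩ := hb q hq
    have e : (b q).getD b0 = c := by rw [hc]; rfl
    change (b q).getD b0 ∈ s' ∧ R (r q) ((b q).getD b0)
    rw [e]
    exact ⟨h1, h2⟩
  obtain ⟨g, hg⟩ := hex2
  let F : orbitRel.Quotient H Y → orbitRel.Quotient H Y' := fun q => Quotient.mk'' (g q)
  have hFinj : Set.InjOn F P := by
    intro q hq q' hq' e
    have e' : (Quotient.mk'' (g q') : orbitRel.Quotient H Y') = Quotient.mk'' (g q) := e.symm
    obtain ⟨h, hh⟩ := Pool.Agent.SAF.mk_eq_iff.1 e'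
    obtain ⟨k, hk⟩ := hinj _ (hP1 q hq) _ (hP1 q' hq') _ (hg q hq).1 _ (hg q' hq').1
      (hg q hq).2 (hg q' hq').2 ⟨h, hh⟩
    rw [← hP2 q hq, ← hP2 q' hq']
    exact (Pool.Agent.SAF.mk_eq_iff.2 ⟨k, hk⟩).symm
  have hFmap : Set.MapsTo F P (orbs H s') := fun q hq => ⟨g q, (hg q hq).1, rfl⟩
  have hPfin : P.Finite := Set.Finite.of_finite_image (Set.Finite.subset hs' hFmap.image_subset)
    hFinj
  refine ⟨hPfin.toFinset.image F, ?_, ?_⟩
  · rw [Finset.sum_image (by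
      intro a ha b hb e
      exact hFinj (hPfin.mem_toFinset.1 ha) (hPfin.mem_toFinset.1 hb) e)]
    rw [ms_eq, ← finsum_mem_inter_support, finsum_mem_eq_finite_toFinset_sum _ hPfin]
    apply Finset.sum_le_sum
    intro q hq
    have hq' := hPfin.mem_toFinset.1 hq
    have h2 : wq H M (F q) = wt H M (g q) := wq_mk M (g q)
    rw [hPw q hq', h2]
    exact hst _ (hP1 q hq') _ (hg q hq').1 (hg q hq').2
  · intro q hq
    obtain ⟨q', hq', rfl⟩ := Finset.mem_image.1 hq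
    have hq'' := hPfin.mem_toFinset.1 hq'
    exact ⟨r q', hP1 q' hq'', g q', (hg q' hq'').1, (hg q' hq'').2, rfl⟩

/-- points of weight zero do not matter -/
theorem ms_le_of_rel_pos {M : ℕ} {s : Set Y} {s' : Set Y'} (hs' : FinOrb H s')
    (R : Y → Y' → Prop)
    (hf : ∀ a ∈ s, 0 < wt H M a → ∃ b ∈ s', R a b)
    (hst : ∀ a ∈ s, ∀ b ∈ s', R a b → wt H M a ≤ wt H M b)
    (hinj : ∀ a ∈ s, ∀ b ∈ s, ∀ a' ∈ s', ∀ b' ∈ s', R a a' → R b b' →
      (∃ h : H, h • a' = b') → ∃ h : H, h • a = b) :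
    ms H M s ≤ ms H M s' := by
  obtain ⟨Q, h1, h2⟩ := ms_key hs' R hf hst hinj
  refine h1.trans ?_
  rw [ms_finset M hs']
  apply Finset.sum_le_sum_of_subset
  intro q hq
  obtain ⟨a, -, b, hb, -, rfl⟩ := h2 q hq
  exact (Set.Finite.mem_toFinset hs').2 ⟨b, hb, rfl⟩

theorem ms_le_of_rel {M : ℕ} {s : Set Y} {s' : Set Y'} (hs' : FinOrb H s') (R : Y → Y' → Prop)
    (hf : ∀ a ∈ s, ∃ b ∈ s', R a b)
    (hst : ∀ a ∈ s, ∀ b ∈ s', R a b → wt H M a ≤ wt H M b)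
    (hinj : ∀ a ∈ s, ∀ b ∈ s, ∀ a' ∈ s', ∀ b' ∈ s', R a a' → R b b' →
      (∃ h : H, h • a' = b') → ∃ h : H, h • a = b) :
    ms H M s ≤ ms H M s' :=
  ms_le_of_rel_pos hs' R (fun a ha _ => hf a ha) hst hinj

theorem ms_le_of_inj {M : ℕ} {s : Set Y} {s' : Set Y'} (hs' : FinOrb H s') (f : Y → Y')
    (hf : ∀ a ∈ s, f a ∈ s') (hst : ∀ a ∈ s, ∀ h : H, h • f a = f a → h • a = a)
    (hinj : ∀ a ∈ s, ∀ b ∈ s, (∃ h : H, h • f a = f b) → ∃ h : H, h • a = b) :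
    ms H M s ≤ ms H M s' := by
  apply ms_le_of_rel hs' (fun a b => f a = b)
  · intro a ha
    exact ⟨f a, hf a ha, rfl⟩
  · rintro a ha _ - rfl
    exact wt_le M (hst a ha)
  · rintro a ha b hb _ - _ - rfl rfl h
    exact hinj a ha b hb h

/-- strict comparison: some orbit of positive weight is missed -/
theorem ms_lt_of_rel_pos {M : ℕ} {s : Set Y} {s' : Set Y'} (hs' : FinOrb H s')
    (R : Y → Y' → Prop)
    (hf : ∀ a ∈ s, 0 < wt H M a → ∃ b ∈ s', R a b)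
    (hst : ∀ a ∈ s, ∀ b ∈ s', R a b → wt H M a ≤ wt H M b)
    (hinj : ∀ a ∈ s, ∀ b ∈ s, ∀ a' ∈ s', ∀ b' ∈ s', R a a' → R b b' →
      (∃ h : H, h • a' = b') → ∃ h : H, h • a = b)
    {b0 : Y'} (hb0 : b0 ∈ s') (hpos : 0 < wt H M b0)
    (hmiss : ∀ a ∈ s, ∀ b ∈ s', R a b → ∀ h : H, h • b ≠ b0) : ms H M s < ms H M s' := by
  classical
  obtain ⟨Q, h1, h2⟩ := ms_key hs' R hf hst hinj
  have hq0 : (Quotient.mk'' b0 : orbitRel.Quotient H Y') ∉ Q := by
    intro hq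
    obtain ⟨a, ha, b, hb, hR, e⟩ := h2 _ hq
    obtain ⟨h, hh⟩ := Pool.Agent.SAF.mk_eq_iff.1 e.symm
    exact hmiss a ha b hb hR h hh
  have h3 : ∑ q ∈ insert (Quotient.mk'' b0 : orbitRel.Quotient H Y') Q, wq H M q ≤
      ms H M s' := by
    rw [ms_finset M hs']
    apply Finset.sum_le_sum_of_subset
    intro q hq
    rw [Finset.mem_insert] at hq
    rcases hq with rfl | hq
    · exact (Set.Finite.mem_toFinset hs').2 ⟨b0, hb0, rfl⟩
    · obtain ⟨a, -, b, hb, -, rfl⟩ := h2 q hq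
      exact (Set.Finite.mem_toFinset hs').2 ⟨b, hb, rfl⟩
  rw [Finset.sum_insert hq0, wq_mk] at h3
  exact lt_of_lt_of_le (lt_of_le_of_lt h1 (Nat.lt_add_of_pos_left hpos)) h3

theorem ms_mono {M : ℕ} {s s' : Set Y} (hs' : FinOrb H s') (h : s ⊆ s') :
    ms H M s ≤ ms H M s' :=
  ms_le_of_inj hs' id h (fun _ _ _ e => e) (fun _ _ _ _ e => e)

/-- equality of masses by an equivariant correspondence -/
theorem ms_eq_of_inj {M : ℕ} {s : Set Y} {s' : Set Y'} (hs' : FinOrb H s') (f : Y → Y')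
    (hf : ∀ a ∈ s, f a ∈ s') (hst : ∀ a ∈ s, ∀ h : H, h • f a = f a ↔ h • a = a)
    (hinj : ∀ a ∈ s, ∀ b ∈ s, (∃ h : H, h • f a = f b) → ∃ h : H, h • a = b)
    (hsurj : ∀ b ∈ s', ∃ a ∈ s, ∃ h : H, h • f a = b)
    (heq : ∀ a ∈ s, ∀ b ∈ s, (∃ h : H, h • a = b) → ∃ h : H, h • f a = f b) :
    ms H M s = ms H M s' := by
  apply le_antisymm
  · exact ms_le_of_inj hs' f hf (fun a ha h => (hst a ha h).1) hinj
  · have hs : FinOrb H s := Pool.Agent.SAF.FinOrb.of_inj hs' f hf hinj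
    apply ms_le_of_rel hs (fun b a => ∃ h : H, h • f a = b)
    · exact hsurj
    · rintro b - a ha ⟨h, rfl⟩
      rw [wt_smul]
      exact wt_le M (fun g hg => (hst a ha g).2 hg)
    · rintro b - b' - a ha a' ha' ⟨h1, e1⟩ ⟨h2, e2⟩ e
      obtain ⟨k, hk⟩ := heq a ha a' ha' e
      refine ⟨h2 * k * h1⁻¹, ?_⟩
      rw [← e1, ← e2, mul_smul, mul_smul, inv_smul_smul, hk]

theorem ms_union {M : ℕ} {s s' : Set Y} (hs : FinOrb H s) (hs' : FinOrb H s')
    (hd : ∀ a ∈ s, ∀ h : H, h • a ∉ s') : ms H M (s ∪ s') = ms H M s + ms H M s' := by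
  rw [ms_eq, ms_eq, ms_eq]
  have : orbs H (s ∪ s') = orbs H s ∪ orbs H s' := Set.image_union _ _ _
  rw [this]
  apply finsum_mem_union _ hs hs'
  rw [Set.disjoint_left]
  rintro _ ⟨a, ha, rfl⟩ ⟨b, hb, e⟩
  obtain ⟨h, hh⟩ := Pool.Agent.SAF.mk_eq_iff.1 e
  exact hd a ha h (by rw [hh]; exact hb)

theorem ms_pos {M : ℕ} {s : Set Y} (hs : FinOrb H s) {a : Y} (ha : a ∈ s) (h : 0 < wt H M a) :
    0 < ms H M s := by
  rw [ms_finset M hs]
  apply Finset.sum_pos' (fun _ _ => Nat.zero_le _)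
  exact ⟨Quotient.mk'' a, (Set.Finite.mem_toFinset hs).2 ⟨a, ha, rfl⟩, by rw [wq_mk]; exact h⟩

theorem ms_zero {M : ℕ} {s : Set Y} (h : ∀ a ∈ s, wt H M a = 0) : ms H M s = 0 := by
  rw [ms_eq]
  apply finsum_mem_eq_zero_of_forall_eq_zero
  rintro _ ⟨a, ha, rfl⟩
  exact (wq_mk M a).trans (h a ha)

/-- the mass of one orbit -/
theorem ms_orbit {M : ℕ} {s : Set Y} (a : Y) (ha : a ∈ s) (h : ∀ b ∈ s, ∃ h : H, h • a = b) :
    ms H M s = wt H M a := by
  have : orbs H s = {Quotient.mk'' a} := by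
    ext q
    constructor
    · rintro ⟨b, hb, rfl⟩
      obtain ⟨g, hg⟩ := h b hb
      exact Pool.Agent.SAF.mk_eq_iff.2 ⟨g, hg⟩
    · rintro rfl
      exact ⟨a, ha, rfl⟩
  rw [ms_eq, this, finsum_mem_singleton, wq_mk]

/-! ### Fibres -/

private def fF (H : Type) [Group H] (Y : Type) [MulAction H Y] {L : Type} [MulAction H L] (l : L) :
    orbitRel.Quotient ↥(stabilizer H l) Y → orbitRel.Quotient H Y :=
  Quotient.map' id (by
    rintro a b ⟨h, hh⟩
    exact ⟨h.1, hh⟩)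

private theorem fF_image {L : Type} [MulAction H L] (π : Y → L)
    (hπ : ∀ (h : H) (y : Y), π (h • y) = h • π y) (l : L) (s : Set Y)
    (hs : ∀ (h : H), ∀ y ∈ s, h • y ∈ s) :
    fF H Y l '' orbs ↥(stabilizer H l) {y | y ∈ s ∧ π y = l} =
      orbs H {y | y ∈ s ∧ ∃ h : H, h • l = π y} := by
  ext q
  constructor
  · rintro ⟨_, ⟨a, ⟨ha, hal⟩, rfl⟩, rfl⟩
    exact ⟨a, ⟨ha, 1, by rw [one_smul, hal]⟩, rfl⟩
  · rintro ⟨b, ⟨hb, h, hh⟩, rfl⟩
    refine ⟨_, ⟨h⁻¹ • b, ⟨hs _ _ hb, by rw [hπ, ← hh, inv_smul_smul]⟩, rfl⟩, ?_⟩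
    exact Pool.Agent.SAF.mk_eq_iff.2 ⟨h⁻¹, rfl⟩

private theorem fF_inj {L : Type} [MulAction H L] (π : Y → L)
    (hπ : ∀ (h : H) (y : Y), π (h • y) = h • π y) (l : L) (s : Set Y) :
    Set.InjOn (fF H Y l) (orbs ↥(stabilizer H l) {y | y ∈ s ∧ π y = l}) := by
  rintro _ ⟨a, ⟨-, hal⟩, rfl⟩ _ ⟨b, ⟨-, hbl⟩, rfl⟩ e
  obtain ⟨h, hh⟩ := Pool.Agent.SAF.mk_eq_iff.1
    (e : (Quotient.mk'' a : orbitRel.Quotient H Y) = Quotient.mk'' b)
  refine Pool.Agent.SAF.mk_eq_iff.2 ⟨⟨h, ?_⟩, hh⟩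
  change h • l = l
  have hh' : h • b = a := hh
  conv_lhs => rw [← hbl]
  rw [← hπ, hh', hal]

private theorem wt_stab (M : ℕ) {L : Type} [MulAction H L] (π : Y → L)
    (hπ : ∀ (h : H) (y : Y), π (h • y) = h • π y) (l : L) (y : Y) (hy : π y = l) :
    wt ↥(stabilizer H l) M y = wt H M y := by
  have e : Nat.card ↥(stabilizer ↥(stabilizer H l) y) = Nat.card ↥(stabilizer H y) := by
    apply Nat.card_congr
    exact
      { toFun := fun x => ⟨x.1.1, x.2⟩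
        invFun := fun g => ⟨⟨g.1, by
          change g.1 • l = l
          rw [← hy, ← hπ, (g.2 : g.1 • y = y)]⟩, g.2⟩
        left_inv := fun x => rfl
        right_inv := fun g => rfl }
  unfold wt
  rw [e]

/-- the fibre over one orbit: the stabiliser of a point below and its fibre -/
theorem ms_fibre {M : ℕ} {L : Type} [MulAction H L] (π : Y → L)
    (hπ : ∀ (h : H) (y : Y), π (h • y) = h • π y) (l : L) (s : Set Y)
    (hs : ∀ (h : H), ∀ y ∈ s, h • y ∈ s) :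
    ms ↥(stabilizer H l) M {y | y ∈ s ∧ π y = l} = ms H M {y | y ∈ s ∧ ∃ h : H, h • l = π y} := by
  rw [ms_eq (H := H), ← fF_image π hπ l s hs, finsum_mem_image (fF_inj π hπ l s), ms_eq]
  apply finsum_mem_congr rfl
  rintro _ ⟨a, ⟨-, hal⟩, rfl⟩
  have h1 : wq ↥(stabilizer H l) M (Quotient.mk'' a : orbitRel.Quotient ↥(stabilizer H l) Y) =
      wt ↥(stabilizer H l) M a := wq_mk M a
  have h2 : wq H M (Quotient.mk'' a : orbitRel.Quotient H Y) = wt H M a := wq_mk M a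
  exact h1.trans ((wt_stab M π hπ l a hal).trans h2.symm)

theorem oc_fibre {L : Type} [MulAction H L] (π : Y → L)
    (hπ : ∀ (h : H) (y : Y), π (h • y) = h • π y) (l : L) (s : Set Y)
    (hs : ∀ (h : H), ∀ y ∈ s, h • y ∈ s) :
    oc ↥(stabilizer H l) {y | y ∈ s ∧ π y = l} = oc H {y | y ∈ s ∧ ∃ h : H, h • l = π y} := by
  unfold Pool.Agent.SAF.oc
  rw [← fF_image π hπ l s hs, (fF_inj π hπ l s).ncard_image]

end

end Pool.Agent.SAG
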