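import Pool.Agent.SAG.BBasic
import Pool.Agent.SAF.BTree
import Pool.Agent.SAF.A11
import Pool.Agent.SAF.A12

/-!
# SAG, module BTree: points of the subtrees

The lemmas on orientations and hulls (`Ori.last_unique`, `Ori.iter_inj`, `Ori.exists_last_fin`,
`Ori.exists_last_sink`, `Ori.reach`, `Ori.behind`, `hull_behind`, `hull_single`) are those of
`SAF.BTree`. The first two theorems are copies.
-/

namespace Pool.Agent.SAG

open MulAction
open Pool.Agent.SAF (InC orbs FinOrb oc Decomp SAn SA Ori Conv hull Zs LostF)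

section

variable {X : Type} {G : SimpleGraph X}

/-- between two points one can go back -/
theorem btr_Zs_step {f g : X → X} (hf : Ori G f) (hg : Ori G g) {w : X} (hw : w ∈ Zs f g)
    (hne : f w ≠ w) : g (f w) = w ∧ f w ∈ Zs f g := by
  have hadj : G.Adj w (f w) := (hf.ok w).resolve_left hne
  have e : g (f w) = w := by
    rcases hg.one w (f w) hadj with e | e
    · exact absurd ⟨e.symm, hne⟩ hw
    · exact e
  refine ⟨e, ?_⟩
  rintro ⟨h1, -⟩
  exact hf.ntwo w (f w) hadj ⟨rfl, h1.trans e⟩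

theorem btr_Zs_iter {f g : X → X} (hf : Ori G f) (hg : Ori G g) {w : X} (hw : w ∈ Zs f g)
    (k : ℕ) : f^[k] w ∈ Zs f g := by
  induction k with
  | zero => exact hw
  | succ k ih =>
    rw [Function.iterate_succ_apply']
    by_cases h : f (f^[k] w) = f^[k] w
    · rw [h]; exact ih
    · exact (btr_Zs_step hf hg ih h).2

/-- two points between `f` and `g` are comparable -/
theorem btr_Zs_comp (hG : G.IsTree) {f g : X → X} (hf : Ori G f) (hg : Ori G g) {w u : X}
    (hw : w ∈ Zs f g) (hu : u ∈ Zs f g) : ∃ k : ℕ, f^[k] w = u ∨ f^[k] u = w := by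
  obtain ⟨i, j, e⟩ := hf.merge hG w u
  induction i generalizing w with
  | zero => exact ⟨j, Or.inr e.symm⟩
  | succ i ih =>
    rw [Function.iterate_succ_apply] at e
    by_cases h : f w = w
    · rw [h] at e
      exact ih hw e
    · obtain ⟨h1, h2⟩ := btr_Zs_step hf hg hw h
      obtain ⟨k, hk | hk⟩ := ih h2 e
      · exact ⟨k + 1, Or.inl (by rw [Function.iterate_succ_apply]; exact hk)⟩
      · classical
        have hex : ∃ k, f^[k] u = f w := ⟨k, hk⟩
        have hs := Nat.find_spec hex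
        rcases Nat.eq_zero_or_pos (Nat.find hex) with h0 | h0
        · rw [h0] at hs
          exact ⟨1, Or.inl hs.symm⟩
        · obtain ⟨m, hm⟩ : ∃ m, Nat.find hex = m + 1 := ⟨Nat.find hex - 1, by omega⟩
          rw [hm, Function.iterate_succ_apply'] at hs
          have hmin : f^[m] u ≠ f w := Nat.find_min hex (by omega)
          have hq : f (f^[m] u) ≠ f^[m] u := by
            rw [hs]; exact hmin.symm
          have h3 := (btr_Zs_step hf hg (btr_Zs_iter hf hg hu m) hq).1
          rw [hs, h1] at h3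
          exact ⟨m, Or.inr h3.symm⟩

theorem btr_fix_core {H : Type} [Group H] [MulAction H X] (hG : G.IsTree) {f : X → X}
    (hf : Ori G f) {h : H} (hc : ∀ v, f (h • v) = h • f v) {w : X} {k : ℕ}
    (e : f^[k] w = h • w)
    (hcase : (∃ n : ℕ, 0 < n ∧ h ^ n = 1) ∨ ∃ s, f s = s ∧ h • s = s) : h • w = w := by
  have hck : ∀ (m : ℕ) (v : X), f^[m] (h • v) = h • f^[m] v := by
    intro m
    induction m with
    | zero => exact fun v => rfl
    | succ m ih =>
      intro v
      rw [Function.iterate_succ_apply, Function.iterate_succ_apply, hc, ih]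
  have hpow : ∀ m : ℕ, h ^ m • w = f^[m * k] w := by
    intro m
    induction m with
    | zero => rw [pow_zero, one_smul, Nat.zero_mul]; rfl
    | succ m ih =>
      rw [pow_succ', mul_smul, ih, Nat.succ_mul, Function.iterate_add_apply, e, hck]
  rcases Nat.eq_zero_or_pos k with h0 | h0
  · rw [h0] at e
    exact e.symm
  rcases hcase with ⟨n, hn, hn1⟩ | ⟨s, hs, hhs⟩
  · have h1 := hpow n
    rw [hn1, one_smul] at h1
    have h2 : f (f^[0] w) = f^[0] w :=
      hf.iter_inj hG (Nat.mul_pos hn h0) (h1 : f^[0] w = f^[n * k] w)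
    have h3 : f w = w := h2
    rw [← e]
    exact Function.iterate_fixed h3 k
  · obtain ⟨i, j, hij⟩ := hf.merge hG w s
    rw [Function.iterate_fixed hs j] at hij
    have h1 : f^[i * k] w = s := by
      have h2 : i * k = (i * k - i) + i := by
        have : i ≤ i * k := Nat.le_mul_of_pos_right i h0
        omega
      rw [h2, Function.iterate_add_apply, hij]
      exact Function.iterate_fixed hs _
    have h2 := hpow i
    rw [h1] at h2
    have h3 : h ^ i • s = s := by
      have : ∀ m : ℕ, h ^ m • s = s := by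
        intro m
        induction m with
        | zero => rw [pow_zero, one_smul]
        | succ m ih => rw [pow_succ, mul_smul, hhs, ih]
      exact this i
    have h4 : w = s := by
      rw [← h3] at h2
      exact smul_left_cancel _ h2
    rw [h4, hhs]

end

section

variable {H : Type} [Group H] {Y : Type} [MulAction H Y] {K : KS H Y} {D : Decomp H}
  (S : Sys H Y K D)

theorem Sys.exists_nontrivial : ∃ x ∈ K.P, ∃ a ∈ S.SV x, ∃ b ∈ S.SV x, a ≠ b := by
  by_contra hcon
  push Not at hcon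
  obtain ⟨x0, hx0⟩ := K.ne
  obtain ⟨c, hc⟩ := S.SV_ne x0 hx0
  have key : ∀ y, Relation.ReflTransGen K.E x0 y → y ∈ K.P ∧ c ∈ S.SV y := by
    intro y hy
    induction hy with
    | refl => exact ⟨hx0, hc⟩
    | tail _ e ih =>
      rename_i y z _
      obtain ⟨w, hw⟩ := S.SE_ne _ _ e
      have hz : z ∈ K.P := K.E_P _ _ (K.E_symm _ _ e)
      have h1 : w ∈ S.SV y := S.SE_sub _ _ e hw
      have h2 : w ∈ S.SV z := by
        rw [S.SE_symm _ _ e] at hw
        exact S.SE_sub _ _ (K.E_symm _ _ e) hw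
      rw [hcon y ih.1 c ih.2 w h1]
      exact ⟨hz, h2⟩
  obtain ⟨h, hh⟩ := D.nofix c
  apply hh
  have h1 : h • x0 ∈ K.P := K.P_smul h _ hx0
  exact hcon _ h1 _ (S.SV_smul h _ _ hx0 hc) _ (key _ (K.conn _ hx0 _ h1)).2

theorem Sys.exists_far_centre {x : Y} (hx : x ∈ K.P) {a b : D.X} (ha : a ∈ S.SV x)
    (hb : b ∈ S.SV x) (hab : a ≠ b) :
    ∃ y z w, K.T x y z ∧ w ∈ S.ST x y z ∧ S.f x w ≠ w ∧ S.f x w ∈ S.SV x := by
  have hf := S.ori x hx
  obtain ⟨c, hac, hd⟩ := Pool.Agent.SAF.exists_next D.tree hab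
  have hc : c ∈ S.SV x := by
    refine S.SV_conv x hx a ha b hb c ?_
    rw [SimpleGraph.dist_eq_one_iff_adj.2 hac, hd, Nat.add_comm]
  have hw : ∃ w w', w ∈ S.SV x ∧ w' ∈ S.SV x ∧ D.G.Adj w w' ∧ S.f x w = w' := by
    rcases hf.one a c hac with e | e
    · exact ⟨a, c, ha, hc, hac, e⟩
    · exact ⟨c, a, hc, ha, hac.symm, e⟩
  obtain ⟨w, w', hw, hw', hadj, e⟩ := hw
  have hw2 := hw
  rw [S.SV_hull x hx] at hw2
  obtain ⟨s, hs, hsd⟩ := Pool.Agent.SAF.hull_behind D.tree hadj hw2
  have hsV : s ∈ S.SV x := by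
    rw [S.SV_hull x hx]
    exact Pool.Agent.SAF.subset_hull_B D.tree _ hs
  obtain ⟨y, z, hT, hST⟩ := hs
  obtain ⟨h1, h2⟩ := hf.behind D.tree e hadj hsd
  exact ⟨y, z, s, hT, hST, h1, S.SV_conv x hx s hsV w' hw' _ h2⟩

/-- every vertex with a sink has a last point; it is unique (`Ori.last_unique`) -/
theorem Sys.exists_last {x : Y} (hx : x ∈ K.P) (hs : ∃ w, S.f x w = w) :
    ∃ w ∈ S.SV x, S.f x w = w ∨ S.f x w ∉ S.SV x :=
  (S.ori x hx).exists_last_sink D.tree (S.SV_ne x hx) hs

/-- a vertex with finite stabiliser has a sink -/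
theorem Sys.sink_of_finite {x : Y} (hx : x ∈ K.P) (h : Finite ↥(stabilizer H x)) :
    ∃ w, S.f x w = w := by
  rcases S.f_hyp x hx with h1 | ⟨⟨t, ht, hio⟩, -⟩
  · exact h1
  · exfalso
    have h2 : IsOfFinOrder (⟨t, ht⟩ : ↥(stabilizer H x)) := isOfFinOrder_of_finite _
    obtain ⟨n, hn, e⟩ := isOfFinOrder_iff_pow_eq_one.1 h2
    exact hio n hn (congrArg Subtype.val e)

/-- Proof: if `h` preserves the orientations `f x`, `f y` and has finite order, then it fixes the
convex set `Zs (f x) (f y)` pointwise (there `f x` runs along a line, so `h w` is an iterate of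
`w` or conversely; `Ori.iter_inj`). If `h` has infinite order and `x y` is no `Q`-edge then `f x`
and `f y` have sinks (`f_hyp`), which `h` fixes. -/
theorem Sys.fix_SE (hL : S.NoLost) {x y : Y} (hxy : K.E x y) (hQ : ¬ S.Qe x y) {h : H}
    (hx : h • x = x) (hy : h • y = y) {w : D.X} (hw : w ∈ S.SE x y) : h • w = w := by
  have hxP := K.E_P _ _ hxy
  have hyP := K.E_P _ _ (K.E_symm _ _ hxy)
  have hf := S.ori x hxP
  have hg := S.ori y hyP
  have hhw : h • w ∈ S.SE x y := by
    have := S.SE_smul h x y w hxy hw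
    rw [hx, hy] at this
    exact this
  have hcf : ∀ v, S.f x (h • v) = h • S.f x v := by
    intro v
    have := S.f_smul h x v
    rw [hx] at this
    exact this
  have hcf' : ∀ v, S.f x (h⁻¹ • v) = h⁻¹ • S.f x v := by
    intro v
    rw [eq_inv_smul_iff, ← hcf, smul_inv_smul]
  have hcase : (∃ n : ℕ, 0 < n ∧ h ^ n = 1) ∨ ∃ s, S.f x s = s ∧ h • s = s := by
    by_cases hio : IO h
    · right
      have hs : ∃ s, S.f x s = s := by
        by_contra hcon
        push Not at hcon
        exact hQ ⟨hxy, ⟨h, hio, hx, hy⟩, hcon⟩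
      obtain ⟨s, hs⟩ := hs
      refine ⟨s, hs, hf.fix_unique D.tree ?_ hs⟩
      rw [hcf, hs]
    · left
      unfold IO at hio
      push Not at hio
      exact hio
  have hcase' : (∃ n : ℕ, 0 < n ∧ h⁻¹ ^ n = 1) ∨ ∃ s, S.f x s = s ∧ h⁻¹ • s = s := by
    rcases hcase with ⟨n, hn, e⟩ | ⟨s, hs, e⟩
    · exact Or.inl ⟨n, hn, by rw [inv_pow, e, inv_one]⟩
    · exact Or.inr ⟨s, hs, by rw [inv_smul_eq_iff, e]⟩
  obtain ⟨k, hk | hk⟩ := btr_Zs_comp D.tree hf hg (S.SE_Z x y hxy (hL x y hxy) hw)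
    (S.SE_Z x y hxy (hL x y hxy) hhw)
  · exact btr_fix_core D.tree hf hcf hk hcase
  · have h1 : ∀ (m : ℕ) (v : D.X), (S.f x)^[m] (h • v) = h • (S.f x)^[m] v := by
      intro m
      induction m with
      | zero => exact fun v => rfl
      | succ m ih =>
        intro v
        rw [Function.iterate_succ_apply, Function.iterate_succ_apply, hcf, ih]
    rw [h1] at hk
    have h2 : (S.f x)^[k] w = h⁻¹ • w := by rw [eq_inv_smul_iff, hk]
    have h3 := btr_fix_core D.tree hf hcf' h2 hcase'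
    rw [inv_smul_eq_iff] at h3
    exact h3.symm

/-- Proof: as in `SAF.BCnt1`/`SAF.BBound`: uniqueness of the last point of `SE x y`; for a
`Q`-edge there is none (translate it by an element of infinite order). -/
theorem Sys.Q_no_last {x y : Y} (hQ : S.Qe x y) {w : D.X} (hw : w ∈ S.SE x y) :
    S.f x w ≠ w ∧ S.f x w ∈ S.SE x y := by
  obtain ⟨hxy, ⟨h, hio, hx, hy⟩, hns⟩ := hQ
  refine ⟨hns w, ?_⟩
  have hxP := K.E_P _ _ hxy
  have hyP := K.E_P _ _ (K.E_symm _ _ hxy)
  by_cases hlost : LostF (S.f x) (S.f y)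
  · have hSE := S.SE_lost x y hxy hlost
    rw [hSE] at hw ⊢
    refine ⟨S.fwd x hxP hns w hw.1, ?_⟩
    rw [hlost.1]
    refine S.fwd y hyP ?_ w hw.2
    rw [← hlost.1]
    exact hns
  · by_contra hcon
    have hsm : ∀ (g : H), g • x = x → g • y = y → ∀ v ∈ S.SE x y, g • v ∈ S.SE x y := by
      intro g gx gy v hv
      have := S.SE_smul g x y v hxy hv
      rw [gx, gy] at this
      exact this
    have h1 : h • w ∈ S.SE x y := hsm h hx hy w hw
    have h2 : S.f x (h • w) ∉ S.SE x y := by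
      intro h3
      apply hcon
      have h4 := S.f_smul h x w
      rw [hx] at h4
      rw [h4] at h3
      have h5 := hsm h⁻¹ (by rw [inv_smul_eq_iff, hx]) (by rw [inv_smul_eq_iff, hy]) _ h3
      rw [inv_smul_smul] at h5
      exact h5
    have h3 := (S.ori x hxP).last_unique D.tree (S.SE_conv x y hxy) hw h1 (Or.inr hcon)
      (Or.inr h2)
    rcases S.f_hyp x hxP with ⟨s, hs⟩ | ⟨-, h4⟩
    · exact hns s hs
    · exact h4 h hx hio w h3.symm

/-- if the stabiliser of the ordered edge is finite, `SE x y` is finite -/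
theorem Sys.SE_finite (hL : S.NoLost) {x y : Y} (hxy : K.E x y)
    (h : Finite ↥(stabilizer H x ⊓ stabilizer H y)) : (S.SE x y).Finite := by
  apply Set.Finite.of_finite_fibers
    (fun w => (Quotient.mk'' (((x, y), w) : (Y × Y) × D.X) :
      orbitRel.Quotient H ((Y × Y) × D.X)))
  · apply Set.Finite.subset S.finE
    rintro _ ⟨w, hw, rfl⟩
    exact ⟨((x, y), w), ⟨hxy, hL x y hxy, hw⟩, rfl⟩
  · rintro _ ⟨w, hw, rfl⟩
    apply Set.Finite.subset
      (Set.finite_range (fun g : ↥(stabilizer H x ⊓ stabilizer H y) => (g : H) • w))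
    rintro w' ⟨-, hw'⟩
    have h1 : orbitRel H ((Y × Y) × D.X) ((x, y), w') ((x, y), w) := Quotient.exact hw'
    rw [orbitRel_apply] at h1
    obtain ⟨g, hg⟩ := h1
    have h2 : g • x = x := congrArg (fun p => p.1.1) hg
    have h3 : g • y = y := congrArg (fun p => p.1.2) hg
    have h4 : g • w = w' := congrArg Prod.snd hg
    exact ⟨⟨g, ⟨h2, h3⟩⟩, h4⟩

end

end Pool.Agent.SAG
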