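import Pool.Agent.SAG.BGr
import Pool.Agent.SAG.BTree
import Pool.Agent.SAG.BMs

/-!
# SAG, module BCnt1: mass of edges of `K` in terms of pieces and crossings

Compare `SAF.BCnt1`. `P` the pieces, `A` the pieces which cross some `l'` with `x` far, `B` those
which cross some `l'` with `y` far. Pieces not in `A` are the last pieces: an edge `x y` with finite
stabiliser has exactly one (equivariant, so with the same stabiliser, `fix_SE`); a last piece of an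
edge with infinite stabiliser has infinite stabiliser (`fix_SE`; `Q_no_last`), so weight zero.
Hence `ms P = ms (edges) + ms A`, `ms A = ms B` (swap `x` and `y`), `ms F1 = 2 ms A`,
`ms F2 = 2 ms (A ∩ B)`, `P0 = P \ (A ∪ B)`.
-/

namespace Pool.Agent.SAG

open MulAction
open Pool.Agent.SAF (InC orbs FinOrb oc Decomp SAn SA Ori Conv hull Zs LostF)

section

variable {H : Type} [Group H] {Y : Type} [MulAction H Y] {Z : Type} [MulAction H Z]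

/-- masses are transported by equivariant bijections -/
theorem c1_ms_congr {M : ℕ} {s : Set Y} {t : Set Z} (φ : Y → Z) (ht : FinOrb H t)
    (hs : ∀ h : H, ∀ a ∈ s, h • a ∈ s)
    (hφ : ∀ h : H, ∀ a ∈ s, φ (h • a) = h • φ a)
    (hmap : ∀ a ∈ s, φ a ∈ t)
    (hinj : ∀ a ∈ s, ∀ b ∈ s, φ a = φ b → a = b)
    (hsurj : ∀ c ∈ t, 0 < wt H M c → ∃ a ∈ s, φ a = c) : ms H M s = ms H M t := by
  have hinj' : ∀ a ∈ s, ∀ b ∈ s, (∃ h : H, h • φ a = φ b) → ∃ h : H, h • a = b := by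
    rintro a ha b hb ⟨h, e⟩
    refine ⟨h, hinj _ (hs h a ha) _ hb ?_⟩
    rw [hφ h a ha, e]
  apply le_antisymm
  · apply ms_le_of_inj ht φ hmap _ hinj'
    intro a ha h e
    apply hinj _ (hs h a ha) _ ha
    rw [hφ h a ha, e]
  · have hfs : FinOrb H s := FinOrb.of_inj ht φ hmap hinj'
    apply ms_le_of_rel_pos hfs (fun c a => φ a = c)
    · exact hsurj
    · rintro c _ a ha rfl
      apply wt_le
      intro g hg
      rw [← hφ g a ha, hg]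
    · rintro c _ c' _ a ha b _ rfl rfl ⟨h, e⟩
      exact ⟨h, by rw [← hφ h a ha, e]⟩

theorem c1_ms_union {M : ℕ} {s t u : Set Y} (hs : ∀ h : H, ∀ a ∈ s, h • a ∈ s)
    (hu : ∀ a, a ∈ u ↔ a ∈ s ∨ a ∈ t) (hd : ∀ a ∈ s, a ∉ t) (hf : FinOrb H u) :
    ms H M u = ms H M s + ms H M t := by
  have e : u = s ∪ t := by
    ext a
    rw [hu]
    exact Iff.rfl
  have h1 : FinOrb H s := hf.mono (fun a ha => (hu a).2 (Or.inl ha))
  have h2 : FinOrb H t := hf.mono (fun a ha => (hu a).2 (Or.inr ha))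
  rw [e]
  exact ms_union h1 h2 (fun a ha h => hd _ (hs h a ha))

theorem c1_wt_fin {M : ℕ} {c : Z} (h : 0 < wt H M c) : Finite ↥(stabilizer H c) := by
  by_contra hc
  rw [not_finite_iff_infinite] at hc
  unfold wt at h
  rw [Nat.card_eq_zero_of_infinite, Nat.div_zero] at h
  exact lt_irrefl _ h

end

section

variable {H : Type} [Group H] {Y : Type} [MulAction H Y] {K : KS H Y} {D : Decomp H}
  (S : Sys H Y K D)

/-- the pieces which cross an edge in whose direction `x` is far -/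
def Sys.c1A : Set (S.LV × Y × Y) :=
  {p | ∃ l', S.Fl p.1 l' p.2.1 p.2.2 ∧ S.Far p.1 l' p.2.1}

/-- the pieces which cross an edge in whose direction `y` is far -/
def Sys.c1B : Set (S.LV × Y × Y) :=
  {p | ∃ l', S.Fl p.1 l' p.2.1 p.2.2 ∧ S.Far p.1 l' p.2.2}

/-- all pieces -/
def Sys.c1P : Set (S.LV × Y × Y) := {p | S.PE p.1 p.2.1 p.2.2}

theorem Sys.c1A_smul (h : H) (p : S.LV × Y × Y) (hp : p ∈ S.c1A) : h • p ∈ S.c1A := by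
  obtain ⟨l', h1, h2⟩ := hp
  exact ⟨h • l', S.Fl_smul h h1, S.Far_smul h _ _ _ h2⟩

theorem Sys.c1B_smul (h : H) (p : S.LV × Y × Y) (hp : p ∈ S.c1B) : h • p ∈ S.c1B := by
  obtain ⟨l', h1, h2⟩ := hp
  exact ⟨h • l', S.Fl_smul h h1, S.Far_smul h _ _ _ h2⟩

theorem Sys.c1P_smul (h : H) (p : S.LV × Y × Y) (hp : p ∈ S.c1P) : h • p ∈ S.c1P :=
  S.PE_smul h _ _ _ hp

theorem Sys.c1A_iff_smul (h : H) (p : S.LV × Y × Y) : h • p ∈ S.c1A ↔ p ∈ S.c1A := by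
  constructor
  · intro e
    have := S.c1A_smul h⁻¹ _ e
    rwa [inv_smul_smul] at this
  · exact S.c1A_smul h p

theorem Sys.c1B_iff_smul (h : H) (p : S.LV × Y × Y) : h • p ∈ S.c1B ↔ p ∈ S.c1B := by
  constructor
  · intro e
    have := S.c1B_smul h⁻¹ _ e
    rwa [inv_smul_smul] at this
  · exact S.c1B_smul h p

theorem Sys.c1A_sub : S.c1A ⊆ S.c1P := by
  rintro p ⟨l', h1, h2⟩
  exact h1.2.1

theorem Sys.c1B_sub : S.c1B ⊆ S.c1P := by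
  rintro p ⟨l', h1, h2⟩
  exact h1.2.1

/-- a piece is not in `c1A` iff its point is last in the subtree of the edge -/
theorem Sys.c1_last {p : S.LV × Y × Y} (hp : p ∈ S.c1P) :
    p ∉ S.c1A ↔ (S.f p.2.1 (S.pr p.1) = S.pr p.1 ∨ S.f p.2.1 (S.pr p.1) ∉ S.SE p.2.1 p.2.2) := by
  have hpe : S.PE p.1 p.2.1 p.2.2 := hp
  constructor
  · intro hA
    by_contra hc
    push Not at hc
    have hx : p.2.1 ∈ K.P := K.E_P _ _ hpe.1
    have hadj : D.G.Adj (S.pr p.1) (S.f p.2.1 (S.pr p.1)) := by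
      rcases (S.ori _ hx).ok (S.pr p.1) with e | e
      · exact absurd e hc.1
      · exact e
    obtain ⟨l', h1, h2⟩ := S.Fl_exists hpe hadj hc.2
    apply hA
    refine ⟨l', h2, h2.1, ?_, ?_, h1.symm⟩
    · exact (S.Fl_In h2).1
    · exact (S.Fl_In h2).2.1
  · rintro hc ⟨l', h1, h2⟩
    rcases hc with e | e
    · have := h2.1.1.ne
      rw [← h2.2.2.2, e] at this
      exact this rfl
    · apply e
      rw [h2.2.2.2]
      exact h1.2.2.2.1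

theorem Sys.c1_ef {M : ℕ} (hL : S.NoLost) (hA : K.AllTri) :
    ms H M {p | p ∈ S.c1P ∧ p ∉ S.c1A} = K.ef M := by
  unfold KS.ef
  apply c1_ms_congr (fun p : S.LV × Y × Y => p.2) (K.finE.mono (fun p hp => hp.1))
  · intro h a ha
    exact ⟨S.c1P_smul h a ha.1, fun e => ha.2 ((S.c1A_iff_smul h a).1 e)⟩
  · intro h a _
    rfl
  · intro a ha
    have hpe : S.PE a.1 a.2.1 a.2.2 := ha.1
    exact ⟨hpe.1, hA _ _ hpe.1⟩
  · rintro ⟨l, x, y⟩ ha ⟨l', x', y'⟩ hb e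
    obtain ⟨rfl, rfl⟩ := Prod.mk.inj e
    have h1 := (S.c1_last ha.1).1 ha.2
    have h2 := (S.c1_last hb.1).1 hb.2
    have hpa : S.PE l x y := ha.1
    have hpb : S.PE l' x y := hb.1
    have hx : x ∈ K.P := K.E_P _ _ hpa.1
    have hpr : S.pr l = S.pr l' :=
      Ori.last_unique D.tree (S.ori x hx) (S.SE_conv x y hpa.1) hpa.2.1 hpb.2.1 h1 h2
    have : l = l' := S.In_eq hpa.2.2.1 hpb.2.2.1 hpr
    rw [this]
  · rintro ⟨x, y⟩ hc hf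
    have hE : K.E x y := hc.1
    have hx : x ∈ K.P := K.E_P _ _ hE
    have hy : y ∈ K.P := K.E_P _ _ (K.E_symm _ _ hE)
    have hfin : Finite ↥(stabilizer H x ⊓ stabilizer H y) := by
      have e : stabilizer H x ⊓ stabilizer H y = stabilizer H ((x, y) : Y × Y) := by
        ext g
        rw [Subgroup.mem_inf, mem_stabilizer_iff, mem_stabilizer_iff, mem_stabilizer_iff]
        constructor
        · rintro ⟨h1, h2⟩
          exact Prod.ext h1 h2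
        · intro h
          exact ⟨congrArg Prod.fst h, congrArg Prod.snd h⟩
      rw [e]
      exact c1_wt_fin hf
    obtain ⟨w, hw, hlast⟩ := Ori.exists_last_fin D.tree (S.ori x hx)
      (S.SE_finite hL hE hfin) (S.SE_ne x y hE)
    have hw' : w ∈ S.SE y x := by rw [← S.SE_symm x y hE]; exact hw
    let p : S.V1 := ⟨(x, w), ⟨hx, S.SE_sub x y hE hw⟩⟩
    let q : S.V1 := ⟨(y, w), ⟨hy, S.SE_sub y x (K.E_symm _ _ hE) hw'⟩⟩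
    have hpq : S.cm q = S.cm p :=
      Quotient.sound (Relation.EqvGen.symm _ _ (Relation.EqvGen.rel p q ⟨rfl, hE, hw⟩))
    have hpe : S.PE (S.cm p) x y := by
      refine ⟨hE, hw, S.In_cm p, ?_⟩
      rw [← hpq]
      exact S.In_cm q
    have hmem : ((S.cm p, x, y) : S.LV × Y × Y) ∈ S.c1P := hpe
    refine ⟨(S.cm p, x, y), ⟨hmem, ?_⟩, rfl⟩
    exact (S.c1_last hmem).2 hlast

theorem Sys.c1_finA (hL : S.NoLost) : FinOrb H S.c1A := (S.finPE hL).mono S.c1A_sub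

theorem Sys.c1_finB (hL : S.NoLost) : FinOrb H S.c1B := (S.finPE hL).mono S.c1B_sub

theorem Sys.c1_swap {M : ℕ} (hL : S.NoLost) : ms H M S.c1A = ms H M S.c1B := by
  apply c1_ms_congr (fun p : S.LV × Y × Y => (p.1, p.2.2, p.2.1)) (S.c1_finB hL)
  · intro h a ha
    exact S.c1A_smul h a ha
  · intro h a _
    rfl
  · rintro a ⟨l', h1, h2⟩
    exact ⟨l', S.Fl_swap h1, h2⟩
  · rintro ⟨l, x, y⟩ _ ⟨l', x', y'⟩ _ e
    simp only [Prod.mk.injEq] at e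
    obtain ⟨rfl, rfl, rfl⟩ := e
    rfl
  · rintro ⟨l, x, y⟩ ⟨l', h1, h2⟩ _
    exact ⟨(l, y, x), ⟨l', S.Fl_swap h1, h2⟩, rfl⟩

theorem Sys.c1_F1a {M : ℕ} (hL : S.NoLost) :
    ms H M {p : (S.LV × S.LV × Y) × (S.LV × S.LV × Y) | S.F1 p.1 p.2 ∧
      S.Far p.1.1 p.1.2.1 p.1.2.2} = ms H M S.c1A := by
  apply c1_ms_congr (fun p : (S.LV × S.LV × Y) × (S.LV × S.LV × Y) =>
    (p.1.1, p.1.2.2, p.2.2.2)) (S.c1_finA hL)
  · rintro h ⟨⟨l, l', x⟩, ⟨m, m', y⟩⟩ ⟨⟨h1, h2, h3⟩, h4⟩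
    exact ⟨⟨congrArg (h • ·) h1, congrArg (h • ·) h2, S.Fl_smul h h3⟩, S.Far_smul h _ _ _ h4⟩
  · intro h a _
    rfl
  · rintro ⟨⟨l, l', x⟩, ⟨m, m', y⟩⟩ ⟨⟨h1, h2, h3⟩, h4⟩
    exact ⟨l', h3, h4⟩
  · rintro ⟨⟨l, l', x⟩, ⟨m, m', y⟩⟩ ⟨⟨h1, h2, h3⟩, h4⟩ ⟨⟨k, k', u⟩, ⟨n, n', v⟩⟩
      ⟨⟨g1, g2, g3⟩, g4⟩ e
    simp only [Prod.mk.injEq] at e h1 h2 h4 g1 g2 g4 ⊢
    obtain ⟨rfl, rfl, rfl⟩ := e
    have := S.Far_eq h4 g4
    subst this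
    subst h1 h2
    exact ⟨⟨rfl, rfl, rfl⟩, g1, g2, rfl⟩
  · rintro ⟨l, x, y⟩ ⟨l', h1, h2⟩ _
    exact ⟨((l, l', x), (l, l', y)), ⟨⟨rfl, rfl, h1⟩, h2⟩, rfl⟩

theorem Sys.c1_F1b {M : ℕ} (hL : S.NoLost) :
    ms H M {p : (S.LV × S.LV × Y) × (S.LV × S.LV × Y) | S.F1 p.1 p.2 ∧
      S.Far p.1.1 p.1.2.1 p.2.2.2} = ms H M S.c1B := by
  apply c1_ms_congr (fun p : (S.LV × S.LV × Y) × (S.LV × S.LV × Y) =>
    (p.1.1, p.1.2.2, p.2.2.2)) (S.c1_finB hL)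
  · rintro h ⟨⟨l, l', x⟩, ⟨m, m', y⟩⟩ ⟨⟨h1, h2, h3⟩, h4⟩
    exact ⟨⟨congrArg (h • ·) h1, congrArg (h • ·) h2, S.Fl_smul h h3⟩, S.Far_smul h _ _ _ h4⟩
  · intro h a _
    rfl
  · rintro ⟨⟨l, l', x⟩, ⟨m, m', y⟩⟩ ⟨⟨h1, h2, h3⟩, h4⟩
    exact ⟨l', h3, h4⟩
  · rintro ⟨⟨l, l', x⟩, ⟨m, m', y⟩⟩ ⟨⟨h1, h2, h3⟩, h4⟩ ⟨⟨k, k', u⟩, ⟨n, n', v⟩⟩
      ⟨⟨g1, g2, g3⟩, g4⟩ e
    simp only [Prod.mk.injEq] at e h1 h2 h4 g1 g2 g4 ⊢
    obtain ⟨rfl, rfl, rfl⟩ := e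
    have := S.Far_eq h4 g4
    subst this
    subst h1 h2
    exact ⟨⟨rfl, rfl, rfl⟩, g1, g2, rfl⟩
  · rintro ⟨l, x, y⟩ ⟨l', h1, h2⟩ _
    exact ⟨((l, l', x), (l, l', y)), ⟨⟨rfl, rfl, h1⟩, h2⟩, rfl⟩

theorem Sys.c1_F1 {M : ℕ} (hL : S.NoLost) :
    ms H M {p : (S.LV × S.LV × Y) × (S.LV × S.LV × Y) | S.F1 p.1 p.2} =
      ms H M S.c1A + ms H M S.c1B := by
  rw [← S.c1_F1a hL, ← S.c1_F1b hL]
  apply c1_ms_union
  · rintro h ⟨⟨l, l', x⟩, ⟨m, m', y⟩⟩ ⟨⟨h1, h2, h3⟩, h4⟩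
    exact ⟨⟨congrArg (h • ·) h1, congrArg (h • ·) h2, S.Fl_smul h h3⟩, S.Far_smul h _ _ _ h4⟩
  · rintro ⟨⟨l, l', x⟩, ⟨m, m', y⟩⟩
    constructor
    · rintro ⟨h1, h2, h3⟩
      rcases S.Fl_far hL h3 with a | a
      · exact Or.inl ⟨⟨h1, h2, h3⟩, a.1⟩
      · exact Or.inr ⟨⟨h1, h2, h3⟩, a.1⟩
    · rintro (h | h)
      · exact h.1
      · exact h.1
  · rintro ⟨⟨l, l', x⟩, ⟨m, m', y⟩⟩ ⟨⟨h1, h2, h3⟩, h4⟩ ⟨_, h5⟩
    rcases S.Fl_far hL h3 with a | a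
    · exact S.not_both h5 a.2
    · exact S.not_both h4 a.2
  · exact (S.Gr1 hL).finF

theorem Sys.c1_finAB (hL : S.NoLost) : FinOrb H {p | p ∈ S.c1A ∧ p ∈ S.c1B} :=
  (S.c1_finA hL).mono (fun _ h => h.1)

theorem Sys.c1_F2a {M : ℕ} (hL : S.NoLost) :
    ms H M {p : (S.LV × S.LV × S.LV × Y) × (S.LV × S.LV × S.LV × Y) | S.F2 p.1 p.2 ∧
      S.Far p.1.2.1 p.1.1 p.1.2.2.2 ∧ S.Far p.1.2.1 p.1.2.2.1 p.2.2.2.2} =
    ms H M {p | p ∈ S.c1A ∧ p ∈ S.c1B} := by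
  apply c1_ms_congr (fun p : (S.LV × S.LV × S.LV × Y) × (S.LV × S.LV × S.LV × Y) =>
    (p.1.2.1, p.1.2.2.2, p.2.2.2.2)) (S.c1_finAB hL)
  · rintro h ⟨⟨l1, l, l2, x⟩, ⟨m1, m, m2, y⟩⟩ ⟨⟨h1, h2, h3, h4, h5, h6⟩, h7, h8⟩
    refine ⟨⟨congrArg (h • ·) h1, congrArg (h • ·) h2, congrArg (h • ·) h3, ?_,
      S.Fl_smul h h5, S.Fl_smul h h6⟩, S.Far_smul h _ _ _ h7, S.Far_smul h _ _ _ h8⟩
    intro e
    exact h4 (smul_left_cancel h e)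
  · intro h a _
    rfl
  · rintro ⟨⟨l1, l, l2, x⟩, ⟨m1, m, m2, y⟩⟩ ⟨⟨h1, h2, h3, h4, h5, h6⟩, h7, h8⟩
    exact ⟨⟨l1, h5, h7⟩, ⟨l2, h6, h8⟩⟩
  · rintro ⟨⟨l1, l, l2, x⟩, ⟨m1, m, m2, y⟩⟩ ⟨⟨h1, h2, h3, h4, h5, h6⟩, h7, h8⟩
      ⟨⟨k1, k, k2, u⟩, ⟨n1, n, n2, v⟩⟩ ⟨⟨g1, g2, g3, g4, g5, g6⟩, g7, g8⟩ e
    simp only [Prod.mk.injEq] at e h1 h2 h3 h7 h8 g1 g2 g3 g7 g8 ⊢
    obtain ⟨rfl, rfl, rfl⟩ := e
    have e1 := S.Far_eq h7 g7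
    have e2 := S.Far_eq h8 g8
    subst e1 e2
    subst h1 h2 h3
    exact ⟨⟨rfl, rfl, rfl, rfl⟩, g1, g2, g3, rfl⟩
  · rintro ⟨l, x, y⟩ ⟨⟨l1, h1, h2⟩, ⟨l2, h3, h4⟩⟩ _
    refine ⟨((l1, l, l2, x), (l1, l, l2, y)), ⟨⟨rfl, rfl, rfl, ?_, h1, h3⟩, h2, h4⟩, rfl⟩
    intro e
    have e' : l1 = l2 := e
    subst e'
    rcases S.Fl_far hL h1 with a | a
    · exact S.not_both h4 a.2
    · exact S.not_both h2 a.2

theorem Sys.c1_F2b {M : ℕ} (hL : S.NoLost) :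
    ms H M {p : (S.LV × S.LV × S.LV × Y) × (S.LV × S.LV × S.LV × Y) | S.F2 p.1 p.2 ∧
      S.Far p.1.2.1 p.1.2.2.1 p.1.2.2.2 ∧ S.Far p.1.2.1 p.1.1 p.2.2.2.2} =
    ms H M {p | p ∈ S.c1A ∧ p ∈ S.c1B} := by
  apply c1_ms_congr (fun p : (S.LV × S.LV × S.LV × Y) × (S.LV × S.LV × S.LV × Y) =>
    (p.1.2.1, p.1.2.2.2, p.2.2.2.2)) (S.c1_finAB hL)
  · rintro h ⟨⟨l1, l, l2, x⟩, ⟨m1, m, m2, y⟩⟩ ⟨⟨h1, h2, h3, h4, h5, h6⟩, h7, h8⟩
    refine ⟨⟨congrArg (h • ·) h1, congrArg (h • ·) h2, congrArg (h • ·) h3, ?_,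
      S.Fl_smul h h5, S.Fl_smul h h6⟩, S.Far_smul h _ _ _ h7, S.Far_smul h _ _ _ h8⟩
    intro e
    exact h4 (smul_left_cancel h e)
  · intro h a _
    rfl
  · rintro ⟨⟨l1, l, l2, x⟩, ⟨m1, m, m2, y⟩⟩ ⟨⟨h1, h2, h3, h4, h5, h6⟩, h7, h8⟩
    exact ⟨⟨l2, h6, h7⟩, ⟨l1, h5, h8⟩⟩
  · rintro ⟨⟨l1, l, l2, x⟩, ⟨m1, m, m2, y⟩⟩ ⟨⟨h1, h2, h3, h4, h5, h6⟩, h7, h8⟩
      ⟨⟨k1, k, k2, u⟩, ⟨n1, n, n2, v⟩⟩ ⟨⟨g1, g2, g3, g4, g5, g6⟩, g7, g8⟩ e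
    simp only [Prod.mk.injEq] at e h1 h2 h3 h7 h8 g1 g2 g3 g7 g8 ⊢
    obtain ⟨rfl, rfl, rfl⟩ := e
    have e1 := S.Far_eq h7 g7
    have e2 := S.Far_eq h8 g8
    subst e1 e2
    subst h1 h2 h3
    exact ⟨⟨rfl, rfl, rfl, rfl⟩, g1, g2, g3, rfl⟩
  · rintro ⟨l, x, y⟩ ⟨⟨l1, h1, h2⟩, ⟨l2, h3, h4⟩⟩ _
    refine ⟨((l2, l, l1, x), (l2, l, l1, y)), ⟨⟨rfl, rfl, rfl, ?_, h3, h1⟩, h2, h4⟩, rfl⟩
    intro e
    have e' : l2 = l1 := e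
    subst e'
    rcases S.Fl_far hL h1 with a | a
    · exact S.not_both h4 a.2
    · exact S.not_both h2 a.2

theorem Sys.c1_F2 {M : ℕ} (hL : S.NoLost) :
    ms H M {p : (S.LV × S.LV × S.LV × Y) × (S.LV × S.LV × S.LV × Y) | S.F2 p.1 p.2} =
      2 * ms H M {p | p ∈ S.c1A ∧ p ∈ S.c1B} := by
  rw [two_mul]
  conv_rhs => rw [← S.c1_F2a hL]
  conv_rhs => rw [show ms H M {p : (S.LV × S.LV × S.LV × Y) × (S.LV × S.LV × S.LV × Y) |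
      S.F2 p.1 p.2 ∧
      S.Far p.1.2.1 p.1.1 p.1.2.2.2 ∧ S.Far p.1.2.1 p.1.2.2.1 p.2.2.2.2} +
      ms H M {p : (S.LV × S.LV × S.LV × Y) × (S.LV × S.LV × S.LV × Y) |
      S.F2 p.1 p.2 ∧
      S.Far p.1.2.1 p.1.1 p.1.2.2.2 ∧ S.Far p.1.2.1 p.1.2.2.1 p.2.2.2.2} =
      ms H M {p : (S.LV × S.LV × S.LV × Y) × (S.LV × S.LV × S.LV × Y) |
      S.F2 p.1 p.2 ∧
      S.Far p.1.2.1 p.1.1 p.1.2.2.2 ∧ S.Far p.1.2.1 p.1.2.2.1 p.2.2.2.2} +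
      ms H M {p : (S.LV × S.LV × S.LV × Y) × (S.LV × S.LV × S.LV × Y) | S.F2 p.1 p.2 ∧
      S.Far p.1.2.1 p.1.2.2.1 p.1.2.2.2 ∧ S.Far p.1.2.1 p.1.1 p.2.2.2.2} from by
        rw [S.c1_F2b hL, S.c1_F2a hL]]
  apply c1_ms_union
  · rintro h ⟨⟨l1, l, l2, x⟩, ⟨m1, m, m2, y⟩⟩ ⟨⟨h1, h2, h3, h4, h5, h6⟩, h7, h8⟩
    refine ⟨⟨congrArg (h • ·) h1, congrArg (h • ·) h2, congrArg (h • ·) h3, ?_,
      S.Fl_smul h h5, S.Fl_smul h h6⟩, S.Far_smul h _ _ _ h7, S.Far_smul h _ _ _ h8⟩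
    intro e
    exact h4 (smul_left_cancel h e)
  · rintro ⟨⟨l1, l, l2, x⟩, ⟨m1, m, m2, y⟩⟩
    constructor
    · rintro ⟨h1, h2, h3, h4, h5, h6⟩
      rcases S.Fl_corner hL h5 h6 h4 with a | a
      · exact Or.inl ⟨⟨h1, h2, h3, h4, h5, h6⟩, a.1, a.2⟩
      · exact Or.inr ⟨⟨h1, h2, h3, h4, h5, h6⟩, a.1, a.2⟩
    · rintro (h | h)
      · exact h.1
      · exact h.1
  · rintro ⟨⟨l1, l, l2, x⟩, ⟨m1, m, m2, y⟩⟩ ⟨⟨h1, h2, h3, h4, h5, h6⟩, h7, h8⟩ ⟨_, h9, _⟩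
    exact h4 (S.Far_eq h7 h9)
  · exact (S.Gr2 hL).finF

theorem Sys.cnt1 {M : ℕ} (hG : Gd M H) (hL : S.NoLost) (hA : K.AllTri) :
    2 * K.ef M +
      ms H M {p : (S.LV × S.LV × S.LV × Y) × (S.LV × S.LV × S.LV × Y) | S.F2 p.1 p.2}
      = 2 * ms H M S.P0 +
        ms H M {p : (S.LV × S.LV × Y) × (S.LV × S.LV × Y) | S.F1 p.1 p.2} := by
  have hfP : FinOrb H S.c1P := S.finPE hL
  have hfA : FinOrb H S.c1A := hfP.subset (Set.image_mono S.c1A_sub)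
  have hfB : FinOrb H S.c1B := hfP.subset (Set.image_mono S.c1B_sub)
  have hAB : FinOrb H (S.c1A ∪ S.c1B) :=
    hfP.subset (Set.image_mono (Set.union_subset S.c1A_sub S.c1B_sub))
  have e1 : ms H M S.c1P = ms H M {p | p ∈ S.c1P ∧ p ∉ S.c1A} + ms H M S.c1A := by
    apply c1_ms_union
    · intro h a ha
      exact ⟨S.c1P_smul h a ha.1, fun e => ha.2 ((S.c1A_iff_smul h a).1 e)⟩
    · intro a
      constructor
      · intro ha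
        by_cases h : a ∈ S.c1A
        · exact Or.inr h
        · exact Or.inl ⟨ha, h⟩
      · rintro (h | h)
        · exact h.1
        · exact S.c1A_sub h
    · intro a ha
      exact ha.2
    · exact hfP
  have e2 : ms H M S.c1P = ms H M S.P0 + ms H M (S.c1A ∪ S.c1B) := by
    apply c1_ms_union
    · rintro h ⟨l, x, y⟩ ⟨h1, h2⟩
      refine ⟨S.PE_smul h _ _ _ h1, ?_⟩
      intro l' e
      apply h2 (h⁻¹ • l')
      have := S.Fl_smul h⁻¹ e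
      change S.Fl (h⁻¹ • (h • l)) (h⁻¹ • l') (h⁻¹ • (h • x)) (h⁻¹ • (h • y)) at this
      rwa [inv_smul_smul, inv_smul_smul, inv_smul_smul] at this
    · intro a
      constructor
      · intro ha
        by_cases h : a ∈ S.c1A ∪ S.c1B
        · exact Or.inr h
        · refine Or.inl ⟨ha, ?_⟩
          intro l' e
          apply h
          rcases S.Fl_far hL e with b | b
          · exact Or.inl ⟨l', e, b.1⟩
          · exact Or.inr ⟨l', e, b.1⟩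
      · rintro (h | h | h)
        · exact h.1
        · exact S.c1A_sub h
        · exact S.c1B_sub h
    · rintro a ha (⟨l', h, _⟩ | ⟨l', h, _⟩)
      · exact ha.2 l' h
      · exact ha.2 l' h
    · exact hfP
  have e3 : ms H M (S.c1A ∪ S.c1B) = ms H M S.c1A + ms H M {p | p ∈ S.c1B ∧ p ∉ S.c1A} := by
    apply c1_ms_union
    · intro h a ha
      exact S.c1A_smul h a ha
    · intro a
      constructor
      · rintro (h | h)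
        · exact Or.inl h
        · by_cases h' : a ∈ S.c1A
          · exact Or.inl h'
          · exact Or.inr ⟨h, h'⟩
      · rintro (h | h)
        · exact Or.inl h
        · exact Or.inr h.1
    · intro a ha h
      exact h.2 ha
    · exact hAB
  have e4 : ms H M S.c1B = ms H M {p | p ∈ S.c1B ∧ p ∉ S.c1A} +
      ms H M {p | p ∈ S.c1A ∧ p ∈ S.c1B} := by
    apply c1_ms_union
    · intro h a ha
      exact ⟨S.c1B_smul h a ha.1, fun e => ha.2 ((S.c1A_iff_smul h a).1 e)⟩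
    · intro a
      constructor
      · intro ha
        by_cases h : a ∈ S.c1A
        · exact Or.inr ⟨h, ha⟩
        · exact Or.inl ⟨ha, h⟩
      · rintro (h | h)
        · exact h.1
        · exact h.2
    · intro a ha h
      exact ha.2 h.1
    · exact hfB
  have e5 := S.c1_ef (M := M) hL hA
  have e6 := S.c1_swap (M := M) hL
  have e7 := S.c1_F1 (M := M) hL
  have e8 := S.c1_F2 (M := M) hL
  omega

end

end Pool.Agent.SAG
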