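import Pool.Agent.SAG.BGr
import Pool.Agent.SAG.BMs

/-!
# SAG, module BCnt2: masses of vertices of flags and corners

Compare `SAF.BCnt2`; all correspondences preserve stabilisers (`Far_fix`).
-/

namespace Pool.Agent.SAG

open MulAction
open Pool.Agent.SAF (InC orbs FinOrb oc Decomp SAn SA Ori Conv hull Zs LostF)

section

variable {H : Type} [Group H] {Y : Type} [MulAction H Y] {K : KS H Y} {D : Decomp H}
  (S : Sys H Y K D)

theorem Sys.cnt2 (M : ℕ) (hL : S.NoLost) : ms H M S.W1 = ms H M S.W2 + 2 * ms H M S.Wns := by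
  classical
  have hW1 : FinOrb H S.W1 := (S.Gr1 hL).finW
  have hW2 : FinOrb H S.W2 := (S.Gr2 hL).finW
  -- the pieces
  let A : Set (S.LV × S.LV × Y) := {z | S.Far z.1 z.2.1 z.2.2}
  let B : Set (S.LV × S.LV × Y) := {z | S.Far z.2.1 z.1 z.2.2}
  let B2 : Set (S.LV × S.LV × Y) := {z | S.Far z.2.1 z.1 z.2.2 ∧ ∃ l2, S.Far z.1 l2 z.2.2}
  let C1 : Set (S.LV × S.LV × S.LV × Y) :=
    {z | S.Far z.1 z.2.1 z.2.2.2 ∧ S.Far z.2.1 z.2.2.1 z.2.2.2}
  let C2 : Set (S.LV × S.LV × S.LV × Y) :=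
    {z | S.Far z.2.2.1 z.2.1 z.2.2.2 ∧ S.Far z.2.1 z.1 z.2.2.2}
  have hA1 : A ⊆ S.W1 := by
    rintro z hz
    exact ⟨hz.1, hz.2.1, hz.2.2.1⟩
  have hB1 : B ⊆ S.W1 := by
    rintro z hz
    exact ⟨S.LAdj_symm _ _ hz.1, hz.2.2.1, hz.2.1⟩
  have hfA : FinOrb H A := Pool.Agent.SAF.FinOrb.mono hA1 hW1
  have hfB : FinOrb H B := Pool.Agent.SAF.FinOrb.mono hB1 hW1
  have u1 : S.W1 = A ∪ B := by
    ext z
    constructor
    · rintro ⟨h1, h2, h3⟩
      exact S.near_or_far h1 h2 h3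
    · rintro (h | h)
      · exact hA1 h
      · exact hB1 h
  have e1 : ms H M S.W1 = ms H M A + ms H M B := by
    rw [u1]
    apply ms_union hfA hfB
    intro a ha h hb
    have := S.Far_smul h _ _ _ ha
    exact S.not_both this hb
  have e2 : ms H M A = ms H M B := by
    apply ms_eq_of_inj hfB (fun z => (z.2.1, z.1, z.2.2))
    · intro a ha
      exact ha
    · intro a _ h
      constructor
      · intro e
        have h1 := congrArg (fun z : S.LV × S.LV × Y => z.1) e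
        have h2 := congrArg (fun z : S.LV × S.LV × Y => z.2.1) e
        have h3 := congrArg (fun z : S.LV × S.LV × Y => z.2.2) e
        exact Prod.ext h2 (Prod.ext h1 h3)
      · intro e
        have h1 := congrArg (fun z : S.LV × S.LV × Y => z.1) e
        have h2 := congrArg (fun z : S.LV × S.LV × Y => z.2.1) e
        have h3 := congrArg (fun z : S.LV × S.LV × Y => z.2.2) e
        exact Prod.ext h2 (Prod.ext h1 h3)
    · rintro a _ b _ ⟨h, e⟩
      have h1 := congrArg (fun z : S.LV × S.LV × Y => z.1) e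
      have h2 := congrArg (fun z : S.LV × S.LV × Y => z.2.1) e
      have h3 := congrArg (fun z : S.LV × S.LV × Y => z.2.2) e
      exact ⟨h, Prod.ext h2 (Prod.ext h1 h3)⟩
    · intro b hb
      exact ⟨(b.2.1, b.1, b.2.2), hb, 1, one_smul H _⟩
    · rintro a _ _ _ ⟨h, rfl⟩
      exact ⟨h, rfl⟩
  have hWB : S.Wns ⊆ B := fun z h => h.1
  have hB2B : B2 ⊆ B := fun z h => h.1
  have hfW : FinOrb H S.Wns := Pool.Agent.SAF.FinOrb.mono hWB hfB
  have hfB2 : FinOrb H B2 := Pool.Agent.SAF.FinOrb.mono hB2B hfB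
  have u3 : B = S.Wns ∪ B2 := by
    ext z
    constructor
    · intro h
      by_cases hh : ∃ l2, S.Far z.1 l2 z.2.2
      · exact Or.inr ⟨h, hh⟩
      · exact Or.inl ⟨h, hh⟩
    · rintro (h | h)
      · exact h.1
      · exact h.1
  have e3 : ms H M B = ms H M S.Wns + ms H M B2 := by
    rw [u3]
    apply ms_union hfW hfB2
    intro a ha h hb
    apply ha.2
    obtain ⟨l2, hl2⟩ := hb.2
    have := S.Far_smul h⁻¹ _ _ _ hl2
    refine ⟨h⁻¹ • l2, ?_⟩
    have e4 : h⁻¹ • (h • a).1 = a.1 := inv_smul_smul h a.1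
    have e5 : h⁻¹ • (h • a).2.2 = a.2.2 := inv_smul_smul h a.2.2
    rw [e4, e5] at this
    exact this
  have hC1 : C1 ⊆ S.W2 := by
    rintro z ⟨h1, h2⟩
    refine ⟨?_, S.LAdj_symm _ _ h1.1, h2.1, h1.2.1, h1.2.2.1, h2.2.2.1, Or.inr h2⟩
    intro e
    rw [e] at h1
    exact S.not_both h1 h2
  have hC2 : C2 ⊆ S.W2 := by
    rintro z ⟨h1, h2⟩
    refine ⟨?_, h2.1, S.LAdj_symm _ _ h1.1, h2.2.2.1, h1.2.2.1, h1.2.1, Or.inl h2⟩
    intro e
    rw [← e] at h1
    exact S.not_both h1 h2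
  have hfC1 : FinOrb H C1 := Pool.Agent.SAF.FinOrb.mono hC1 hW2
  have hfC2 : FinOrb H C2 := Pool.Agent.SAF.FinOrb.mono hC2 hW2
  have u4 : S.W2 = C1 ∪ C2 := by
    ext z
    constructor
    · rintro ⟨h1, h2, h3, h4, h5, h6, h7 | h7⟩
      · right
        refine ⟨?_, h7⟩
        rcases S.near_or_far h3 h5 h6 with h8 | h8
        · exact absurd (S.Far_eq h7 h8) h1
        · exact h8
      · left
        refine ⟨?_, h7⟩
        rcases S.near_or_far h2 h5 h4 with h8 | h8
        · exact absurd (S.Far_eq h8 h7) h1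
        · exact h8
    · rintro (h | h)
      · exact hC1 h
      · exact hC2 h
  have e4 : ms H M S.W2 = ms H M C1 + ms H M C2 := by
    rw [u4]
    apply ms_union hfC1 hfC2
    intro a ha h hb
    have := S.Far_smul h _ _ _ ha.1
    exact S.not_both this hb.2
  have e5 : ms H M C2 = ms H M C1 := by
    apply ms_eq_of_inj hfC1 (fun z => (z.2.2.1, z.2.1, z.1, z.2.2.2))
    · intro a ha
      exact ha
    · intro a _ h
      constructor
      · intro e
        have h1 := congrArg (fun z : S.LV × S.LV × S.LV × Y => z.1) e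
        have h2 := congrArg (fun z : S.LV × S.LV × S.LV × Y => z.2.1) e
        have h3 := congrArg (fun z : S.LV × S.LV × S.LV × Y => z.2.2.1) e
        have h4 := congrArg (fun z : S.LV × S.LV × S.LV × Y => z.2.2.2) e
        exact Prod.ext h3 (Prod.ext h2 (Prod.ext h1 h4))
      · intro e
        have h1 := congrArg (fun z : S.LV × S.LV × S.LV × Y => z.1) e
        have h2 := congrArg (fun z : S.LV × S.LV × S.LV × Y => z.2.1) e
        have h3 := congrArg (fun z : S.LV × S.LV × S.LV × Y => z.2.2.1) e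
        have h4 := congrArg (fun z : S.LV × S.LV × S.LV × Y => z.2.2.2) e
        exact Prod.ext h3 (Prod.ext h2 (Prod.ext h1 h4))
    · rintro a _ b _ ⟨h, e⟩
      have h1 := congrArg (fun z : S.LV × S.LV × S.LV × Y => z.1) e
      have h2 := congrArg (fun z : S.LV × S.LV × S.LV × Y => z.2.1) e
      have h3 := congrArg (fun z : S.LV × S.LV × S.LV × Y => z.2.2.1) e
      have h4 := congrArg (fun z : S.LV × S.LV × S.LV × Y => z.2.2.2) e
      exact ⟨h, Prod.ext h3 (Prod.ext h2 (Prod.ext h1 h4))⟩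
    · intro b hb
      exact ⟨(b.2.2.1, b.2.1, b.1, b.2.2.2), hb, 1, one_smul H _⟩
    · rintro a _ _ _ ⟨h, rfl⟩
      exact ⟨h, rfl⟩
  have e6 : ms H M C1 = ms H M B2 := by
    apply ms_eq_of_inj hfB2 (fun c => (c.2.1, c.1, c.2.2.2))
    · rintro a ⟨h1, h2⟩
      exact ⟨h1, _, h2⟩
    · rintro a ⟨_, h2⟩ h
      constructor
      · intro e
        have g1 := congrArg (fun z : S.LV × S.LV × Y => z.1) e
        have g2 := congrArg (fun z : S.LV × S.LV × Y => z.2.1) e
        have g3 := congrArg (fun z : S.LV × S.LV × Y => z.2.2) e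
        have g4 : h • a.2.2.1 = a.2.2.1 := S.Far_fix h2 g1 g3
        exact Prod.ext g2 (Prod.ext g1 (Prod.ext g4 g3))
      · intro e
        have g1 := congrArg (fun z : S.LV × S.LV × S.LV × Y => z.1) e
        have g2 := congrArg (fun z : S.LV × S.LV × S.LV × Y => z.2.1) e
        have g3 := congrArg (fun z : S.LV × S.LV × S.LV × Y => z.2.2.2) e
        exact Prod.ext g2 (Prod.ext g1 g3)
    · rintro a ⟨_, ha⟩ b ⟨_, hb⟩ ⟨h, e⟩
      have g1 : h • a.2.1 = b.2.1 := congrArg (fun z : S.LV × S.LV × Y => z.1) e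
      have g2 : h • a.1 = b.1 := congrArg (fun z : S.LV × S.LV × Y => z.2.1) e
      have g3 : h • a.2.2.2 = b.2.2.2 := congrArg (fun z : S.LV × S.LV × Y => z.2.2) e
      have g4 : h • a.2.2.1 = b.2.2.1 := by
        have h1 := S.Far_smul h _ _ _ ha
        rw [g1, g3] at h1
        exact S.Far_eq h1 hb
      exact ⟨h, Prod.ext g2 (Prod.ext g1 (Prod.ext g4 g3))⟩
    · rintro b ⟨hb, l2, hl2⟩
      exact ⟨(b.2.1, b.1, l2, b.2.2), ⟨hb, hl2⟩, 1, one_smul H _⟩
    · rintro a _ _ _ ⟨h, rfl⟩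
      exact ⟨h, rfl⟩
  omega

end

end Pool.Agent.SAG
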