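import Pool.Agent.SAG.BGr
import Pool.Agent.SAG.BMs

/-!
# SAG, module BCnt3: the mass of the labels

Compare `SAF.BCnt3`. The stabiliser of a label contains the stabilisers of its pieces, so the
weight of the label is at most the weight of a piece; in the case ff without piece in `P0` the
label has stabiliser `J l l1 ⊓ J l l2`, which contains the stabiliser of the component of `F2`.
-/

namespace Pool.Agent.SAG

open MulAction
open Pool.Agent.SAF (InC orbs FinOrb oc Decomp SAn SA Ori Conv hull Zs LostF)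

/-- comparison of a mass with a finite weighted set by a relation -/
theorem cnt3_ms_le {H : Type} [Group H] {Z : Type} [MulAction H Z] {M : ℕ} {T : Type} {s : Set Z}
    {A : Set T} (hA : A.Finite) (w : T → ℕ) (R : Z → T → Prop) (h1 : ∀ a ∈ s, ∃ t ∈ A, R a t)
    (hw : ∀ a ∈ s, ∀ t, R a t → wt H M a ≤ w t)
    (h2 : ∀ a ∈ s, ∀ b ∈ s, ∀ t, R a t → R b t → ∃ h : H, h • a = b) :
    ms H M s ≤ ∑ᶠ t ∈ A, w t := by
  classical
  obtain ⟨r, hr⟩ := Pool.Agent.SAF.exists_rep (H := H) s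
  by_cases hne : A.Nonempty
  · obtain ⟨t0, ht0⟩ := hne
    have : ∀ a : Z, ∃ t : T, a ∈ s → t ∈ A ∧ R a t := by
      intro a
      by_cases ha : a ∈ s
      · obtain ⟨t, ht, hR⟩ := h1 a ha
        exact ⟨t, fun _ => ⟨ht, hR⟩⟩
      · exact ⟨t0, fun h => absurd h ha⟩
    choose g hg using this
    have hmap : ∀ q ∈ orbs H s, g (r q) ∈ A := fun q hq => (hg _ (hr q hq).1).1
    have hinj : Set.InjOn (fun q => g (r q)) (orbs H s) := by
      intro q hq q' hq' e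
      have e' : g (r q) = g (r q') := e
      have hR := (hg _ (hr q hq).1).2
      rw [e'] at hR
      obtain ⟨h, hh⟩ := h2 _ (hr q' hq').1 _ (hr q hq).1 _ (hg _ (hr q' hq').1).2 hR
      rw [← (hr q hq).2, ← (hr q' hq').2]
      exact Pool.Agent.SAF.mk_eq_iff.2 ⟨h, hh⟩
    have hO : (orbs H s).Finite := Set.Finite.of_injOn hmap hinj hA
    have hle : ∀ q ∈ orbs H s, wt H M (Quotient.out q) ≤ w (g (r q)) := by
      intro q hq
      have e1 : (Quotient.mk'' (r q) : orbitRel.Quotient H Z) = Quotient.mk'' (Quotient.out q) := by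
        rw [(hr q hq).2]
        exact (Quotient.out_eq' q).symm
      obtain ⟨h, hh⟩ := Pool.Agent.SAF.mk_eq_iff.1 e1
      have e2 : wt H M (r q) = wt H M (Quotient.out q) := by
        rw [← hh, wt_smul]
      rw [← e2]
      exact hw _ (hr q hq).1 _ (hg _ (hr q hq).1).2
    unfold ms
    rw [finsum_mem_eq_finite_toFinset_sum _ hO, finsum_mem_eq_finite_toFinset_sum _ hA]
    calc ∑ q ∈ hO.toFinset, wt H M (Quotient.out q)
        ≤ ∑ q ∈ hO.toFinset, w (g (r q)) :=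
          Finset.sum_le_sum (fun q hq => hle q (hO.mem_toFinset.1 hq))
      _ = ∑ t ∈ hO.toFinset.image (fun q => g (r q)), w t := by
          rw [Finset.sum_image]
          intro q hq q' hq' e
          exact hinj (hO.mem_toFinset.1 hq) (hO.mem_toFinset.1 hq') e
      _ ≤ ∑ t ∈ hA.toFinset, w t := by
          apply Finset.sum_le_sum_of_subset
          intro t ht
          obtain ⟨q, hq, rfl⟩ := Finset.mem_image.1 ht
          exact hA.mem_toFinset.2 (hmap q (hO.mem_toFinset.1 hq))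
  · have hs : s = ∅ := by
      ext a
      constructor
      · intro ha
        obtain ⟨t, ht, _⟩ := h1 a ha
        exact absurd ⟨t, ht⟩ hne
      · intro h
        exact h.elim
    subst hs
    simp [ms, orbs]

/-- the sum over an image is at most the sum -/
theorem cnt3_sum_image {T T' : Type} {A : Set T} (_hA : A.Finite) (i : T → T')
    (hi : Function.Injective i) (w : T' → ℕ) (v : T → ℕ) (h : ∀ t, w (i t) = v t) :
    ∑ᶠ t ∈ i '' A, w t = ∑ᶠ t ∈ A, v t := by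
  rw [finsum_mem_image (hi.injOn)]
  exact finsum_mem_congr rfl (fun t _ => h t)

/-- the sum over a union is at most the sum of the sums -/
theorem cnt3_sum_union {T : Type} {A B : Set T} (hA : A.Finite) (hB : B.Finite) (w : T → ℕ) :
    ∑ᶠ t ∈ A ∪ B, w t ≤ ∑ᶠ t ∈ A, w t + ∑ᶠ t ∈ B, w t := by
  have := finsum_mem_union_inter (f := w) hA hB
  omega

section

variable {H : Type} [Group H] {Y : Type} [MulAction H Y] {K : KS H Y} {D : Decomp H}
  (S : Sys H Y K D)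

theorem Sys.cnt3_Wns_sub : S.Wns ⊆ S.W1 := by
  rintro ⟨l, l', x⟩ ⟨h, _⟩
  exact ⟨S.LAdj_symm _ _ h.1, h.2.2.1, h.2.1⟩

theorem Sys.cnt3_c_far {p q : S.V1} {l l' : S.LV} (hp : S.cm p = l) (hq : S.cm q = l)
    (h1 : S.Far l l' p.1.1) (h2 : S.Far l l' q.1.1) : S.XR.c p = S.XR.c q := by
  apply Quotient.sound
  refine Or.inr ⟨hp.trans hq.symm, l', ?_, ?_⟩
  · rw [hp]; exact h1
  · rw [hp]; exact h2

theorem Sys.cnt3_F2_eqv {a b : S.LV × S.LV × S.LV × Y} (h : Relation.EqvGen S.F2 a b) :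
    a.1 = b.1 ∧ a.2.1 = b.2.1 ∧ a.2.2.1 = b.2.2.1 := by
  induction h with
  | rel x y h => exact ⟨h.1, h.2.1, h.2.2.1⟩
  | refl x => exact ⟨rfl, rfl, rfl⟩
  | symm x y _ ih => exact ⟨ih.1.symm, ih.2.1.symm, ih.2.2.symm⟩
  | trans x y z _ _ ih1 ih2 =>
    exact ⟨ih1.1.trans ih2.1, ih1.2.1.trans ih2.2.1, ih1.2.2.trans ih2.2.2⟩

theorem Sys.cnt3_cs_F2 {a b : S.LV × S.LV × S.LV × Y} (h : cs H S.F2 a b) :
    ∃ g : H, g • a.1 = b.1 ∧ g • a.2.1 = b.2.1 ∧ g • a.2.2.1 = b.2.2.1 := by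
  induction h with
  | rel x y h =>
    rcases h with h | ⟨g, rfl⟩
    · exact ⟨1, by rw [one_smul]; exact h.1, by rw [one_smul]; exact h.2.1,
        by rw [one_smul]; exact h.2.2.1⟩
    · exact ⟨g, rfl, rfl, rfl⟩
  | refl x => exact ⟨1, one_smul _ _, one_smul _ _, one_smul _ _⟩
  | symm x y _ ih =>
    obtain ⟨g, h1, h2, h3⟩ := ih
    exact ⟨g⁻¹, by rw [← h1, inv_smul_smul], by rw [← h2, inv_smul_smul],
      by rw [← h3, inv_smul_smul]⟩
  | trans x y z _ _ ih1 ih2 =>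
    obtain ⟨g, h1, h2, h3⟩ := ih1
    obtain ⟨g', h1', h2', h3'⟩ := ih2
    exact ⟨g' * g, by rw [mul_smul, h1, h1'], by rw [mul_smul, h2, h2'],
      by rw [mul_smul, h3, h3']⟩

/-- the piece `t` gives the label `a` -/
def Sys.cnt3_r1 (a : S.XR.Q × S.XR.Q) (t : S.LV × Y × Y) : Prop :=
  ∃ p q : S.V1, S.cm p = t.1 ∧ S.cm q = t.1 ∧ p.1.1 = t.2.1 ∧ q.1.1 = t.2.2 ∧
    S.XR.c p = a.1 ∧ S.XR.c q = a.2

/-- the near single vertex `t` gives the label `a` (single, far) -/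
def Sys.cnt3_r2 (a : S.XR.Q × S.XR.Q) (t : S.LV × S.LV × Y) : Prop :=
  ∃ p q : S.V1, S.cm p = t.1 ∧ S.cm q = t.1 ∧ p.1.1 = t.2.2 ∧ S.Far t.1 t.2.1 q.1.1 ∧
    S.XR.c p = a.1 ∧ S.XR.c q = a.2

/-- the corner `t` gives the label `a` (far, far) -/
def Sys.cnt3_r4 (a : S.XR.Q × S.XR.Q) (t : S.LV × S.LV × S.LV × Y) : Prop :=
  ∃ p q : S.V1, S.cm p = t.2.1 ∧ S.cm q = t.2.1 ∧ S.Far t.2.1 t.1 p.1.1 ∧
    S.Far t.2.1 t.2.2.1 q.1.1 ∧ S.XR.c p = a.1 ∧ S.XR.c q = a.2

theorem Sys.cnt3_V1_ext {p q : S.V1} (h : S.cm p = S.cm q) (h' : p.1.1 = q.1.1) : p = q := by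
  apply Subtype.ext
  apply Prod.ext h'
  exact S.hs_snd p q (Quotient.exact h)

theorem Sys.cnt3_r1_inj {a b : S.XR.Q × S.XR.Q} {t t' : S.LV × Y × Y} (h : S.cnt3_r1 a t)
    (h' : S.cnt3_r1 b t') (g : H) (e : g • t = t') : g • a = b := by
  obtain ⟨p, q, h1, h2, h3, h4, h5, h6⟩ := h
  obtain ⟨p', q', h1', h2', h3', h4', h5', h6'⟩ := h'
  subst e
  have e1 : g • p = p' := by
    apply S.cnt3_V1_ext
    · rw [S.cm_smul, h1, h1']; rfl
    · rw [h3']; exact congrArg (fun y => g • y) h3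
  have e2 : g • q = q' := by
    apply S.cnt3_V1_ext
    · rw [S.cm_smul, h2, h2']; rfl
    · rw [h4']; exact congrArg (fun y => g • y) h4
  apply Prod.ext
  · change g • a.1 = b.1
    rw [← h5, ← h5', ← e1, IRel.c_smul]
  · change g • a.2 = b.2
    rw [← h6, ← h6', ← e2, IRel.c_smul]

theorem Sys.cnt3_r2_inj {a b : S.XR.Q × S.XR.Q} {t t' : S.LV × S.LV × Y} (h : S.cnt3_r2 a t)
    (h' : S.cnt3_r2 b t') (g : H) (e : g • t = t') : g • a = b := by
  obtain ⟨p, q, h1, h2, h3, h4, h5, h6⟩ := h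
  obtain ⟨p', q', h1', h2', h3', h4', h5', h6'⟩ := h'
  subst e
  have e1 : g • p = p' := by
    apply S.cnt3_V1_ext
    · rw [S.cm_smul, h1, h1']; rfl
    · rw [h3']; exact congrArg (fun y => g • y) h3
  have e2 : S.XR.c (g • q) = S.XR.c q' := by
    apply S.cnt3_c_far (l := g • t.1) (l' := g • t.2.1)
    · rw [S.cm_smul, h2]
    · exact h2'
    · exact S.Far_smul g _ _ _ h4
    · exact h4'
  apply Prod.ext
  · change g • a.1 = b.1
    rw [← h5, ← h5', ← e1, IRel.c_smul]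
  · change g • a.2 = b.2
    rw [← h6, ← h6', ← e2, IRel.c_smul]

theorem Sys.cnt3_r4_inj {a b : S.XR.Q × S.XR.Q} {t t' : S.LV × S.LV × S.LV × Y}
    (h : S.cnt3_r4 a t) (h' : S.cnt3_r4 b t') (g : H) (e1 : g • t.1 = t'.1)
    (e2 : g • t.2.1 = t'.2.1) (e3 : g • t.2.2.1 = t'.2.2.1) : g • a = b := by
  obtain ⟨p, q, h1, h2, h3, h4, h5, h6⟩ := h
  obtain ⟨p', q', h1', h2', h3', h4', h5', h6'⟩ := h'
  have c1 : S.XR.c (g • p) = S.XR.c p' := by
    apply S.cnt3_c_far (l := t'.2.1) (l' := t'.1)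
    · rw [S.cm_smul, h1, e2]
    · exact h1'
    · rw [← e1, ← e2]; exact S.Far_smul g _ _ _ h3
    · exact h3'
  have c2 : S.XR.c (g • q) = S.XR.c q' := by
    apply S.cnt3_c_far (l := t'.2.1) (l' := t'.2.2.1)
    · rw [S.cm_smul, h2, e2]
    · exact h2'
    · rw [← e3, ← e2]; exact S.Far_smul g _ _ _ h4
    · exact h4'
  apply Prod.ext
  · change g • a.1 = b.1
    rw [← h5, ← h5', ← c1, IRel.c_smul]
  · change g • a.2 = b.2
    rw [← h6, ← h6', ← c2, IRel.c_smul]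

/-- the weight of a label is at most the weight of the component of a corner -/
theorem Sys.cnt3_wc (M : ℕ) {a : S.XR.Q × S.XR.Q} {u z : S.LV × S.LV × S.LV × Y}
    (hu : S.cnt3_r4 a u) (hz : cs H S.F2 z u) : wt H M a ≤ wc H M S.F2 z := by
  obtain ⟨g, g1, g2, g3⟩ := S.cnt3_cs_F2 hz
  have key : ∀ h ∈ SC H S.F2 z, g * h * g⁻¹ ∈ stabilizer H a := by
    intro h hh
    obtain ⟨a1, a2, a3⟩ := S.cnt3_F2_eqv hh
    replace a1 : h • z.1 = z.1 := a1
    replace a2 : h • z.2.1 = z.2.1 := a2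
    replace a3 : h • z.2.2.1 = z.2.2.1 := a3
    apply S.cnt3_r4_inj hu hu
    · rw [← g1, mul_smul, mul_smul, inv_smul_smul, a1]
    · rw [← g2, mul_smul, mul_smul, inv_smul_smul, a2]
    · rw [← g3, mul_smul, mul_smul, inv_smul_smul, a3]
  unfold wt wc
  by_cases hf : Finite ↥(stabilizer H a)
  · let φ : ↥(SC H S.F2 z) → ↥(stabilizer H a) := fun h => ⟨g * h.1 * g⁻¹, key h.1 h.2⟩
    have hφ : Function.Injective φ := by
      intro h h' e
      have e1 : g * h.1 * g⁻¹ = g * h'.1 * g⁻¹ := congrArg Subtype.val e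
      exact Subtype.ext (mul_left_cancel (mul_right_cancel e1))
    have hfin : Finite ↥(SC H S.F2 z) := Finite.of_injective φ hφ
    have hne : Nonempty ↥(SC H S.F2 z) :=
      ⟨⟨1, by
        change Relation.EqvGen S.F2 ((1 : H) • z) z
        rw [one_smul]
        exact Relation.EqvGen.refl _⟩⟩
    exact Nat.div_le_div_left (Nat.card_le_card_of_injective φ hφ) Nat.card_pos
  · have : Nat.card ↥(stabilizer H a) = 0 := by
      have hi : Infinite ↥(stabilizer H a) := not_finite_iff_infinite.1 hf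
      exact Nat.card_eq_zero_of_infinite
    rw [this, Nat.div_zero]
    exact Nat.zero_le _

theorem Sys.cnt3 (M : ℕ) (hL : S.NoLost) :
    ms H M S.Lab ≤ ms H M S.P0 + 2 * ms H M S.Wns + mc H M S.W2 S.F2 := by
  classical
  -- the target
  let T := orbitRel.Quotient H (S.LV × Y × Y) ⊕ orbitRel.Quotient H (S.LV × S.LV × Y) ⊕
    orbitRel.Quotient H (S.LV × S.LV × Y) ⊕ Quotient (cs H S.F2)
  let A1 : Set (orbitRel.Quotient H (S.LV × Y × Y)) := orbs H S.P0
  let A2 : Set (orbitRel.Quotient H (S.LV × S.LV × Y)) := orbs H S.Wns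
  let A4 : Set (Quotient (cs H S.F2)) :=
    (fun z => Quotient.mk (cs H S.F2) z) '' S.W2
  let i1 : orbitRel.Quotient H (S.LV × Y × Y) → T := Sum.inl
  let i2 : orbitRel.Quotient H (S.LV × S.LV × Y) → T := fun q => Sum.inr (Sum.inl q)
  let i3 : orbitRel.Quotient H (S.LV × S.LV × Y) → T := fun q => Sum.inr (Sum.inr (Sum.inl q))
  let i4 : Quotient (cs H S.F2) → T := fun q => Sum.inr (Sum.inr (Sum.inr q))
  let w1 : orbitRel.Quotient H (S.LV × Y × Y) → ℕ := fun q => wt H M (Quotient.out q)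
  let w2 : orbitRel.Quotient H (S.LV × S.LV × Y) → ℕ := fun q => wt H M (Quotient.out q)
  let w4 : Quotient (cs H S.F2) → ℕ := fun q => wc H M S.F2 (Quotient.out q)
  let w : T → ℕ := Sum.elim w1 (Sum.elim w2 (Sum.elim w2 w4))
  have j1 : Function.Injective i1 := Sum.inl_injective
  have j2 : Function.Injective i2 := fun a b e => Sum.inl.inj (Sum.inr.inj e)
  have j3 : Function.Injective i3 := fun a b e => Sum.inl.inj (Sum.inr.inj (Sum.inr.inj e))
  have j4 : Function.Injective i4 := fun a b e => Sum.inr.inj (Sum.inr.inj (Sum.inr.inj e))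
  have f1 : A1.Finite := by
    have := S.finPE hL
    exact Set.Finite.subset this (Set.image_mono (fun y hy => hy.1))
  have f2 : A2.Finite := by
    have := (S.Gr1 hL).finW
    exact Set.Finite.subset this (Set.image_mono (fun y hy => S.cnt3_Wns_sub hy))
  have f4 : A4.Finite := by
    obtain ⟨F, hF, hFs, h⟩ := Pool.Agent.SAF.FinOrb_iff.1 (S.Gr2 hL).finW
    apply (hF.image (fun z => Quotient.mk (cs H S.F2) z)).subset
    rintro _ ⟨z, hz, rfl⟩
    obtain ⟨f, hf, g, hg⟩ := h z hz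
    exact ⟨f, hf, Quotient.sound (Relation.EqvGen.rel _ _ (Or.inr ⟨g, hg⟩))⟩
  let A : Set T := i1 '' A1 ∪ (i2 '' A2 ∪ (i3 '' A2 ∪ i4 '' A4))
  have fA : A.Finite := (f1.image _).union ((f2.image _).union ((f2.image _).union (f4.image _)))
  have hA : ∑ᶠ t ∈ A, w t ≤ ms H M S.P0 + (ms H M S.Wns + (ms H M S.Wns + mc H M S.W2 S.F2)) := by
    have k1 : ∑ᶠ t ∈ i1 '' A1, w t = ms H M S.P0 :=
      cnt3_sum_image f1 i1 j1 w w1 (fun t => rfl)
    have k2 : ∑ᶠ t ∈ i2 '' A2, w t = ms H M S.Wns :=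
      cnt3_sum_image f2 i2 j2 w w2 (fun t => rfl)
    have k3 : ∑ᶠ t ∈ i3 '' A2, w t = ms H M S.Wns :=
      cnt3_sum_image f2 i3 j3 w w2 (fun t => rfl)
    have k4 : ∑ᶠ t ∈ i4 '' A4, w t = mc H M S.W2 S.F2 :=
      cnt3_sum_image f4 i4 j4 w w4 (fun t => rfl)
    have g1 := cnt3_sum_union (f1.image i1)
      ((f2.image i2).union ((f2.image i3).union (f4.image i4))) w
    have g2 := cnt3_sum_union (f2.image i2) ((f2.image i3).union (f4.image i4)) w
    have g3 := cnt3_sum_union (f2.image i3) (f4.image i4) w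
    rw [k1] at g1
    rw [k2] at g2
    rw [k3, k4] at g3
    exact g1.trans (Nat.add_le_add_left (g2.trans (Nat.add_le_add_left g3 _)) _)
  -- the weight of an orbit
  have wout : ∀ {X : Type} [MulAction H X] (u : X),
      wt H M (Quotient.out (Quotient.mk'' u : orbitRel.Quotient H X)) = wt H M u := by
    intro X _ u
    have e1 : (Quotient.mk'' (Quotient.out (Quotient.mk'' u : orbitRel.Quotient H X)) :
        orbitRel.Quotient H X) = Quotient.mk'' u := Quotient.out_eq' _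
    obtain ⟨h, hh⟩ := Pool.Agent.SAF.mk_eq_iff.1 e1
    rw [← hh, wt_smul]
  let R : S.XR.Q × S.XR.Q → T → Prop := fun a t =>
    (∃ u, t = i1 (Quotient.mk'' u) ∧ S.cnt3_r1 a u) ∨
    (∃ u, t = i2 (Quotient.mk'' u) ∧ S.cnt3_r2 a u) ∨
    (∃ u, t = i3 (Quotient.mk'' u) ∧ S.cnt3_r2 a.swap u) ∨
    (∃ u, t = i4 (Quotient.mk _ u) ∧ S.cnt3_r4 a u)
  have key : ms H M S.Lab ≤ ∑ᶠ t ∈ A, w t := by
    apply cnt3_ms_le fA w R
    · rintro ⟨c, c'⟩ ⟨l, hne, p, q, hpq, hp, rfl, rfl⟩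
      change S.XR.c p ≠ S.XR.c q at hne
      have hq : S.cm q = l := by
        rw [← hp]
        exact Quotient.sound (Relation.EqvGen.symm _ _ (Relation.EqvGen.rel _ _ hpq))
      have hpl : p.1.2 = S.pr l := by rw [← hp]; rfl
      have hPE : S.PE l p.1.1 q.1.1 := by
        refine ⟨hpq.2.1, ?_, ?_, ?_⟩
        · rw [← hpl]; exact hpq.2.2
        · rw [← hp]; exact S.In_cm p
        · rw [← hq]; exact S.In_cm q
      by_cases hP0 : ∀ l', ¬ S.Fl l l' p.1.1 q.1.1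
      · refine ⟨i1 (Quotient.mk'' (l, p.1.1, q.1.1)), ?_, Or.inl ⟨_, rfl, p, q, hp, hq, rfl, rfl,
          rfl, rfl⟩⟩
        exact Or.inl ⟨_, ⟨(l, p.1.1, q.1.1), ⟨hPE, hP0⟩, rfl⟩, rfl⟩
      · push Not at hP0
        obtain ⟨l', hl'⟩ := hP0
        rcases S.Fl_far hL hl' with ⟨h1, h2⟩ | ⟨h1, h2⟩
        · -- `p` far in direction `l'`, `q` near
          by_cases hs : ∃ l2, S.Far l l2 q.1.1
          · obtain ⟨l2, h3⟩ := hs
            have hne2 : l' ≠ l2 := by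
              rintro rfl
              exact S.not_both h3 h2
            have hr : S.cnt3_r4 (S.XR.c p, S.XR.c q) (l', l, l2, q.1.1) :=
              ⟨p, q, hp, hq, h1, h3, rfl, rfl⟩
            refine ⟨i4 (Quotient.mk _ (l', l, l2, q.1.1)), ?_, Or.inr (Or.inr (Or.inr
              ⟨_, rfl, hr⟩))⟩
            exact Or.inr (Or.inr (Or.inr ⟨_, ⟨(l', l, l2, q.1.1), ⟨hne2, h1.1, h3.1, h2.2.1,
              h2.2.2.1, h3.2.2.1, Or.inr h3⟩, rfl⟩, rfl⟩))
          · have hr : S.cnt3_r2 (Prod.swap (S.XR.c p, S.XR.c q)) (l, l', q.1.1) :=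
              ⟨q, p, hq, hp, rfl, h1, rfl, rfl⟩
            refine ⟨i3 (Quotient.mk'' (l, l', q.1.1)), ?_, Or.inr (Or.inr (Or.inl
              ⟨_, rfl, hr⟩))⟩
            exact Or.inr (Or.inr (Or.inl ⟨_, ⟨(l, l', q.1.1), ⟨h2, hs⟩, rfl⟩, rfl⟩))
        · by_cases hs : ∃ l1, S.Far l l1 p.1.1
          · obtain ⟨l1, h3⟩ := hs
            have hne2 : l1 ≠ l' := by
              rintro rfl
              exact S.not_both h3 h2
            have hr : S.cnt3_r4 (S.XR.c p, S.XR.c q) (l1, l, l', p.1.1) :=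
              ⟨p, q, hp, hq, h3, h1, rfl, rfl⟩
            refine ⟨i4 (Quotient.mk _ (l1, l, l', p.1.1)), ?_, Or.inr (Or.inr (Or.inr
              ⟨_, rfl, hr⟩))⟩
            exact Or.inr (Or.inr (Or.inr ⟨_, ⟨(l1, l, l', p.1.1), ⟨hne2, h3.1, h1.1, h3.2.2.1,
              h2.2.2.1, h2.2.1, Or.inl h3⟩, rfl⟩, rfl⟩))
          · have hr : S.cnt3_r2 (S.XR.c p, S.XR.c q) (l, l', p.1.1) :=
              ⟨p, q, hp, hq, rfl, h1, rfl, rfl⟩
            refine ⟨i2 (Quotient.mk'' (l, l', p.1.1)), ?_, Or.inr (Or.inl ⟨_, rfl, hr⟩)⟩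
            exact Or.inr (Or.inl ⟨_, ⟨(l, l', p.1.1), ⟨h2, hs⟩, rfl⟩, rfl⟩)
    · rintro a - t ht
      rcases ht with ⟨u, rfl, hu⟩ | ⟨u, rfl, hu⟩ | ⟨u, rfl, hu⟩ | ⟨u, rfl, hu⟩
      · change wt H M a ≤ wt H M (Quotient.out (Quotient.mk'' u : orbitRel.Quotient H _))
        rw [wout u]
        exact wt_le M (fun g hg => S.cnt3_r1_inj hu hu g hg)
      · change wt H M a ≤ wt H M (Quotient.out (Quotient.mk'' u : orbitRel.Quotient H _))
        rw [wout u]
        exact wt_le M (fun g hg => S.cnt3_r2_inj hu hu g hg)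
      · change wt H M a ≤ wt H M (Quotient.out (Quotient.mk'' u : orbitRel.Quotient H _))
        rw [wout u]
        refine wt_le M (fun g hg => ?_)
        have e' := congrArg Prod.swap (S.cnt3_r2_inj hu hu g hg)
        exact e'
      · change wt H M a ≤ wc H M S.F2 (Quotient.out (Quotient.mk (cs H S.F2) u))
        exact S.cnt3_wc M hu (Quotient.exact (Quotient.out_eq (Quotient.mk (cs H S.F2) u)))
    · rintro a - b - t ha hb
      rcases ha with ⟨u, rfl, hu⟩ | ⟨u, rfl, hu⟩ | ⟨u, rfl, hu⟩ | ⟨u, rfl, hu⟩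
      · rcases hb with ⟨v, e, hv⟩ | ⟨v, e, hv⟩ | ⟨v, e, hv⟩ | ⟨v, e, hv⟩
        · obtain ⟨g, hg⟩ := Pool.Agent.SAF.mk_eq_iff.1 (Sum.inl.inj e).symm
          exact ⟨g, S.cnt3_r1_inj hu hv g hg⟩
        · exact (Sum.inl_ne_inr e).elim
        · exact (Sum.inl_ne_inr e).elim
        · exact (Sum.inl_ne_inr e).elim
      · rcases hb with ⟨v, e, hv⟩ | ⟨v, e, hv⟩ | ⟨v, e, hv⟩ | ⟨v, e, hv⟩
        · exact (Sum.inr_ne_inl e).elim
        · obtain ⟨g, hg⟩ := Pool.Agent.SAF.mk_eq_iff.1 (Sum.inl.inj (Sum.inr.inj e)).symm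
          exact ⟨g, S.cnt3_r2_inj hu hv g hg⟩
        · exact (Sum.inl_ne_inr (Sum.inr.inj e)).elim
        · exact (Sum.inl_ne_inr (Sum.inr.inj e)).elim
      · rcases hb with ⟨v, e, hv⟩ | ⟨v, e, hv⟩ | ⟨v, e, hv⟩ | ⟨v, e, hv⟩
        · exact (Sum.inr_ne_inl e).elim
        · exact (Sum.inr_ne_inl (Sum.inr.inj e)).elim
        · obtain ⟨g, hg⟩ :=
            Pool.Agent.SAF.mk_eq_iff.1 (Sum.inl.inj (Sum.inr.inj (Sum.inr.inj e))).symm
          have e' := congrArg Prod.swap (S.cnt3_r2_inj hu hv g hg)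
          exact ⟨g, e'⟩
        · exact (Sum.inl_ne_inr (Sum.inr.inj (Sum.inr.inj e))).elim
      · rcases hb with ⟨v, e, hv⟩ | ⟨v, e, hv⟩ | ⟨v, e, hv⟩ | ⟨v, e, hv⟩
        · exact (Sum.inr_ne_inl e).elim
        · exact (Sum.inr_ne_inl (Sum.inr.inj e)).elim
        · exact (Sum.inr_ne_inl (Sum.inr.inj (Sum.inr.inj e))).elim
        · have e' := Quotient.exact (Sum.inr.inj (Sum.inr.inj (Sum.inr.inj e)))
          obtain ⟨g, g1, g2, g3⟩ := S.cnt3_cs_F2 e'
          exact ⟨g, S.cnt3_r4_inj hu hv g g1 g2 g3⟩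
  refine key.trans (hA.trans (le_of_eq ?_))
  ring

end

end Pool.Agent.SAG
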