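import Pool.Agent.SAG.BMono

/-!
# SAG, module BMain: the number `N2` and maps of graphs

Compare `SAF.BMain` (same proofs with `N2_addE_nonneg`, `N2_addE_mono`).
-/

namespace Pool.Agent.SAG

open MulAction
open Pool.Agent.SAF (InC orbs FinOrb oc Decomp SAn SA Ori Conv hull Zs LostF)

section

variable {H : Type} [Group H] {Z : Type} [MulAction H Z] {Z2 : Type} [MulAction H Z2]

private theorem fsum_congr {A B : Type} (rA : Setoid A) (rB : Setoid B) (e : A ≃ B)
    (h : ∀ a b, rA a b ↔ rB (e a) (e b)) {s : Set A} {t : Set B} (hs : ∀ a, a ∈ s ↔ e a ∈ t)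
    (f : A → ℕ) (g : B → ℕ) (hfg : ∀ a, f a = g (e a)) (hg : ∀ a b, rB a b → g a = g b) :
    (∑ᶠ q ∈ (Quotient.mk rA) '' s, f (Quotient.out q)) =
      ∑ᶠ q ∈ (Quotient.mk rB) '' t, g (Quotient.out q) := by
  let φ : Quotient rA → Quotient rB := Quotient.map e (fun a b hab => (h a b).1 hab)
  have hφ : Function.Injective φ := by
    intro x y
    induction x, y using Quotient.inductionOn₂ with
    | h a b =>
      intro hab
      exact Quotient.sound ((h a b).2 (Quotient.exact hab))
  refine finsum_mem_eq_of_bijOn φ ⟨?_, hφ.injOn, ?_⟩ ?_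
  · rintro _ ⟨a, ha, rfl⟩
    exact ⟨e a, (hs a).1 ha, rfl⟩
  · rintro _ ⟨b, hb, rfl⟩
    refine ⟨Quotient.mk rA (e.symm b), ⟨e.symm b, (hs _).2 (by simpa using hb), rfl⟩, ?_⟩
    change Quotient.mk rB (e (e.symm b)) = Quotient.mk rB b
    rw [e.apply_symm_apply]
  · intro q _
    rw [hfg]
    apply hg
    have h1 : φ q = Quotient.mk rB (e (Quotient.out q)) := by
      conv_lhs => rw [← Quotient.out_eq q]
      rfl
    have h2 : Quotient.mk rB (Quotient.out (φ q)) = Quotient.mk rB (e (Quotient.out q)) := by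
      rw [Quotient.out_eq, h1]
    exact rB.symm (Quotient.exact h2)

private theorem eqv_map {A B : Type} {F : A → A → Prop} {G : B → B → Prop} (f : A → B)
    (h : ∀ a b, F a b → G (f a) (f b)) {a b : A} (hab : Relation.EqvGen F a b) :
    Relation.EqvGen G (f a) (f b) := by
  induction hab with
  | rel x y hxy => exact Relation.EqvGen.rel _ _ (h _ _ hxy)
  | refl x => exact Relation.EqvGen.refl _
  | symm x y _ ih => exact Relation.EqvGen.symm _ _ ih
  | trans x y z _ _ ih1 ih2 => exact Relation.EqvGen.trans _ _ _ ih1 ih2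

private theorem orbit_iff {a b : Z} : (orbitRel H Z) a b ↔ ∃ h : H, h • b = a := Iff.rfl

/-- for an invariant graph the weight of a component only depends on its class -/
private theorem wc_cs (M : ℕ) {F : Z → Z → Prop}
    (hinv : ∀ (h : H) (a b : Z), F a b → F (h • a) (h • b)) {a b : Z} (hab : (cs H F) a b) :
    wc H M F a = wc H M F b := by
  have hsm : ∀ (k : H) {x y : Z}, Relation.EqvGen F x y →
      Relation.EqvGen F (k • x) (k • y) := fun k x y h => eqv_map (fun z => k • z) (hinv k) h
  change Relation.EqvGen (fun a b => F a b ∨ ∃ h : H, h • a = b) a b at hab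
  induction hab with
  | rel x y hxy =>
    rcases hxy with hxy | ⟨k, rfl⟩
    · have h1 : Relation.EqvGen F x y := Relation.EqvGen.rel _ _ hxy
      have h2 : SC H F x = SC H F y := by
        ext h
        constructor
        · intro hh
          exact Relation.EqvGen.trans _ _ _ (Relation.EqvGen.symm _ _ (hsm h h1))
            (Relation.EqvGen.trans _ _ _ hh h1)
        · intro hh
          exact Relation.EqvGen.trans _ _ _ (hsm h h1)
            (Relation.EqvGen.trans _ _ _ hh (Relation.EqvGen.symm _ _ h1))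
      unfold wc
      rw [h2]
    · unfold wc
      have h3 : Nat.card ↥(SC H F x) = Nat.card ↥(SC H F (k • x)) := by
        refine Nat.card_congr (Equiv.subtypeEquiv (MulAut.conj k).toEquiv ?_)
        intro h
        change Relation.EqvGen F (h • x) x ↔
          Relation.EqvGen F ((k * h * k⁻¹) • k • x) (k • x)
        rw [smul_smul, inv_mul_cancel_right, mul_smul]
        constructor
        · exact fun hh => hsm k hh
        · intro hh
          have := hsm k⁻¹ hh
          rwa [inv_smul_smul, inv_smul_smul] at this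
      rw [h3]
  | refl x => rfl
  | symm x y _ ih => exact ih.symm
  | trans x y z _ _ ih1 ih2 => exact ih1.trans ih2

theorem N2_bot (M : ℕ) (W : Set Z) : N2 H M W (fun _ _ => False) = 0 := by
  have h1 : ms H M {p : Z × Z | False} = 0 := ms_zero (fun a ha => ha.elim)
  have hF : ∀ x y : Z, Relation.EqvGen (fun _ _ : Z => False) x y → x = y := by
    intro x y hxy
    induction hxy with
    | rel x y hxy => exact hxy.elim
    | refl x => rfl
    | symm x y _ ih => exact ih.symm
    | trans x y z _ _ ih1 ih2 => exact ih1.trans ih2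
  have h2 : mc H M W (fun _ _ => False) = ms H M W := by
    unfold mc ms orbs
    refine fsum_congr (cs H (fun _ _ => False)) (orbitRel H Z) (Equiv.refl Z) ?_ (fun _ => Iff.rfl)
      (wc H M (fun _ _ => False)) (wt H M) ?_ ?_
    · intro a b
      constructor
      · intro h
        change Relation.EqvGen (fun a b => False ∨ ∃ h : H, h • a = b) a b at h
        induction h with
        | rel x y hxy =>
          rcases hxy with hxy | ⟨g, hg⟩
          · exact hxy.elim
          · refine orbit_iff.2 ⟨g⁻¹, ?_⟩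
            change g⁻¹ • y = x
            rw [← hg, inv_smul_smul]
        | refl x => exact (orbitRel H Z).refl _
        | symm x y _ ih => exact (orbitRel H Z).symm ih
        | trans x y z _ _ ih1 ih2 => exact (orbitRel H Z).trans ih1 ih2
      · intro h
        obtain ⟨g, hg⟩ := orbit_iff.1 h
        refine Relation.EqvGen.symm _ _ (Relation.EqvGen.rel _ _ (Or.inr ⟨g, hg⟩))
    · intro a
      unfold wc wt
      have : Nat.card ↥(SC H (fun _ _ : Z => False) a) = Nat.card ↥(stabilizer H a) := by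
        refine Nat.card_congr (Equiv.subtypeEquiv (Equiv.refl H) ?_)
        intro h
        change Relation.EqvGen (fun _ _ : Z => False) (h • a) a ↔ h • a = a
        constructor
        · exact fun hh => hF _ _ hh
        · intro hh
          rw [hh]
          exact Relation.EqvGen.refl _
      rw [this]
      rfl
    · intro a b hab
      obtain ⟨g, rfl⟩ := orbit_iff.1 hab
      exact wt_smul M g b
  unfold N2
  rw [h1, h2]
  push_cast
  ring

private theorem main_aux {M : ℕ} (hM : Gd M H) (π : Z2 → Z)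
    (hπ : ∀ (h : H) (z : Z2), π (h • z) = h • π z)
    {W : Set Z} {F : Z → Z → Prop} {W2 : Set Z2} {F2 : Z2 → Z2 → Prop}
    (g : Gr H W F) (g2 : Gr H W2 F2) (hF : ∀ a b, F2 a b → F (π a) (π b))
    (hinj : ∀ a b a' b', F2 a b → F2 a' b' → π a = π a' → π b = π b' → a = a' ∧ b = b') :
    ∀ (n : ℕ) (G : Z → Z → Prop), Gr H W G → (∀ a b, G a b → F a b) →
    oc H {p : Z × Z | F p.1 p.2 ∧ ¬ G p.1 p.2} ≤ n →
    N2 H M W G + N2 H M W2 F2 ≤
      N2 H M W F + N2 H M W2 (fun a b => F2 a b ∧ G (π a) (π b)) := by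
  intro n
  induction n with
  | zero =>
    intro G gG hG hn
    have hfin : (orbs H {p : Z × Z | F p.1 p.2 ∧ ¬ G p.1 p.2}).Finite :=
      g.finF.subset (Set.image_mono (fun p hp => hp.1))
    have h0 : oc H {p : Z × Z | F p.1 p.2 ∧ ¬ G p.1 p.2} = 0 := Nat.le_zero.1 hn
    unfold oc at h0
    rw [Set.ncard_eq_zero hfin] at h0
    have h1 : ∀ a b, F a b → G a b := by
      intro a b hab
      by_contra hc
      have : (Quotient.mk'' (a, b) : orbitRel.Quotient H (Z × Z)) ∈
          orbs H {p : Z × Z | F p.1 p.2 ∧ ¬ G p.1 p.2} := ⟨(a, b), ⟨hab, hc⟩, rfl⟩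
      rw [h0] at this
      exact this
    have h2 : G = F := by
      funext a b
      exact propext ⟨hG a b, h1 a b⟩
    have h3 : (fun a b => F2 a b ∧ G (π a) (π b)) = F2 := by
      funext a b
      exact propext ⟨fun h => h.1, fun h => ⟨h, h1 _ _ (hF _ _ h)⟩⟩
    rw [h3, h2]
  | succ n ih =>
    intro G gG hG hn
    by_cases hem : ∃ u v, F u v ∧ ¬ G u v
    swap
    · refine ih G gG hG ?_
      have : {p : Z × Z | F p.1 p.2 ∧ ¬ G p.1 p.2} = ∅ := by
        ext p
        simp only [Set.mem_ofPred_eq, Set.mem_empty_iff_false, iff_false]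
        intro hp
        exact hem ⟨p.1, p.2, hp⟩
      rw [this]
      unfold oc orbs
      simp
    obtain ⟨u, v, huv, hnuv⟩ := hem
    have huW : u ∈ W := g.mem _ _ huv
    have hvW : v ∈ W := g.mem _ _ (g.symm _ _ huv)
    have hne : u ≠ v := by
      rintro rfl
      exact g.irr _ huv
    have gG' : Gr H W (addE H G u v) := gG.addE huW hvW hne
    have hG' : ∀ a b, addE H G u v a b → F a b := by
      rintro a b (h | ⟨h, rfl, rfl⟩ | ⟨h, rfl, rfl⟩)
      · exact hG _ _ h
      · exact g.inv _ _ _ huv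
      · exact g.inv _ _ _ (g.symm _ _ huv)
    have hfin : (orbs H {p : Z × Z | F p.1 p.2 ∧ ¬ G p.1 p.2}).Finite :=
      g.finF.subset (Set.image_mono (fun p hp => hp.1))
    have hlt : oc H {p : Z × Z | F p.1 p.2 ∧ ¬ addE H G u v p.1 p.2} <
        oc H {p : Z × Z | F p.1 p.2 ∧ ¬ G p.1 p.2} := by
      unfold oc
      refine Set.ncard_lt_ncard ?_ hfin
      refine ⟨Set.image_mono (fun p hp => ⟨hp.1, fun h => hp.2 (Or.inl h)⟩), ?_⟩
      intro hsub
      have h1 : (Quotient.mk'' (u, v) : orbitRel.Quotient H (Z × Z)) ∈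
          orbs H {p : Z × Z | F p.1 p.2 ∧ ¬ addE H G u v p.1 p.2} :=
        hsub ⟨(u, v), ⟨huv, hnuv⟩, rfl⟩
      obtain ⟨p, hp, hpe⟩ := h1
      have h2 : (orbitRel H (Z × Z)) p (u, v) := Quotient.exact hpe
      obtain ⟨k, hk⟩ := orbit_iff.1 h2
      apply hp.2
      right; left
      refine ⟨k, ?_, ?_⟩
      · exact congrArg Prod.fst hk
      · exact congrArg Prod.snd hk
    have hI := ih (addE H G u v) gG' hG' (by omega)
    have gr2 : Gr H W2 (fun a b => F2 a b ∧ G (π a) (π b)) :=
      { symm := fun a b h => ⟨g2.symm _ _ h.1, gG.symm _ _ h.2⟩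
        irr := fun a h => g2.irr _ h.1
        inv := fun h a b e => ⟨g2.inv _ _ _ e.1, by rw [hπ, hπ]; exact gG.inv _ _ _ e.2⟩
        W_inv := g2.W_inv
        mem := fun a b h => g2.mem _ _ h.1
        finW := g2.finW
        finF := g2.finF.subset (Set.image_mono (fun p hp => hp.1)) }
    -- the increments
    have key : N2 H M W2 (fun a b => F2 a b ∧ addE H G u v (π a) (π b)) -
        N2 H M W2 (fun a b => F2 a b ∧ G (π a) (π b)) ≤
        N2 H M W (addE H G u v) - N2 H M W G := by
      by_cases hex : ∃ a b, F2 a b ∧ π a = u ∧ π b = v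
      · obtain ⟨a0, b0, hab0, rfl, rfl⟩ := hex
        have ha0 : a0 ∈ W2 := g2.mem _ _ hab0
        have hb0 : b0 ∈ W2 := g2.mem _ _ (g2.symm _ _ hab0)
        have heq : (fun a b => F2 a b ∧ addE H G (π a0) (π b0) (π a) (π b)) =
            addE H (fun a b => F2 a b ∧ G (π a) (π b)) a0 b0 := by
          funext a b
          apply propext
          constructor
          · rintro ⟨h1, h2 | ⟨k, h3, h4⟩ | ⟨k, h3, h4⟩⟩
            · exact Or.inl ⟨h1, h2⟩
            · right; left
              have := hinj _ _ _ _ (g2.inv k _ _ hab0) h1 (by rw [hπ]; exact h3)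
                (by rw [hπ]; exact h4)
              exact ⟨k, this.1, this.2⟩
            · right; right
              have := hinj _ _ _ _ (g2.inv k _ _ (g2.symm _ _ hab0)) h1 (by rw [hπ]; exact h3)
                (by rw [hπ]; exact h4)
              exact ⟨k, this.1, this.2⟩
          · rintro (⟨h1, h2⟩ | ⟨k, rfl, rfl⟩ | ⟨k, rfl, rfl⟩)
            · exact ⟨h1, Or.inl h2⟩
            · refine ⟨g2.inv _ _ _ hab0, Or.inr (Or.inl ⟨k, ?_, ?_⟩)⟩
              · rw [hπ]
              · rw [hπ]
            · refine ⟨g2.inv _ _ _ (g2.symm _ _ hab0), Or.inr (Or.inr ⟨k, ?_, ?_⟩)⟩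
              · rw [hπ]
              · rw [hπ]
        rw [heq]
        refine N2_addE_mono hM π hπ gG gr2 (fun a b h => h.2) ha0 hb0 huW hvW hne hnuv ?_ ?_
        · intro h e1 e2
          exact hinj _ _ _ _ (g2.inv h _ _ hab0) hab0 (by rw [hπ]; exact e1)
            (by rw [hπ]; exact e2)
        · intro h e1 e2
          exact hinj _ _ _ _ (g2.inv h _ _ hab0) (g2.symm _ _ hab0) (by rw [hπ]; exact e1)
            (by rw [hπ]; exact e2)
      · have heq : (fun a b => F2 a b ∧ addE H G u v (π a) (π b)) =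
            (fun a b => F2 a b ∧ G (π a) (π b)) := by
          funext a b
          apply propext
          constructor
          · rintro ⟨h1, h2 | ⟨k, h3, h4⟩ | ⟨k, h3, h4⟩⟩
            · exact ⟨h1, h2⟩
            · exfalso
              apply hex
              refine ⟨k⁻¹ • a, k⁻¹ • b, g2.inv _ _ _ h1, ?_, ?_⟩
              · rw [hπ, ← h3, inv_smul_smul]
              · rw [hπ, ← h4, inv_smul_smul]
            · exfalso
              apply hex
              refine ⟨k⁻¹ • b, k⁻¹ • a, g2.inv _ _ _ (g2.symm _ _ h1), ?_, ?_⟩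
              · rw [hπ, ← h4, inv_smul_smul]
              · rw [hπ, ← h3, inv_smul_smul]
          · rintro ⟨h1, h2⟩
            exact ⟨h1, Or.inl h2⟩
        rw [heq]
        have hge := N2_addE_nonneg hM gG huW hvW hne hnuv
        omega
    omega

theorem N2_main {M : ℕ} (hG : Gd M H) (π : Z2 → Z) (hπ : ∀ (h : H) (z : Z2), π (h • z) = h • π z)
    {W : Set Z} {F : Z → Z → Prop} {W2 : Set Z2} {F2 : Z2 → Z2 → Prop}
    (g : Gr H W F) (g2 : Gr H W2 F2) (hF : ∀ a b, F2 a b → F (π a) (π b))
    (hinj : ∀ a b a' b', F2 a b → F2 a' b' → π a = π a' → π b = π b' → a = a' ∧ b = b')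
    {G : Z → Z → Prop} (gG : Gr H W G) (hGF : ∀ a b, G a b → F a b) :
    N2 H M W G + N2 H M W2 F2 ≤
      N2 H M W F + N2 H M W2 (fun a b => F2 a b ∧ G (π a) (π b)) :=
  main_aux hG π hπ g g2 hF hinj _ G gG hGF le_rfl

private theorem gr_bot {W : Set Z} {F : Z → Z → Prop} (g : Gr H W F) :
    Gr H W (fun _ _ : Z => False) :=
  { symm := fun _ _ h => h
    irr := fun _ h => h
    inv := fun _ _ _ e => e
    W_inv := g.W_inv
    mem := fun _ _ h => h.elim
    finW := g.finW
    finF := g.finF.subset (Set.image_mono (fun _ hp => hp.elim)) }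

theorem N2_le {M : ℕ} (hG : Gd M H) (π : Z2 → Z) (hπ : ∀ (h : H) (z : Z2), π (h • z) = h • π z)
    {W : Set Z} {F : Z → Z → Prop} {W2 : Set Z2} {F2 : Z2 → Z2 → Prop}
    (g : Gr H W F) (g2 : Gr H W2 F2) (hF : ∀ a b, F2 a b → F (π a) (π b))
    (hinj : ∀ a b a' b', F2 a b → F2 a' b' → π a = π a' → π b = π b' → a = a' ∧ b = b') :
    N2 H M W2 F2 ≤ N2 H M W F := by
  have h := N2_main hG π hπ g g2 hF hinj (gr_bot g) (fun _ _ h => h.elim)
  have h1 : (fun a b => F2 a b ∧ (fun _ _ : Z => False) (π a) (π b)) =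
      (fun _ _ : Z2 => False) := by
    funext a b
    simp
  rw [h1, N2_bot, N2_bot] at h
  omega

theorem N2_nonneg {M : ℕ} (hG : Gd M H) {W : Set Z} {F : Z → Z → Prop} (g : Gr H W F) :
    0 ≤ N2 H M W F := by
  have h := N2_le hG id (fun _ _ => rfl) g (gr_bot g) (fun _ _ h => h.elim)
    (fun _ _ _ _ _ _ h h' => ⟨h, h'⟩)
  rw [N2_bot] at h
  exact h

/-- equality passes to invariant subgraphs -/
theorem N2_eq {M : ℕ} (hG : Gd M H) (π : Z2 → Z) (hπ : ∀ (h : H) (z : Z2), π (h • z) = h • π z)
    {W : Set Z} {F : Z → Z → Prop} {W2 : Set Z2} {F2 : Z2 → Z2 → Prop}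
    (g : Gr H W F) (g2 : Gr H W2 F2) (hF : ∀ a b, F2 a b → F (π a) (π b))
    (hinj : ∀ a b a' b', F2 a b → F2 a' b' → π a = π a' → π b = π b' → a = a' ∧ b = b')
    (he : N2 H M W F ≤ N2 H M W2 F2)
    {G : Z → Z → Prop} (gG : Gr H W G) (hGF : ∀ a b, G a b → F a b) :
    N2 H M W G = N2 H M W2 (fun a b => F2 a b ∧ G (π a) (π b)) := by
  have h1 := N2_main hG π hπ g g2 hF hinj gG hGF
  have gr2 : Gr H W2 (fun a b => F2 a b ∧ G (π a) (π b)) :=
    { symm := fun a b h => ⟨g2.symm _ _ h.1, gG.symm _ _ h.2⟩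
      irr := fun a h => g2.irr _ h.1
      inv := fun h a b e => ⟨g2.inv _ _ _ e.1, by rw [hπ, hπ]; exact gG.inv _ _ _ e.2⟩
      W_inv := g2.W_inv
      mem := fun a b h => g2.mem _ _ h.1
      finW := g2.finW
      finF := g2.finF.subset (Set.image_mono (fun p hp => hp.1)) }
  have h2 := N2_le hG π hπ gG gr2 (fun a b h => h.2)
    (fun a b a' b' h h' => hinj a b a' b' h.1 h'.1)
  omega

theorem N2_mono {M : ℕ} (hG : Gd M H) {W : Set Z} {F G : Z → Z → Prop} (g : Gr H W F)
    (gG : Gr H W G) (hGF : ∀ a b, G a b → F a b) : N2 H M W G ≤ N2 H M W F :=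
  N2_le hG id (fun _ _ => rfl) g gG hGF (fun _ _ _ _ _ _ h h' => ⟨h, h'⟩)

private theorem eqv_iff {A B : Type} (e : A ≃ B) {F : A → A → Prop} {G : B → B → Prop}
    (h : ∀ a b, F a b ↔ G (e a) (e b)) (a b : A) :
    Relation.EqvGen F a b ↔ Relation.EqvGen G (e a) (e b) := by
  constructor
  · exact fun hab => eqv_map e (fun a b h' => (h a b).1 h') hab
  · intro hab
    have := eqv_map (F := G) (G := F) e.symm (fun a b h' => (h _ _).2 (by simpa using h')) hab
    simpa using this

/-- the invariance of `F` is needed: without it `wc` is not constant on the classes -/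
theorem N2_iso (M : ℕ) (e : Z2 ≃ Z) (he : ∀ (h : H) (z : Z2), e (h • z) = h • e z)
    {W : Set Z} {F : Z → Z → Prop} {W2 : Set Z2} {F2 : Z2 → Z2 → Prop}
    (hW : ∀ a, a ∈ W2 ↔ e a ∈ W) (hF : ∀ a b, F2 a b ↔ F (e a) (e b))
    (hinv : ∀ (h : H) (a b : Z), F a b → F (h • a) (h • b)) :
    N2 H M W2 F2 = N2 H M W F := by
  have hst : ∀ {A : Type} [MulAction H A] {B : Type} [MulAction H B] (e : A ≃ B)
      (he : ∀ (h : H) (z : A), e (h • z) = h • e z) (a : A), wt H M a = wt H M (e a) := by
    intro A _ B _ e he a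
    unfold wt
    have : Nat.card ↥(stabilizer H a) = Nat.card ↥(stabilizer H (e a)) := by
      refine Nat.card_congr (Equiv.subtypeEquiv (Equiv.refl H) ?_)
      intro h
      change h • a = a ↔ h • e a = e a
      rw [← he, e.injective.eq_iff]
    rw [this]
  have h1 : ms H M {p : Z2 × Z2 | F2 p.1 p.2} = ms H M {p : Z × Z | F p.1 p.2} := by
    unfold ms orbs
    have hee : ∀ (h : H) (z : Z2 × Z2), (Equiv.prodCongr e e) (h • z) =
        h • (Equiv.prodCongr e e) z := by
      rintro h ⟨x, y⟩
      change (e (h • x), e (h • y)) = (h • e x, h • e y)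
      rw [he, he]
    refine fsum_congr (orbitRel H (Z2 × Z2)) (orbitRel H (Z × Z)) (Equiv.prodCongr e e) ?_ ?_
      (wt H M) (wt H M) (hst _ hee) ?_
    · intro a b
      rw [orbit_iff, orbit_iff]
      refine exists_congr (fun k => ?_)
      rw [← hee]
      exact (Equiv.prodCongr e e).injective.eq_iff.symm
    · intro a
      exact hF _ _
    · intro a b hab
      obtain ⟨g, rfl⟩ := orbit_iff.1 hab
      exact wt_smul M g b
  have h2 : ms H M W2 = ms H M W := by
    unfold ms orbs
    refine fsum_congr (orbitRel H Z2) (orbitRel H Z) e ?_ hW (wt H M) (wt H M) (hst _ he) ?_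
    · intro a b
      rw [orbit_iff, orbit_iff]
      refine exists_congr (fun k => ?_)
      rw [← he]
      exact e.injective.eq_iff.symm
    · intro a b hab
      obtain ⟨g, rfl⟩ := orbit_iff.1 hab
      exact wt_smul M g b
  have h3 : mc H M W2 F2 = mc H M W F := by
    unfold mc
    refine fsum_congr (cs H F2) (cs H F) e ?_ hW (wc H M F2) (wc H M F) ?_
      (fun a b hab => wc_cs M hinv hab)
    · intro a b
      refine eqv_iff e ?_ a b
      intro a b
      refine or_congr (hF _ _) (exists_congr (fun k => ?_))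
      rw [← he]
      exact e.injective.eq_iff.symm
    · intro a
      unfold wc
      have : Nat.card ↥(SC H F2 a) = Nat.card ↥(SC H F (e a)) := by
        refine Nat.card_congr (Equiv.subtypeEquiv (Equiv.refl H) ?_)
        intro h
        change Relation.EqvGen F2 (h • a) a ↔ Relation.EqvGen F (h • e a) (e a)
        rw [← he]
        exact eqv_iff e hF _ _
      rw [this]
  unfold N2
  rw [h1, h2, h3]

end

end Pool.Agent.SAG
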