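import Pool.Agent.SAG.BCnt1
import Pool.Agent.SAG.BCnt2
import Pool.Agent.SAG.BCnt3
import Pool.Agent.SAG.BMain

/-!
# SAG, module BCount: the count

Compare `SAF.BCount`. `mc_F1`: the component of `(l, l', x)` in `F1` contains all `(l, l', y)`
(`DConn`), so its stabiliser contains `J l l'`, which is infinite (`JAll`).
`ef_le_Lab`: `ms_fibre`.
-/

namespace Pool.Agent.SAG

open MulAction
open Pool.Agent.SAF (InC orbs FinOrb oc Decomp SAn SA Ori Conv hull Zs LostF)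

section

variable {H : Type} [Group H] {Y : Type} [MulAction H Y] {K : KS H Y} {D : Decomp H}
  (S : Sys H Y K D)

private theorem eqv_map_count {A B : Type} {F : A → A → Prop} {G : B → B → Prop} (f : A → B)
    (h : ∀ a b, F a b → G (f a) (f b)) {a b : A} (hab : Relation.EqvGen F a b) :
    Relation.EqvGen G (f a) (f b) := by
  induction hab with
  | rel x y hxy => exact Relation.EqvGen.rel _ _ (h x y hxy)
  | refl x => exact Relation.EqvGen.refl _
  | symm x y _ ih => exact Relation.EqvGen.symm _ _ ih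
  | trans x y z _ _ ih1 ih2 => exact Relation.EqvGen.trans _ _ _ ih1 ih2

private theorem W1_smul (h : H) (z : S.LV × S.LV × Y) (hz : z ∈ S.W1) : h • z ∈ S.W1 :=
  ⟨S.LAdj_smul h _ _ hz.1, S.In_smul h _ _ hz.2.1, S.In_smul h _ _ hz.2.2⟩

private theorem W1_smul_iff (h : H) (z : S.LV × S.LV × Y) : h • z ∈ S.W1 ↔ z ∈ S.W1 := by
  constructor
  · intro e
    have := W1_smul S h⁻¹ _ e
    rwa [inv_smul_smul] at this
  · exact W1_smul S h z

private theorem F1_W1 {a b : S.LV × S.LV × Y} (h : S.F1 a b) : a ∈ S.W1 ∧ b ∈ S.W1 := by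
  obtain ⟨l, l', x⟩ := a
  obtain ⟨m, m', y⟩ := b
  obtain ⟨e1, e2, h1, h2, h3⟩ := h
  dsimp only at e1 e2 h1 h2 h3
  subst e1 e2
  exact ⟨⟨h1, h2.2.2.1, h3.2.2.1⟩, ⟨h1, h2.2.2.2, h3.2.2.2⟩⟩

private theorem cs_W1 {a b : S.LV × S.LV × Y} (h : cs H S.F1 a b) : a ∈ S.W1 ↔ b ∈ S.W1 := by
  induction h with
  | rel x y hxy =>
    rcases hxy with e | ⟨g, rfl⟩
    · exact ⟨fun _ => (F1_W1 S e).2, fun _ => (F1_W1 S e).1⟩
    · exact (W1_smul_iff S g x).symm
  | refl x => exact Iff.rfl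
  | symm x y _ ih => exact ih.symm
  | trans x y z _ _ ih1 ih2 => exact ih1.trans ih2

private theorem wc_F1 (M : ℕ) (hJ : S.JAll) (hD : S.DConn) {z : S.LV × S.LV × Y}
    (hz : z ∈ S.W1) : wc H M S.F1 z = 0 := by
  obtain ⟨l, l', x⟩ := z
  obtain ⟨h1, h2, h3⟩ := hz
  obtain ⟨j, hj, hio⟩ := hJ l l' h1
  have hmem : ∀ n : ℕ, j ^ n ∈ SC H S.F1 (l, l', x) := by
    intro n
    obtain ⟨hj1, hj2⟩ := (S.J l l').pow_mem hj n
    replace hj1 : j ^ n • l = l := hj1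
    replace hj2 : j ^ n • l' = l' := hj2
    have a1 : S.In (j ^ n • x) l := by
      have := S.In_smul (j ^ n) x l h2
      rwa [hj1] at this
    have a2 : S.In (j ^ n • x) l' := by
      have := S.In_smul (j ^ n) x l' h3
      rwa [hj2] at this
    have h5 := hD l l' (j ^ n • x) x h1 a1 a2 h2 h3
    have h6 := eqv_map_count (G := S.F1) (fun y : Y => ((l, l', y) : S.LV × S.LV × Y))
      (fun a b hab => ⟨rfl, rfl, hab⟩) h5
    have h7 : j ^ n • ((l, l', x) : S.LV × S.LV × Y) = (l, l', j ^ n • x) := by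
      change (j ^ n • l, j ^ n • l', j ^ n • x) = (l, l', j ^ n • x)
      rw [hj1, hj2]
    show Relation.EqvGen S.F1 (j ^ n • ((l, l', x) : S.LV × S.LV × Y)) (l, l', x)
    rw [h7]
    exact h6
  have hinf : Infinite ↥(SC H S.F1 (l, l', x)) := by
    apply Infinite.of_injective
      (fun n : ℕ => (⟨j ^ n, hmem n⟩ : ↥(SC H S.F1 (l, l', x))))
    intro m n hmn
    have e : j ^ m = j ^ n := congrArg Subtype.val hmn
    rcases lt_trichotomy m n with h | h | h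
    · exfalso
      apply hio (n - m) (by omega)
      rw [pow_sub j h.le, e]
      group
    · exact h
    · exfalso
      apply hio (m - n) (by omega)
      rw [pow_sub j h.le, e]
      group
  unfold wc
  rw [Nat.card_eq_zero_of_infinite, Nat.div_zero]

theorem Sys.mc_F1 (M : ℕ) (hJ : S.JAll) (hD : S.DConn) : mc H M S.W1 S.F1 = 0 := by
  unfold mc
  apply finsum_mem_eq_zero_of_forall_eq_zero
  rintro c ⟨z, hz, rfl⟩
  apply wc_F1 S M hJ hD
  have h1 : cs H S.F1 (Quotient.out (Quotient.mk (cs H S.F1) z)) z :=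
    Quotient.exact (Quotient.out_eq _)
  exact (cs_W1 S h1).2 hz

theorem Sys.count {M : ℕ} (hG : Gd M H) (hL : S.NoLost) (hA : K.AllTri) (hJ : S.JAll)
    (hD : S.DConn) :
    2 * (ms H M S.Lab : ℤ) + N2 H M S.W1 S.F1 ≤ 2 * (K.ef M : ℤ) + N2 H M S.W2 S.F2 := by
  have h1 := S.cnt1 hG hL hA
  have h2 := S.cnt2 M hL
  have h3 := S.cnt3 M hL
  have h4 := S.mc_F1 M hJ hD
  unfold N2
  rw [h4]
  omega

theorem Sys.N2_F2_le {M : ℕ} (hG : Gd M H) (hL : S.NoLost) :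
    N2 H M S.W2 S.F2 ≤ N2 H M S.W1 S.F1 := by
  refine N2_le (Z := S.LV × S.LV × Y) (Z2 := S.LV × S.LV × S.LV × Y) hG
    (fun z => (z.2.1, z.1, z.2.2.2)) (fun _ _ => rfl) (S.Gr1 hL) (S.Gr2 hL) ?_ ?_
  · rintro a b ⟨h1, h2, h3, h4, h5, h6⟩
    exact ⟨h2, h1, h5⟩
  · rintro ⟨l1, l, l2, x⟩ ⟨m1, m, m2, y⟩ ⟨l1', l', l2', x'⟩ ⟨m1', m', m2', y'⟩
      ⟨h1, h2, h3, h4, h5, h6⟩ ⟨k1, k2, k3, k4, k5, k6⟩ e1 e2
    simp only [Prod.mk.injEq] at e1 e2
    simp only at h1 h2 h3 h4 h5 h6 k1 k2 k3 k4 k5 k6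
    obtain ⟨e11, e12, e13⟩ := e1
    obtain ⟨e21, e22, e23⟩ := e2
    subst e11 e12 e13 e21 e22 e23
    have h7 : l2' = l2 := S.Fl_third hL h6 h5 k6 (Ne.symm h4) (Ne.symm k4)
    subst h7
    refine ⟨rfl, ?_⟩
    rw [← h3, ← k3]

/-- the component of a class -/
private def cmQ : S.XR.Q → S.LV := Quotient.lift S.cm S.XR.comp

private theorem cmQ_c (p : S.V1) : cmQ S (S.XR.c p) = S.cm p := rfl

private theorem cmQ_smul (h : H) (c : S.XR.Q) : cmQ S (h • c) = h • cmQ S c := by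
  induction c using Quotient.inductionOn with
  | h p => rfl

private theorem cmQ_E {l : S.LV} {c c' : S.XR.Q} (h : S.XR.E l c c') : cmQ S c = l := by
  obtain ⟨_, p, q, _, h1, h2, _⟩ := h
  rw [← h2, cmQ_c, h1]

private theorem XRE_smul (h : H) {l : S.LV} {c c' : S.XR.Q} (e : S.XR.E l c c') :
    S.XR.E (h • l) (h • c) (h • c') := by
  obtain ⟨h0, p, q, h1, h2, h3, h4⟩ := e
  refine ⟨fun e => h0 (smul_left_cancel h e), h • p, h • q, S.hr_smul h p q h1, ?_, ?_, ?_⟩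
  · rw [S.cm_smul, h2]
  · rw [S.XR.c_smul, h3]
  · rw [S.XR.c_smul, h4]

/-- the edges of one quotient complex are among the labels -/
theorem Sys.ef_le_Lab (M : ℕ) (hL : S.NoLost) (l : S.LV)
    (K' : KS ↥(stabilizer H l) S.XR.Q) (hE : K'.E = S.XR.E l) (hT' : K'.T = S.XR.T l) :
    K'.ef M ≤ ms H M S.Lab := by
  have h1 := ms_fibre (H := H) (M := M) (fun p : S.XR.Q × S.XR.Q => cmQ S p.1)
    (fun h p => cmQ_smul S h p.1) l S.Lab
    (by
      rintro h ⟨c, c'⟩ ⟨l', e⟩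
      exact ⟨h • l', XRE_smul S h e⟩)
  have h2 : {y : S.XR.Q × S.XR.Q | y ∈ S.Lab ∧ cmQ S y.1 = l} =
      {p : S.XR.Q × S.XR.Q | K'.E p.1 p.2} := by
    rw [hE]
    ext ⟨c, c'⟩
    constructor
    · rintro ⟨⟨l', e⟩, e'⟩
      have h3 : l' = l := (cmQ_E S e).symm.trans e'
      subst h3
      exact e
    · intro e
      exact ⟨⟨l, e⟩, cmQ_E S e⟩
  have h3 : K'.ef M ≤ ms ↥(stabilizer H l) M {p : S.XR.Q × S.XR.Q | K'.E p.1 p.2} := by
    unfold KS.ef
    exact ms_mono K'.finE (fun p hp => hp.1)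
  rw [h2] at h1
  refine h3.trans (le_of_eq_of_le h1 ?_)
  exact ms_mono (S.finLab hL) (fun p hp => hp.1)

/-- consequence of minimality -/
theorem Sys.count_eq {M : ℕ} (hG : Gd M H) (hL : S.NoLost) (hA : K.AllTri) (hJ : S.JAll)
    (hD : S.DConn) (l : S.LV) (K' : KS ↥(stabilizer H l) S.XR.Q) (hE : K'.E = S.XR.E l)
    (hT' : K'.T = S.XR.T l) (hmin : K.ef M ≤ K'.ef M) :
    N2 H M S.W1 S.F1 ≤ N2 H M S.W2 S.F2 ∧ K'.ef M = K.ef M := by
  have h1 := S.count hG hL hA hJ hD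
  have h2 := S.N2_F2_le hG hL
  have h3 := S.ef_le_Lab M hL l K' hE hT'
  constructor
  · omega
  · omega

end

end Pool.Agent.SAG
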