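import Pool.Agent.SAG.Basic

/-!
# SAG, part B: definitions for the counting argument

Graphs on `H`-sets, the number `N2`, flags and corners of the new tree, labels.
-/

namespace Pool.Agent.SAG

open MulAction
open Pool.Agent.SAF (InC orbs FinOrb oc Decomp SAn SA Ori Conv hull Zs LostF)

/-! ### Graphs on `H`-sets -/

section Graphs

variable (H : Type) [Group H] {Z : Type} [MulAction H Z]

/-- the stabiliser of the component of `z` in the graph `F` -/
def SC (F : Z → Z → Prop) (z : Z) : Set H := {h | Relation.EqvGen F (h • z) z}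

/-- weight of the component of `z` -/
noncomputable def wc (M : ℕ) (F : Z → Z → Prop) (z : Z) : ℕ := M.factorial / Nat.card ↥(SC H F z)

/-- same component up to translation -/
def cs (F : Z → Z → Prop) : Setoid Z :=
  Relation.EqvGen.setoid (fun a b => F a b ∨ ∃ h : H, h • a = b)

/-- the mass of the components which meet `W` -/
noncomputable def mc (M : ℕ) (W : Set Z) (F : Z → Z → Prop) : ℕ :=
  ∑ᶠ c ∈ ((fun z => Quotient.mk (cs H F) z) '' W), wc H M F (Quotient.out c)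

/-- mass of the darts minus twice the mass of the vertices plus twice the mass of the
components -/
noncomputable def N2 (M : ℕ) (W : Set Z) (F : Z → Z → Prop) : ℤ :=
  (ms H M {p : Z × Z | F p.1 p.2} : ℤ) - 2 * (ms H M W : ℤ) + 2 * (mc H M W F : ℤ)

/-- `F` is an invariant graph with vertices in `W`, cofinite -/
structure Gr (W : Set Z) (F : Z → Z → Prop) : Prop where
  symm : ∀ a b, F a b → F b a
  irr : ∀ a, ¬ F a a
  inv : ∀ (h : H) (a b : Z), F a b → F (h • a) (h • b)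
  W_inv : ∀ (h : H) (a : Z), a ∈ W → h • a ∈ W
  mem : ∀ a b, F a b → a ∈ W
  finW : FinOrb H W
  finF : FinOrb H {p : Z × Z | F p.1 p.2}

/-- add the orbit of the edge `u v` -/
def addE (F : Z → Z → Prop) (u v : Z) : Z → Z → Prop := fun a b =>
  F a b ∨ (∃ h : H, h • u = a ∧ h • v = b) ∨ (∃ h : H, h • v = a ∧ h • u = b)

/-- delete the orbit of the edge `u v` -/
def delE (F : Z → Z → Prop) (u v : Z) : Z → Z → Prop := fun a b =>
  F a b ∧ (¬ ∃ h : H, h • u = a ∧ h • v = b) ∧ (¬ ∃ h : H, h • v = a ∧ h • u = b)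

/-- weight of the new darts when the orbit of `u v` is added -/
noncomputable def wd (M : ℕ) (u v : Z) : ℕ :=
  ms H M {p : Z × Z | (∃ h : H, h • u = p.1 ∧ h • v = p.2) ∨ (∃ h : H, h • v = p.1 ∧ h • u = p.2)}

end Graphs

/-! ### Flags and corners -/

section Flags

variable {H : Type} [Group H] {Y : Type} [MulAction H Y] {K : KS H Y} {D : Decomp H}
  (S : Sys H Y K D)

/-- no edge of `K` is lost -/
def Sys.NoLost : Prop := ∀ x y, K.E x y → ¬ LostF (S.f x) (S.f y)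

/-- the ordered edge `x y` of `K` crosses the edge `l l'` of the new tree -/
def Sys.Fl (l l' : S.LV) (x y : Y) : Prop := S.LAdj l l' ∧ S.DE l l' x y

/-- all edges of the new tree have infinite stabiliser -/
def Sys.JAll : Prop := ∀ l l', S.LAdj l l' → ∃ j ∈ S.J l l', IO j

/-- the graphs over the (oriented) edges of the new tree are connected -/
def Sys.DConn : Prop := ∀ l l' x y, S.LAdj l l' → S.In x l → S.In x l' → S.In y l → S.In y l' →
  Relation.EqvGen (S.Fl l l') x y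

/-- vertices of the graph of flags: `(l, l', x)` -/
def Sys.W1 : Set (S.LV × S.LV × Y) :=
  {z | S.LAdj z.1 z.2.1 ∧ S.In z.2.2 z.1 ∧ S.In z.2.2 z.2.1}

/-- the graph of flags -/
def Sys.F1 (a b : S.LV × S.LV × Y) : Prop :=
  a.1 = b.1 ∧ a.2.1 = b.2.1 ∧ S.Fl a.1 a.2.1 a.2.2 b.2.2

/-- vertices of the graph of corners: `(l1, l, l2, x)` -/
def Sys.W2 : Set (S.LV × S.LV × S.LV × Y) :=
  {z | z.1 ≠ z.2.2.1 ∧ S.LAdj z.2.1 z.1 ∧ S.LAdj z.2.1 z.2.2.1 ∧
    S.In z.2.2.2 z.1 ∧ S.In z.2.2.2 z.2.1 ∧ S.In z.2.2.2 z.2.2.1 ∧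
    (S.Far z.2.1 z.1 z.2.2.2 ∨ S.Far z.2.1 z.2.2.1 z.2.2.2)}

/-- the graph of corners -/
def Sys.F2 (a b : S.LV × S.LV × S.LV × Y) : Prop :=
  a.1 = b.1 ∧ a.2.1 = b.2.1 ∧ a.2.2.1 = b.2.2.1 ∧ a.1 ≠ a.2.2.1 ∧
    S.Fl a.2.1 a.1 a.2.2.2 b.2.2.2 ∧ S.Fl a.2.1 a.2.2.1 a.2.2.2 b.2.2.2

/-- pieces which cross nothing -/
def Sys.P0 : Set (S.LV × Y × Y) :=
  {p | S.PE p.1 p.2.1 p.2.2 ∧ ∀ l', ¬ S.Fl p.1 l' p.2.1 p.2.2}

/-- near vertices which are not far in another direction -/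
def Sys.Wns : Set (S.LV × S.LV × Y) :=
  {z | S.Far z.2.1 z.1 z.2.2 ∧ ¬ ∃ l2, S.Far z.1 l2 z.2.2}

/-- labels: ordered edges of all first quotient complexes -/
def Sys.Lab : Set (S.XR.Q × S.XR.Q) := {p | ∃ l, S.XR.E l p.1 p.2}

/-- the edge `x y` crosses `l l'` and at least `n` further edges beyond `l'` -/
def Sys.Lv : ℕ → S.LV → S.LV → Y → Y → Prop
  | 0, l, l', x, y => S.Fl l l' x y
  | n + 1, l, l', x, y => S.Fl l l' x y ∧ ∃ l'', l'' ≠ l ∧ Sys.Lv n l' l'' x y

/-- the part of level `n` of the graph of flags -/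
def Sys.FL (n : ℕ) (a b : S.LV × S.LV × Y) : Prop :=
  a.1 = b.1 ∧ a.2.1 = b.2.1 ∧ S.Lv n a.1 a.2.1 a.2.2 b.2.2

/-- the bridge property: every edge of `D` which is no `Q`-edge and whose stabiliser in `J` is
finite is a bridge of the graph over `l l'` -/
def Sys.Bridge : Prop := ∀ l l' x y, S.Fl l l' x y → ¬ S.Qe x y →
  (∀ j ∈ S.J l l', j • x = x → j • y = y → ¬ IO j) →
  ∃ σ : Y → ZMod 2, ∀ a b, S.Fl l l' a b →
    σ a + σ b = 1 ∧ ((a = x ∧ b = y) ∨ (a = y ∧ b = x)) ∨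
    σ a + σ b = 0 ∧ ¬ ((a = x ∧ b = y) ∨ (a = y ∧ b = x))

/-- nothing is lost, all centres are in the orbit of the component `l0`, whose stabiliser is
bad -/
structure Sys.Ctr (l0 : S.LV) : Prop where
  bad : ¬ SA ↥(stabilizer H l0)
  noLost : S.NoLost
  ctr : ∀ p q s, S.Tp (S.cm p) p q s → ∃ h : H, S.cm p = h • l0

end Flags

end Pool.Agent.SAG
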