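import Pool.Agent.SAG.BLast
import Pool.Agent.SAG.BPot
import Pool.Agent.SAG.AG

/-!
# SAG, module BJinf: consequences of the second quotient complexes

`no_Qe`, `kr_single`, `all_sink` are copies of `SAF.BJinf`. `all_Jinf`: suppose `x` in `l`, `l'` is
not `Jinf`. As in `SAF.BJinf` there is a centre `a` at `x` such that `p0 = (x, a)` is far and not
`Jinf`; its class in `KR` is a singleton (`kr_single`) and its stabiliser is finite (an element
of infinite order fixing `x` and `a` would fix `l`, `l'`; the stabiliser is contained in the one of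
`x`, so it is in `InC`: `InC.finite_of_no_IO`), so `IRel.vf_lt` for `KR` contradicts `hvf`.
-/

namespace Pool.Agent.SAG

open MulAction
open Pool.Agent.SAF (InC orbs FinOrb oc Decomp SAn SA Ori Conv hull Zs LostF)

section

variable {H : Type} [Group H] {Y : Type} [MulAction H Y] {K : KS H Y} {D : Decomp H}
  (S : Sys H Y K D)

/-- a triangle of `K` and its centre -/
private theorem Sys.exists_Tp54 {x y z : Y} (hT : K.T x y z) {a : D.X}
    (ha : a ∈ S.ST x y z) : ∃ p q s : S.V1, p.1 = (x, a) ∧ q.1 = (y, a) ∧ s.1 = (z, a) ∧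
      S.Tp (S.cm p) p q s ∧ S.hr p q := by
  have hxy : K.E x y := K.T_E _ _ _ hT
  have hyz : K.E y z := K.T_E _ _ _ (K.T_rot _ _ _ hT)
  have hzx : K.E z x := K.T_E _ _ _ (K.T_rot _ _ _ (K.T_rot _ _ _ hT))
  have h2 : a ∈ S.ST y z x := by rw [← S.ST_rot _ _ _ hT]; exact ha
  have h3 : a ∈ S.ST z x y := by rw [← S.ST_rot _ _ _ (K.T_rot _ _ _ hT)]; exact h2
  refine ⟨⟨(x, a), K.E_P _ _ hxy, S.SE_sub _ _ hxy (S.ST_sub _ _ _ hT ha)⟩,
    ⟨(y, a), K.E_P _ _ hyz, S.SE_sub _ _ hyz (S.ST_sub _ _ _ (K.T_rot _ _ _ hT) h2)⟩,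
    ⟨(z, a), K.E_P _ _ hzx, S.SE_sub _ _ hzx
      (S.ST_sub _ _ _ (K.T_rot _ _ _ (K.T_rot _ _ _ hT)) h3)⟩, rfl, rfl, rfl,
    ⟨rfl, rfl, hT, ha, rfl⟩, rfl, hxy, S.ST_sub _ _ _ hT ha⟩

theorem Sys.no_Qe (hA : K.AllTri) (l0 : S.LV) (hC : S.Ctr l0)
    (K' : KS ↥(stabilizer H l0) S.KR.Q) (hT' : K'.T = S.KR.T l0) (ht : K.t ≤ K'.t)
    (x y : Y) : ¬ S.Qe x y := by
  intro hQ
  obtain ⟨z, hT⟩ := hA x y hQ.1
  obtain ⟨a, ha⟩ := S.ST_ne x y z hT
  obtain ⟨p, q, s, hp, hq, hs, hTp, hr⟩ := S.exists_Tp54 hT ha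
  have h1 := S.KR.nondeg l0 hC K' hT' ht p q s hTp
  apply h1.1
  apply Quotient.sound
  apply Relation.EqvGen.rel
  refine Or.inl ⟨hr, ?_⟩
  rw [hp, hq]
  exact hQ

theorem Sys.kr_single (hQ : ∀ x y, ¬ S.Qe x y) {p q : S.V1}
    (hp : ∀ l', S.Far (S.cm p) l' p.1.1 → ¬ S.Jinf (S.cm p) l' p.1.1)
    (h : S.KR.c p = S.KR.c q) : p = q := by
  have key : ∀ a b : S.V1, Relation.EqvGen S.kr a b →
      ((∀ l', S.Far (S.cm a) l' a.1.1 → ¬ S.Jinf (S.cm a) l' a.1.1) → a = b) ∧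
      ((∀ l', S.Far (S.cm b) l' b.1.1 → ¬ S.Jinf (S.cm b) l' b.1.1) → a = b) := by
    intro a b hab
    induction hab with
    | rel a b hab =>
      rcases hab with ⟨-, h⟩ | ⟨e, l', n, h1, h2, h3, h4, h5, h6, h7⟩
      · exact absurd h (hQ _ _)
      · refine ⟨fun hg => absurd h6 (hg l' h1), fun hg => ?_⟩
        rw [e] at h2 h7
        exact absurd h7 (hg l' h2)
    | refl a => exact ⟨fun _ => rfl, fun _ => rfl⟩
    | symm a b _ ih => exact ⟨fun hg => (ih.2 hg).symm, fun hg => (ih.1 hg).symm⟩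
    | trans a b c _ _ ih1 ih2 =>
      refine ⟨fun hg => ?_, fun hg => ?_⟩
      · obtain rfl := ih1.1 hg
        exact ih2.1 hg
      · obtain rfl := ih2.2 hg
        exact ih1.2 hg
  exact (key p q (Quotient.exact h)).1 hp

/-- an element which fixes `x` and a point behind `w` fixes `w` and the next point -/
private theorem Sys.fix_of_behind54 {l l' : S.LV} {x : Y} (h : S.Far l l' x) {a : D.X}
    (ha : D.G.dist a (S.pr l') = D.G.dist a (S.pr l) + 1) {j : H} (hx : j • x = x)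
    (hj : j • a = a) : j ∈ S.J l l' := by
  have hP : x ∈ K.P := S.In_P h.2.1
  have hf : ∀ u : D.X, j • u = u → j • S.f x u = S.f x u := by
    intro u hu
    have := S.f_smul j x u
    rw [hx, hu] at this
    exact this.symm
  have hk : ∀ k : ℕ, j • (S.f x)^[k] a = (S.f x)^[k] a := by
    intro k
    induction k with
    | zero => exact hj
    | succ k ih =>
      rw [Function.iterate_succ_apply']
      exact hf _ ih
  obtain ⟨k, hk'⟩ := Pool.Agent.SAF.Ori.reach D.tree (S.ori x hP) h.2.2.2 h.1.1 ha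
  have hw : j • S.pr l = S.pr l := by
    rw [← hk']
    exact hk k
  have hw' : j • S.pr l' = S.pr l' := by
    rw [← h.2.2.2]
    exact hf _ hw
  refine ⟨?_, ?_⟩
  · change j • l = l
    have h1 : S.In x (j • l) := by
      have := S.In_smul j x l h.2.1
      rwa [hx] at this
    refine S.In_eq h1 h.2.1 ?_
    rw [S.pr_smul, hw]
  · change j • l' = l'
    have h1 : S.In x (j • l') := by
      have := S.In_smul j x l' h.2.2.1
      rwa [hx] at this
    refine S.In_eq h1 h.2.2.1 ?_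
    rw [S.pr_smul, hw']

/-- a last point is not far -/
private theorem Sys.last_not_far54 {p : S.V1}
    (hl : S.f p.1.1 p.1.2 = p.1.2 ∨ S.f p.1.1 p.1.2 ∉ S.SV p.1.1)
    (l' : S.LV) : ¬ S.Far (S.cm p) l' p.1.1 := by
  intro h
  have e : S.f p.1.1 p.1.2 = S.pr l' := h.2.2.2
  have hadj : D.G.Adj p.1.2 (S.pr l') := h.1.1
  rcases hl with h1 | h1
  · rw [h1] at e
    exact hadj.ne e
  · apply h1
    rw [e]
    exact S.In_SV h.2.2.1

theorem Sys.all_Jinf {M : ℕ} (hG : Gd M H) (hA : K.AllTri) (hLk : K.LinkConn) (l0 : S.LV)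
    (hC : S.Ctr l0) (hQ : ∀ x y, ¬ S.Qe x y)
    (K' : KS ↥(stabilizer H l0) S.KR.Q) (hT' : K'.T = S.KR.T l0) (ht : K.t ≤ K'.t)
    (hvf : K'.vf ≤ K.vf)
    (l l' : S.LV) (x : Y) (hl : S.LAdj l l') (hx : S.In x l) (hx' : S.In x l') :
    S.Jinf l l' x := by
  have main : ∀ l l' : S.LV, S.Far l l' x → S.Jinf l l' x := by
    intro l l' hF
    by_contra hJ
    have hP : x ∈ K.P := S.In_P hF.2.1
    have hw : S.pr l ∈ hull D.G {w | ∃ y z, K.T x y z ∧ w ∈ S.ST x y z} := by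
      rw [← S.SV_hull x hP]
      exact S.In_SV hF.2.1
    obtain ⟨a, ⟨y, z, hT, ha⟩, hd⟩ := Pool.Agent.SAF.hull_behind D.tree hF.1.1 hw
    obtain ⟨p, q, s, hp, hq, hs, hTp, hr⟩ := S.exists_Tp54 hT ha
    have hp1 : p.1.1 = x := by rw [hp]
    have hp2 : p.1.2 = a := by rw [hp]
    have haV : a ∈ S.SV x := by
      have := p.2.2
      rwa [hp1, hp2] at this
    have hfix : ∀ j : H, j • x = x → j • a = a → ¬ IO j := by
      intro j hjx hja hj1
      exact hJ ⟨j, S.fix_of_behind54 hF hd hjx hja, hj1, hjx⟩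
    have hpJ : ∀ l'', S.Far (S.cm p) l'' p.1.1 → ¬ S.Jinf (S.cm p) l'' p.1.1 := by
      rintro l'' - ⟨j, hj, hj1, hjx⟩
      apply hfix j (by rw [← hp1]; exact hjx) ?_ hj1
      have h1 : j • S.cm p = S.cm p := hj.1
      have h2 := S.pr_smul j (S.cm p)
      rw [h1, S.pr_cm, hp2] at h2
      exact h2.symm
    obtain ⟨hb1, hb2⟩ := Pool.Agent.SAF.Ori.behind D.tree (S.ori x hP) hF.2.2.2 hF.1.1 hd
    have hfV : S.f x a ∈ S.SV x :=
      S.SV_conv x hP a haV (S.pr l') (S.In_SV hF.2.2.1) _ hb2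
    have hlt : K.vf < K'.vf := by
      refine S.KR.vf_lt hA hLk l0 hC ?_ K' hT' ht p ?_ ?_ ?_ ?_
      · intro u v hu e
        exact S.kr_single hQ (fun l'' hF' => absurd hF' (S.last_not_far54 hu l'')) e
      · rw [hp1, hp2]
        exact hb1
      · rw [hp1, hp2]
        exact hfV
      · have hInC : InC ↥(stabilizer H (S.KR.c p)) := by
          have hle : stabilizer H (S.KR.c p) ≤ stabilizer H x := by
            intro g hg
            have hg' : S.KR.c (g • p) = S.KR.c p := by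
              rw [IRel.c_smul]
              exact hg
            have h3 := S.kr_single hQ hpJ hg'.symm
            have h4 : p.1.1 = g • p.1.1 := congrArg (fun u : S.V1 => u.1.1) h3
            change g • x = x
            rw [← hp1]
            exact h4.symm
          exact InC.mono hle (K.zt x hP).inC
        refine InC.finite_of_no_IO hInC ?_
        rintro ⟨g, hg⟩ hio
        have hg' : S.KR.c (g • p) = S.KR.c p := by
          rw [IRel.c_smul]
          exact hg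
        have h3 := S.kr_single hQ hpJ hg'.symm
        have h4 : p.1.1 = g • p.1.1 := congrArg (fun u : S.V1 => u.1.1) h3
        have h5 : p.1.2 = g • p.1.2 := congrArg (fun u : S.V1 => u.1.2) h3
        rw [hp1] at h4
        rw [hp2] at h5
        apply hfix g h4.symm h5.symm
        intro n hn e
        apply hio n hn
        exact Subtype.ext (by simpa using e)
      · rw [hp1, hp2]
        exact ⟨y, z, hT, ha⟩
    omega
  rcases S.near_or_far hl hx hx' with h | h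
  · exact main l l' h
  · obtain ⟨j, hj, hj1, hjx⟩ := main l' l h
    exact ⟨j, ⟨hj.2, hj.1⟩, hj1, hjx⟩

theorem Sys.all_sink (hJ : ∀ (l l' : S.LV) (x : Y), S.LAdj l l' → S.In x l → S.In x l' →
    S.Jinf l l' x) (x : Y) (hx : x ∈ K.P) : ∃ w, S.f x w = w := by
  by_contra hs
  push Not at hs
  obtain ⟨w, hw⟩ := S.SV_ne x hx
  have hw' := S.fwd x hx hs w hw
  obtain ⟨l', hF⟩ := S.Far_exists (p := ⟨(x, w), hx, hw⟩) (hs w) hw'
  obtain ⟨j, hj, hj1, hjx⟩ := hJ _ l' x hF.1 hF.2.1 hF.2.2.1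
  rcases S.f_hyp x hx with ⟨u, hu⟩ | h
  · exact hs u hu
  · apply h.2 j hjx hj1 w
    have h1 : j • S.cm (⟨(x, w), hx, hw⟩ : S.V1) = S.cm (⟨(x, w), hx, hw⟩ : S.V1) := hj.1
    have h2 := S.pr_smul j (S.cm (⟨(x, w), hx, hw⟩ : S.V1))
    rw [h1, S.pr_cm] at h2
    exact h2.symm

end

end Pool.Agent.SAG
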