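import Pool.Agent.SAG.BLast
import Pool.Agent.SAG.BColl
import Pool.Agent.SAG.A33
import Pool.Agent.SAG.A42
import Pool.Agent.SAG.A53
import Pool.Agent.SAG.AS
import Pool.Agent.SAF.A16

/-!
# SAG, module BStInf: all edges of the new tree have infinite stabilisers

Compare `SAF.BStInf`. `no_finite`: `exists_sys` gives a system `S'` for `D'`, `exists_ctr` an `l0`,
`XR_exists_ks` a complex `K1` at `l0`, `K.t <= K1.t` by minimality. By `exists_nontrivial` and
`exists_far_centre` there is `p0 = (x, w)` far at a centre; the stabiliser of its class in `XR` is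
contained in `J (cm p0) l'`, which is contained in an edge stabiliser of `D'`, finite. So
`IRel.vf_lt` (with `xr_sing`) gives `K.vf < K1.vf`; `K1.t = K.t` (`t_le_ctr`). Contradiction to
`hK.min`.
`JAll_of_ctr`: as in `SAF.BStInf` with `tree_collapse`, `collapse_fixed` (the stabiliser of `l0`
and its translates are infinite, `infinite_of_bad`), `collapse_sep`, `dist_lift`; an infinite
subgroup `J` in `InC` has an element of infinite order (`InC.finite_of_no_IO`).
-/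

namespace Pool.Agent.SAG

open MulAction
open Pool.Agent.SAF

section

variable {H : Type} [Group H] {Y : Type} [MulAction H Y] {K : KS H Y}

private theorem Sys.dist_pr_le35 {D : Decomp H} (S : Sys H Y K D) {l l' : S.LV}
    (w : S.LG.Walk l l') : D.G.dist (S.pr l) (S.pr l') ≤ w.length := by
  induction w with
  | nil => rw [SimpleGraph.dist_self]; exact Nat.zero_le _
  | @cons a b c hadj q ih =>
    have h1 : D.G.Adj (S.pr a) (S.pr b) := hadj.1
    have t1 : D.G.dist (S.pr a) (S.pr c) ≤ D.G.dist (S.pr a) (S.pr b)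
      + D.G.dist (S.pr b) (S.pr c) := D.tree.connected.dist_triangle
    have t2 : D.G.dist (S.pr a) (S.pr b) = 1 := SimpleGraph.dist_eq_one_iff_adj.2 h1
    rw [SimpleGraph.Walk.length_cons]
    omega

private theorem Sys.dist_lift_le35 {D : Decomp H} (S : Sys H Y K D) {x : Y} (hx : x ∈ K.P) :
    ∀ (n : ℕ) (a b : D.X) (ha : a ∈ S.SV x) (hb : b ∈ S.SV x), D.G.dist a b = n →
      S.LG.dist (S.cm ⟨(x, a), hx, ha⟩) (S.cm ⟨(x, b), hx, hb⟩) ≤ n := by
  intro n
  induction n with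
  | zero =>
    intro a b ha hb h
    have e : a = b := (D.tree.connected.dist_eq_zero_iff).1 h
    subst e
    rw [SimpleGraph.dist_self]
  | succ n ih =>
    intro a b ha hb h
    have hab : a ≠ b := by
      rintro rfl
      rw [SimpleGraph.dist_self] at h
      omega
    obtain ⟨c, hac, hd⟩ := exists_next D.tree hab
    have hc : c ∈ S.SV x := by
      refine S.SV_conv x hx a ha b hb c ?_
      rw [SimpleGraph.dist_eq_one_iff_adj.2 hac, hd, Nat.add_comm]
    have h1 := ih c b hc hb (by omega)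
    have h2 : S.LG.Adj (S.cm ⟨(x, a), hx, ha⟩) (S.cm ⟨(x, c), hx, hc⟩) :=
      ⟨hac, x, S.In_cm ⟨(x, a), hx, ha⟩, S.In_cm ⟨(x, c), hx, hc⟩⟩
    have t1 : S.LG.dist (S.cm ⟨(x, a), hx, ha⟩) (S.cm ⟨(x, b), hx, hb⟩) ≤
        S.LG.dist (S.cm ⟨(x, a), hx, ha⟩) (S.cm ⟨(x, c), hx, hc⟩) +
        S.LG.dist (S.cm ⟨(x, c), hx, hc⟩) (S.cm ⟨(x, b), hx, hb⟩) :=
      S.LG_tree.connected.dist_triangle
    have t2 : S.LG.dist (S.cm ⟨(x, a), hx, ha⟩) (S.cm ⟨(x, c), hx, hc⟩) = 1 :=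
      SimpleGraph.dist_eq_one_iff_adj.2 h2
    omega

theorem Sys.dist_lift {D : Decomp H} (S : Sys H Y K D) (p q : S.V1) (h : p.1.1 = q.1.1) :
    S.LG.dist (S.cm p) (S.cm q) = D.G.dist p.1.2 q.1.2 := by
  apply le_antisymm
  · obtain ⟨⟨x, a⟩, hx, ha⟩ := p
    obtain ⟨⟨y, b⟩, hy, hb⟩ := q
    replace h : x = y := h
    subst h
    exact S.dist_lift_le35 hx _ a b ha hb rfl
  · obtain ⟨w, hw⟩ := S.LG_tree.connected.exists_walk_length_eq_dist (S.cm p) (S.cm q)
    rw [← hw]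
    exact S.dist_pr_le35 w

/-- the triangle of the blown up complex given by a centre -/
private theorem Sys.exists_Tp35 {D : Decomp H} (S : Sys H Y K D) {x y z : Y} {w : D.X}
    (hT : K.T x y z) (hw : w ∈ S.ST x y z) :
    ∃ p q s : S.V1, S.Tp (S.cm p) p q s ∧ p.1 = (x, w) := by
  have hTy : K.T y x z := K.T_swap _ _ _ hT
  have hTz : K.T z x y := K.T_rot _ _ _ (K.T_rot _ _ _ hT)
  have hx : x ∈ K.P := K.E_P _ _ (K.T_E _ _ _ hT)
  have hy : y ∈ K.P := K.E_P _ _ (K.T_E _ _ _ hTy)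
  have hz : z ∈ K.P := K.E_P _ _ (K.T_E _ _ _ hTz)
  have hwx : w ∈ S.SV x := S.SE_sub _ _ (K.T_E _ _ _ hT) (S.ST_sub _ _ _ hT hw)
  have hwy : w ∈ S.SV y := by
    rw [S.ST_swap _ _ _ hT] at hw
    exact S.SE_sub _ _ (K.T_E _ _ _ hTy) (S.ST_sub _ _ _ hTy hw)
  have hwz : w ∈ S.SV z := by
    rw [S.ST_rot _ _ _ hT, S.ST_rot _ _ _ (K.T_rot _ _ _ hT)] at hw
    exact S.SE_sub _ _ (K.T_E _ _ _ hTz) (S.ST_sub _ _ _ hTz hw)
  exact ⟨⟨(x, w), hx, hwx⟩, ⟨(y, w), hy, hwy⟩, ⟨(z, w), hz, hwz⟩, ⟨rfl, rfl, hT, hw, rfl⟩, rfl⟩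

/-- the stabiliser of the class of a far vertex fixes the far edge -/
private theorem Sys.stab_far35 {D : Decomp H} (S : Sys H Y K D) {p : S.V1} {l' : S.LV}
    (hl : S.Far (S.cm p) l' p.1.1) {h : H} (hh : h • S.XR.c p = S.XR.c p) :
    h • S.cm p = S.cm p ∧ h • l' = l' := by
  rw [← IRel.c_smul] at hh
  have e : S.xr (h • p) p := Quotient.exact hh
  rcases e with e | ⟨e, l'', h1, h2⟩
  · have e1 : h • S.cm p = S.cm p := by rw [← S.cm_smul, e]
    have e2 : h • p.1.1 = p.1.1 := congrArg (fun r : S.V1 => r.1.1) e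
    exact ⟨e1, S.Far_fix hl e1 e2⟩
  · have e1 : h • S.cm p = S.cm p := by rw [← S.cm_smul, e]
    refine ⟨e1, ?_⟩
    rw [e] at h1 h2
    have h3 := S.Far_smul h _ _ _ hl
    rw [e1] at h3
    have h4 : h • l' = l'' := S.Far_eq h3 h1
    have h5 : l' = l'' := S.Far_eq hl h2
    rw [h4, h5]

theorem no_finite {M : ℕ} (hK : Crit M K) (D' : Decomp H)
    (hD : ∀ x y, D'.G.Adj x y → Finite ↥(stabilizer H x ⊓ stabilizer H y)) : False := by
  obtain ⟨S⟩ := exists_sys K D' hK.allTri hK.link hK.tri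
  have hminE : MinE M K.t K.vf (K.ef M) := hK.min.1
  have hminV : MinV M K.t K.vf := hminE.1
  have hminT : MinT M K.t := hminV.1
  obtain ⟨l0, hC⟩ := S.exists_ctr hK.gd hK.bad hminT hK.allTri hK.link hK.tri
  obtain ⟨K1, -, -, hT1⟩ := S.XR_exists_ks hK.gd l0
  have hgd : Gd M ↥(stabilizer H l0) := hK.gd.sub _
  have ht : K.t ≤ K1.t := hminT _ _ K1 hgd hC.bad
  have ht' : K1.t ≤ K.t := S.XR.t_le_ctr l0 hC K1 hT1
  obtain ⟨x0, hx0, a0, ha0, b0, hb0, hab0⟩ := S.exists_nontrivial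
  obtain ⟨y0, z0, w0, hT0, hw0, hf0, hf0'⟩ := S.exists_far_centre hx0 ha0 hb0 hab0
  have hwx : w0 ∈ S.SV x0 := S.SE_sub _ _ (K.T_E _ _ _ hT0) (S.ST_sub _ _ _ hT0 hw0)
  let p0 : S.V1 := ⟨(x0, w0), hx0, hwx⟩
  obtain ⟨l', hl'⟩ : ∃ l', S.Far (S.cm p0) l' p0.1.1 := S.Far_exists hf0 hf0'
  have hfin : Finite ↥(stabilizer H (S.XR.c p0)) := by
    have h1 := hD _ _ hl'.1.1
    have h2 : stabilizer H (S.XR.c p0) ≤
        stabilizer H (S.pr (S.cm p0)) ⊓ stabilizer H (S.pr l') := by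
      intro h hh
      obtain ⟨e1, e2⟩ := S.stab_far35 hl' (h := h) hh
      exact ⟨S.stab_le _ e1, S.stab_le _ e2⟩
    exact Finite.of_injective (Subgroup.inclusion h2) (Subgroup.inclusion_injective h2)
  have hlt := S.XR.vf_lt hK.allTri hK.link l0 hC S.xr_sing K1 hT1 ht p0 hf0 hf0' hfin
    ⟨y0, z0, hT0, hw0⟩
  have hle := hminV.2 _ _ K1 hgd hC.bad (le_antisymm ht' ht)
  omega

private theorem infinite_conj35 {X : Type} [MulAction H X] {x : X} (h : H)
    (hi : Infinite ↥(stabilizer H x)) : Infinite ↥(stabilizer H (h • x)) := by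
  let f : ↥(stabilizer H x) → ↥(stabilizer H (h • x)) := fun j =>
    ⟨h * j.1 * h⁻¹, by
      have e1 : j.1 • x = x := j.2
      change (h * j.1 * h⁻¹) • (h • x) = h • x
      rw [mul_smul, mul_smul, inv_smul_smul, e1]⟩
  have hf : Function.Injective f := by
    intro a b e
    have e1 : h * a.1 * h⁻¹ = h * b.1 * h⁻¹ := congrArg Subtype.val e
    exact Subtype.ext (mul_left_cancel (mul_right_cancel e1))
  exact Infinite.of_injective f hf

theorem Sys.JAll_of_ctr {M : ℕ} {D : Decomp H} (S : Sys H Y K D) (hK : Crit M K) (l0 : S.LV)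
    (hC : S.Ctr l0) : S.JAll := by
  intro l l' hadj
  have hinf0 : Infinite ↥(stabilizer H l0) := infinite_of_bad hC.bad
  have hCi : Ci H S.LD.G l l' := by
    rcases tree_collapse S.LD with ⟨x0, hx0⟩ | ⟨D', hD'⟩
    · obtain ⟨y, hyl, hyl'⟩ := hadj.2
      have hyP := S.In_P hyl
      have hu := S.In_SV hyl
      have hv := S.In_SV hyl'
      have hu' := hu
      have hv' := hv
      rw [S.SV_hull y hyP] at hu' hv'
      obtain ⟨a, ha, b, hb, hav, hbu⟩ := hull_edge D.tree hu' hv' hadj.1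
      have hsub : ∀ c ∈ {w | ∃ y' z', K.T y y' z' ∧ w ∈ S.ST y y' z'},
          ∃ p : S.V1, p.1 = (y, c) ∧ Relation.EqvGen (Ci H S.LD.G) (S.cm p) x0 := by
        rintro c ⟨y', z', hT, hc⟩
        obtain ⟨p, q, s, hp, hp1⟩ := S.exists_Tp35 hT hc
        refine ⟨p, hp1, ?_⟩
        obtain ⟨h, hh⟩ := hC.ctr p q s hp
        rw [hh]
        exact collapse_fixed S.LD x0 hx0 (h • l0) (infinite_conj35 h hinf0)
      obtain ⟨pa, hpa, ea⟩ := hsub a ha
      obtain ⟨pb, hpb, eb⟩ := hsub b hb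
      obtain ⟨pl, hpl, el⟩ := (S.In_iff _ _).1 hyl
      obtain ⟨pl', hpl', el'⟩ := (S.In_iff _ _).1 hyl'
      have d1 := S.dist_lift pa pl (by rw [hpa, hpl])
      have d2 := S.dist_lift pl' pb (by rw [hpb, hpl'])
      have d3 := S.dist_lift pa pb (by rw [hpa, hpb])
      have hpl2 : pl.1.2 = S.pr l := by rw [← el, S.pr_cm]
      have hpl2' : pl'.1.2 = S.pr l' := by rw [← el', S.pr_cm]
      rw [hpa, hpl2, el] at d1
      rw [hpb, hpl2', el'] at d2
      rw [hpa, hpb] at d3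
      have hcross : D.G.dist a b = D.G.dist a (S.pr l) + 1 + D.G.dist (S.pr l') b :=
        fiv_dist_cross D.tree hadj.1 hav hbu
      have hab : Relation.EqvGen (Ci H S.LD.G) (S.cm pa) (S.cm pb) :=
        Relation.EqvGen.trans _ _ _ ea (Relation.EqvGen.symm _ _ eb)
      refine collapse_sep S.LD hab (u := l) (v := l') hadj ?_
      change S.LG.dist (S.cm pa) l + 1 + S.LG.dist l' (S.cm pb) = S.LG.dist (S.cm pa) (S.cm pb)
      rw [d1, d2, d3, hcross]
    · exact (no_finite hK D' hD').elim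
  have hJ : Infinite ↥(S.J l l') := hCi.2
  by_contra hcon
  push Not at hcon
  have hfin : Finite ↥(S.J l l') := by
    refine Pool.Agent.SAG.InC.finite_of_no_IO (S.J_inC l l' hadj) ?_
    rintro ⟨g, hg⟩ hio
    apply hcon g hg
    intro n hn e
    exact hio n hn (Subtype.ext e)
  exact not_finite ↥(S.J l l')

end

end Pool.Agent.SAG
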