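import Pool.Agent.SAG.BMin
import Pool.Agent.SAG.BCount
import Pool.Agent.SAG.BBridge
import Pool.Agent.SAG.BKR
import Pool.Agent.SAG.BJinf
import Pool.Agent.SAG.BStInf

/-!
# SAG, module BFinal: strong accessibility for bounded torsion without D_infty
-/

namespace Pool.Agent.SAG

open MulAction
open Pool.Agent.SAF (InC orbs FinOrb oc Decomp SAn SA Ori Conv hull Zs LostF exists_decomp)

theorem Sys.dConn {H : Type} [Group H] {Y : Type} [MulAction H Y] {K : KS H Y} {D : Decomp H}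
    (S : Sys H Y K D) : S.DConn := by
  intro l l' x y h hx hx' hy hy'
  have := S.strip_conn l l' h x y hx hx' hy hy'
  induction this with
  | refl => exact Relation.EqvGen.refl _
  | tail _ hbc ih =>
    refine Relation.EqvGen.trans _ _ _ (ih ?_ ?_) (Relation.EqvGen.rel _ _ ⟨h, hbc⟩)
    · exact hbc.1.2.2.1
    · exact hbc.2.2.2.1

theorem Crit.false {M : ℕ} {H : Type} [Group H] {Y : Type} [MulAction H Y] {K : KS H Y}
    (hK : Crit M K) : False := by
  have hG := hK.gd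
  obtain ⟨D⟩ := exists_decomp hK.bad
  obtain ⟨S⟩ := exists_sys K D hK.allTri hK.link hK.tri
  obtain ⟨l0, hC⟩ := S.exists_ctr hG hK.bad hK.min.1.1.1 hK.allTri hK.link hK.tri
  have hL : S.NoLost := hC.noLost
  have hG0 : Gd M ↥(stabilizer H l0) := hG.sub _
  have hJ : S.JAll := S.JAll_of_ctr hK l0 hC
  obtain ⟨K1, -, hE1, hT1⟩ := S.XR_exists_ks hG l0
  have ht1 : K.t ≤ K1.t := hK.min.1.1.1 _ _ K1 hG0 hC.bad
  have ht1' : K1.t = K.t := le_antisymm (S.XR.t_le_ctr l0 hC K1 hT1) ht1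
  have hv1 : K.vf ≤ K1.vf :=
    S.XR.vf_le hK.allTri hK.link l0 hC S.xr_sing K1 hT1 ht1
  have hv1' : K1.vf = K.vf := le_antisymm (hK.min.1.1.2 _ _ K1 hG0 hC.bad ht1') hv1
  have he1 : K.ef M ≤ K1.ef M := hK.min.1.2 _ _ K1 hG0 hC.bad ht1' hv1'
  obtain ⟨hN, he1'⟩ := S.count_eq hG hL hK.allTri hJ S.dConn l0 K1 hE1 hT1 he1
  have hB : S.Bridge := S.bridge hG hL S.J_inC hN
  obtain ⟨K2, -, -, hT2⟩ := S.KR_exists_ks hG hL hB l0
  have ht2 : K.t ≤ K2.t := hK.min.1.1.1 _ _ K2 hG0 hC.bad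
  have ht2' : K2.t = K.t := le_antisymm (S.KR.t_le_ctr l0 hC K2 hT2) ht2
  have hQ := S.no_Qe hK.allTri l0 hC K2 hT2 ht2
  have hJi := S.all_Jinf hG hK.allTri hK.link l0 hC hQ K2 hT2 ht2
    (hK.min.1.1.2 _ _ K2 hG0 hC.bad ht2')
  have hs : ∀ x ∈ K.P, ∃ w, S.f x w = w := S.all_sink hJi
  have hnv := S.nv_lt hK.allTri hK.link l0 hC hs K1 hT1 ht1
  have := hK.min.2 _ _ K1 hG0 hC.bad ht1' hv1' he1'
  omega

/-- Every finitely presented group with bounded finite subgroups in which every two-ended subgroup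
is finite-by-(infinite cyclic) is strongly accessible. -/
theorem main (M : ℕ) (G : Type) [Group G] [Group.IsFinitelyPresented G] (hG : Gd M G) :
    SA G := by
  by_contra hb
  obtain ⟨H, _, Y, _, K, hK⟩ := exists_crit M G hG hb
  exact hK.false

end Pool.Agent.SAG
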