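import Pool.Agent.SAG.BMs

/-!
# SAG, module BInc: adding one orbit of edges to an invariant graph

Compare the module `SAF.BInc` (case of trivial or infinite stabilisers).
Let `A = SC F u`, `B = SC F v` (subgroups, because `F` is invariant), `F' = addE F u v`.
-/

namespace Pool.Agent.SAG

open MulAction
open Pool.Agent.SAF (InC orbs FinOrb oc Decomp SAn SA Ori Conv hull Zs LostF)

section

variable {H : Type} [Group H] {Z : Type} [MulAction H Z]

/-! ### general lemmas -/

private theorem bi_mono {F F' : Z → Z → Prop} (hFF : ∀ a b, F a b → F' a b) {a b : Z}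
    (h : Relation.EqvGen F a b) : Relation.EqvGen F' a b := by
  induction h with
  | rel x y hxy => exact Relation.EqvGen.rel _ _ (hFF _ _ hxy)
  | refl x => exact Relation.EqvGen.refl _
  | symm x y _ ih => exact Relation.EqvGen.symm _ _ ih
  | trans x y z _ _ ih1 ih2 => exact Relation.EqvGen.trans _ _ _ ih1 ih2

private theorem bi_prop {F : Z → Z → Prop} {P : Z → Prop} (hP : ∀ a b, F a b → (P a ↔ P b))
    {a b : Z} (h : Relation.EqvGen F a b) : P a ↔ P b := by
  induction h with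
  | rel x y hxy => exact hP _ _ hxy
  | refl x => exact Iff.rfl
  | symm x y _ ih => exact ih.symm
  | trans x y z _ _ ih1 ih2 => exact ih1.trans ih2

private theorem bi_smul {F : Z → Z → Prop} (inv : ∀ (h : H) (a b : Z), F a b → F (h • a) (h • b))
    (g : H) {a b : Z} (h : Relation.EqvGen F a b) : Relation.EqvGen F (g • a) (g • b) := by
  induction h with
  | rel x y hxy => exact Relation.EqvGen.rel _ _ (inv g _ _ hxy)
  | refl x => exact Relation.EqvGen.refl _
  | symm x y _ ih => exact Relation.EqvGen.symm _ _ ih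
  | trans x y z _ _ ih1 ih2 => exact Relation.EqvGen.trans _ _ _ ih1 ih2

private theorem bi_cs_iff {F : Z → Z → Prop}
    (inv : ∀ (h : H) (a b : Z), F a b → F (h • a) (h • b))
    (a b : Z) : (cs H F) a b ↔ ∃ h : H, Relation.EqvGen F a (h • b) := by
  constructor
  · intro h
    change Relation.EqvGen _ a b at h
    induction h with
    | rel x y hxy =>
      rcases hxy with e | ⟨h, e⟩
      · exact ⟨1, by rw [one_smul]; exact Relation.EqvGen.rel _ _ e⟩
      · exact ⟨h⁻¹, by rw [← e, inv_smul_smul]; exact Relation.EqvGen.refl _⟩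
    | refl x => exact ⟨1, by rw [one_smul]; exact Relation.EqvGen.refl _⟩
    | symm x y _ ih =>
      obtain ⟨h, e⟩ := ih
      refine ⟨h⁻¹, ?_⟩
      have := bi_smul inv h⁻¹ e
      rw [inv_smul_smul] at this
      exact Relation.EqvGen.symm _ _ this
    | trans x y z _ _ ih1 ih2 =>
      obtain ⟨h1, e1⟩ := ih1
      obtain ⟨h2, e2⟩ := ih2
      refine ⟨h1 * h2, ?_⟩
      rw [mul_smul]
      exact Relation.EqvGen.trans _ _ _ e1 (bi_smul inv h1 e2)
  · rintro ⟨h, e⟩
    change Relation.EqvGen _ a b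
    refine Relation.EqvGen.trans _ (h • b) _ (bi_mono (fun _ _ e => Or.inl e) e) ?_
    exact Relation.EqvGen.symm _ _ (Relation.EqvGen.rel _ _ (Or.inr ⟨h, rfl⟩))

private theorem bi_mk_eq_iff {F : Z → Z → Prop}
    (inv : ∀ (h : H) (a b : Z), F a b → F (h • a) (h • b))
    (a b : Z) : (Quotient.mk (cs H F) a = Quotient.mk (cs H F) b) ↔
      ∃ h : H, Relation.EqvGen F a (h • b) := by
  rw [← bi_cs_iff inv]
  exact Quotient.eq

private theorem bi_cs_finite {W : Set Z} (hW : FinOrb H W) (F : Z → Z → Prop) :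
    ((fun z => Quotient.mk (cs H F) z) '' W).Finite := by
  have h1 : ∀ a b : Z, (orbitRel H Z) a b → (cs H F) a b := by
    rintro a b ⟨h, e⟩
    exact Relation.EqvGen.symm _ _ (Relation.EqvGen.rel _ _ (Or.inr ⟨h, e⟩))
  have h2 := Set.Finite.image (Quotient.map' (s₂ := cs H F) id (fun a b e => h1 a b e)) hW
  refine h2.subset ?_
  rintro _ ⟨z, hz, rfl⟩
  exact ⟨_, ⟨z, hz, rfl⟩, rfl⟩

private theorem bi_eqv_local {F : Z → Z → Prop}
    {u v z : Z} (h1 : ∀ h : H, ¬ Relation.EqvGen F z (h • u))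
    (h2 : ∀ h : H, ¬ Relation.EqvGen F z (h • v)) (w : Z) :
    Relation.EqvGen (addE H F u v) z w ↔ Relation.EqvGen F z w := by
  constructor
  · intro h
    have hP : ∀ a b, addE H F u v a b →
        (Relation.EqvGen F z a ↔ Relation.EqvGen F z b) := by
      rintro a b (e | ⟨g, rfl, rfl⟩ | ⟨g, rfl, rfl⟩)
      · exact ⟨fun k => Relation.EqvGen.trans _ _ _ k (Relation.EqvGen.rel _ _ e),
          fun k => Relation.EqvGen.trans _ _ _ k
            (Relation.EqvGen.symm _ _ (Relation.EqvGen.rel _ _ e))⟩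
      · exact ⟨fun k => absurd k (h1 g), fun k => absurd k (h2 g)⟩
      · exact ⟨fun k => absurd k (h2 g), fun k => absurd k (h1 g)⟩
    exact (bi_prop hP h).1 (Relation.EqvGen.refl _)
  · exact bi_mono (fun _ _ e => Or.inl e)

private theorem bi_addE_inv {F : Z → Z → Prop}
    (inv : ∀ (h : H) (a b : Z), F a b → F (h • a) (h • b))
    {u v : Z} : ∀ (h : H) (a b : Z), addE H F u v a b → addE H F u v (h • a) (h • b) := by
  rintro h a b (e | ⟨g, rfl, rfl⟩ | ⟨g, rfl, rfl⟩)
  · exact Or.inl (inv h _ _ e)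
  · exact Or.inr (Or.inl ⟨h * g, mul_smul _ _ _, mul_smul _ _ _⟩)
  · exact Or.inr (Or.inr ⟨h * g, mul_smul _ _ _, mul_smul _ _ _⟩)

theorem Gr.addE {W : Set Z} {F : Z → Z → Prop} (g : Gr H W F) {u v : Z} (hu : u ∈ W)
    (hv : v ∈ W) (huv : u ≠ v) : Gr H W (addE H F u v) := by
  refine ⟨?_, ?_, bi_addE_inv g.inv, g.W_inv, ?_, g.finW, ?_⟩
  · rintro a b (e | ⟨h, rfl, rfl⟩ | ⟨h, rfl, rfl⟩)
    · exact Or.inl (g.symm _ _ e)
    · exact Or.inr (Or.inr ⟨h, rfl, rfl⟩)
    · exact Or.inr (Or.inl ⟨h, rfl, rfl⟩)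
  · rintro a (e | ⟨h, e1, e2⟩ | ⟨h, e1, e2⟩)
    · exact g.irr _ e
    · exact huv (MulAction.injective h (e1.trans e2.symm))
    · exact huv (MulAction.injective h (e2.trans e1.symm))
  · rintro a b (e | ⟨h, rfl, rfl⟩ | ⟨h, rfl, rfl⟩)
    · exact g.mem _ _ e
    · exact g.W_inv _ _ hu
    · exact g.W_inv _ _ hv
  · have h1 : (orbs H {p : Z × Z | F p.1 p.2} ∪ {(Quotient.mk'' (u, v) : orbitRel.Quotient H (Z × Z)),
        (Quotient.mk'' (v, u) : orbitRel.Quotient H (Z × Z))}).Finite :=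
      Set.Finite.union g.finF (Set.toFinite _)
    refine h1.subset ?_
    rintro _ ⟨⟨a, b⟩, (e | ⟨h, e1, e2⟩ | ⟨h, e1, e2⟩), rfl⟩
    · exact Or.inl ⟨(a, b), e, rfl⟩
    · refine Or.inr (Or.inl ?_)
      exact Quotient.sound' ⟨h, Prod.ext e1 e2⟩
    · refine Or.inr (Or.inr ?_)
      exact Quotient.sound' ⟨h, Prod.ext e1 e2⟩

theorem Gr.delE {W : Set Z} {F : Z → Z → Prop} (g : Gr H W F) (u v : Z) :
    Gr H W (delE H F u v) := by
  refine ⟨?_, ?_, ?_, g.W_inv, ?_, g.finW, ?_⟩
  · rintro a b ⟨e, h1, h2⟩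
    exact ⟨g.symm _ _ e, fun ⟨h, e1, e2⟩ => h2 ⟨h, e2, e1⟩, fun ⟨h, e1, e2⟩ => h1 ⟨h, e2, e1⟩⟩
  · rintro a ⟨e, -⟩
    exact g.irr _ e
  · rintro k a b ⟨e, h1, h2⟩
    refine ⟨g.inv k _ _ e, ?_, ?_⟩
    · rintro ⟨h, e1, e2⟩
      exact h1 ⟨k⁻¹ * h, by rw [mul_smul, e1, inv_smul_smul], by rw [mul_smul, e2, inv_smul_smul]⟩
    · rintro ⟨h, e1, e2⟩
      exact h2 ⟨k⁻¹ * h, by rw [mul_smul, e1, inv_smul_smul], by rw [mul_smul, e2, inv_smul_smul]⟩
  · rintro a b ⟨e, -⟩
    exact g.mem _ _ e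
  · refine Set.Finite.subset g.finF ?_
    rintro _ ⟨p, hp, rfl⟩
    exact ⟨p, hp.1, rfl⟩

/-! ### stabilisers of components -/

private theorem bi_mem_SC {F : Z → Z → Prop} {z : Z} {h : H} :
    h ∈ SC H F z ↔ Relation.EqvGen F (h • z) z := Iff.rfl

/-- stabiliser of a component, as a subgroup -/
theorem SC_subgroup {F : Z → Z → Prop} (hinv : ∀ (h : H) (a b : Z), F a b → F (h • a) (h • b))
    (z : Z) : ∃ A : Subgroup H, (A : Set H) = SC H F z := by
  refine ⟨{ carrier := SC H F z, mul_mem' := ?_, one_mem' := ?_, inv_mem' := ?_ }, rfl⟩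
  · intro a b ha hb
    have h1 : Relation.EqvGen F (a • b • z) (a • z) := bi_smul hinv a hb
    rw [← mul_smul] at h1
    exact Relation.EqvGen.trans _ _ _ h1 ha
  · show Relation.EqvGen F ((1 : H) • z) z
    rw [one_smul]
    exact Relation.EqvGen.refl _
  · intro a ha
    have h1 : Relation.EqvGen F (a⁻¹ • a • z) (a⁻¹ • z) := bi_smul hinv a⁻¹ ha
    rw [inv_smul_smul] at h1
    exact Relation.EqvGen.symm _ _ h1

/-- translates of `z` in the component of a translate of `z` -/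
private theorem bi_tr {F : Z → Z → Prop} (hinv : ∀ (h : H) (a b : Z), F a b → F (h • a) (h • b))
    {A : Subgroup H} {z : Z} (hA : SC H F z ⊆ A) {h a : H} (ha : a ∈ A)
    (e : Relation.EqvGen F (h • z) (a • z)) : h ∈ A := by
  have h1 : Relation.EqvGen F (a⁻¹ • h • z) (a⁻¹ • a • z) := bi_smul hinv a⁻¹ e
  rw [inv_smul_smul, ← mul_smul] at h1
  have h2 : a⁻¹ * h ∈ A := hA h1
  have h3 := A.mul_mem ha h2
  rwa [mul_inv_cancel_left] at h3

private theorem bi_uv {F : Z → Z → Prop} (u v : Z) : Relation.EqvGen (addE H F u v) u v :=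
  Relation.EqvGen.rel _ _ (Or.inr (Or.inl ⟨1, one_smul _ _, one_smul _ _⟩))

/-- Proof: by induction, every `z` in the component of `u` in `F'` is in the `F`-component of
`k • u` for some `k` in the closure. -/
theorem SC_addE_same {W : Set Z} {F : Z → Z → Prop} (g : Gr H W F) {u v : Z} {k : H}
    (hk : Relation.EqvGen F (k • u) v) :
    SC H (addE H F u v) u = (Subgroup.closure (SC H F u ∪ {k}) : Subgroup H) := by
  have hinv' := bi_addE_inv (u := u) (v := v) g.inv
  have hmono : ∀ {a b}, Relation.EqvGen F a b → Relation.EqvGen (Pool.Agent.SAG.addE H F u v) a b :=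
    fun e => bi_mono (fun _ _ e => Or.inl e) e
  apply Set.Subset.antisymm
  · obtain ⟨A, hA⟩ : ∃ A : Subgroup H, A = Subgroup.closure (SC H F u ∪ {k}) := ⟨_, rfl⟩
    rw [← hA]
    have hS : SC H F u ⊆ A := by
      rw [hA]
      exact fun x hx => Subgroup.subset_closure (Or.inl hx)
    have hkA : k ∈ A := by
      rw [hA]
      exact Subgroup.subset_closure (Or.inr rfl)
    intro h hh
    have hu : ∀ h : H, (∃ a ∈ A, Relation.EqvGen F (h • u) (a • u)) ↔ h ∈ A := by
      intro h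
      constructor
      · rintro ⟨a, ha, e⟩
        exact bi_tr g.inv hS ha e
      · intro h1
        exact ⟨h, h1, Relation.EqvGen.refl _⟩
    have hv : ∀ h : H, (∃ a ∈ A, Relation.EqvGen F (h • v) (a • u)) ↔ h ∈ A := by
      intro h
      have e1 : Relation.EqvGen F ((h * k) • u) (h • v) := by
        rw [mul_smul]
        exact bi_smul g.inv h hk
      constructor
      · rintro ⟨a, ha, e⟩
        have h2 : h * k ∈ A := bi_tr g.inv hS ha (Relation.EqvGen.trans _ _ _ e1 e)
        have h3 := A.mul_mem h2 (A.inv_mem hkA)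
        rwa [mul_inv_cancel_right] at h3
      · intro h1
        exact ⟨h * k, A.mul_mem h1 hkA, Relation.EqvGen.symm _ _ e1⟩
    have hP : ∀ a b, Pool.Agent.SAG.addE H F u v a b →
        ((∃ c ∈ A, Relation.EqvGen F a (c • u)) ↔ (∃ c ∈ A, Relation.EqvGen F b (c • u))) := by
      rintro a b (e | ⟨l, rfl, rfl⟩ | ⟨l, rfl, rfl⟩)
      · have e' := Relation.EqvGen.rel _ _ e
        constructor
        · rintro ⟨c, hc, k1⟩
          exact ⟨c, hc, Relation.EqvGen.trans _ _ _ (Relation.EqvGen.symm _ _ e') k1⟩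
        · rintro ⟨c, hc, k1⟩
          exact ⟨c, hc, Relation.EqvGen.trans _ _ _ e' k1⟩
      · rw [hu, hv]
      · rw [hu, hv]
    have h5 := (bi_prop hP hh).2 ⟨1, A.one_mem, by rw [one_smul]; exact Relation.EqvGen.refl _⟩
    exact (hu h).1 h5
  · obtain ⟨B, hB⟩ := SC_subgroup hinv' u
    rw [← hB]
    have : Subgroup.closure (SC H F u ∪ {k}) ≤ B := by
      rw [Subgroup.closure_le, hB]
      rintro x (hx | rfl)
      · exact hmono hx
      · exact Relation.EqvGen.trans _ _ _ (hmono hk) (Relation.EqvGen.symm _ _ (bi_uv u v))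
    exact this

/-- Proof: by induction, every `z` in the component of `u` in `F'` is in the `F`-component of
`k • u` or of `k • v` for some `k` in the closure. -/
theorem SC_addE_diff {W : Set Z} {F : Z → Z → Prop} (g : Gr H W F) {u v : Z}
    (hd : ∀ k : H, ¬ Relation.EqvGen F (k • u) v) :
    SC H (addE H F u v) u = (Subgroup.closure (SC H F u ∪ SC H F v) : Subgroup H) := by
  have hinv' := bi_addE_inv (u := u) (v := v) g.inv
  have hmono : ∀ {a b}, Relation.EqvGen F a b → Relation.EqvGen (Pool.Agent.SAG.addE H F u v) a b :=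
    fun e => bi_mono (fun _ _ e => Or.inl e) e
  apply Set.Subset.antisymm
  · obtain ⟨A, hA⟩ : ∃ A : Subgroup H, A = Subgroup.closure (SC H F u ∪ SC H F v) := ⟨_, rfl⟩
    rw [← hA]
    have hS : SC H F u ⊆ A := by
      rw [hA]
      exact fun x hx => Subgroup.subset_closure (Or.inl hx)
    have hS' : SC H F v ⊆ A := by
      rw [hA]
      exact fun x hx => Subgroup.subset_closure (Or.inr hx)
    intro h hh
    have hno : ∀ a b : H, ¬ Relation.EqvGen F (a • u) (b • v) := by
      intro a b e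
      apply hd (b⁻¹ * a)
      have := bi_smul g.inv b⁻¹ e
      rwa [inv_smul_smul, ← mul_smul] at this
    have hu : ∀ h : H, (∃ a ∈ A, Relation.EqvGen F (h • u) (a • u) ∨
        Relation.EqvGen F (h • u) (a • v)) ↔ h ∈ A := by
      intro h
      constructor
      · rintro ⟨a, ha, e | e⟩
        · exact bi_tr g.inv hS ha e
        · exact absurd e (hno h a)
      · intro h1
        exact ⟨h, h1, Or.inl (Relation.EqvGen.refl _)⟩
    have hv : ∀ h : H, (∃ a ∈ A, Relation.EqvGen F (h • v) (a • u) ∨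
        Relation.EqvGen F (h • v) (a • v)) ↔ h ∈ A := by
      intro h
      constructor
      · rintro ⟨a, ha, e | e⟩
        · exact absurd (Relation.EqvGen.symm _ _ e) (hno a h)
        · exact bi_tr g.inv hS' ha e
      · intro h1
        exact ⟨h, h1, Or.inr (Relation.EqvGen.refl _)⟩
    have hP : ∀ a b, Pool.Agent.SAG.addE H F u v a b →
        ((∃ c ∈ A, Relation.EqvGen F a (c • u) ∨ Relation.EqvGen F a (c • v)) ↔
          (∃ c ∈ A, Relation.EqvGen F b (c • u) ∨ Relation.EqvGen F b (c • v))) := by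
      rintro a b (e | ⟨l, rfl, rfl⟩ | ⟨l, rfl, rfl⟩)
      · have e' := Relation.EqvGen.rel _ _ e
        have e'' := Relation.EqvGen.symm _ _ e'
        constructor
        · rintro ⟨c, hc, k1 | k1⟩
          · exact ⟨c, hc, Or.inl (Relation.EqvGen.trans _ _ _ e'' k1)⟩
          · exact ⟨c, hc, Or.inr (Relation.EqvGen.trans _ _ _ e'' k1)⟩
        · rintro ⟨c, hc, k1 | k1⟩
          · exact ⟨c, hc, Or.inl (Relation.EqvGen.trans _ _ _ e' k1)⟩
          · exact ⟨c, hc, Or.inr (Relation.EqvGen.trans _ _ _ e' k1)⟩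
      · rw [hu, hv]
      · rw [hu, hv]
    have h5 := (bi_prop hP hh).2
      ⟨1, A.one_mem, Or.inl (by rw [one_smul]; exact Relation.EqvGen.refl _)⟩
    exact (hu h).1 h5
  · obtain ⟨B, hB⟩ := SC_subgroup hinv' u
    rw [← hB]
    have : Subgroup.closure (SC H F u ∪ SC H F v) ≤ B := by
      rw [Subgroup.closure_le, hB]
      rintro x (hx | hx)
      · exact hmono hx
      · have h1 := bi_smul hinv' x (bi_uv (H := H) (F := F) u v)
        exact Relation.EqvGen.trans _ _ _ h1
          (Relation.EqvGen.trans _ _ _ (hmono hx) (Relation.EqvGen.symm _ _ (bi_uv u v)))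
    exact this

/-! ### masses of components -/

/-- the weight of a component depends on the orbit of the component only -/
private theorem bi_wc {F : Z → Z → Prop} (hinv : ∀ (h : H) (a b : Z), F a b → F (h • a) (h • b))
    (M : ℕ) {a b : Z} {h : H} (e : Relation.EqvGen F a (h • b)) : wc H M F a = wc H M F b := by
  unfold wc
  congr 1
  refine Nat.card_congr ⟨fun x => ⟨h⁻¹ * x.1 * h, ?_⟩, fun x => ⟨h * x.1 * h⁻¹, ?_⟩, ?_, ?_⟩
  · have hx : Relation.EqvGen F (x.1 • a) a := x.2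
    have h1 := Relation.EqvGen.trans _ _ _ (Relation.EqvGen.symm _ _ (bi_smul hinv x.1 e))
      (Relation.EqvGen.trans _ _ _ hx e)
    have h2 := bi_smul hinv h⁻¹ h1
    show Relation.EqvGen F ((h⁻¹ * x.1 * h) • b) b
    rw [mul_smul, mul_smul]
    rwa [inv_smul_smul] at h2
  · have hx : Relation.EqvGen F (x.1 • b) b := x.2
    have h1 := bi_smul hinv h hx
    have h2 := bi_smul hinv (h * x.1 * h⁻¹) e
    show Relation.EqvGen F ((h * x.1 * h⁻¹) • a) a
    refine Relation.EqvGen.trans _ _ _ h2 (Relation.EqvGen.trans _ _ _ ?_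
      (Relation.EqvGen.symm _ _ e))
    rw [mul_smul, mul_smul, inv_smul_smul]
    exact h1
  · intro x
    apply Subtype.ext
    show h * (h⁻¹ * x.1 * h) * h⁻¹ = x.1
    group
  · intro x
    apply Subtype.ext
    show h⁻¹ * (h * x.1 * h⁻¹) * h = x.1
    group

/-- the mass of the components which meet `S` -/
private noncomputable def bmc (H : Type) [Group H] {Z : Type} [MulAction H Z] (M : ℕ)
    (F : Z → Z → Prop) (S : Set Z) : ℕ :=
  ∑ᶠ c ∈ ((fun z => Quotient.mk (cs H F) z) '' S), wc H M F (Quotient.out c)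

private theorem bi_mc (M : ℕ) (W : Set Z) (F : Z → Z → Prop) : mc H M W F = bmc H M F W := rfl

private theorem bi_wc_out {F : Z → Z → Prop}
    (hinv : ∀ (h : H) (a b : Z), F a b → F (h • a) (h • b)) (M : ℕ) (z : Z) :
    wc H M F (Quotient.out (Quotient.mk (cs H F) z)) = wc H M F z := by
  have h1 : Quotient.mk (cs H F) (Quotient.out (Quotient.mk (cs H F) z)) =
      Quotient.mk (cs H F) z := Quotient.out_eq _
  obtain ⟨h, e⟩ := (bi_mk_eq_iff hinv _ _).1 h1
  exact bi_wc hinv M e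

private theorem bi_finsum {α β γ : Type} (f : α → β) (g : α → γ) (s : Set α) (φ : β → ℕ)
    (ψ : γ → ℕ) (h : ∀ a ∈ s, ∀ b ∈ s, (f a = f b ↔ g a = g b))
    (he : ∀ a ∈ s, φ (f a) = ψ (g a)) : ∑ᶠ c ∈ f '' s, φ c = ∑ᶠ c ∈ g '' s, ψ c := by
  classical
  by_cases hs : s.Nonempty
  · obtain ⟨a0, -⟩ := hs
    obtain ⟨e, hee⟩ : ∃ e : β → γ, e = fun b => if hb : b ∈ f '' s then g hb.choose else g a0 :=
      ⟨_, rfl⟩
    have val : ∀ a ∈ s, e (f a) = g a := by
      intro a ha
      have hb : f a ∈ f '' s := ⟨a, ha, rfl⟩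
      rw [hee]
      dsimp only
      rw [dif_pos hb]
      exact (h _ hb.choose_spec.1 _ ha).1 hb.choose_spec.2
    apply finsum_mem_eq_of_bijOn e
    · refine ⟨?_, ?_, ?_⟩
      · rintro _ ⟨a, ha, rfl⟩
        rw [val a ha]
        exact ⟨a, ha, rfl⟩
      · rintro _ ⟨a, ha, rfl⟩ _ ⟨b, hb, rfl⟩ hab
        rw [val a ha, val b hb] at hab
        exact (h a ha b hb).2 hab
      · rintro _ ⟨a, ha, rfl⟩
        exact ⟨f a, ⟨a, ha, rfl⟩, val a ha⟩
    · rintro _ ⟨a, ha, rfl⟩
      rw [val a ha]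
      exact he a ha
  · rw [Set.not_nonempty_iff_eq_empty] at hs
    subst hs
    rw [Set.image_empty, Set.image_empty, finsum_mem_empty, finsum_mem_empty]

/-- `z` is in a translate of the component of `u` or `v` -/
private def BU (H : Type) [Group H] {Z : Type} [MulAction H Z] (F : Z → Z → Prop) (u v z : Z) :
    Prop :=
  (∃ h : H, Relation.EqvGen F z (h • u)) ∨ (∃ h : H, Relation.EqvGen F z (h • v))

private theorem bi_split {W : Set Z} {F : Z → Z → Prop} (g : Gr H W F) (M : ℕ) (P : Z → Prop)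
    (hP : ∀ a b, P b → (∃ h : H, Relation.EqvGen F a (h • b)) → P a) :
    bmc H M F W = bmc H M F {z | z ∈ W ∧ ¬ P z} + bmc H M F {z | z ∈ W ∧ P z} := by
  have fin : ∀ Q : Z → Prop, ((fun z => Quotient.mk (cs H F) z) '' {z | z ∈ W ∧ Q z}).Finite := by
    intro Q
    refine (bi_cs_finite g.finW F).subset ?_
    rintro _ ⟨z, hz, rfl⟩
    exact ⟨z, hz.1, rfl⟩
  have dis : Disjoint ((fun z => Quotient.mk (cs H F) z) '' {z | z ∈ W ∧ ¬ P z})
      ((fun z => Quotient.mk (cs H F) z) '' {z | z ∈ W ∧ P z}) := by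
    rw [Set.disjoint_left]
    rintro _ ⟨z, hz, rfl⟩ ⟨w, hw, e⟩
    obtain ⟨h, e⟩ := (bi_mk_eq_iff g.inv _ _).1 e
    apply hz.2
    apply hP z w hw.2
    refine ⟨h⁻¹, ?_⟩
    have := bi_smul g.inv h⁻¹ e
    rw [inv_smul_smul] at this
    exact Relation.EqvGen.symm _ _ this
  have hW : ((fun z => Quotient.mk (cs H F) z) '' W) =
      ((fun z => Quotient.mk (cs H F) z) '' {z | z ∈ W ∧ ¬ P z}) ∪
      ((fun z => Quotient.mk (cs H F) z) '' {z | z ∈ W ∧ P z}) := by
    rw [← Set.image_union]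
    congr 1
    ext z
    simp only [Set.mem_ofPred_eq, Set.mem_union]
    tauto
  unfold bmc
  rw [← finsum_mem_union dis (fin _) (fin _), hW]

private theorem bi_BU_closed {F : Z → Z → Prop}
    (hinv : ∀ (h : H) (a b : Z), F a b → F (h • a) (h • b)) {u v a b : Z} (hb : BU H F u v b)
    (h : ∃ h : H, Relation.EqvGen F a (h • b)) : BU H F u v a := by
  obtain ⟨h, e⟩ := h
  rcases hb with ⟨k, e'⟩ | ⟨k, e'⟩
  · left
    refine ⟨h * k, ?_⟩
    rw [mul_smul]
    exact Relation.EqvGen.trans _ _ _ e (bi_smul hinv h e')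
  · right
    refine ⟨h * k, ?_⟩
    rw [mul_smul]
    exact Relation.EqvGen.trans _ _ _ e (bi_smul hinv h e')

private theorem bi_BU_closed' {F : Z → Z → Prop}
    (hinv : ∀ (h : H) (a b : Z), F a b → F (h • a) (h • b)) {u v a b : Z} (hb : BU H F u v b)
    (h : ∃ h : H, Relation.EqvGen (addE H F u v) a (h • b)) : BU H F u v a := by
  obtain ⟨h, e⟩ := h
  have hP : ∀ a b, addE H F u v a b → (BU H F u v a ↔ BU H F u v b) := by
    rintro a b (e | ⟨g, rfl, rfl⟩ | ⟨g, rfl, rfl⟩)
    · have e' := Relation.EqvGen.rel _ _ e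
      constructor
      · intro k
        exact bi_BU_closed hinv k ⟨1, by rw [one_smul]; exact Relation.EqvGen.symm _ _ e'⟩
      · intro k
        exact bi_BU_closed hinv k ⟨1, by rw [one_smul]; exact e'⟩
    · exact ⟨fun _ => Or.inr ⟨g, Relation.EqvGen.refl _⟩, fun _ => Or.inl ⟨g, Relation.EqvGen.refl _⟩⟩
    · exact ⟨fun _ => Or.inl ⟨g, Relation.EqvGen.refl _⟩, fun _ => Or.inr ⟨g, Relation.EqvGen.refl _⟩⟩
  have h1 : BU H F u v (h • b) := bi_BU_closed hinv hb ⟨h, Relation.EqvGen.refl _⟩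
  exact (bi_prop hP e).2 h1

private theorem bi_not_BU {F : Z → Z → Prop} {u v z : Z} (h : ¬ BU H F u v z) (w : Z) :
    Relation.EqvGen (addE H F u v) z w ↔ Relation.EqvGen F z w :=
  bi_eqv_local (H := H) (fun k e => h (Or.inl ⟨k, e⟩)) (fun k e => h (Or.inr ⟨k, e⟩)) w

private theorem bi_rest {W : Set Z} {F : Z → Z → Prop} (g : Gr H W F) (M : ℕ) {u v : Z} :
    bmc H M (addE H F u v) {z | z ∈ W ∧ ¬ BU H F u v z} =
      bmc H M F {z | z ∈ W ∧ ¬ BU H F u v z} := by
  have hinv' := bi_addE_inv (u := u) (v := v) g.inv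
  unfold bmc
  apply bi_finsum
  · rintro a ⟨-, ha⟩ b ⟨-, hb⟩
    rw [bi_mk_eq_iff g.inv, bi_mk_eq_iff hinv']
    constructor
    · rintro ⟨h, e⟩
      exact ⟨h, (bi_not_BU ha _).1 e⟩
    · rintro ⟨h, e⟩
      exact ⟨h, (bi_not_BU ha _).2 e⟩
  · rintro a ⟨-, ha⟩
    rw [bi_wc_out g.inv, bi_wc_out hinv']
    unfold wc
    congr 2
    have : SC H (addE H F u v) a = SC H F a := by
      ext h
      rw [bi_mem_SC, bi_mem_SC]
      constructor
      · intro e
        exact Relation.EqvGen.symm _ _ ((bi_not_BU ha _).1 (Relation.EqvGen.symm _ _ e))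
      · intro e
        exact Relation.EqvGen.symm _ _ ((bi_not_BU ha _).2 (Relation.EqvGen.symm _ _ e))
    rw [this]

private theorem bi_one {F : Z → Z → Prop} (hinv : ∀ (h : H) (a b : Z), F a b → F (h • a) (h • b))
    (M : ℕ) {S : Set Z} {u : Z} (hu : u ∈ S) (h : ∀ z ∈ S, ∃ h : H, Relation.EqvGen F z (h • u)) :
    bmc H M F S = wc H M F u := by
  have e1 : (fun z => Quotient.mk (cs H F) z) '' S = {Quotient.mk (cs H F) u} := by
    apply Set.Subset.antisymm
    · rintro _ ⟨z, hz, rfl⟩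
      exact (bi_mk_eq_iff hinv _ _).2 (h z hz)
    · rintro _ rfl
      exact ⟨u, hu, rfl⟩
  unfold bmc
  rw [e1, finsum_mem_singleton, bi_wc_out hinv]

private theorem bi_two {F : Z → Z → Prop} (hinv : ∀ (h : H) (a b : Z), F a b → F (h • a) (h • b))
    (M : ℕ) {S : Set Z} {u v : Z} (hu : u ∈ S) (hv : v ∈ S)
    (h : ∀ z ∈ S, BU H F u v z) (hd : ∀ k : H, ¬ Relation.EqvGen F (k • u) v) :
    bmc H M F S = wc H M F u + wc H M F v := by
  have e1 : (fun z => Quotient.mk (cs H F) z) '' S =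
      {Quotient.mk (cs H F) u, Quotient.mk (cs H F) v} := by
    apply Set.Subset.antisymm
    · rintro _ ⟨z, hz, rfl⟩
      rcases h z hz with hz | hz
      · left
        exact (bi_mk_eq_iff hinv _ _).2 hz
      · right
        exact (bi_mk_eq_iff hinv _ _).2 hz
    · rintro _ (rfl | rfl)
      · exact ⟨u, hu, rfl⟩
      · exact ⟨v, hv, rfl⟩
  have e3 : Quotient.mk (cs H F) u ≠ Quotient.mk (cs H F) v := by
    intro e
    obtain ⟨k, hk⟩ := (bi_mk_eq_iff hinv _ _).1 e
    apply hd k⁻¹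
    have := bi_smul hinv k⁻¹ hk
    rwa [inv_smul_smul] at this
  unfold bmc
  rw [e1, finsum_mem_pair e3, bi_wc_out hinv, bi_wc_out hinv]

/-- the darts -/
private theorem bi_darts (M : ℕ) {W : Set Z} {F : Z → Z → Prop} (g : Gr H W F) {u v : Z}
    (hF : ¬ F u v) :
    ms H M {p : Z × Z | addE H F u v p.1 p.2} = ms H M {p : Z × Z | F p.1 p.2} + wd H M u v := by
  unfold wd
  rw [← ms_union g.finF]
  · rfl
  · have h1 : ({(Quotient.mk'' (u, v) : orbitRel.Quotient H (Z × Z)),
        (Quotient.mk'' (v, u) : orbitRel.Quotient H (Z × Z))} :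
          Set (orbitRel.Quotient H (Z × Z))).Finite := Set.toFinite _
    refine h1.subset ?_
    rintro _ ⟨⟨a, b⟩, (⟨h, e1, e2⟩ | ⟨h, e1, e2⟩), rfl⟩
    · left
      exact Quotient.sound' ⟨h, Prod.ext e1 e2⟩
    · right
      exact Quotient.sound' ⟨h, Prod.ext e1 e2⟩
  · rintro ⟨a, b⟩ e h (⟨k, e1, e2⟩ | ⟨k, e1, e2⟩)
    · apply hF
      have h1 := g.inv (k⁻¹ * h) _ _ e
      rw [mul_smul, mul_smul] at h1
      have e1' : k • u = h • a := e1
      have e2' : k • v = h • b := e2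
      change F (k⁻¹ • h • a) (k⁻¹ • h • b) at h1
      rw [← e1', ← e2', inv_smul_smul, inv_smul_smul] at h1
      exact h1
    · apply hF
      have h1 := g.inv (k⁻¹ * h) _ _ e
      rw [mul_smul, mul_smul] at h1
      have e1' : k • v = h • a := e1
      have e2' : k • u = h • b := e2
      change F (k⁻¹ • h • a) (k⁻¹ • h • b) at h1
      rw [← e1', ← e2', inv_smul_smul, inv_smul_smul] at h1
      exact g.symm _ _ h1

private theorem bi_same (M : ℕ) {W : Set Z} {F : Z → Z → Prop} (g : Gr H W F) {u v : Z}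
    (hu : u ∈ W) (hv : v ∈ W) (huv : u ≠ v) (hF : ¬ F u v)
    {k : H} (hk : Relation.EqvGen F (k • u) v) :
    N2 H M W (addE H F u v) = N2 H M W F + wd H M u v - 2 * wc H M F u
      + 2 * wc H M (addE H F u v) u := by
  have hinv' := bi_addE_inv (u := u) (v := v) g.inv
  have hU : ∀ z, BU H F u v z → ∃ h : H, Relation.EqvGen F z (h • u) := by
    rintro z (h | ⟨h, e⟩)
    · exact h
    · refine ⟨h * k, ?_⟩
      rw [mul_smul]
      exact Relation.EqvGen.trans _ _ _ e (bi_smul g.inv h (Relation.EqvGen.symm _ _ hk))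
  have hmem : u ∈ {z | z ∈ W ∧ BU H F u v z} :=
    ⟨hu, Or.inl ⟨1, by rw [one_smul]; exact Relation.EqvGen.refl _⟩⟩
  have e1 : bmc H M F {z | z ∈ W ∧ BU H F u v z} = wc H M F u :=
    bi_one g.inv M hmem (fun z hz => hU z hz.2)
  have e2 : bmc H M (addE H F u v) {z | z ∈ W ∧ BU H F u v z} = wc H M (addE H F u v) u := by
    apply bi_one hinv' M hmem
    intro z hz
    obtain ⟨h, e⟩ := hU z hz.2
    exact ⟨h, bi_mono (fun _ _ e => Or.inl e) e⟩
  unfold N2
  rw [bi_darts M g hF, bi_mc, bi_mc,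
    bi_split g M (BU H F u v) (fun a b hb hab => bi_BU_closed g.inv hb hab),
    bi_split (g.addE hu hv huv) M (BU H F u v) (fun a b hb hab => bi_BU_closed' g.inv hb hab),
    e1, e2, bi_rest g M]
  push_cast
  ring

/-- both ends in one component: the components do not change -/
theorem N2_addE_eqv (M : ℕ) {W : Set Z} {F : Z → Z → Prop} (g : Gr H W F) {u v : Z}
    (hu : u ∈ W) (hv : v ∈ W) (huv : u ≠ v) (hF : ¬ F u v) (h : Relation.EqvGen F u v) :
    N2 H M W (addE H F u v) = N2 H M W F + wd H M u v := by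
  have hk : Relation.EqvGen F ((1 : H) • u) v := by
    rw [one_smul]
    exact h
  rw [bi_same M g hu hv huv hF hk]
  have e : wc H M (Pool.Agent.SAG.addE H F u v) u = wc H M F u := by
    unfold wc
    congr 2
    have : SC H (Pool.Agent.SAG.addE H F u v) u = SC H F u := by
      rw [SC_addE_same g hk]
      obtain ⟨A, hA⟩ := SC_subgroup g.inv u
      rw [← hA]
      have h1 : ((A : Set H) ∪ {1}) = A := by
        apply Set.union_eq_self_of_subset_right
        rintro x rfl
        exact A.one_mem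
      rw [h1, Subgroup.closure_eq]
    rw [this]
  rw [e]
  ring

/-- the two components are translates of each other and become one orbit of components -/
theorem N2_addE_same (M : ℕ) {W : Set Z} {F : Z → Z → Prop} (g : Gr H W F) {u v : Z}
    (hu : u ∈ W) (hv : v ∈ W) (huv : u ≠ v) (hF : ¬ F u v) (hne : ¬ Relation.EqvGen F u v)
    {k : H} (hk : Relation.EqvGen F (k • u) v) :
    N2 H M W (addE H F u v) = N2 H M W F + wd H M u v - 2 * wc H M F u
      + 2 * wc H M (addE H F u v) u :=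
  bi_same M g hu hv huv hF hk

/-- two orbits of components become one; the components which are not in the orbits of the
components of `u` and `v` do not change -/
theorem N2_addE_diff (M : ℕ) {W : Set Z} {F : Z → Z → Prop} (g : Gr H W F) {u v : Z}
    (hu : u ∈ W) (hv : v ∈ W) (huv : u ≠ v) (hF : ¬ F u v)
    (hd : ∀ k : H, ¬ Relation.EqvGen F (k • u) v) :
    N2 H M W (addE H F u v) = N2 H M W F + wd H M u v - 2 * wc H M F u - 2 * wc H M F v
      + 2 * wc H M (addE H F u v) u := by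
  have hinv' := bi_addE_inv (u := u) (v := v) g.inv
  have hmem : u ∈ {z | z ∈ W ∧ BU H F u v z} :=
    ⟨hu, Or.inl ⟨1, by rw [one_smul]; exact Relation.EqvGen.refl _⟩⟩
  have hmem' : v ∈ {z | z ∈ W ∧ BU H F u v z} :=
    ⟨hv, Or.inr ⟨1, by rw [one_smul]; exact Relation.EqvGen.refl _⟩⟩
  have e1 : bmc H M F {z | z ∈ W ∧ BU H F u v z} = wc H M F u + wc H M F v :=
    bi_two g.inv M hmem hmem' (fun z hz => hz.2) hd
  have e2 : bmc H M (addE H F u v) {z | z ∈ W ∧ BU H F u v z} = wc H M (addE H F u v) u := by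
    apply bi_one hinv' M hmem
    rintro z ⟨-, ⟨h, e⟩ | ⟨h, e⟩⟩
    · exact ⟨h, bi_mono (fun _ _ e => Or.inl e) e⟩
    · refine ⟨h, Relation.EqvGen.trans _ _ _ (bi_mono (fun _ _ e => Or.inl e) e) ?_⟩
      exact Relation.EqvGen.symm _ _ (bi_smul hinv' h (bi_uv u v))
  unfold N2
  rw [bi_darts M g hF, bi_mc, bi_mc,
    bi_split g M (BU H F u v) (fun a b hb hab => bi_BU_closed g.inv hb hab),
    bi_split (g.addE hu hv huv) M (BU H F u v) (fun a b hb hab => bi_BU_closed' g.inv hb hab),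
    e1, e2, bi_rest g M]
  push_cast
  ring

end

end Pool.Agent.SAG
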