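import Pool.Agent.SAG.BPot
import Pool.Agent.SAG.BTree
import Pool.Agent.SAG.AG
import Pool.Agent.SAF.A13

/-!
# SAG, module BKRc: the classes of the second quotient complexes

Compare `SAF.BKRcyc`. (1) an element of infinite order of `J (cm p) l'` fixes `w = p.1.2`, so a
vertex without sink is never `Jinf` (`f_hyp`); the two kinds of generators of `kr` never meet.
(2) merge classes: the stabiliser is contained in `J l l'`, in `InC`. (3) `Q`-classes: all
`z` of the class have `f z = f x` or `f z = f y` for one `Q`-edge `x y` (if `f z` were different from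
both, a common power of elements of infinite order of the stabilisers, `IO.common`, would fix the
centre); the stabiliser permutes `f x w`, `f y w`; the subgroup fixing `f x w` has index at most two
and is in `InC` (`InC.of_index`). (4) singletons: contained in the stabiliser of `x`.
-/

namespace Pool.Agent.SAG

open MulAction
open Pool.Agent.SAF (InC orbs FinOrb oc Decomp SAn SA Ori Conv hull Zs LostF)

section

variable {H : Type} [Group H] {Y : Type} [MulAction H Y] {K : KS H Y} {D : Decomp H}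
  (S : Sys H Y K D)

theorem Sys.krc_f_fix {g : H} {x : Y} (hx : g • x = x) (w : D.X) :
    S.f x (g • w) = g • S.f x w := by
  have := S.f_smul g x w
  rwa [hx] at this

theorem Sys.krc_Zs {g : H} {x y : Y} (hx : g • x = x) (hy : g • y = y) {w : D.X}
    (hw : w ∈ Zs (S.f x) (S.f y)) : g • w ∈ Zs (S.f x) (S.f y) := by
  rintro ⟨h1, h2⟩
  apply hw
  rw [S.krc_f_fix hx, S.krc_f_fix hy] at h1
  rw [S.krc_f_fix hx] at h2
  exact ⟨smul_left_cancel g h1, fun e => h2 (by rw [e])⟩

/-- an element of infinite order which fixes a point without sink has no fixed vertex -/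
theorem Sys.krc_nofix {x : Y} (xP : x ∈ K.P) (hs : ∀ w, S.f x w ≠ w) {g : H} (hx : g • x = x)
    (hg : IO g) (w : D.X) : g • w ≠ w := by
  rcases S.f_hyp x xP with ⟨w', hw⟩ | ⟨-, hh⟩
  · exact absurd hw (hs w')
  · exact hh _ hx hg w

/-- three points without sink along `Q`-edges: the third is the first -/
theorem Sys.krc_three (hL : S.NoLost) {x y z : Y} (hxy : S.Qe x y)
    (hyz : S.Qe y z) : S.f z = S.f x := by
  by_contra hne
  obtain ⟨e1, ⟨h, h1, hx, hy⟩, hs⟩ := hxy
  obtain ⟨e2, ⟨k, k1, ky, kz⟩, hs'⟩ := hyz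
  have xP : x ∈ K.P := K.E_P _ _ e1
  have yP : y ∈ K.P := K.E_P _ _ e2
  have zP : z ∈ K.P := K.E_P _ _ (K.E_symm _ _ e2)
  have hy' : h ∈ stabilizer H y := hy
  have ky' : k ∈ stabilizer H y := ky
  obtain ⟨i, j, hi, hj, ecd, hio⟩ := IO.common (K.zt y yP).inC hy' ky' h1 k1
  have cx : h ^ i • x = x := (stabilizer H x).zpow_mem hx i
  have cy : h ^ i • y = y := (stabilizer H y).zpow_mem hy i
  have cz : h ^ i • z = z := by
    rw [ecd]; exact (stabilizer H z).zpow_mem kz j
  have hf : ∀ w : D.X, h ^ i • w ≠ w := fun w => S.krc_nofix xP hs cx hio w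
  obtain ⟨c, c12, c23, c13⟩ := Pool.Agent.SAF.exists_centre D.tree (S.ori x xP) (S.ori y yP)
    (S.ori z zP) (hL x y e1) (hL y z e2) (fun hl => hne hl.1.symm)
  exact hf c (Pool.Agent.SAF.centre_unique D.tree (S.ori x xP) (S.ori y yP) (S.ori z zP)
    ⟨S.krc_Zs cx cy c12, S.krc_Zs cy cz c23, S.krc_Zs cx cz c13⟩ ⟨c12, c23, c13⟩)

theorem Sys.krc_Qe_symm {x y : Y} (h : S.Qe x y) : S.Qe y x := by
  obtain ⟨e1, ⟨g, g1, gx, gy⟩, hs⟩ := h
  refine ⟨K.E_symm _ _ e1, ⟨g, g1, gy, gx⟩, ?_⟩
  have xP : x ∈ K.P := K.E_P _ _ e1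
  have yP : y ∈ K.P := K.E_P _ _ (K.E_symm _ _ e1)
  have hf : ∀ w : D.X, g • w ≠ w := fun w => S.krc_nofix xP hs gx g1 w
  intro v hv
  refine hf v ((S.ori y yP).fix_unique D.tree ?_ hv)
  rw [S.krc_f_fix gy, hv]

theorem Sys.krc_hr_symm {p q : S.V1} (h : S.hr p q) : S.hr q p := by
  obtain ⟨h1, h2, h3⟩ := h
  refine ⟨h1.symm, K.E_symm _ _ h2, ?_⟩
  rw [← h1, ← S.SE_symm _ _ h2]
  exact h3

theorem Sys.krc_symm {p q : S.V1} (h : S.kr p q) : S.kr q p := by
  rcases h with ⟨h1, h2⟩ | ⟨e, l', n, h1, h2, h3, h4, h5, h6, h7⟩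
  · exact Or.inl ⟨S.krc_hr_symm h1, S.krc_Qe_symm h2⟩
  · rw [e] at h1 h2 h3 h4 h5 h6 h7
    exact Or.inr ⟨e.symm, l', n, h2, h1, h4, h3, h5, h7, h6⟩

theorem Sys.krc_sink {l l' : S.LV} {x : Y} (hx : x ∈ K.P) (h : S.Jinf l l' x) :
    ∃ w, S.f x w = w := by
  obtain ⟨j, hj, j1, jx⟩ := h
  rcases S.f_hyp x hx with hw | ⟨-, hh⟩
  · exact hw
  · exfalso
    apply hh j jx j1 (S.pr l)
    rw [← S.pr_smul]
    congr 1
    exact hj.1

/-- a predicate which is invariant under `kr` is invariant on the classes -/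
theorem Sys.krc_ind (I : S.V1 → Prop) (hI : ∀ q r, S.kr q r → I q → I r) {p q : S.V1}
    (h : S.KR.c p = S.KR.c q) (hp : I p) : I q := by
  have e : Relation.EqvGen S.kr p q := Quotient.exact h
  have key : ∀ a b, Relation.EqvGen S.kr a b → (I a ↔ I b) := by
    intro a b hab
    induction hab with
    | rel x y hxy => exact ⟨hI x y hxy, hI y x (S.krc_symm hxy)⟩
    | refl x => exact Iff.rfl
    | symm x y _ ih => exact ih.symm
    | trans x y z _ _ ih1 ih2 => exact ih1.trans ih2
  exact (key p q e).1 hp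

/-- the case distinction for subgroups of `H` -/
theorem Sys.krc_main (hL : S.NoLost) (p : S.V1) (B : Subgroup H)
    (hcm : ∀ g ∈ B, g • S.cm p = S.cm p) (hc : ∀ g ∈ B, S.KR.c p = S.KR.c (g • p)) :
    InC ↥B := by
  have xP : p.1.1 ∈ K.P := p.2.1
  have hw : ∀ g ∈ B, g • p.1.2 = p.1.2 := by
    intro g hg
    have := congrArg S.pr (hcm g hg)
    rw [S.pr_smul, S.pr_cm] at this
    exact this
  by_cases hA : ∃ q, S.kr p q
  · obtain ⟨q, hq | ⟨e, l', n, h1, h2, h3, h4, h5, h6, h7⟩⟩ := hA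
    · -- `Q`-classes
      obtain ⟨hqr, hqe⟩ := hq
      have hns : ∀ w, S.f p.1.1 w ≠ w := hqe.2.2
      let I : S.V1 → Prop := fun r => (∀ w, S.f r.1.1 w ≠ w) ∧
        (S.f r.1.1 = S.f p.1.1 ∨ S.f r.1.1 = S.f q.1.1) ∧
        ∀ r' : S.V1, S.Qe r.1.1 r'.1.1 → (S.f r'.1.1 = S.f p.1.1 ∨ S.f r'.1.1 = S.f q.1.1)
      have hI : ∀ a b, S.kr a b → I a → I b := by
        rintro a b (⟨_, hab⟩ | ⟨e, l', n, h1, h2, h3, h4, h5, h6, h7⟩) ⟨i1, i2, i3⟩
        · refine ⟨(S.krc_Qe_symm hab).2.2, i3 b hab, ?_⟩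
          intro r' hr'
          rw [S.krc_three hL hab hr']
          exact i2
        · obtain ⟨w, hw⟩ := S.krc_sink a.2.1 h6
          exact absurd hw (i1 w)
      have hp : I p := by
        refine ⟨hns, Or.inl rfl, ?_⟩
        intro r' hr'
        right
        exact S.krc_three hL (S.krc_Qe_symm hqe) hr'
      have hadj : D.G.Adj p.1.2 (S.f p.1.1 p.1.2) := by
        rcases (S.ori _ xP).ok p.1.2 with e | e
        · exact absurd e (hns _)
        · exact e
      have hor : ∀ g ∈ B, g • S.f p.1.1 p.1.2 = S.f p.1.1 p.1.2 ∨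
          g • S.f p.1.1 p.1.2 = S.f q.1.1 p.1.2 := by
        intro g hg
        have h := S.krc_ind I hI (hc g hg) hp
        have h0 : S.f (g • p.1.1) p.1.2 = g • S.f p.1.1 p.1.2 := by
          have := S.f_smul g p.1.1 p.1.2
          rwa [hw g hg] at this
        rw [← h0]
        rcases h.2.1 with e | e
        · left
          exact congrFun e p.1.2
        · right
          exact congrFun e p.1.2
      refine InC.of_index (stabilizer ↥B (S.f p.1.1 p.1.2)) ?_ ?_
      · have hle : (stabilizer ↥B (S.f p.1.1 p.1.2)).map B.subtype ≤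
            stabilizer H p.1.2 ⊓ stabilizer H (S.f p.1.1 p.1.2) := by
          rintro _ ⟨b, hb, rfl⟩
          exact ⟨hw b.1 b.2, hb⟩
        exact Pool.Agent.SAF.InC.iso
          ((stabilizer ↥B (S.f p.1.1 p.1.2)).equivMapOfInjective B.subtype
            B.subtype_injective).symm (InC.mono hle (D.edgeC _ _ hadj))
      · rw [MulAction.index_stabilizer]
        have hsub : orbit ↥B (S.f p.1.1 p.1.2) ⊆ {S.f p.1.1 p.1.2, S.f q.1.1 p.1.2} := by
          rintro _ ⟨g, rfl⟩
          exact hor g.1 g.2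
        have hfin := (Set.toFinite {S.f p.1.1 p.1.2, S.f q.1.1 p.1.2}).subset hsub
        rw [Ne, Set.ncard_eq_zero hfin]
        exact (nonempty_orbit _).ne_empty
    · -- merge classes
      let I : S.V1 → Prop := fun r => S.cm r = S.cm p ∧ (∃ w, S.f r.1.1 w = w) ∧
        S.Far (S.cm p) l' r.1.1
      have hI : ∀ a b, S.kr a b → I a → I b := by
        rintro a b (⟨_, hab⟩ | ⟨e, l'', n, h1, h2, h3, h4, h5, h6, h7⟩) ⟨i1, ⟨w, i2⟩, i3⟩
        · exact absurd i2 (hab.2.2 w)
        · refine ⟨e.symm.trans i1, S.krc_sink b.2.1 h7, ?_⟩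
          rw [i1] at h1 h2
          rw [S.Far_eq i3 h1]
          exact h2
      have hp : I p := ⟨rfl, S.krc_sink xP h6, h1⟩
      have hl : ∀ g ∈ B, g • l' = l' := by
        intro g hg
        have h := S.krc_ind I hI (hc g hg) hp
        have h0 := S.Far_smul g _ _ _ h1
        rw [hcm g hg] at h0
        exact S.Far_eq h0 h.2.2
      refine InC.mono (B := stabilizer H p.1.2 ⊓ stabilizer H (S.pr l')) ?_ (D.edgeC _ _ h1.1.1)
      intro b hb
      refine ⟨hw b hb, ?_⟩
      have := congrArg S.pr (hl b hb)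
      rw [S.pr_smul] at this
      exact this
  · -- singletons
    let I : S.V1 → Prop := fun r => r = p
    have hI : ∀ a b, S.kr a b → I a → I b := by
      intro a b hab ha
      change a = p at ha
      subst ha
      exact absurd ⟨b, hab⟩ hA
    refine InC.mono (B := stabilizer H p.1.1) ?_ (K.zt p.1.1 xP).inC
    intro b hb
    have h := S.krc_ind I hI (hc b hb) rfl
    exact congrArg (fun r : S.V1 => r.1.1) h

theorem Sys.kr_inC {M : ℕ} (hG : Gd M H) (hL : S.NoLost) (p : S.V1)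
    (A : Subgroup ↥(stabilizer H (S.cm p))) (hA : ∀ h ∈ A, S.KR.r (h.1 • p) p) : Zt ↥A := by
  have hB : InC ↥(A.map (stabilizer H (S.cm p)).subtype) := by
    apply S.krc_main hL p
    · rintro _ ⟨a, -, rfl⟩
      exact a.2
    · rintro _ ⟨a, ha, rfl⟩
      have h2 : S.KR.c (a.1 • p) = S.KR.c p := Quotient.sound (hA a ha)
      exact h2.symm
  exact Zt.of_inj (A.equivMapOfInjective (stabilizer H (S.cm p)).subtype
    (stabilizer H (S.cm p)).subtype_injective).toMonoidHom
    (A.equivMapOfInjective (stabilizer H (S.cm p)).subtype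
    (stabilizer H (S.cm p)).subtype_injective).injective (hG.zt hB)

end

end Pool.Agent.SAG
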