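import Pool.Agent.SAG.BTc
import Pool.Agent.SAG.BTree
import Pool.Agent.SAF.A11

/-!
# SAG, module BLast: last points are centres; vertices in triangles of the quotient complexes

`last_centre` is a copy of `SAF.BEnd`.
`vf_le`: `R` a relation for which the class of `(x, w)`, `w` the last point of `x`, is a singleton
(`hsing`), no triangle degenerate. A vertex `x` of `K` with finite stabiliser lying in a triangle
has a sink (`sink_of_finite`), hence a last point `w`, which is a centre at `x`; the class of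
`(x, w)` has the same stabiliser as `x` and lies in a triangle of the quotient complex at
`cm (x, w)`, in the orbit of `l0`; translate to `l0` and use `oc_le_of_rel`.
`vf_lt`: moreover the class of `p0`, not a last point, has finite stabiliser and lies in a
triangle (`p0.1.2` is a centre at `p0.1.1`); it contains no last point, by `hsing`.
`nv_lt` is a copy of `SAF.BEnd`.
-/

namespace Pool.Agent.SAG

open MulAction
open Pool.Agent.SAF (InC orbs FinOrb oc Decomp SAn SA Ori Conv hull Zs LostF)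
open Pool.Agent.SAF (dist_edge exists_next oc_le_of_inj oc_lt_of_inj)

section

variable {H : Type} [Group H] {Y : Type} [MulAction H Y] {K : KS H Y} {D : Decomp H}
  (S : Sys H Y K D)

private theorem KS.T_flip27 {H : Type} [Group H] {Y : Type} [MulAction H Y] (K : KS H Y)
    {x y z : Y} (h : K.T x y z) : K.T x z y := K.T_rot _ _ _ (K.T_swap _ _ _ h)

private theorem Sys.ST_flip27 {x y z : Y} (h : K.T x y z) : S.ST x y z = S.ST x z y := by
  rw [S.ST_swap _ _ _ h, S.ST_rot _ _ _ (K.T_swap _ _ _ h)]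

/-- all points of `SE x y` other than the last point `w` of `SV x` lie in one direction from
`w` -/
private theorem Sys.last_side27 (hL : S.NoLost) {x y : Y} (hE : K.E x y) {w v : D.X}
    (hl : S.f x w = w ∨ S.f x w ∉ S.SV x) (hwv : D.G.Adj w v) {c c' : D.X}
    (hc : c ∈ S.SE x y) (hc' : c' ∈ S.SE x y)
    (h1 : D.G.dist c w = D.G.dist c v + 1) (hne : c' ≠ w) :
    D.G.dist c' w = D.G.dist c' v + 1 := by
  have hG := D.tree
  rcases (dist_edge hG hwv c').1 with h2 | h2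
  swap
  · exact h2
  exfalso
  have hx : x ∈ K.P := K.E_P _ _ hE
  have hy : y ∈ K.P := K.E_P _ _ (K.E_symm _ _ hE)
  have hconv := S.SE_conv x y hE
  obtain ⟨hw, hv⟩ := hconv.edge hG hwv hc' hc h2 h1
  obtain ⟨v', hwv', h3⟩ := exists_next hG (Ne.symm hne)
  have hv' : v' ∈ S.SE x y := by
    apply hconv w hw c' hc' v'
    rw [SimpleGraph.dist_eq_one_iff_adj.2 hwv', h3, add_comm]
  have hne' : v' ≠ v := by
    rintro rfl
    rw [SimpleGraph.dist_comm (u := c') (v := v'), SimpleGraph.dist_comm (u := c') (v := w)] at h2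
    omega
  have key : ∀ u, D.G.Adj w u → u ∈ S.SE x y → S.f y w = u := by
    intro u hwu hu
    have e1 : S.f x w ≠ u := by
      intro e
      rcases hl with h | h
      · rw [h] at e
        exact hwu.ne e
      · exact h (e ▸ S.SE_sub x y hE hu)
    have e2 : S.f x u = w := ((S.ori x hx).one _ _ hwu).resolve_left e1
    have e3 := S.SE_Z x y hE (hL x y hE) hu
    rcases (S.ori y hy).one _ _ hwu with e | e
    · exact e
    · exfalso
      apply e3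
      rw [e2, e]
      exact ⟨rfl, hwu.ne⟩
  exact hne' ((key v' hwv' hv').symm.trans (key v hwv hv))

theorem Sys.last_centre (hL : S.NoLost) (hA : K.AllTri) (hLk : K.LinkConn) {x : Y}
    (hx : x ∈ K.P) {w : D.X} (hw : w ∈ S.SV x) (hl : S.f x w = w ∨ S.f x w ∉ S.SV x) :
    ∃ y z, K.T x y z ∧ w ∈ S.ST x y z := by
  by_contra hno
  push Not at hno
  have hG := D.tree
  have hw' := hw
  rw [S.SV_hull x hx] at hw'
  obtain ⟨a, ⟨ya, za, hTa, ha⟩, b, ⟨yb, zb, hTb, hb⟩, hab⟩ := hw'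
  have hane : a ≠ w := fun e => hno ya za hTa (e ▸ ha)
  obtain ⟨v, hwv, h3⟩ := exists_next hG (Ne.symm hane)
  have haw : D.G.dist a w = D.G.dist a v + 1 := by
    rw [SimpleGraph.dist_comm, h3, SimpleGraph.dist_comm]
  have step : ∀ y, K.E x y → (∃ c ∈ S.SE x y, D.G.dist c w = D.G.dist c v + 1) →
      ∀ z, K.T x y z → ∀ c ∈ S.ST x y z, D.G.dist c w = D.G.dist c v + 1 := by
    rintro y hE ⟨c, hc, h1⟩ z hT c' hc'
    exact S.last_side27 hL hE hl hwv hc (S.ST_sub x y z hT hc') h1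
      (fun e => hno y z hT (e ▸ hc'))
  have chain : ∀ y, Relation.ReflTransGen (fun a b => K.T x a b) ya y →
      ∀ z, K.T x y z → ∀ c ∈ S.ST x y z, D.G.dist c w = D.G.dist c v + 1 := by
    intro y hy
    induction hy with
    | refl => exact step ya (K.T_E _ _ _ hTa) ⟨a, S.ST_sub _ _ _ hTa ha, haw⟩
    | @tail y1 y2 _ h12 ih =>
      obtain ⟨c, hc⟩ := S.ST_ne x y1 y2 h12
      have h21 := K.T_flip27 h12
      refine step y2 (K.T_E _ _ _ h21) ⟨c, ?_, ih y2 h12 c hc⟩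
      rw [S.ST_flip27 h12] at hc
      exact S.ST_sub _ _ _ h21 hc
  have hbw := chain yb (hLk x ya yb ⟨za, hTa⟩ ⟨zb, hTb⟩) zb hTb b hb
  have t := hG.connected.dist_triangle (u := a) (v := v) (w := b)
  rw [SimpleGraph.dist_comm (u := w) (v := b)] at hab
  rw [SimpleGraph.dist_comm (u := v) (v := b)] at t
  omega

/-- a last point is not far -/
private theorem Sys.last_not_far27 {p : S.V1}
    (hl : S.f p.1.1 p.1.2 = p.1.2 ∨ S.f p.1.1 p.1.2 ∉ S.SV p.1.1)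
    (l' : S.LV) : ¬ S.Far (S.cm p) l' p.1.1 := by
  intro h
  have e : S.f p.1.1 p.1.2 = S.pr l' := h.2.2.2
  have hadj : D.G.Adj p.1.2 (S.pr l') := h.1.1
  rcases hl with h1 | h1
  · rw [h1] at e
    exact hadj.ne e
  · apply h1
    rw [e]
    exact S.In_SV h.2.2.1

private theorem Sys.Tp_smul27 (g : H) {l : S.LV} {p q s : S.V1} (h : S.Tp l p q s) :
    S.Tp (g • l) (g • p) (g • q) (g • s) := by
  obtain ⟨h1, h2, h3, h4, h5⟩ := h
  refine ⟨?_, ?_, ?_, ?_, ?_⟩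
  · change g • p.1.2 = g • q.1.2
    rw [h1]
  · change g • q.1.2 = g • s.1.2
    rw [h2]
  · exact K.T_smul g _ _ _ h3
  · exact S.ST_smul g _ _ _ _ h3 h4
  · rw [S.cm_smul, h5]

/-- the triangle of the blown up complex given by a centre -/
private theorem Sys.exists_Tp27 {x y z : Y} {w : D.X} (hT : K.T x y z) (hw : w ∈ S.ST x y z) :
    ∃ p q s : S.V1, S.Tp (S.cm p) p q s ∧ p.1 = (x, w) := by
  have hTy : K.T y x z := K.T_swap _ _ _ hT
  have hTz : K.T z x y := K.T_rot _ _ _ (K.T_rot _ _ _ hT)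
  have hx : x ∈ K.P := K.E_P _ _ (K.T_E _ _ _ hT)
  have hy : y ∈ K.P := K.E_P _ _ (K.T_E _ _ _ hTy)
  have hz : z ∈ K.P := K.E_P _ _ (K.T_E _ _ _ hTz)
  have hwx : w ∈ S.SV x := S.SE_sub _ _ (K.T_E _ _ _ hT) (S.ST_sub _ _ _ hT hw)
  have hwy : w ∈ S.SV y := by
    rw [S.ST_swap _ _ _ hT] at hw
    exact S.SE_sub _ _ (K.T_E _ _ _ hTy) (S.ST_sub _ _ _ hTy hw)
  have hwz : w ∈ S.SV z := by
    rw [S.ST_rot _ _ _ hT, S.ST_rot _ _ _ (K.T_rot _ _ _ hT)] at hw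
    exact S.SE_sub _ _ (K.T_E _ _ _ hTz) (S.ST_sub _ _ _ hTz hw)
  exact ⟨⟨(x, w), hx, hwx⟩, ⟨(y, w), hy, hwy⟩, ⟨(z, w), hz, hwz⟩, ⟨rfl, rfl, hT, hw, rfl⟩, rfl⟩

variable {S} in
/-- a translate of the class of the first vertex of a triangle of the blown up complex lies in
a triangle of `K'` -/
private theorem IRel.cen27 (R : IRel S) (l0 : S.LV) (hC : S.Ctr l0)
    (K' : KS ↥(stabilizer H l0) R.Q) (hT' : K'.T = R.T l0) (ht : K.t ≤ K'.t)
    (p q s : S.V1) (hp : S.Tp (S.cm p) p q s) :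
    ∃ g : H, S.cm (g • p) = l0 ∧ R.c (g • p) ∈ K'.VT := by
  obtain ⟨h, hh⟩ := hC.ctr p q s hp
  have e : h⁻¹ • S.cm p = l0 := by rw [hh, inv_smul_smul]
  refine ⟨h⁻¹, by rw [S.cm_smul, e], R.c (h⁻¹ • q), R.c (h⁻¹ • s), ?_⟩
  have hp' := S.Tp_smul27 h⁻¹ hp
  have hp'' : S.Tp (S.cm (h⁻¹ • p)) (h⁻¹ • p) (h⁻¹ • q) (h⁻¹ • s) := by
    rw [S.cm_smul]
    exact hp'
  obtain ⟨n1, n2, n3⟩ := R.nondeg l0 hC K' hT' ht _ _ _ hp''
  rw [hT']
  rw [e] at hp'
  exact ⟨n1, n2, n3, _, _, _, hp', rfl, rfl, rfl⟩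

variable {S} in
/-- translated form of `hsing` -/
private theorem IRel.sing27 (R : IRel S)
    (hsing : ∀ p q : S.V1, (S.f p.1.1 p.1.2 = p.1.2 ∨ S.f p.1.1 p.1.2 ∉ S.SV p.1.1) →
      R.c p = R.c q → p = q) (p q : S.V1) (g h : H)
    (hl : S.f p.1.1 p.1.2 = p.1.2 ∨ S.f p.1.1 p.1.2 ∉ S.SV p.1.1)
    (e : R.c (g • p) = R.c (h • q)) : g • p = h • q := by
  have e1 : R.c p = R.c (g⁻¹ • h • q) := by
    have := congrArg (fun c => g⁻¹ • c) e
    rw [R.c_smul, R.c_smul] at this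
    rw [R.c_smul, R.c_smul, ← this, inv_smul_smul]
  have e2 := hsing p _ hl e1
  rw [e2, smul_inv_smul]

variable {S} in
/-- the stabiliser in the group of `l0` of a singleton class is finite -/
private theorem IRel.fin27 (R : IRel S)
    (hsing : ∀ p q : S.V1, (S.f p.1.1 p.1.2 = p.1.2 ∨ S.f p.1.1 p.1.2 ∉ S.SV p.1.1) →
      R.c p = R.c q → p = q) (l0 : S.LV) (p : S.V1) (g : H)
    (hl : S.f p.1.1 p.1.2 = p.1.2 ∨ S.f p.1.1 p.1.2 ∉ S.SV p.1.1)
    (hf : Finite ↥(stabilizer H p.1.1)) :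
    Finite ↥(stabilizer ↥(stabilizer H l0) (R.c (g • p))) := by
  have key : ∀ a : ↥(stabilizer ↥(stabilizer H l0) (R.c (g • p))),
      g⁻¹ * ((a : ↥(stabilizer H l0)) : H) * g ∈ stabilizer H p.1.1 := by
    intro a
    have ha : (a : ↥(stabilizer H l0)) • R.c (g • p) = R.c (g • p) := a.2
    have ha' : R.c (((a : ↥(stabilizer H l0)) : H) • g • p) = R.c (g • p) := by
      rw [R.c_smul]
      exact ha
    rw [← mul_smul] at ha'
    have e := R.sing27 hsing p p _ _ hl ha'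
    have e2 : (((a : ↥(stabilizer H l0)) : H) * g) • p.1.1 = g • p.1.1 :=
      congrArg (fun r : S.V1 => r.1.1) e
    change (g⁻¹ * ((a : ↥(stabilizer H l0)) : H) * g) • p.1.1 = p.1.1
    rw [mul_assoc, mul_smul, e2, inv_smul_smul]
  refine Finite.of_injective
    (fun a => (⟨_, key a⟩ : ↥(stabilizer H p.1.1))) ?_
  intro a b e
  have e1 : g⁻¹ * ((a : ↥(stabilizer H l0)) : H) * g
      = g⁻¹ * ((b : ↥(stabilizer H l0)) : H) * g := congrArg Subtype.val e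
  have e2 : ((a : ↥(stabilizer H l0)) : H) = ((b : ↥(stabilizer H l0)) : H) :=
    mul_left_cancel (mul_right_cancel e1)
  exact Subtype.ext (Subtype.ext e2)

variable {S} in
private theorem IRel.finVT27 {H' Y' : Type} [Group H'] [MulAction H' Y'] (K' : KS H' Y') :
    FinOrb H' K'.VT := by
  apply K'.finT.image (fun p => p.1)
  · rintro c ⟨y, z, h⟩
    exact ⟨(c, y, z), h, 1, one_smul _ _⟩
  · rintro a _ b _ ⟨h, e⟩
    exact ⟨h, congrArg Prod.fst e⟩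

variable {S} in
/-- the map used in `vf_le` and `vf_lt` -/
private theorem IRel.map27 (R : IRel S) (hA : K.AllTri) (hLk : K.LinkConn) (l0 : S.LV)
    (hC : S.Ctr l0)
    (hsing : ∀ p q : S.V1, (S.f p.1.1 p.1.2 = p.1.2 ∨ S.f p.1.1 p.1.2 ∉ S.SV p.1.1) →
      R.c p = R.c q → p = q)
    (K' : KS ↥(stabilizer H l0) R.Q) (hT' : K'.T = R.T l0) (ht : K.t ≤ K'.t) :
    ∃ F : Y → R.Q, ∀ x ∈ {x : Y | x ∈ K.VT ∧ Finite ↥(stabilizer H x)},
      F x ∈ {c : R.Q | c ∈ K'.VT ∧ Finite ↥(stabilizer ↥(stabilizer H l0) c)} ∧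
      ∃ (p : S.V1) (g : H), p.1.1 = x ∧ F x = R.c (g • p) ∧
        (S.f p.1.1 p.1.2 = p.1.2 ∨ S.f p.1.1 p.1.2 ∉ S.SV p.1.1) := by
  classical
  have hL := hC.noLost
  have h : ∀ x : Y, ∃ c : R.Q, x ∈ {x : Y | x ∈ K.VT ∧ Finite ↥(stabilizer H x)} →
      c ∈ {c : R.Q | c ∈ K'.VT ∧ Finite ↥(stabilizer ↥(stabilizer H l0) c)} ∧
      ∃ (p : S.V1) (g : H), p.1.1 = x ∧ c = R.c (g • p) ∧
        (S.f p.1.1 p.1.2 = p.1.2 ∨ S.f p.1.1 p.1.2 ∉ S.SV p.1.1) := by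
    intro x
    by_cases hx : x ∈ {x : Y | x ∈ K.VT ∧ Finite ↥(stabilizer H x)}
    · obtain ⟨⟨y, z, hT⟩, hfin⟩ := hx
      have hxP : x ∈ K.P := K.E_P _ _ (K.T_E _ _ _ hT)
      obtain ⟨w, hw, hl⟩ := S.exists_last hxP (S.sink_of_finite hxP hfin)
      obtain ⟨y', z', hT2, hw2⟩ := S.last_centre hL hA hLk hxP hw hl
      obtain ⟨p, q, s, hp, hp1⟩ := S.exists_Tp27 hT2 hw2
      obtain ⟨g, hg, hg2⟩ := R.cen27 l0 hC K' hT' ht p q s hp
      have hl' : S.f p.1.1 p.1.2 = p.1.2 ∨ S.f p.1.1 p.1.2 ∉ S.SV p.1.1 := by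
        rw [hp1]
        exact hl
      refine ⟨R.c (g • p), fun _ => ⟨⟨hg2, ?_⟩, p, g, by rw [hp1], rfl, hl'⟩⟩
      apply R.fin27 hsing l0 p g hl'
      rw [hp1]
      exact hfin
    · obtain ⟨c, hc⟩ := K'.ne
      exact ⟨c, fun h => absurd h hx⟩
  choose F hF using h
  exact ⟨F, hF⟩

variable {S} in
/-- the map is injective on orbits -/
private theorem IRel.inj27 (R : IRel S)
    (hsing : ∀ p q : S.V1, (S.f p.1.1 p.1.2 = p.1.2 ∨ S.f p.1.1 p.1.2 ∉ S.SV p.1.1) →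
      R.c p = R.c q → p = q) (l0 : S.LV) {a b : Y} {ca cb : R.Q}
    (ha : ∃ (p : S.V1) (g : H), p.1.1 = a ∧ ca = R.c (g • p) ∧
        (S.f p.1.1 p.1.2 = p.1.2 ∨ S.f p.1.1 p.1.2 ∉ S.SV p.1.1))
    (hb : ∃ (p : S.V1) (g : H), p.1.1 = b ∧ cb = R.c (g • p) ∧
        (S.f p.1.1 p.1.2 = p.1.2 ∨ S.f p.1.1 p.1.2 ∉ S.SV p.1.1))
    (h : ↥(stabilizer H l0)) (e : h • ca = cb) : ∃ g : H, g • a = b := by
  obtain ⟨p, g, hpa, hc, hl⟩ := ha
  obtain ⟨q, g', hqb, hc', hl'⟩ := hb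
  rw [hc, hc'] at e
  have e1 : R.c ((h.1 * g) • p) = R.c (g' • q) := by
    rw [← e, mul_smul, R.c_smul]
    rfl
  have e2 := R.sing27 hsing p q _ _ hl e1
  have e3 : (h.1 * g) • a = g' • b := by
    have := congrArg (fun r : S.V1 => r.1.1) e2
    rw [← hpa, ← hqb]
    exact this
  refine ⟨g'⁻¹ * (h.1 * g), ?_⟩
  rw [mul_smul, e3, inv_smul_smul]

variable {S} in
theorem IRel.vf_le (R : IRel S) (hA : K.AllTri) (hLk : K.LinkConn) (l0 : S.LV)
    (hC : S.Ctr l0)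
    (hsing : ∀ p q : S.V1, (S.f p.1.1 p.1.2 = p.1.2 ∨ S.f p.1.1 p.1.2 ∉ S.SV p.1.1) →
      R.c p = R.c q → p = q)
    (K' : KS ↥(stabilizer H l0) R.Q) (hT' : K'.T = R.T l0) (ht : K.t ≤ K'.t) :
    K.vf ≤ K'.vf := by
  obtain ⟨F, hF⟩ := R.map27 hA hLk l0 hC hsing K' hT' ht
  have hs' := IRel.finVT27 K'
  unfold KS.vf
  refine oc_le_of_inj (hs'.mono (fun _ h => h.1)) F (fun a ha => (hF a ha).1) ?_
  rintro a ha b hb ⟨h, e⟩
  exact R.inj27 hsing l0 (hF a ha).2 (hF b hb).2 h e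

variable {S} in
theorem IRel.vf_lt (R : IRel S) (hA : K.AllTri) (hLk : K.LinkConn) (l0 : S.LV)
    (hC : S.Ctr l0)
    (hsing : ∀ p q : S.V1, (S.f p.1.1 p.1.2 = p.1.2 ∨ S.f p.1.1 p.1.2 ∉ S.SV p.1.1) →
      R.c p = R.c q → p = q)
    (K' : KS ↥(stabilizer H l0) R.Q) (hT' : K'.T = R.T l0) (ht : K.t ≤ K'.t)
    (p0 : S.V1) (h1 : S.f p0.1.1 p0.1.2 ≠ p0.1.2) (h2 : S.f p0.1.1 p0.1.2 ∈ S.SV p0.1.1)
    (h4 : Finite ↥(stabilizer H (R.c p0)))
    (h5 : ∃ y z, K.T p0.1.1 y z ∧ p0.1.2 ∈ S.ST p0.1.1 y z) :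
    K.vf < K'.vf := by
  obtain ⟨F, hF⟩ := R.map27 hA hLk l0 hC hsing K' hT' ht
  have hs' := IRel.finVT27 K'
  obtain ⟨y, z, hT, hw⟩ := h5
  obtain ⟨p, q, s, hp, hp1⟩ := S.exists_Tp27 hT hw
  have hpp : p = p0 := Subtype.ext hp1
  subst hpp
  obtain ⟨g, hg, hg2⟩ := R.cen27 l0 hC K' hT' ht p q s hp
  have hfin : Finite ↥(stabilizer ↥(stabilizer H l0) (R.c (g • p))) := by
    have key : ∀ a : ↥(stabilizer ↥(stabilizer H l0) (R.c (g • p))),
        g⁻¹ * ((a : ↥(stabilizer H l0)) : H) * g ∈ stabilizer H (R.c p) := by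
      intro a
      have ha : (a : ↥(stabilizer H l0)) • R.c (g • p) = R.c (g • p) := a.2
      have ha' : ((a : ↥(stabilizer H l0)) : H) • g • R.c p = g • R.c p := by
        rw [← R.c_smul]
        exact ha
      change (g⁻¹ * ((a : ↥(stabilizer H l0)) : H) * g) • R.c p = R.c p
      rw [mul_assoc, mul_smul, mul_smul, ha', inv_smul_smul]
    refine Finite.of_injective
      (fun a => (⟨_, key a⟩ : ↥(stabilizer H (R.c p)))) ?_
    intro a b e
    have e1 : g⁻¹ * ((a : ↥(stabilizer H l0)) : H) * g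
        = g⁻¹ * ((b : ↥(stabilizer H l0)) : H) * g := congrArg Subtype.val e
    have e2 : ((a : ↥(stabilizer H l0)) : H) = ((b : ↥(stabilizer H l0)) : H) :=
      mul_left_cancel (mul_right_cancel e1)
    exact Subtype.ext (Subtype.ext e2)
  unfold KS.vf
  refine oc_lt_of_inj (b0 := R.c (g • p)) (hs'.mono (fun _ h => h.1)) F
    (fun a ha => (hF a ha).1) ?_ ⟨hg2, hfin⟩ ?_
  · rintro a ha b hb ⟨h, e⟩
    exact R.inj27 hsing l0 (hF a ha).2 (hF b hb).2 h e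
  · intro a ha h e
    obtain ⟨p', g', hpa, hc, hl⟩ := (hF a ha).2
    rw [hc] at e
    have e1 : R.c ((h.1 * g') • p') = R.c (g • p) := by
      rw [← e, mul_smul, R.c_smul (h.1)]
      rfl
    have e2 := R.sing27 hsing p' p _ _ hl e1
    have e3 : p = (g⁻¹ * (h.1 * g')) • p' := by
      rw [mul_smul, e2, inv_smul_smul]
    have e4 : p.1.1 = (g⁻¹ * (h.1 * g')) • p'.1.1 := congrArg (fun r : S.V1 => r.1.1) e3
    have e5 : p.1.2 = (g⁻¹ * (h.1 * g')) • p'.1.2 := congrArg (fun r : S.V1 => r.1.2) e3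
    rw [e4, e5, S.f_smul] at h1 h2
    rcases hl with hl | hl
    · exact h1 (by rw [hl])
    · apply hl
      have := S.SV_smul (g⁻¹ * (h.1 * g'))⁻¹ _ _ (K.P_smul _ _ p'.2.1) h2
      rwa [inv_smul_smul, inv_smul_smul] at this

/-- `hsing` for `XR`: a last point is not far -/
theorem Sys.xr_sing (p q : S.V1) (h : S.f p.1.1 p.1.2 = p.1.2 ∨ S.f p.1.1 p.1.2 ∉ S.SV p.1.1)
    (h' : S.XR.c p = S.XR.c q) : p = q := by
  have e2 : S.xr p q := Quotient.exact h'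
  rcases e2 with e2 | ⟨_, l', h1, _⟩
  · exact e2
  · exact absurd h1 (S.last_not_far27 h _)

/-- the last contradiction (`SAF.BEnd`): if all vertices have sinks the first quotient complex has
one more vertex orbit in triangles -/
theorem Sys.nv_lt (hA : K.AllTri) (hLk : K.LinkConn) (l0 : S.LV) (hC : S.Ctr l0)
    (hs : ∀ x ∈ K.P, ∃ w, S.f x w = w)
    (K' : KS ↥(stabilizer H l0) S.XR.Q) (hT' : K'.T = S.XR.T l0) (ht : K.t ≤ K'.t) :
    K.nv < K'.nv := by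
  classical
  have hL := hC.noLost
  have hs' := IRel.finVT27 K'
  have hlast : ∀ x : Y, ∃ c : S.XR.Q, x ∈ K.VT →
      c ∈ K'.VT ∧
      ∃ (p : S.V1) (g : H), p.1.1 = x ∧ c = S.XR.c (g • p) ∧
        (S.f p.1.1 p.1.2 = p.1.2 ∨ S.f p.1.1 p.1.2 ∉ S.SV p.1.1) := by
    intro x
    by_cases hx : x ∈ K.VT
    · obtain ⟨y, z, hT⟩ := hx
      have hxP : x ∈ K.P := K.E_P _ _ (K.T_E _ _ _ hT)
      obtain ⟨w, hw, hl⟩ := S.exists_last hxP (hs x hxP)
      obtain ⟨y', z', hT2, hw2⟩ := S.last_centre hL hA hLk hxP hw hl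
      obtain ⟨p, q, s, hp, hp1⟩ := S.exists_Tp27 hT2 hw2
      obtain ⟨g, hg, hg2⟩ := S.XR.cen27 l0 hC K' hT' ht p q s hp
      refine ⟨S.XR.c (g • p), fun _ => ⟨hg2, p, g, ?_, rfl, ?_⟩⟩
      · rw [hp1]
      · rw [hp1]
        exact hl
    · obtain ⟨c, hc⟩ := K'.ne
      exact ⟨c, fun h => absurd h hx⟩
  choose F hF using hlast
  -- a far vertex in a triangle
  obtain ⟨x0, hx0, a0, ha0, b0, hb0, hab0⟩ := S.exists_nontrivial
  obtain ⟨y0, z0, w0, hT0, hw0, hf0, hf0'⟩ := S.exists_far_centre hx0 ha0 hb0 hab0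
  obtain ⟨p0, q0, s0, hp0, hp01⟩ := S.exists_Tp27 hT0 hw0
  obtain ⟨g0, hg0, hg02⟩ := S.XR.cen27 l0 hC K' hT' ht p0 q0 s0 hp0
  have hfar : ∃ l', S.Far (S.cm p0) l' p0.1.1 := by
    apply S.Far_exists
    · rw [hp01]; exact hf0
    · rw [hp01]; exact hf0'
  unfold KS.nv
  refine oc_lt_of_inj hs' F (fun a ha => (hF a ha).1) ?_ hg02 ?_
  · rintro a ha b hb ⟨h, e⟩
    exact S.XR.inj27 S.xr_sing l0 (hF a ha).2 (hF b hb).2 h e
  · intro a ha h e
    obtain ⟨p, g, hpa, hc, hl⟩ := (hF a ha).2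
    rw [hc] at e
    have e1 : S.XR.c ((h.1 * g) • p) = S.XR.c (g0 • p0) := by
      rw [← e, mul_smul, S.XR.c_smul (h.1)]
      rfl
    have e2 := S.XR.sing27 S.xr_sing p p0 _ _ hl e1
    have e3 : p = ((h.1 * g)⁻¹ * g0) • p0 := by
      rw [mul_smul, ← e2, inv_smul_smul]
    obtain ⟨l', hfr⟩ := hfar
    have h2 := S.Far_smul ((h.1 * g)⁻¹ * g0) _ _ _ hfr
    have h3 : S.Far (S.cm p) (((h.1 * g)⁻¹ * g0) • l') p.1.1 := by
      rw [e3, S.cm_smul]
      exact h2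
    exact S.last_not_far27 hl _ h3

end

end Pool.Agent.SAG
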