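import Pool.Agent.SAG.A22
import Pool.Agent.SAF.ARips

/-!
# SAG, module BMin: existence of a critical complex

A `SAF.KS` is a `SAG.KS` (a cyclic group is `Zt`). `vf <= nv <= t` bounds `vf` and `nv`. Take `t`
least, then `vf` greatest, then `ef` least, then `nv` greatest, over all groups of the class
`Gd M`; subgroups of `H` are again in the class (`Gd.sub`); apply `block_lemma`.
-/

namespace Pool.Agent.SAG

open MulAction
open Pool.Agent.SAF

theorem Zt.of_cyclic {G : Type} [Group G] (h : IsCyclic G) : Zt G := by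
  by_cases hf : Finite G
  · exact ⟨1, inferInstance⟩
  · have hi : Infinite G := not_finite_iff_infinite.1 hf
    have hi2 : Infinite (Multiplicative ℤ) := inferInstance
    have e : G ≃* Multiplicative ℤ := mulEquivOfCyclicCardEq (by
      rw [Nat.card_eq_zero_of_infinite, Nat.card_eq_zero_of_infinite])
    refine ⟨e.toMonoidHom, ?_⟩
    have : e.toMonoidHom.ker = ⊥ := (MonoidHom.ker_eq_bot_iff _).2 e.injective
    rw [this]
    infer_instance

/-- a torsion-free complex is a complex -/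
def KS.ofSAF {H : Type} [Group H] {Y : Type} [MulAction H Y] (K : SAF.KS H Y) : KS H Y where
  P := K.P
  E := K.E
  T := K.T
  E_symm := K.E_symm
  E_irr := K.E_irr
  E_P := K.E_P
  T_swap := K.T_swap
  T_rot := K.T_rot
  T_E := K.T_E
  P_smul := K.P_smul
  E_smul := K.E_smul
  T_smul := K.T_smul
  ne := K.ne
  conn := K.conn
  H1 := K.H1
  finP := K.finP
  finE := K.finE
  finT := K.finT
  zt := fun x hx => Zt.of_cyclic (K.cyc x hx)

theorem exists_KS (G : Type) [Group G] [Group.IsFinitelyPresented G] :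
    ∃ (Y : Type) (_ : MulAction G Y), Nonempty (KS G Y) := by
  obtain ⟨Y, i, ⟨K⟩⟩ := SAF.exists_KS G
  exact ⟨Y, i, ⟨KS.ofSAF K⟩⟩

theorem KS.nv_le_t {H : Type} [Group H] {Y : Type} [MulAction H Y] (K : KS H Y) :
    K.nv ≤ K.t := by
  unfold KS.nv KS.t
  refine oc_le_of_surj K.finT (fun p => p.1) ?_ ?_
  · rintro x ⟨y, z, h⟩
    exact ⟨(x, y, z), h, 1, one_smul _ _⟩
  · rintro a _ b _ ⟨h, e⟩
    exact ⟨h, congrArg Prod.fst e⟩

theorem KS.vf_le_t {H : Type} [Group H] {Y : Type} [MulAction H Y] (K : KS H Y) :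
    K.vf ≤ K.t := by
  unfold KS.vf KS.t
  refine oc_le_of_surj K.finT (fun p => p.1) ?_ ?_
  · rintro x ⟨⟨y, z, h⟩, -⟩
    exact ⟨(x, y, z), h, 1, one_smul _ _⟩
  · rintro a _ b _ ⟨h, e⟩
    exact ⟨h, congrArg Prod.fst e⟩

theorem exists_crit (M : ℕ) (G : Type) [Group G] [Group.IsFinitelyPresented G] (hG : Gd M G)
    (hb : ¬ SA G) : ∃ (H : Type) (_ : Group H) (Y : Type) (_ : MulAction H Y) (K : KS H Y),
    Crit M K := by
  classical
  obtain ⟨Y0, i0, ⟨K0⟩⟩ := exists_KS G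
  -- minimal number of triangles
  have h1 : ∃ t : ℕ, ∃ (H : Type) (_ : Group H) (Y : Type) (_ : MulAction H Y) (K : KS H Y),
      Gd M H ∧ ¬ SA H ∧ K.t = t := ⟨K0.t, G, inferInstance, Y0, i0, K0, hG, hb, rfl⟩
  obtain ⟨H1, iH1, Y1, iY1, K1, hT1, hb1, ht1⟩ := Nat.find_spec h1
  have m1 : MinT M (Nat.find h1) := by
    intro H _ Y _ K hTH hbH
    exact Nat.find_min' h1 ⟨H, inferInstance, Y, inferInstance, K, hTH, hbH, rfl⟩
  generalize Nat.find h1 = t at ht1 m1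
  clear h1
  -- maximal number of vertices with finite stabiliser
  have h2 : ∃ v : ℕ, ∃ (H : Type) (_ : Group H) (Y : Type) (_ : MulAction H Y) (K : KS H Y),
      Gd M H ∧ ¬ SA H ∧ K.t = t ∧ K.t - K.vf = v :=
    ⟨_, H1, iH1, Y1, iY1, K1, hT1, hb1, ht1, rfl⟩
  obtain ⟨H2, iH2, Y2, iY2, K2, hT2, hb2, ht2, he2⟩ := Nat.find_spec h2
  have m2 : MinV M t K2.vf := by
    refine ⟨m1, ?_⟩
    intro H _ Y _ K hTH hbH htH
    have h4 := Nat.find_min' h2 ⟨H, inferInstance, Y, inferInstance, K, hTH, hbH, htH, rfl⟩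
    have h5 := K.vf_le_t
    have h6 := K2.vf_le_t
    omega
  clear he2 h2
  -- minimal mass of the edges
  have h3 : ∃ e : ℕ, ∃ (H : Type) (_ : Group H) (Y : Type) (_ : MulAction H Y) (K : KS H Y),
      Gd M H ∧ ¬ SA H ∧ K.t = t ∧ K.vf = K2.vf ∧ K.ef M = e :=
    ⟨_, H2, iH2, Y2, iY2, K2, hT2, hb2, ht2, rfl, rfl⟩
  obtain ⟨H3, iH3, Y3, iY3, K3, hT3, hb3, ht3, hv3, he3⟩ := Nat.find_spec h3
  have m3 : MinE M t K2.vf (Nat.find h3) := by
    refine ⟨m2, ?_⟩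
    intro H _ Y _ K hTH hbH htH hvH
    exact Nat.find_min' h3 ⟨H, inferInstance, Y, inferInstance, K, hTH, hbH, htH, hvH, rfl⟩
  generalize Nat.find h3 = e at he3 m3
  clear h3
  generalize K2.vf = v at hv3 m2 m3
  -- maximal number of vertices
  have h4 : ∃ n : ℕ, ∃ (H : Type) (_ : Group H) (Y : Type) (_ : MulAction H Y) (K : KS H Y),
      Gd M H ∧ ¬ SA H ∧ K.t = t ∧ K.vf = v ∧ K.ef M = e ∧ K.t - K.nv = n :=
    ⟨_, H3, iH3, Y3, iY3, K3, hT3, hb3, ht3, hv3, he3, rfl⟩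
  obtain ⟨H4, iH4, Y4, iY4, K4, hT4, hb4, ht4, hv4, he4, hn4⟩ := Nat.find_spec h4
  have m4 : MinN M t v e K4.nv := by
    refine ⟨m3, ?_⟩
    intro H _ Y _ K hTH hbH htH hvH heH
    have h5 := Nat.find_min' h4
      ⟨H, inferInstance, Y, inferInstance, K, hTH, hbH, htH, hvH, heH, rfl⟩
    have h6 := K.nv_le_t
    have h7 := K4.nv_le_t
    omega
  -- the block lemma
  obtain ⟨S, K', hbS, hA, hL, htri, htS, hS⟩ := block_lemma K4 hT4 hb4
  have hTS : Gd M S := hT4.sub S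
  have q1 : K'.t = t := le_antisymm (by rw [← ht4]; exact htS) (m1 _ _ K' hTS hbS)
  obtain ⟨hvS, heS, hnS⟩ := hS (q1.trans ht4.symm)
  have q2 : K'.vf = v := le_antisymm (m2.2 _ _ K' hTS hbS q1) (by rw [← hv4]; exact hvS)
  have q3 : K'.ef M = e :=
    le_antisymm (by rw [← he4]; exact heS) (m3.2 _ _ K' hTS hbS q1 q2)
  have q4 : K'.nv = K4.nv := le_antisymm (m4.2 _ _ K' hTS hbS q1 q2 q3) hnS
  refine ⟨S, inferInstance, Y4, inferInstance, K', hTS, hbS, hA, hL, htri, ?_⟩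
  rw [q1, q2, q3, q4]
  exact m4

end Pool.Agent.SAG
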