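import Pool.Agent.SAG.BInc

/-!
# SAG, module BMono: the increments are nonnegative and monotone

Group theory and arithmetic. Notation: `E` the stabiliser of the ordered edge `u v`, `A`, `B` the
stabilisers of the components, `C` the stabiliser of the new component; `a, b, c, e` the orders,
`wA = M! / a` etc. (zero if infinite). For subgroups `A2 < A` (proper) `2 * wA <= wA2`.
`wd = 2 wE`, or `wE` if some `h` exchanges `u` and `v` (inversion).
Nonnegative: eqv clear; diff: if `A = E` then `C` is generated by `B`, `C = B`, the increment is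
zero, same for `B = E`; otherwise `wA + wB <= wE`. same, no inversion: `wA <= wE`. same, inversion
by `h`: `h * h` is in `E` and `h` normalises `E`; if `A` is not `E`, `2 wA <= wE`; if `A = E`, `C` is
generated by `E` and `h`, of order `2 e`, and `2 wC = wE` because `2 e` divides `M!` (`Gd.bt`).
Monotone (`A2 <= A`, `B2 <= B`, `C2 <= C`, same `E`, same kind of inversion): the function
`wA + wB - wC` is monotone decreasing: if `A2 = A` and `B2 = B` then `C2 = C`; if `A2 = A` and
`B2 < B`: if `C2 = B2` then `A <= B2`, `C = B`; otherwise `wC2 + wB <= wB2`; if both are proper: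
`2 wA <= wA2`, `2 wB <= wB2`, `wC2 <= wA2, wB2`. Same for `wA - wC` in the case same
(`k` is not in `A2`, so `C2` is bigger than `A2`, `2 wC2 <= wA2`; if `A2 = A` then `C2 = C`). Mixed
cases: diff below, same above: `wA2 + wB2 - wC2 >= wA2 >= wA - wC`; anything below, eqv above:
clear.
-/

namespace Pool.Agent.SAG

open MulAction
open Pool.Agent.SAF (InC orbs FinOrb oc Decomp SAn SA Ori Conv hull Zs LostF)

section

variable {H : Type} [Group H] {Z : Type} [MulAction H Z] {Z2 : Type} [MulAction H Z2]

/-- the weight of a subgroup -/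
private noncomputable def bw (M : ℕ) (A : Subgroup H) : ℕ := M.factorial / Nat.card ↥A

private theorem bw_le (M : ℕ) {A B : Subgroup H} (h : A ≤ B) : bw M B ≤ bw M A := by
  unfold bw
  by_cases hf : Finite ↥B
  · have hfa : Finite ↥A := Finite.of_injective _ (Subgroup.inclusion_injective h)
    exact Nat.div_le_div_left
      (Nat.card_le_card_of_injective _ (Subgroup.inclusion_injective h)) Nat.card_pos
  · have : Nat.card ↥B = 0 := by
      rw [Nat.card_eq_zero]
      exact Or.inr (not_finite_iff_infinite.1 hf)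
    rw [this, Nat.div_zero]
    exact Nat.zero_le _

private theorem bw_lt (M : ℕ) {A B : Subgroup H} (h : A ≤ B) (hne : A ≠ B) :
    2 * bw M B ≤ bw M A := by
  unfold bw
  by_cases hf : Finite ↥B
  · have hfa : Finite ↥A := Finite.of_injective _ (Subgroup.inclusion_injective h)
    obtain ⟨t, ht⟩ := Subgroup.card_dvd_of_le h
    have hB : 0 < Nat.card ↥B := Nat.card_pos
    have ht2 : 2 ≤ t := by
      rcases t with _ | _ | t
      · rw [Nat.mul_zero] at ht
        omega
      · exfalso
        apply hne
        rw [Nat.zero_add, Nat.mul_one] at ht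
        exact Subgroup.eq_of_le_of_card_ge h (le_of_eq ht)
      · omega
    rw [ht, ← Nat.div_div_eq_div_mul]
    calc 2 * (M.factorial / Nat.card ↥A / t) ≤ t * (M.factorial / Nat.card ↥A / t) :=
          Nat.mul_le_mul_right _ ht2
      _ ≤ M.factorial / Nat.card ↥A := Nat.mul_div_le _ _
  · have : Nat.card ↥B = 0 := by
      rw [Nat.card_eq_zero]
      exact Or.inr (not_finite_iff_infinite.1 hf)
    rw [this, Nat.div_zero]
    exact Nat.zero_le _

private theorem bw_wc (M : ℕ) {F : Z → Z → Prop} {z : Z} {A : Subgroup H}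
    (hA : (A : Set H) = SC H F z) : wc H M F z = bw M A := by
  unfold wc
  rw [← hA]
  rfl

/-- the stabiliser of the ordered pair -/
private theorem bm_st {u v : Z} {h : H} : h ∈ stabilizer H (u, v) ↔ h • u = u ∧ h • v = v := by
  rw [mem_stabilizer_iff]
  constructor
  · intro e
    exact ⟨congrArg Prod.fst e, congrArg Prod.snd e⟩
  · rintro ⟨e1, e2⟩
    exact Prod.ext e1 e2

private theorem bm_wt_swap (M : ℕ) (u v : Z) : wt H M (v, u) = wt H M (u, v) := by
  apply le_antisymm
  · apply wt_le
    intro g e
    exact Prod.ext (congrArg Prod.snd e) (congrArg Prod.fst e)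
  · apply wt_le
    intro g e
    exact Prod.ext (congrArg Prod.snd e) (congrArg Prod.fst e)

private theorem bm_wd1 (M : ℕ) {u v : Z} (h : ∃ h : H, h • u = v ∧ h • v = u) :
    wd H M u v = bw M (stabilizer H (u, v)) := by
  obtain ⟨h, h1, h2⟩ := h
  unfold wd
  rw [ms_orbit (u, v)]
  · rfl
  · left
    exact ⟨1, one_smul _ _, one_smul _ _⟩
  · rintro ⟨a, b⟩ (⟨k, e1, e2⟩ | ⟨k, e1, e2⟩)
    · exact ⟨k, Prod.ext e1 e2⟩
    · refine ⟨k * h, Prod.ext ?_ ?_⟩
      · show (k * h) • u = a
        rw [mul_smul, h1]
        exact e1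
      · show (k * h) • v = b
        rw [mul_smul, h2]
        exact e2

private theorem bm_finOrb (u v : Z) :
    FinOrb H {p : Z × Z | ∃ h : H, h • u = p.1 ∧ h • v = p.2} := by
  have h1 : ({(Quotient.mk'' (u, v) : orbitRel.Quotient H (Z × Z))} :
      Set (orbitRel.Quotient H (Z × Z))).Finite := Set.finite_singleton _
  refine h1.subset ?_
  rintro _ ⟨⟨a, b⟩, ⟨h, e1, e2⟩, rfl⟩
  exact Quotient.sound' ⟨h, Prod.ext e1 e2⟩

private theorem bm_wd2 (M : ℕ) {u v : Z} (h : ¬ ∃ h : H, h • u = v ∧ h • v = u) :
    wd H M u v = 2 * bw M (stabilizer H (u, v)) := by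
  have e : {p : Z × Z | (∃ h : H, h • u = p.1 ∧ h • v = p.2) ∨
      (∃ h : H, h • v = p.1 ∧ h • u = p.2)} =
      {p : Z × Z | ∃ h : H, h • u = p.1 ∧ h • v = p.2} ∪
      {p : Z × Z | ∃ h : H, h • v = p.1 ∧ h • u = p.2} := rfl
  unfold wd
  rw [e, ms_union (bm_finOrb u v) (bm_finOrb v u), ms_orbit (u, v), ms_orbit (v, u),
    bm_wt_swap M u v]
  · rw [two_mul]
    rfl
  · exact ⟨1, one_smul _ _, one_smul _ _⟩
  · rintro ⟨a, b⟩ ⟨k, e1, e2⟩
    exact ⟨k, Prod.ext e1 e2⟩
  · exact ⟨1, one_smul _ _, one_smul _ _⟩
  · rintro ⟨a, b⟩ ⟨k, e1, e2⟩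
    exact ⟨k, Prod.ext e1 e2⟩
  · rintro ⟨a, b⟩ ⟨k, e1, e2⟩ l ⟨m, e3, e4⟩
    apply h
    have e1' : k • u = a := e1
    have e2' : k • v = b := e2
    have e3' : m • v = l • a := e3
    have e4' : m • u = l • b := e4
    refine ⟨m⁻¹ * (l * k), ?_, ?_⟩
    · rw [mul_smul, mul_smul, e1', ← e3', inv_smul_smul]
    · rw [mul_smul, mul_smul, e2', ← e4', inv_smul_smul]

private theorem bm_smul {F : Z → Z → Prop} (inv : ∀ (h : H) (a b : Z), F a b → F (h • a) (h • b))
    (g : H) {a b : Z} (h : Relation.EqvGen F a b) : Relation.EqvGen F (g • a) (g • b) := by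
  induction h with
  | rel x y hxy => exact Relation.EqvGen.rel _ _ (inv g _ _ hxy)
  | refl x => exact Relation.EqvGen.refl _
  | symm x y _ ih => exact Relation.EqvGen.symm _ _ ih
  | trans x y z _ _ ih1 ih2 => exact Relation.EqvGen.trans _ _ _ ih1 ih2

private theorem bm_stA {F : Z → Z → Prop} {u v : Z} {A : Subgroup H}
    (hA : (A : Set H) = SC H F u) : stabilizer H (u, v) ≤ A := by
  intro h hh
  have h1 : h ∈ SC H F u := by
    show Relation.EqvGen F (h • u) u
    rw [(bm_st.1 hh).1]
    exact Relation.EqvGen.refl _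
  rw [← hA] at h1
  exact h1

private theorem bm_stB {F : Z → Z → Prop} {u v : Z} {B : Subgroup H}
    (hB : (B : Set H) = SC H F v) : stabilizer H (u, v) ≤ B := by
  intro h hh
  have h1 : h ∈ SC H F v := by
    show Relation.EqvGen F (h • v) v
    rw [(bm_st.1 hh).2]
    exact Relation.EqvGen.refl _
  rw [← hB] at h1
  exact h1

/-- the group generated by the stabiliser of an edge and an inversion of this edge -/
private theorem bm_inv_card {M : ℕ} (hG : Gd M H) {u v : Z} (huv : u ≠ v) {h : H}
    (h1 : h • u = v) (h2 : h • v = u) {C : Subgroup H}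
    (hC : C = Subgroup.closure ((stabilizer H (u, v) : Set H) ∪ {h})) :
    bw M (stabilizer H (u, v)) ≤ 2 * bw M C := by
  classical
  obtain ⟨E, hE⟩ : ∃ E, E = stabilizer H (u, v) := ⟨_, rfl⟩
  rw [← hE] at hC ⊢
  have hEC : E ≤ C := by
    rw [hC]
    exact fun x hx => Subgroup.subset_closure (Or.inl hx)
  have hhC : h ∈ C := by
    rw [hC]
    exact Subgroup.subset_closure (Or.inr rfl)
  have hhE : h ∉ E := by
    intro hh
    rw [hE] at hh
    apply huv
    rw [← h1, (bm_st.1 hh).1]
  have hu' : h⁻¹ • v = u := by rw [← h1, inv_smul_smul]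
  have hv' : h⁻¹ • u = v := by rw [← h2, inv_smul_smul]
  have key : ∀ x ∈ C, x ∈ E ∨ h⁻¹ * x ∈ E := by
    have key' : ∀ x ∈ C, (x • u = u ∧ x • v = v) ∨ (x • u = v ∧ x • v = u) := by
      intro x hx
      rw [hC] at hx
      induction hx using Subgroup.closure_induction with
      | mem x hx =>
        rcases hx with hx | rfl
        · left
          rw [hE] at hx
          exact bm_st.1 hx
        · right
          exact ⟨h1, h2⟩
      | one =>
        left
        exact ⟨one_smul _ _, one_smul _ _⟩
      | mul x y _ _ ih1 ih2 =>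
        rcases ih2 with ⟨a, b⟩ | ⟨a, b⟩
        · rcases ih1 with ⟨c, d⟩ | ⟨c, d⟩
          · left
            rw [mul_smul, mul_smul, a, b]
            exact ⟨c, d⟩
          · right
            rw [mul_smul, mul_smul, a, b]
            exact ⟨c, d⟩
        · rcases ih1 with ⟨c, d⟩ | ⟨c, d⟩
          · right
            rw [mul_smul, mul_smul, a, b]
            exact ⟨d, c⟩
          · left
            rw [mul_smul, mul_smul, a, b]
            exact ⟨d, c⟩
      | inv x _ ih =>
        rcases ih with ⟨a, b⟩ | ⟨a, b⟩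
        · left
          exact ⟨by rw [inv_smul_eq_iff, a], by rw [inv_smul_eq_iff, b]⟩
        · right
          exact ⟨by rw [inv_smul_eq_iff, b], by rw [inv_smul_eq_iff, a]⟩
    intro x hx
    rcases key' x hx with e | ⟨a, b⟩
    · left
      rw [hE]
      exact bm_st.2 e
    · right
      rw [hE]
      apply bm_st.2
      rw [mul_smul, mul_smul, a, b]
      exact ⟨hu', hv'⟩
  by_cases hf : Finite ↥E
  · -- an injection of `C` into `E x Bool`
    obtain ⟨f, hf'⟩ : ∃ f : ↥C → ↥E × Bool, Function.Injective f := by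
      refine ⟨fun x => if hx : x.1 ∈ E then (⟨x.1, hx⟩, false)
        else (⟨h⁻¹ * x.1, (key x.1 x.2).resolve_left hx⟩, true), ?_⟩
      intro x y e
      dsimp only at e
      by_cases hx : x.1 ∈ E
      · by_cases hy : y.1 ∈ E
        · rw [dif_pos hx, dif_pos hy] at e
          have := congrArg (fun p => p.1.1) e
          exact Subtype.ext this
        · rw [dif_pos hx, dif_neg hy] at e
          have h9 : false = true := congrArg Prod.snd e
          exact absurd h9 (by decide)
      · by_cases hy : y.1 ∈ E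
        · rw [dif_neg hx, dif_pos hy] at e
          have h9 : true = false := congrArg Prod.snd e
          exact absurd h9 (by decide)
        · rw [dif_neg hx, dif_neg hy] at e
          have := congrArg (fun p => p.1.1) e
          exact Subtype.ext (mul_left_cancel this)
    have hfC : Finite ↥C := Finite.of_injective f hf'
    have hle : Nat.card ↥C ≤ Nat.card ↥E * 2 := by
      have := Nat.card_le_card_of_injective f hf'
      rw [Nat.card_prod, Nat.card_eq_fintype_card (α := Bool), Fintype.card_bool] at this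
      exact this
    obtain ⟨t, ht⟩ := Subgroup.card_dvd_of_le hEC
    have hEp : 0 < Nat.card ↥E := Nat.card_pos
    have hCp : 0 < Nat.card ↥C := Nat.card_pos
    have ht2 : t = 2 := by
      have h3 : t ≤ 2 := by
        rw [ht] at hle
        exact Nat.le_of_mul_le_mul_left hle hEp
      have h4 : t ≠ 0 := by
        rintro rfl
        rw [Nat.mul_zero] at ht
        omega
      have h5 : t ≠ 1 := by
        rintro rfl
        rw [Nat.mul_one] at ht
        apply hhE
        rw [Subgroup.eq_of_le_of_card_ge hEC (le_of_eq ht)]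
        exact hhC
      omega
    subst ht2
    have hd : Nat.card ↥C ∣ M.factorial := Nat.dvd_factorial hCp (hG.bt C hfC)
    obtain ⟨s, hs⟩ := hd
    unfold bw
    rw [hs, Nat.mul_div_cancel_left _ hCp, ht, Nat.mul_assoc, Nat.mul_div_cancel_left _ hEp]
  · have : Nat.card ↥E = 0 := by
      rw [Nat.card_eq_zero]
      exact Or.inr (not_finite_iff_infinite.1 hf)
    unfold bw
    rw [this, Nat.div_zero]
    exact Nat.zero_le _

theorem N2_addE_nonneg {M : ℕ} (hG : Gd M H) {W : Set Z} {F : Z → Z → Prop} (g : Gr H W F)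
    {u v : Z} (hu : u ∈ W) (hv : v ∈ W) (huv : u ≠ v) (hF : ¬ F u v) :
    N2 H M W F ≤ N2 H M W (addE H F u v) := by
  obtain ⟨A, hA⟩ := SC_subgroup g.inv u
  obtain ⟨B, hB⟩ := SC_subgroup g.inv v
  by_cases he : Relation.EqvGen F u v
  · rw [N2_addE_eqv M g hu hv huv hF he]
    have : (0 : ℤ) ≤ (wd H M u v : ℤ) := Int.natCast_nonneg _
    linarith
  · by_cases hk : ∃ k : H, Relation.EqvGen F (k • u) v
    · by_cases hi : ∃ h : H, h • u = v ∧ h • v = u
      · obtain ⟨h, h1, h2⟩ := hi
        have hk : Relation.EqvGen F (h • u) v := by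
          rw [h1]
          exact Relation.EqvGen.refl _
        have hC := SC_addE_same g hk
        rw [N2_addE_same M g hu hv huv hF he hk, bw_wc M hA, bw_wc M hC.symm,
          bm_wd1 M ⟨h, h1, h2⟩]
        have key : 2 * bw M A ≤ bw M (stabilizer H (u, v)) +
            2 * bw M (Subgroup.closure (SC H F u ∪ {h})) := by
          by_cases hAE : stabilizer H (u, v) = A
          · have h3 := bm_inv_card (M := M) hG huv h1 h2
              (C := Subgroup.closure (SC H F u ∪ {h})) (by rw [← hA, hAE])
            rw [← hAE]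
            omega
          · have h3 := bw_lt M (bm_stA (v := v) hA) hAE
            omega
        omega
      · obtain ⟨k, hk⟩ := hk
        rw [N2_addE_same M g hu hv huv hF he hk, bw_wc M hA, bm_wd2 M hi]
        have h3 := bw_le M (bm_stA (v := v) hA)
        omega
    · have hd : ∀ k : H, ¬ Relation.EqvGen F (k • u) v := fun k e => hk ⟨k, e⟩
      have hi : ¬ ∃ h : H, h • u = v ∧ h • v = u := by
        rintro ⟨h, h1, -⟩
        apply hd h
        rw [h1]
        exact Relation.EqvGen.refl _
      have hC := SC_addE_diff g hd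
      rw [N2_addE_diff M g hu hv huv hF hd, bw_wc M hA, bw_wc M hB, bw_wc M hC.symm,
        bm_wd2 M hi]
      have key : bw M A + bw M B ≤ bw M (stabilizer H (u, v)) +
          bw M (Subgroup.closure (SC H F u ∪ SC H F v)) := by
        rw [← hA, ← hB]
        by_cases hAE : stabilizer H (u, v) = A
        · have h4 : A ≤ B := by
            rw [← hAE]
            exact bm_stB hB
          have h5 : Subgroup.closure ((A : Set H) ∪ (B : Set H)) = B := by
            rw [Set.union_eq_self_of_subset_left (show (A : Set H) ⊆ B from h4),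
              Subgroup.closure_eq]
          rw [h5, ← hAE]
        · by_cases hBE : stabilizer H (u, v) = B
          · have h4 : B ≤ A := by
              rw [← hBE]
              exact bm_stA hA
            have h5 : Subgroup.closure ((A : Set H) ∪ (B : Set H)) = A := by
              rw [Set.union_eq_self_of_subset_right (show (B : Set H) ⊆ A from h4),
                Subgroup.closure_eq]
            rw [h5, ← hBE]
            omega
          · have h6 := bw_lt M (bm_stA (v := v) hA) hAE
            have h7 := bw_lt M (bm_stB (u := u) hB) hBE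
            omega
      omega

/-- arithmetic of two generated subgroups -/
private theorem bm_join (M : ℕ) {A A2 B B2 : Subgroup H} (hA : A2 ≤ A) (hB : B2 ≤ B) :
    bw M A + bw M B + bw M (Subgroup.closure ((A2 : Set H) ∪ (B2 : Set H))) ≤
      bw M A2 + bw M B2 + bw M (Subgroup.closure ((A : Set H) ∪ (B : Set H))) := by
  have hAC : A2 ≤ Subgroup.closure ((A2 : Set H) ∪ (B2 : Set H)) :=
    fun x hx => Subgroup.subset_closure (Or.inl hx)
  have hBC : B2 ≤ Subgroup.closure ((A2 : Set H) ∪ (B2 : Set H)) :=
    fun x hx => Subgroup.subset_closure (Or.inr hx)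
  have h1 := bw_le M hAC
  have h2 := bw_le M hBC
  by_cases eA : A2 = A
  · by_cases eB : B2 = B
    · subst eA
      subst eB
      exact le_refl _
    · have h3 := bw_lt M hB eB
      by_cases eC : B2 = Subgroup.closure ((A2 : Set H) ∪ (B2 : Set H))
      · have h4 : A ≤ B := by
          rw [← eA]
          refine le_trans hAC ?_
          rw [← eC]
          exact hB
        have h5 : Subgroup.closure ((A : Set H) ∪ (B : Set H)) = B := by
          rw [Set.union_eq_self_of_subset_left (show (A : Set H) ⊆ B from h4),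
            Subgroup.closure_eq]
        rw [h5, ← eC, eA]
        omega
      · have h4 := bw_lt M hBC eC
        rw [eA] at h4 ⊢
        omega
  · have h3 := bw_lt M hA eA
    by_cases eB : B2 = B
    · by_cases eC : A2 = Subgroup.closure ((A2 : Set H) ∪ (B2 : Set H))
      · have h4 : B ≤ A := by
          rw [← eB]
          refine le_trans hBC ?_
          rw [← eC]
          exact hA
        have h5 : Subgroup.closure ((A : Set H) ∪ (B : Set H)) = A := by
          rw [Set.union_eq_self_of_subset_right (show (B : Set H) ⊆ A from h4),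
            Subgroup.closure_eq]
        rw [h5, ← eC, eB]
        omega
      · have h4 := bw_lt M hAC eC
        rw [eB] at h4 ⊢
        omega
    · have h4 := bw_lt M hB eB
      omega

theorem N2_addE_mono {M : ℕ} (hG : Gd M H) (π : Z2 → Z)
    (hπ : ∀ (h : H) (z : Z2), π (h • z) = h • π z)
    {W : Set Z} {F : Z → Z → Prop} {W2 : Set Z2} {F2 : Z2 → Z2 → Prop}
    (g : Gr H W F) (g2 : Gr H W2 F2) (hF : ∀ a b, F2 a b → F (π a) (π b))
    {u v : Z2} (hu : u ∈ W2) (hv : v ∈ W2) (hu' : π u ∈ W) (hv' : π v ∈ W) (huv : π u ≠ π v)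
    (hnF : ¬ F (π u) (π v))
    (hst : ∀ h : H, h • π u = π u → h • π v = π v → h • u = u ∧ h • v = v)
    (hsw : ∀ h : H, h • π u = π v → h • π v = π u → h • u = v ∧ h • v = u) :
    N2 H M W2 (addE H F2 u v) - N2 H M W2 F2 ≤
      N2 H M W (addE H F (π u) (π v)) - N2 H M W F := by
  have huv2 : u ≠ v := fun e => huv (congrArg π e)
  have hnF2 : ¬ F2 u v := fun e => hnF (hF _ _ e)
  have hmap : ∀ {a b : Z2}, Relation.EqvGen F2 a b → Relation.EqvGen F (π a) (π b) := by
    intro a b h
    induction h with
    | rel x y hxy => exact Relation.EqvGen.rel _ _ (hF _ _ hxy)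
    | refl x => exact Relation.EqvGen.refl _
    | symm x y _ ih => exact Relation.EqvGen.symm _ _ ih
    | trans x y z _ _ ih1 ih2 => exact Relation.EqvGen.trans _ _ _ ih1 ih2
  obtain ⟨A, hA⟩ := SC_subgroup g.inv (π u)
  obtain ⟨B, hB⟩ := SC_subgroup g.inv (π v)
  obtain ⟨A2, hA2⟩ := SC_subgroup g2.inv u
  obtain ⟨B2, hB2⟩ := SC_subgroup g2.inv v
  have hle : ∀ {z : Z2} {D : Subgroup H} {D2 : Subgroup H}, (D : Set H) = SC H F (π z) →
      (D2 : Set H) = SC H F2 z → D2 ≤ D := by
    intro z D D2 e1 e2 x hx
    have h1 : x ∈ SC H F2 z := by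
      rw [← e2]
      exact hx
    have h2 : Relation.EqvGen F (π (x • z)) (π z) := hmap h1
    rw [hπ] at h2
    have h3 : x ∈ SC H F (π z) := h2
    rw [← e1] at h3
    exact h3
  have hAA := hle hA hA2
  have hBB := hle hB hB2
  have hwd : wd H M u v = wd H M (π u) (π v) := by
    have hE : stabilizer H (u, v) = stabilizer H (π u, π v) := by
      ext x
      rw [bm_st, bm_st]
      constructor
      · rintro ⟨e1, e2⟩
        rw [← hπ, ← hπ, e1, e2]
        exact ⟨rfl, rfl⟩
      · rintro ⟨e1, e2⟩
        exact hst x e1 e2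
    by_cases hi : ∃ h : H, h • u = v ∧ h • v = u
    · have hi' : ∃ h : H, h • π u = π v ∧ h • π v = π u := by
        obtain ⟨h, e1, e2⟩ := hi
        refine ⟨h, ?_, ?_⟩
        · rw [← hπ, e1]
        · rw [← hπ, e2]
      rw [bm_wd1 M hi, bm_wd1 M hi', hE]
    · have hi' : ¬ ∃ h : H, h • π u = π v ∧ h • π v = π u := by
        rintro ⟨h, e1, e2⟩
        exact hi ⟨h, hsw h e1 e2⟩
      rw [bm_wd2 M hi, bm_wd2 M hi', hE]
  have hwA := bw_le M hAA
  by_cases he : Relation.EqvGen F (π u) (π v)
  · rw [N2_addE_eqv M g hu' hv' huv hnF he]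
    by_cases he2 : Relation.EqvGen F2 u v
    · rw [N2_addE_eqv M g2 hu hv huv2 hnF2 he2, hwd]
      linarith
    · by_cases hk : ∃ k : H, Relation.EqvGen F2 (k • u) v
      · obtain ⟨k, hk⟩ := hk
        have hC := SC_addE_same g2 hk
        rw [N2_addE_same M g2 hu hv huv2 hnF2 he2 hk, bw_wc M hA2, bw_wc M hC.symm, hwd]
        have h1 : bw M (Subgroup.closure (SC H F2 u ∪ {k})) ≤ bw M A2 := by
          apply bw_le
          rw [← hA2]
          exact fun x hx => Subgroup.subset_closure (Or.inl hx)
        omega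
      · have hd : ∀ k : H, ¬ Relation.EqvGen F2 (k • u) v := fun k e => hk ⟨k, e⟩
        have hC := SC_addE_diff g2 hd
        rw [N2_addE_diff M g2 hu hv huv2 hnF2 hd, bw_wc M hA2, bw_wc M hB2, bw_wc M hC.symm,
          hwd]
        have h1 : bw M (Subgroup.closure (SC H F2 u ∪ SC H F2 v)) ≤ bw M A2 := by
          apply bw_le
          rw [← hA2]
          exact fun x hx => Subgroup.subset_closure (Or.inl hx)
        omega
  · have he2 : ¬ Relation.EqvGen F2 u v := fun e => he (hmap e)
    by_cases hk2 : ∃ k : H, Relation.EqvGen F2 (k • u) v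
    · obtain ⟨k, hk2⟩ := hk2
      have hk : Relation.EqvGen F (k • π u) (π v) := by
        rw [← hπ]
        exact hmap hk2
      have hC := SC_addE_same g hk
      have hC2 := SC_addE_same g2 hk2
      rw [N2_addE_same M g hu' hv' huv hnF he hk, N2_addE_same M g2 hu hv huv2 hnF2 he2 hk2,
        bw_wc M hA, bw_wc M hC.symm, bw_wc M hA2, bw_wc M hC2.symm, hwd]
      have key : bw M A + bw M (Subgroup.closure (SC H F2 u ∪ {k})) ≤
          bw M A2 + bw M (Subgroup.closure (SC H F (π u) ∪ {k})) := by
        by_cases eA : A2 = A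
        · rw [← hA, ← hA2, eA]
        · have h1 := bw_lt M hAA eA
          have h2 : 2 * bw M (Subgroup.closure (SC H F2 u ∪ {k})) ≤ bw M A2 := by
            apply bw_lt
            · rw [← hA2]
              exact fun x hx => Subgroup.subset_closure (Or.inl hx)
            · intro e
              have hkA : k ∈ A2 := by
                rw [e]
                exact Subgroup.subset_closure (Or.inr rfl)
              have h3 : k ∈ SC H F2 u := by
                rw [← hA2]
                exact hkA
              have h4 : Relation.EqvGen F2 (k • u) u := h3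
              exact he2 (Relation.EqvGen.trans _ _ _ (Relation.EqvGen.symm _ _ h4) hk2)
          omega
      omega
    · have hd2 : ∀ k : H, ¬ Relation.EqvGen F2 (k • u) v := fun k e => hk2 ⟨k, e⟩
      have hC2 := SC_addE_diff g2 hd2
      by_cases hk : ∃ k : H, Relation.EqvGen F (k • π u) (π v)
      · obtain ⟨k, hk⟩ := hk
        rw [N2_addE_same M g hu' hv' huv hnF he hk, N2_addE_diff M g2 hu hv huv2 hnF2 hd2,
          bw_wc M hA, bw_wc M hA2, bw_wc M hB2, bw_wc M hC2.symm, hwd]
        have h1 : bw M (Subgroup.closure (SC H F2 u ∪ SC H F2 v)) ≤ bw M B2 := by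
          apply bw_le
          rw [← hB2]
          exact fun x hx => Subgroup.subset_closure (Or.inr hx)
        omega
      · have hd : ∀ k : H, ¬ Relation.EqvGen F (k • π u) (π v) := fun k e => hk ⟨k, e⟩
        have hC := SC_addE_diff g hd
        rw [N2_addE_diff M g hu' hv' huv hnF hd, N2_addE_diff M g2 hu hv huv2 hnF2 hd2,
          bw_wc M hA, bw_wc M hB, bw_wc M hC.symm, bw_wc M hA2, bw_wc M hB2, bw_wc M hC2.symm,
          hwd]
        have key := bm_join M hAA hBB
        rw [hA, hB, hA2, hB2] at key
        omega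

end

end Pool.Agent.SAG
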