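import Pool.Agent.SAG.BBasic
import Pool.Agent.SAF.AOrb

/-!
# SAG, module BTc: counting triangles of the quotient complexes
-/

namespace Pool.Agent.SAG

open MulAction
open Pool.Agent.SAF

section

variable {H : Type} [Group H] {Y : Type} [MulAction H Y] {K : KS H Y} {D : Decomp H}
  {S : Sys H Y K D}

/-- a triangle over which nothing is lost has only one centre -/
theorem Sys.centre_unique (hL : S.NoLost) {x y z : Y} (h : K.T x y z) {u v : D.X}
    (hu : u ∈ S.ST x y z) (hv : v ∈ S.ST x y z) : u = v := by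
  have hxy : K.E x y := K.T_E _ _ _ h
  have hyz : K.E y z := K.T_E _ _ _ (K.T_rot _ _ _ h)
  have hxz : K.E x z := K.E_symm _ _ (K.T_E _ _ _ (K.T_rot _ _ _ (K.T_rot _ _ _ h)))
  rcases S.ST_c x y z h with e | e | e | ⟨c, hc⟩
  · exact absurd e (hL _ _ hxy)
  · exact absurd e (hL _ _ hyz)
  · exact absurd e (hL _ _ hxz)
  · rw [hc] at hu hv
    exact hu.trans hv.symm

/-- two triangles of the blown up complex over one orbit of triangles of `K` are in one orbit -/
theorem Sys.Tp_transport (hL : S.NoLost) {l l' : S.LV} {p q s p' q' s' : S.V1}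
    (hT : S.Tp l p q s) (hT' : S.Tp l' p' q' s') {h : H} (e1 : h • p.1.1 = p'.1.1)
    (e2 : h • q.1.1 = q'.1.1) (e3 : h • s.1.1 = s'.1.1) :
    h • p = p' ∧ h • q = q' ∧ h • s = s' ∧ h • l = l' := by
  obtain ⟨a1, a2, a3, a4, a5⟩ := hT
  obtain ⟨b1, b2, b3, b4, b5⟩ := hT'
  have h1 : h • p.1.2 ∈ S.ST p'.1.1 q'.1.1 s'.1.1 := by
    rw [← e1, ← e2, ← e3]
    exact S.ST_smul h _ _ _ _ a3 a4
  have h2 : h • p.1.2 = p'.1.2 := S.centre_unique hL b3 h1 b4
  have hp : h • p = p' := Subtype.ext (Prod.ext e1 h2)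
  refine ⟨hp, ?_, ?_, ?_⟩
  · refine Subtype.ext (Prod.ext e2 ?_)
    change h • q.1.2 = q'.1.2
    rw [← a1, h2, b1]
  · refine Subtype.ext (Prod.ext e3 ?_)
    change h • s.1.2 = s'.1.2
    rw [← a2, ← a1, h2, b1, b2]
  · rw [← a5, ← b5, ← hp]
    rfl

/-- the triangle `b` of `K` carries the triangle `a` of the quotient complex -/
def IRel.Over (R : IRel S) (l : S.LV) (a : R.Q × R.Q × R.Q) (b : Y × Y × Y) : Prop :=
  ∃ p q s, S.Tp l p q s ∧ R.c p = a.1 ∧ R.c q = a.2.1 ∧ R.c s = a.2.2 ∧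
    b = (p.1.1, q.1.1, s.1.1)

theorem IRel.over_inj (R : IRel S) (hL : S.NoLost) (l : S.LV) {a b : R.Q × R.Q × R.Q}
    {a' b' : Y × Y × Y} (ha : R.Over l a a') (hb : R.Over l b b') {h : H} (e : h • a' = b') :
    ∃ g : ↥(stabilizer H l), g • a = b := by
  obtain ⟨p, q, s, hT, c1, c2, c3, rfl⟩ := ha
  obtain ⟨p', q', s', hT', d1, d2, d3, rfl⟩ := hb
  have e1 : h • p.1.1 = p'.1.1 := congrArg Prod.fst e
  have e2 : h • q.1.1 = q'.1.1 := congrArg (fun t => t.2.1) e
  have e3 : h • s.1.1 = s'.1.1 := congrArg (fun t => t.2.2) e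
  obtain ⟨k1, k2, k3, k4⟩ := S.Tp_transport hL hT hT' e1 e2 e3
  refine ⟨⟨h, k4⟩, ?_⟩
  refine Prod.ext ?_ (Prod.ext ?_ ?_)
  · change h • a.1 = b.1
    rw [← c1, ← d1, ← k1]
    rfl
  · change h • a.2.1 = b.2.1
    rw [← c2, ← d2, ← k2]
    rfl
  · change h • a.2.2 = b.2.2
    rw [← c3, ← d3, ← k3]
    rfl

theorem IRel.over_exists (R : IRel S) (l : S.LV) {a : R.Q × R.Q × R.Q}
    (ha : R.T l a.1 a.2.1 a.2.2) :
    ∃ b ∈ {p : Y × Y × Y | K.T p.1 p.2.1 p.2.2}, R.Over l a b := by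
  obtain ⟨-, -, -, p, q, s, hT, c1, c2, c3⟩ := ha
  exact ⟨(p.1.1, q.1.1, s.1.1), hT.2.2.1, p, q, s, hT, c1, c2, c3, rfl⟩

/-- Proof: every ordered triangle `x y z` of `K` has a unique centre `c` (`ST_c`, nothing lost),
which gives `p, q, s` in `V1` at one component, in the orbit of `l0`. The ordered triangles of the
quotient complex at `l0` are the triples `(c p, c q, c s)` at `l0` with different entries; two of
them in one `H`-orbit are in one orbit of the stabiliser of `l0` (`comp`). So orbits of triangles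
of `K` with nondegenerate image map onto the orbits of triangles of `K'` (`oc_le_of_surj`). -/
theorem IRel.t_le_ctr (R : IRel S) (l0 : S.LV) (hC : S.Ctr l0)
    (K' : KS ↥(stabilizer H l0) R.Q) (hT' : K'.T = R.T l0) : K'.t ≤ K.t := by
  unfold KS.t
  rw [hT']
  refine oc_le_of_rel K.finT (R.Over l0) ?_ ?_
  · intro a ha
    exact R.over_exists l0 ha
  · rintro a - b - a' - b' - h1 h2 ⟨h, e⟩
    exact R.over_inj hC.noLost l0 h1 h2 e

/-- if no triangles disappear then no triangle is degenerate -/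
theorem IRel.nondeg (R : IRel S) (l0 : S.LV) (hC : S.Ctr l0)
    (K' : KS ↥(stabilizer H l0) R.Q) (hT' : K'.T = R.T l0) (ht : K.t ≤ K'.t)
    (p q s : S.V1) (h : S.Tp (S.cm p) p q s) :
    R.c p ≠ R.c q ∧ R.c q ≠ R.c s ∧ R.c p ≠ R.c s := by
  classical
  by_contra hdeg
  have hlt : K'.t < K.t := by
    unfold KS.t
    rw [hT']
    have hch : ∀ a : R.Q × R.Q × R.Q, ∃ b : Y × Y × Y, R.T l0 a.1 a.2.1 a.2.2 →
        K.T b.1 b.2.1 b.2.2 ∧ R.Over l0 a b := by
      intro a
      by_cases ha : R.T l0 a.1 a.2.1 a.2.2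
      · obtain ⟨b, hb, hb'⟩ := R.over_exists l0 ha
        exact ⟨b, fun _ => ⟨hb, hb'⟩⟩
      · exact ⟨(p.1.1, q.1.1, s.1.1), fun h => absurd h ha⟩
    choose f hf using hch
    refine oc_lt_of_inj (b0 := (p.1.1, q.1.1, s.1.1)) K.finT f ?_ ?_ ?_ ?_
    · intro a ha
      exact (hf a ha).1
    · rintro a ha b hb ⟨g, e⟩
      exact R.over_inj hC.noLost l0 (hf a ha).2 (hf b hb).2 e
    · exact h.2.2.1
    · intro a ha g e
      obtain ⟨p', q', s', hTp, c1, c2, c3, hfa⟩ := (hf a ha).2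
      rw [hfa] at e
      have e1 : g • p'.1.1 = p.1.1 := congrArg Prod.fst e
      have e2 : g • q'.1.1 = q.1.1 := congrArg (fun t => t.2.1) e
      have e3 : g • s'.1.1 = s.1.1 := congrArg (fun t => t.2.2) e
      obtain ⟨k1, k2, k3, -⟩ := S.Tp_transport hC.noLost hTp h e1 e2 e3
      obtain ⟨n1, n2, n3, -⟩ := ha
      have hinj : ∀ u v : R.Q, g • u = g • v → u = v := fun u v e => smul_left_cancel g e
      apply hdeg
      refine ⟨?_, ?_, ?_⟩
      · intro ee
        apply n1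
        apply hinj
        rw [← c1, ← c2, ← R.c_smul, ← R.c_smul, k1, k2]
        exact ee
      · intro ee
        apply n2
        apply hinj
        rw [← c2, ← c3, ← R.c_smul, ← R.c_smul, k2, k3]
        exact ee
      · intro ee
        apply n3
        apply hinj
        rw [← c1, ← c3, ← R.c_smul, ← R.c_smul, k1, k3]
        exact ee
  exact absurd ht (not_le.2 hlt)

end

end Pool.Agent.SAG
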